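import Pool.Agent.P.MP_2fa38d_an.NA.Iface

/-! Step ALPHA. -/

set_option autoImplicit false

namespace Pool.Agent.P.MP_2fa38d_an.NA

open Complex MeasureTheory Set Filter Topology Metric

theorem alpha_norm (u v : ℂ) (d : ℝ) :
    ‖u * cexp ((d : ℂ) * v)‖ = ‖u‖ * Real.exp (d * v.re) := by
  rw [norm_mul, Complex.norm_exp]
  simp

theorem alpha_norm0 (u z : ℂ) (b : ℝ) :
    ‖u * cexp (I * b * z)‖ = ‖u‖ * Real.exp (-(b * z.im)) := by
  rw [norm_mul, Complex.norm_exp]
  simp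

theorem p_ALPHA (hZFIN : S_ZFIN) (hHP : S_HP) (hTHETA : S_THETA) :
    S_ALPHA := by
  intro b F hF hne ε δ hε hδ
  by_contra hcon
  have hbad : ∀ X0 : ℝ, ∃ X : ℝ, X0 ≤ X ∧
      ∀ x : ℝ, |x - X| ≤ ε * X → ‖F x‖ < Real.exp (-(δ * X)) := by
    intro X0
    by_contra h1
    apply hcon
    refine ⟨X0, fun X hX => ?_⟩
    by_contra h2
    apply h1
    refine ⟨X, hX, fun x hx => ?_⟩
    by_contra h3
    exact h2 ⟨x, hx, not_lt.mp h3⟩
  obtain ⟨-, -, -, -, ⟨y, hy, hFy⟩, -⟩ := hZFIN F hF.1 hne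
  have he0 : 0 < min ε (1 / 2) := lt_min hε (by norm_num)
  have he1 : min ε (1 / 2) ≤ 1 / 2 := min_le_right _ _
  have he2 : min ε (1 / 2) ≤ ε := min_le_left _ _
  generalize min ε (1 / 2) = e at he0 he1 he2
  obtain ⟨c, X1, hc, hX1, hTh⟩ := hTHETA e y he0 he1 hy
  have key : ∀ n : ℕ, ∃ (g : ℂ → ℂ) (Y : ℝ), 0 < Y ∧
      (∀ z : ℂ, 0 ≤ z.im → DifferentiableAt ℂ g z) ∧
      (∃ C : ℝ, ∀ z : ℂ, 0 ≤ z.im → ‖g z‖ ≤ C) ∧ (∀ x : ℝ, ‖g x‖ ≤ 1) ∧
      (∀ x : ℝ, Y ≤ x → ‖g x‖ ≤ ‖F x‖) ∧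
      ‖F (y * I)‖ * Real.exp (-(b * y)) * Real.exp (n * (δ / 4 * c)) ≤ ‖g (y * I)‖ := by
    intro n
    induction n with
    | zero =>
      have hb : ∀ z : ℂ, 0 ≤ z.im → ‖F z * cexp (I * b * z)‖ ≤ 1 := by
        intro z hz
        rw [alpha_norm0]
        have h1 := hF.2 z
        rw [abs_of_nonneg hz, one_mul] at h1
        calc ‖F z‖ * Real.exp (-(b * z.im))
            ≤ Real.exp (b * z.im) * Real.exp (-(b * z.im)) :=
              mul_le_mul_of_nonneg_right h1 (Real.exp_pos _).le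
          _ = 1 := by rw [← Real.exp_add]; simp
      refine ⟨fun z => F z * cexp (I * b * z), 1, one_pos, fun z _ => ?_, ⟨1, hb⟩,
        fun x => hb x (by simp), fun x _ => ?_, ?_⟩
      · exact (hF.1 z).mul (by fun_prop)
      · rw [alpha_norm0]; simp
      · rw [alpha_norm0]; simp
    | succ n ih =>
      obtain ⟨g, Y, hY, hd, ⟨C, hC⟩, h1, hle, hlow⟩ := ih
      obtain ⟨X, hX, hXb⟩ := hbad (max (2 * Y) X1)
      have hXY : 2 * Y ≤ X := (le_max_left _ _).trans hX
      have hXX : X1 ≤ X := (le_max_right _ _).trans hX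
      have hX0 : 0 < X := by linarith
      obtain ⟨Θ, hΘd, ⟨D, hD⟩, hin, hout, hcΘ⟩ := hTh X hXX
      have hd4 : 0 < δ / 4 := by positivity
      have hsmall : ∀ x : ℝ, e * X < |x - X| →
          ‖g x * cexp (((δ / 4 : ℝ) : ℂ) * Θ x)‖ ≤ ‖g x‖ := by
        intro x hx
        rw [alpha_norm]
        have h2 : Real.exp (δ / 4 * (Θ x).re) ≤ 1 :=
          Real.exp_le_one_iff.mpr (mul_nonpos_of_nonneg_of_nonpos hd4.le (hout x hx))
        exact mul_le_of_le_one_right (norm_nonneg _) h2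
      refine ⟨fun z => g z * cexp (((δ / 4 : ℝ) : ℂ) * Θ z), max Y (2 * X),
        lt_max_of_lt_left hY, fun z hz => ?_, ⟨C * Real.exp (δ / 4 * D), fun z hz => ?_⟩,
        fun x => ?_, fun x hx => ?_, ?_⟩
      · exact (hd z hz).mul ((hΘd z hz).const_mul _).cexp
      · rw [alpha_norm]
        have h2 : (Θ z).re ≤ D := ((le_abs_self _).trans (Complex.abs_re_le_norm _)).trans (hD z hz)
        exact mul_le_mul (hC z hz) (Real.exp_le_exp.mpr (mul_le_mul_of_nonneg_left h2 hd4.le))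
          (Real.exp_pos _).le ((norm_nonneg _).trans (hC z hz))
      · rcases le_or_gt |x - X| (e * X) with hx | hx
        · rw [alpha_norm]
          have h2 : e * X ≤ 1 / 2 * X := mul_le_mul_of_nonneg_right he1 hX0.le
          have h3 : Y ≤ x := by
            have := (abs_le.mp hx).1
            linarith
          have h4 : ‖F x‖ < Real.exp (-(δ * X)) :=
            hXb x (hx.trans (mul_le_mul_of_nonneg_right he2 hX0.le))
          have h5 : δ / 4 * (Θ x).re ≤ δ * X := by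
            have := mul_le_mul_of_nonneg_left (hin x hx) hd4.le
            linarith
          calc ‖g x‖ * Real.exp (δ / 4 * (Θ x).re)
              ≤ Real.exp (-(δ * X)) * Real.exp (δ * X) :=
                mul_le_mul ((hle x h3).trans h4.le) (Real.exp_le_exp.mpr h5)
                  (Real.exp_pos _).le (Real.exp_pos _).le
            _ = 1 := by rw [← Real.exp_add]; simp
        · exact (hsmall x hx).trans (h1 x)
      · have h2 : Y ≤ x := (le_max_left _ _).trans hx
        have h3 : 2 * X ≤ x := (le_max_right _ _).trans hx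
        have h4 : e * X ≤ 1 / 2 * X := mul_le_mul_of_nonneg_right he1 hX0.le
        have h5 : e * X < |x - X| := lt_of_lt_of_le (by linarith) (le_abs_self _)
        exact (hsmall x h5).trans (hle x h2)
      · rw [alpha_norm]
        have h2 : Real.exp (((n + 1 : ℕ) : ℝ) * (δ / 4 * c)) =
            Real.exp (n * (δ / 4 * c)) * Real.exp (δ / 4 * c) := by
          rw [← Real.exp_add]; congr 1; push_cast; ring
        rw [h2, ← mul_assoc]
        exact mul_le_mul hlow (Real.exp_le_exp.mpr (mul_le_mul_of_nonneg_left hcΘ hd4.le))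
          (Real.exp_pos _).le (norm_nonneg _)
  have hA : 0 < ‖F (y * I)‖ * Real.exp (-(b * y)) :=
    mul_pos (norm_pos_iff.mpr hFy) (Real.exp_pos _)
  generalize ‖F (y * I)‖ * Real.exp (-(b * y)) = A at key hA
  have hq : 0 < δ / 4 * c := by positivity
  generalize δ / 4 * c = q at key hq
  obtain ⟨n, hn⟩ := exists_nat_gt (1 / (A * q))
  obtain ⟨g, Y, -, hd, hC, h1, -, hlow⟩ := key n
  have h2 : ‖g (y * I)‖ ≤ 1 := hHP g hd hC h1 _ (by simpa using hy.le)
  have h3 : 1 < n * (A * q) := by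
    rwa [div_lt_iff₀ (mul_pos hA hq)] at hn
  have h4 := Real.add_one_le_exp (n * q)
  have h5 := mul_le_mul_of_nonneg_left h4 hA.le
  nlinarith

end Pool.Agent.P.MP_2fa38d_an.NA
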