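import Pool.Agent.P.MP_2fa38d_an.NA.Iface

/-! Step ARC. -/

set_option autoImplicit false

namespace Pool.Agent.P.MP_2fa38d_an.NA

open Complex MeasureTheory Set Filter Topology Metric

theorem arc_geo (z : ℂ) (R : ℝ) (hR : 0 < R) (hz : ‖z‖ = R) (hre : 0 ≤ z.re) :
    7 / 10 * ‖z - R‖ ≤ |z.im| ∧ ‖z - R‖ ≤ 3 / 2 * R := by
  have h1 : z.re ^ 2 + z.im ^ 2 = R ^ 2 := by
    rw [← hz, Complex.sq_norm, Complex.normSq_apply]; ring
  have h2 : ‖z - R‖ ^ 2 = (z.re - R) ^ 2 + z.im ^ 2 := by
    rw [Complex.sq_norm, Complex.normSq_apply]; simp; ring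
  have h3 : z.re ≤ R := by nlinarith [sq_nonneg z.im]
  have hn := norm_nonneg (z - R)
  constructor
  · refine (abs_le_of_sq_le_sq' ?_ (abs_nonneg _)).2
    rw [sq_abs, mul_pow, h2]
    nlinarith [mul_nonneg hre (sub_nonneg.2 h3), sq_nonneg z.im]
  · refine (abs_le_of_sq_le_sq' ?_ (by positivity)).2
    rw [h2]
    nlinarith [mul_nonneg hre hR.le]

theorem arc_two : (2 : ℝ) ≤ Real.exp 1 := by
  have := Real.add_one_le_exp (1 : ℝ)
  linarith

theorem arc_ten : Real.exp (-3) ≤ 1 / 10 := by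
  have h := Real.exp_one_gt_d9
  have h3 : Real.exp 3 = Real.exp 1 ^ 3 := by
    rw [← Real.exp_nat_mul]; norm_num
  have h4 : (10 : ℝ) ≤ Real.exp 3 := by
    rw [h3]
    have : (5 / 2 : ℝ) ^ 3 ≤ Real.exp 1 ^ 3 := pow_le_pow_left₀ (by norm_num) (by linarith) 3
    linarith [show (10 : ℝ) ≤ (5 / 2 : ℝ) ^ 3 by norm_num]
  rw [Real.exp_neg, one_div]
  exact inv_anti₀ (by norm_num) h4

theorem arc_pos (q : ℝ) (hq : 0 < q) : Real.exp (-Real.posLog q) ≤ q⁻¹ := by
  rw [Real.exp_neg]
  refine inv_anti₀ hq ?_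
  calc q = Real.exp (Real.log q) := (Real.exp_log hq).symm
    _ ≤ _ := Real.exp_le_exp.2 (le_max_right _ _)

theorem p_ARC (hZFIN : S_ZFIN) (hMIN : S_MIN) :
    S_ARC := by
  classical
  intro B r0 K1 hB hr0 hK1
  refine ⟨11 + 2 * (48 * B + K1), by nlinarith, ?_⟩
  intro F H R Z hF hH hTy hH0 hR hc hZ hZR hsum z hz hre hr
  obtain ⟨g1, g2⟩ := arc_geo z R hR hz hre
  set r := ‖z - R‖ with hrdef
  have hrp : 0 < r := lt_of_lt_of_le hr0 hr
  have hng : ∀ w, ‖F w * (H w * 2)‖ = 2 * ‖F w * H w‖ := by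
    intro w
    rw [← mul_assoc, norm_mul, mul_comm]
    simp
  have hFR : F R ≠ 0 := by
    intro h
    rw [h, zero_mul, norm_zero] at hc
    norm_num at hc
  obtain ⟨A, hA, hAs, hAz⟩ := hMIN (fun w => F w * (H w * 2)) R r (1 + 6 * B * r)
    (hF.mul (hH.mul_const 2)) hrp (fun w hw => by
      rw [hng, Real.exp_add]
      have h1 := hTy.2 w
      have h2 : |w.im| ≤ 6 * r := by
        have := Complex.abs_im_le_norm (w - R)
        simp only [Complex.sub_im, Complex.ofReal_im, sub_zero] at this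
        linarith
      have h3 : Real.exp (B * |w.im|) ≤ Real.exp (6 * B * r) :=
        Real.exp_le_exp.2 (by nlinarith)
      have h4 : ‖F w * H w‖ ≤ Real.exp (6 * B * r) := by linarith
      exact mul_le_mul arc_two h4 (norm_nonneg _) (Real.exp_pos _).le)
    (by rw [hng]; linarith)
  set f : ℂ → ℝ := fun l =>
    (od F l : ℝ) * (2 / |l.im|) * Real.posLog (4 * |l.im| / |R - ‖l‖|) with hf
  have hf0 : ∀ l, 0 ≤ f l := fun l =>
    mul_nonneg (by positivity) Real.posLog_nonneg
  have ht0 : ∀ l, 0 ≤ (if l ∈ Z then f l else 0) := fun l => by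
    split_ifs
    · exact hf0 l
    · exact le_rfl
  have hts : (∑ l ∈ A, if l ∈ Z then f l else 0) ≤ K1 := by
    rw [← Finset.sum_filter]
    exact le_trans (Finset.sum_le_sum_of_subset_of_nonneg
      (fun l hl => (Finset.mem_filter.1 hl).2) fun l _ _ => hf0 l) hsum
  have key : ∀ l ∈ A, Real.exp (-(3 * (od (fun w => F w * (H w * 2)) l : ℝ) +
      r * (if l ∈ Z then f l else 0))) ≤
      (‖z - l‖ / (2 * r)) ^ od (fun w => F w * (H w * 2)) l := by
    intro l hl
    obtain ⟨hl1, hl2⟩ := (hA l).1 hl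
    set n := od (fun w => F w * (H w * 2)) l with hn
    by_cases hcase : |l.im| ≤ r / 2
    · have h1 : r / 5 ≤ ‖z - l‖ := by
        have a1 := Complex.abs_im_le_norm (z - l)
        have a2 := abs_sub_abs_le_abs_sub z.im l.im
        rw [Complex.sub_im] at a1
        linarith
      have h2 : Real.exp (-3) ≤ ‖z - l‖ / (2 * r) := by
        refine arc_ten.trans ?_
        rw [le_div_iff₀ (by positivity)]
        linarith
      calc _ ≤ Real.exp ((n : ℝ) * (-3)) := by
            refine Real.exp_le_exp.2 ?_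
            have := mul_nonneg hrp.le (ht0 l)
            linarith
        _ = Real.exp (-3) ^ n := Real.exp_nat_mul _ _
        _ ≤ _ := pow_le_pow_left₀ (Real.exp_pos _).le h2 n
    · have hc1 : r / 2 < |l.im| := not_le.1 hcase
      have hip : 0 < |l.im| := by linarith
      have him : l.im ≠ 0 := abs_pos.1 hip
      have hk : H l * 2 ≠ 0 := mul_ne_zero (hH0 l him) two_ne_zero
      have hFl : F l = 0 := (mul_eq_zero.1 hl2).resolve_right hk
      have hod : n = od F l :=
        (hZFIN F hF ⟨_, hFR⟩).2.2.2.1 (fun w => H w * 2) l (hH.mul_const 2) hk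
      have hlR : ‖l‖ ≤ 4 * R := by
        have a1 : ‖l‖ ≤ ‖l - R‖ + ‖(R : ℂ)‖ := by
          simpa using norm_add_le (l - R) (R : ℂ)
        rw [Complex.norm_real, Real.norm_eq_abs, abs_of_pos hR] at a1
        linarith
      have hlZ : l ∈ Z := hZ l hFl him (by linarith) hlR
      have hd : 0 < |R - ‖l‖| := abs_pos.2 (sub_ne_zero.2 (hZR l hlZ).symm)
      have h1 : |R - ‖l‖| ≤ ‖z - l‖ := by
        rw [← hz]; exact abs_norm_sub_norm_le z l
      have h2 : Real.exp (-Real.posLog (4 * |l.im| / |R - ‖l‖|)) ≤ ‖z - l‖ / (2 * r) := by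
        refine (arc_pos _ (by positivity)).trans ?_
        rw [inv_div]
        exact div_le_div₀ (norm_nonneg _) h1 (by positivity) (by linarith)
      have h3 : 1 ≤ r * (2 / |l.im|) := by
        have a1 := Complex.abs_im_le_norm (l - R)
        simp only [Complex.sub_im, Complex.ofReal_im, sub_zero] at a1
        rw [mul_div_assoc', le_div_iff₀ hip]
        linarith
      have h4 : 0 ≤ (n : ℝ) * Real.posLog (4 * |l.im| / |R - ‖l‖|) :=
        mul_nonneg (by positivity) Real.posLog_nonneg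
      calc _ ≤ Real.exp ((n : ℝ) * (-Real.posLog (4 * |l.im| / |R - ‖l‖|))) := by
            refine Real.exp_le_exp.2 ?_
            rw [if_pos hlZ, hf]
            simp only
            rw [← hod]
            have a1 := mul_le_mul_of_nonneg_right h3 h4
            have a2 : (0 : ℝ) ≤ n := by positivity
            nlinarith
        _ = Real.exp (-Real.posLog (4 * |l.im| / |R - ‖l‖|)) ^ n := Real.exp_nat_mul _ _
        _ ≤ _ := pow_le_pow_left₀ (Real.exp_pos _).le h2 n
  have hprod := Finset.prod_le_prod (fun l _ => (Real.exp_pos _).le) key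
  rw [← Real.exp_sum, Finset.sum_neg_distrib, Finset.sum_add_distrib, ← Finset.mul_sum,
    ← Finset.mul_sum] at hprod
  have h5 := hAz z le_rfl
  simp only [hng] at h5
  have h6 := le_trans (mul_le_mul_of_nonneg_left hprod (Real.exp_pos _).le) h5
  rw [← Real.exp_add] at h6
  have h7 : r * (∑ l ∈ A, if l ∈ Z then f l else 0) ≤ r * K1 :=
    mul_le_mul_of_nonneg_left hts hrp.le
  have h8 : (48 * B + K1) * r ≤ (48 * B + K1) * (2 * |z.im|) :=
    mul_le_mul_of_nonneg_left (by linarith) (by linarith)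
  have hi := abs_nonneg z.im
  have h9 : Real.exp (1 + -((11 + 2 * (48 * B + K1)) * (1 + |z.im|))) ≤ 2 * ‖F z * H z‖ := by
    refine le_trans (Real.exp_le_exp.2 ?_) h6
    nlinarith
  rw [Real.exp_add] at h9
  have h10 := mul_le_mul_of_nonneg_right arc_two
    (Real.exp_pos (-((11 + 2 * (48 * B + K1)) * (1 + |z.im|)))).le
  linarith

end Pool.Agent.P.MP_2fa38d_an.NA
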