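import Pool.Agent.P.MP_2fa38d_an.NA.Iface

/-! Step BETA. -/

set_option autoImplicit false

namespace Pool.Agent.P.MP_2fa38d_an.NA

open Complex MeasureTheory Set Filter Topology Metric

theorem beta_sum (hZFIN : S_ZFIN) (hBETA0 : S_BETA0) (b : ℝ) (F : ℂ → ℂ) (hF : Ty 1 b F)
    (hne : ∃ z, F z ≠ 0) :
    Summable fun l : ℂ => (od F l : ℝ) * (|l.im| / (1 + ‖l‖ ^ 2)) := by
  classical
  obtain ⟨C1, h1⟩ := hBETA0 b F hF hne
  have hF' : Ty 1 b (fun z => F (-z)) := by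
    refine ⟨hF.1.comp differentiable_neg, fun z => ?_⟩
    simpa using hF.2 (-z)
  have hne' : ∃ z, (fun z => F (-z)) z ≠ 0 := by
    obtain ⟨z, hz⟩ := hne
    exact ⟨-z, by simpa using hz⟩
  obtain ⟨C2, h2⟩ := hBETA0 b _ hF' hne'
  have hod := (hZFIN F hF.1 hne).2.2.1
  refine summable_of_sum_le (c := C1 + C2) (fun l => by positivity) fun u => ?_
  have e1 := h1 (u.filter fun l => 0 < l.im) (fun l hl => (Finset.mem_filter.1 hl).2)
  have e2 := h2 ((u.filter fun l => l.im < 0).image fun l => -l) (fun l hl => by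
    obtain ⟨x, hx, rfl⟩ := Finset.mem_image.1 hl
    simpa using (Finset.mem_filter.1 hx).2)
  rw [Finset.sum_image (fun x _ y _ h => neg_injective h)] at e2
  rw [Finset.sum_filter] at e1 e2
  refine le_trans (le_of_eq ?_) (add_le_add e1 e2)
  rw [← Finset.sum_add_distrib]
  refine Finset.sum_congr rfl fun l _ => ?_
  rcases lt_trichotomy l.im 0 with h | h | h
  · rw [if_neg (not_lt.2 h.le), if_pos h, hod l, abs_of_neg h]
    simp
  · simp [h]
  · rw [if_pos h, if_neg (not_lt.2 h.le), abs_of_pos h]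
    simp

theorem p_BETA (hZFIN : S_ZFIN) (hBETA0 : S_BETA0) :
    S_BETA := by
  classical
  intro b F hF hne ε hε
  have hs := beta_sum hZFIN hBETA0 b F hF hne
  obtain ⟨s, hs⟩ := summable_iff_vanishing_norm.1 hs (ε ^ 2 / 37) (by positivity)
  refine ⟨max 1 ((∑ l ∈ s, ‖l‖) / ε), fun X hX Z hZ => ?_⟩
  have hX1 : 1 ≤ X := le_trans (le_max_left _ _) hX
  have hX2 : (∑ l ∈ s, ‖l‖) ≤ ε * X := by
    have := le_trans (le_max_right _ _) hX
    rwa [div_le_iff₀ hε, mul_comm] at this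
  have hdis : Disjoint Z s := by
    rw [Finset.disjoint_left]
    intro l hl hls
    have h1 : ‖l‖ ≤ ∑ l ∈ s, ‖l‖ :=
      Finset.single_le_sum (f := fun l : ℂ => ‖l‖) (fun _ _ => norm_nonneg _) hls
    have h2 := (hZ l hl).1
    have h3 := Complex.abs_im_le_norm l
    linarith
  have h0 := (le_abs_self _).trans_lt (by simpa only [Real.norm_eq_abs] using hs Z hdis)
  have hX0 : 0 < X := by linarith
  have h1 : ∀ l ∈ Z, (od F l : ℝ) ≤
      (37 * X / ε) * ((od F l : ℝ) * (|l.im| / (1 + ‖l‖ ^ 2))) := by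
    intro l hl
    obtain ⟨h2, h3⟩ := hZ l hl
    have h4 : 1 + ‖l‖ ^ 2 ≤ 37 * X ^ 2 := by nlinarith [norm_nonneg l]
    have h5 : (1 : ℝ) ≤ (37 * X / ε) * (|l.im| / (1 + ‖l‖ ^ 2)) := by
      rw [div_mul_div_comm, le_div_iff₀ (by positivity)]
      have : ε * (37 * X ^ 2) ≤ 37 * X * |l.im| := by nlinarith
      nlinarith
    have h6 : (0 : ℝ) ≤ od F l := by positivity
    nlinarith
  calc (∑ l ∈ Z, (od F l : ℝ))
      ≤ ∑ l ∈ Z, (37 * X / ε) * ((od F l : ℝ) * (|l.im| / (1 + ‖l‖ ^ 2))) := Finset.sum_le_sum h1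
    _ = (37 * X / ε) * ∑ l ∈ Z, ((od F l : ℝ) * (|l.im| / (1 + ‖l‖ ^ 2))) := by
        rw [Finset.mul_sum]
    _ ≤ (37 * X / ε) * (ε ^ 2 / 37) := by gcongr
    _ = ε * X := by field_simp

end Pool.Agent.P.MP_2fa38d_an.NA
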