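import Pool.Agent.P.MP_2fa38d_an.NA.Iface

/-! Step BETA0. -/

set_option autoImplicit false

namespace Pool.Agent.P.MP_2fa38d_an.NA

open Complex MeasureTheory Set Filter Topology Metric

theorem beta0_ratio (l : ℂ) (y : ℝ) (hy : 0 < y) (hl : 0 < l.im) :
    ‖(y : ℂ) * I - l‖ ≤ Real.exp (-(y / (1 + y ^ 2) * (l.im / (1 + ‖l‖ ^ 2)))) *
      ‖(y : ℂ) * I - (starRingEnd ℂ) l‖ := by
  set t : ℝ := y / (1 + y ^ 2) * (l.im / (1 + ‖l‖ ^ 2)) with ht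
  have e1 : ‖(y : ℂ) * I - l‖ ^ 2 = l.re ^ 2 + (y - l.im) ^ 2 := by
    rw [Complex.sq_norm, Complex.normSq_apply]; simp; ring
  have e2 : ‖(y : ℂ) * I - (starRingEnd ℂ) l‖ ^ 2 = l.re ^ 2 + (y + l.im) ^ 2 := by
    rw [Complex.sq_norm, Complex.normSq_apply]; simp; ring
  have e3 : ‖l‖ ^ 2 = l.re ^ 2 + l.im ^ 2 := by
    rw [Complex.sq_norm, Complex.normSq_apply]; ring
  have hA : l.re ^ 2 + (y + l.im) ^ 2 ≤ (1 + y ^ 2) * (1 + ‖l‖ ^ 2) := by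
    rw [e3]; nlinarith [sq_nonneg (1 - y * l.im), sq_nonneg (y * l.re)]
  have p1 : 0 < 1 + y ^ 2 := by positivity
  have p2 : 0 < 1 + ‖l‖ ^ 2 := by positivity
  have t0 : 0 ≤ t := by positivity
  have ht' : t * ((1 + y ^ 2) * (1 + ‖l‖ ^ 2)) = y * l.im := by
    rw [ht]; field_simp
  have h1 : 1 - 2 * t ≤ Real.exp (-t) ^ 2 := by
    rw [← Real.exp_nat_mul]
    have := Real.add_one_le_exp ((2 : ℕ) * -t)
    push_cast at this ⊢
    linarith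
  refine (pow_le_pow_iff_left₀ (norm_nonneg _) (by positivity) two_ne_zero).1 ?_
  rw [mul_pow, e1, e2]
  have hA0 : 0 ≤ l.re ^ 2 + (y + l.im) ^ 2 := by positivity
  have h2 : t * (l.re ^ 2 + (y + l.im) ^ 2) ≤ y * l.im := by
    rw [← ht']; exact mul_le_mul_of_nonneg_left hA t0
  have h3 := mul_le_mul_of_nonneg_right h1 hA0
  have h4 : 0 < y * l.im := mul_pos hy hl
  nlinarith

theorem beta0_far (l z : ℂ) (h : 2 * ‖l‖ ≤ ‖z‖) : ‖z - (starRingEnd ℂ) l‖ ≤ 3 * ‖z - l‖ := by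
  have h1 : ‖z - (starRingEnd ℂ) l‖ ≤ ‖z‖ + ‖l‖ := by
    simpa using norm_sub_le z ((starRingEnd ℂ) l)
  have h2 : ‖z‖ - ‖l‖ ≤ ‖z - l‖ := norm_sub_norm_le z l
  linarith

theorem beta0_exp (b : ℝ) (z : ℂ) : ‖cexp (I * b * z)‖ = Real.exp (-(b * z.im)) := by
  rw [Complex.norm_exp]; simp

theorem p_BETA0 (hFACT : S_FACT) (hZFIN : S_ZFIN) (hHP : S_HP) :
    S_BETA0 := by
  intro b F hF h0
  obtain ⟨y, hy, hFy⟩ := (hZFIN F hF.1 h0).2.2.2.2.1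
  have c0 : 0 < y / (1 + y ^ 2) := by positivity
  refine ⟨(b * y - Real.log ‖F (y * I)‖) / (y / (1 + y ^ 2)), fun Z hZ => ?_⟩
  obtain ⟨g1, hg1, hfac, -⟩ := hFACT F Z hF.1 h0
  let G : ℂ → ℂ := fun z => cexp (I * b * z) * g1 z * ∏ l ∈ Z, (z - (starRingEnd ℂ) l) ^ od F l
  have hG : Differentiable ℂ G := by
    refine Differentiable.mul (Differentiable.mul (by fun_prop) hg1) ?_
    exact Differentiable.fun_finsetProd fun l _ => by fun_prop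
  have nG : ∀ z, ‖G z‖ = Real.exp (-(b * z.im)) * ‖g1 z‖ *
      ∏ l ∈ Z, ‖z - (starRingEnd ℂ) l‖ ^ od F l := fun z => by
    simp only [G, norm_mul, beta0_exp, norm_prod, norm_pow]
  have nF : ∀ z, ‖F z‖ = (∏ l ∈ Z, ‖z - l‖ ^ od F l) * ‖g1 z‖ := fun z => by
    rw [hfac z]; simp only [norm_mul, norm_prod, norm_pow]
  have bF : ∀ z : ℂ, 0 ≤ z.im → Real.exp (-(b * z.im)) * ‖F z‖ ≤ 1 := fun z hz => by
    have := hF.2 z
    rw [abs_of_nonneg hz, one_mul] at this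
    calc _ ≤ Real.exp (-(b * z.im)) * Real.exp (b * z.im) := by gcongr
      _ = 1 := by rw [← Real.exp_add]; simp
  have hreal : ∀ x : ℝ, ‖G x‖ ≤ 1 := fun x => by
    have h1 := bF x (by simp)
    have h2 : ∀ l : ℂ, ‖(x : ℂ) - (starRingEnd ℂ) l‖ = ‖(x : ℂ) - l‖ := fun l => by
      rw [← Complex.norm_conj ((x : ℂ) - l)]; simp
    rw [nG]
    simp only [h2]
    rw [nF] at h1
    linarith [mul_comm (∏ l ∈ Z, ‖(x : ℂ) - l‖ ^ od F l) ‖g1 x‖,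
      mul_assoc (Real.exp (-(b * (x : ℂ).im))) ‖g1 x‖ (∏ l ∈ Z, ‖(x : ℂ) - l‖ ^ od F l),
      congrArg (Real.exp (-(b * (x : ℂ).im)) * ·)
        (mul_comm (∏ l ∈ Z, ‖(x : ℂ) - l‖ ^ od F l) ‖g1 x‖)]
  have hbd : ∃ C : ℝ, ∀ z : ℂ, 0 ≤ z.im → ‖G z‖ ≤ C := by
    obtain ⟨C, hC⟩ := (isCompact_closedBall (0 : ℂ) (2 * ∑ l ∈ Z, ‖l‖)).exists_bound_of_continuousOn
      hG.continuous.continuousOn
    refine ⟨max C (∏ l ∈ Z, 3 ^ od F l), fun z hz => ?_⟩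
    by_cases hb : ‖z‖ ≤ 2 * ∑ l ∈ Z, ‖l‖
    · exact le_max_of_le_left (hC z (by simpa using hb))
    · refine le_max_of_le_right ?_
      push Not at hb
      have h1 : ∏ l ∈ Z, ‖z - (starRingEnd ℂ) l‖ ^ od F l ≤
          (∏ l ∈ Z, (3 : ℝ) ^ od F l) * ∏ l ∈ Z, ‖z - l‖ ^ od F l := by
        rw [← Finset.prod_mul_distrib]
        refine Finset.prod_le_prod (fun l _ => by positivity) fun l hl => ?_
        rw [← mul_pow]
        refine pow_le_pow_left₀ (norm_nonneg _) (beta0_far l z ?_) _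
        have := Finset.single_le_sum (f := fun l : ℂ => ‖l‖) (fun l _ => norm_nonneg l) hl
        linarith
      have h2 := bF z hz
      rw [nF] at h2
      rw [nG]
      have p3 : 0 ≤ ∏ l ∈ Z, (3 : ℝ) ^ od F l := by positivity
      calc _ ≤ Real.exp (-(b * z.im)) * ‖g1 z‖ *
            ((∏ l ∈ Z, (3 : ℝ) ^ od F l) * ∏ l ∈ Z, ‖z - l‖ ^ od F l) := by gcongr
        _ = (∏ l ∈ Z, (3 : ℝ) ^ od F l) * (Real.exp (-(b * z.im)) *
            ((∏ l ∈ Z, ‖z - l‖ ^ od F l) * ‖g1 z‖)) := by ring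
        _ ≤ (∏ l ∈ Z, (3 : ℝ) ^ od F l) * 1 := by gcongr
        _ = _ := mul_one _
  have hy1 := hHP G (fun z _ => hG z) hbd hreal (y * I) (by simp [hy.le])
  rw [nG] at hy1
  have him : ((y : ℂ) * I).im = y := by simp
  rw [him] at hy1
  set S : ℝ := ∑ l ∈ Z, (od F l : ℝ) * (l.im / (1 + ‖l‖ ^ 2)) with hS
  have h1 : ∏ l ∈ Z, ‖(y : ℂ) * I - l‖ ^ od F l ≤ Real.exp (-(y / (1 + y ^ 2) * S)) *
      ∏ l ∈ Z, ‖(y : ℂ) * I - (starRingEnd ℂ) l‖ ^ od F l := by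
    rw [hS, Finset.mul_sum, ← Finset.sum_neg_distrib, Real.exp_sum, ← Finset.prod_mul_distrib]
    refine Finset.prod_le_prod (fun l _ => by positivity) fun l hl => ?_
    have e : -(y / (1 + y ^ 2) * ((od F l : ℝ) * (l.im / (1 + ‖l‖ ^ 2)))) =
        (od F l : ℕ) * -(y / (1 + y ^ 2) * (l.im / (1 + ‖l‖ ^ 2))) := by ring
    rw [e, Real.exp_nat_mul, ← mul_pow]
    exact pow_le_pow_left₀ (norm_nonneg _) (beta0_ratio l y hy (hZ l hl)) _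
  have h2 : ‖F (y * I)‖ ≤ Real.exp (b * y - y / (1 + y ^ 2) * S) := by
    rw [nF]
    have e : Real.exp (b * y) * Real.exp (-(b * y)) = 1 := by rw [← Real.exp_add]; simp
    calc _ ≤ (Real.exp (-(y / (1 + y ^ 2) * S)) *
          ∏ l ∈ Z, ‖(y : ℂ) * I - (starRingEnd ℂ) l‖ ^ od F l) * ‖g1 (y * I)‖ := by gcongr
      _ = Real.exp (b * y) * Real.exp (-(y / (1 + y ^ 2) * S)) * (Real.exp (-(b * y)) *
          ‖g1 (y * I)‖ * ∏ l ∈ Z, ‖(y : ℂ) * I - (starRingEnd ℂ) l‖ ^ od F l) := by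
        linear_combination (-(Real.exp (-(y / (1 + y ^ 2) * S)) *
          (∏ l ∈ Z, ‖(y : ℂ) * I - (starRingEnd ℂ) l‖ ^ od F l) * ‖g1 (y * I)‖)) * e
      _ ≤ Real.exp (b * y) * Real.exp (-(y / (1 + y ^ 2) * S)) * 1 := by gcongr
      _ = _ := by rw [mul_one, ← Real.exp_add, sub_eq_add_neg]
  have h3 := (Real.log_le_iff_le_exp (norm_pos_iff.2 hFy)).2 h2
  rw [le_div_iff₀ c0]
  linarith [mul_comm S (y / (1 + y ^ 2))]

end Pool.Agent.P.MP_2fa38d_an.NA
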