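import Pool.Agent.P.MP_2fa38d_an.NA.Iface

/-! Step CORE. -/

set_option autoImplicit false

namespace Pool.Agent.P.MP_2fa38d_an.NA

open Complex MeasureTheory Set Filter Topology Metric

theorem core_one (h d m M : ℝ) (hh : 0 < h) (hd : 0 < d) (hM : 0 < M) (hm : M ≤ Real.exp m) :
    Real.exp (-(m + Real.posLog (h / d))) ≤ d / (M * h) := by
  have h1 : Real.log (h / d) ≤ Real.posLog (h / d) := le_max_right _ _
  have h2 : h / d ≤ Real.exp (Real.posLog (h / d)) := by
    calc h / d = Real.exp (Real.log (h / d)) := (Real.exp_log (div_pos hh hd)).symm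
      _ ≤ _ := Real.exp_le_exp.2 h1
  have h3 : M * (h / d) ≤ Real.exp (m + Real.posLog (h / d)) := by
    rw [Real.exp_add]
    exact mul_le_mul hm h2 (div_pos hh hd).le (Real.exp_pos _).le
  rw [Real.exp_neg]
  have h4 : d / (M * h) = (M * (h / d))⁻¹ := by field_simp
  rw [h4]
  exact inv_anti₀ (mul_pos hM (div_pos hh hd)) h3

theorem core_e3 : (14 : ℝ) ≤ Real.exp 3 := by
  have h1 : (2.7 : ℝ) ≤ Real.exp 1 := by
    have := Real.exp_one_gt_d9; linarith
  have h2 : Real.exp 3 = Real.exp 1 ^ 3 := by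
    rw [← Real.exp_nat_mul]; norm_num
  rw [h2]
  calc (14 : ℝ) ≤ 2.7 ^ 3 := by norm_num
    _ ≤ _ := pow_le_pow_left₀ (by norm_num) h1 3

theorem core_e4 : (40 : ℝ) ≤ Real.exp 4 := by
  have h1 : (2.7 : ℝ) ≤ Real.exp 1 := by
    have := Real.exp_one_gt_d9; linarith
  have h2 : Real.exp 4 = Real.exp 1 ^ 4 := by
    rw [← Real.exp_nat_mul]; norm_num
  rw [h2]
  calc (40 : ℝ) ≤ 2.7 ^ 4 := by norm_num
    _ ≤ _ := pow_le_pow_left₀ (by norm_num) h1 4

theorem core_pick (X h : ℝ) (hh : 0 < h) (B1 B2 : Set ℝ) (T : Set ℝ) (hT : T.Finite)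
    (h1 : volume B1 ≤ ENNReal.ofReal (h / 2)) (h2 : volume B2 ≤ ENNReal.ofReal (h / 2)) :
    ∃ x : ℝ, |x - X| ≤ h ∧ x ∉ B1 ∧ x ∉ B2 ∧ x ∉ T := by
  by_contra hc
  have hsub : Icc (X - h) (X + h) ⊆ (B1 ∪ B2) ∪ T := by
    intro x hx
    by_contra hx'
    apply hc
    refine ⟨x, abs_le.2 ⟨by linarith [hx.1], by linarith [hx.2]⟩, ?_, ?_, ?_⟩
    · intro h3; exact hx' (Or.inl (Or.inl h3))
    · intro h3; exact hx' (Or.inl (Or.inr h3))
    · intro h3; exact hx' (Or.inr h3)
  have hm : volume (Icc (X - h) (X + h)) ≤ ENNReal.ofReal h := by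
    calc volume (Icc (X - h) (X + h)) ≤ volume ((B1 ∪ B2) ∪ T) := measure_mono hsub
      _ ≤ volume (B1 ∪ B2) + volume T := measure_union_le _ _
      _ = volume (B1 ∪ B2) := by rw [hT.measure_zero, add_zero]
      _ ≤ volume B1 + volume B2 := measure_union_le _ _
      _ ≤ ENNReal.ofReal (h / 2) + ENNReal.ofReal (h / 2) := add_le_add h1 h2
      _ = ENNReal.ofReal h := by
        rw [← ENNReal.ofReal_add (by linarith) (by linarith)]; congr 1; ring
  rw [Real.volume_Icc, ENNReal.ofReal_le_ofReal_iff hh.le] at hm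
  linarith

theorem p_CORE (hZFIN : S_ZFIN) (hMIN : S_MIN) (hMARK : S_MARK) :
    S_CORE := by
  intro b hb
  refine ⟨672 * b + 31, by linarith, ?_⟩
  rintro F X h ⟨hFd, hFb⟩ hh ⟨x0, hx0, hF0⟩
  have hh0 : 0 < h := by linarith
  have hFpos : 0 < ‖F x0‖ := lt_of_lt_of_le (Real.exp_pos _) hF0
  have hFne : F x0 ≠ 0 := norm_pos_iff.1 hFpos
  obtain ⟨-, hz2, -, hz4, -, -⟩ := hZFIN F hFd ⟨_, hFne⟩
  have hod : ∀ l, od (fun z => F z * (F x0)⁻¹) l = od F l := fun l =>
    hz4 (fun _ => (F x0)⁻¹) l (differentiable_const _) (inv_ne_zero hFne)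
  set S : ℝ := (42 * b + 1) * h with hS
  have hS0 : 0 < S := by positivity
  have hbd : ∀ z : ℂ, ‖z - x0‖ ≤ 6 * (7 * h) → ‖F z * (F x0)⁻¹‖ ≤ Real.exp S := by
    intro z hz
    have h1 : |z.im| ≤ 42 * h := by
      have h2 : |(z - x0).im| ≤ ‖z - x0‖ := Complex.abs_im_le_norm _
      simp only [Complex.sub_im, Complex.ofReal_im, sub_zero] at h2
      linarith
    have h2 : ‖F z‖ ≤ Real.exp (42 * b * h) := by
      refine (hFb z).trans ?_
      rw [one_mul]
      exact Real.exp_le_exp.2 (by nlinarith)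
    have h3 : ‖F x0‖⁻¹ ≤ Real.exp h := by
      have := inv_anti₀ (Real.exp_pos (-h)) hF0
      rwa [Real.exp_neg, inv_inv] at this
    rw [norm_mul, norm_inv]
    calc ‖F z‖ * ‖F x0‖⁻¹ ≤ Real.exp (42 * b * h) * Real.exp h :=
          mul_le_mul h2 h3 (by positivity) (Real.exp_pos _).le
      _ = Real.exp S := by rw [← Real.exp_add, hS]; congr 1; ring
  obtain ⟨A, hA, hn, hlow⟩ := hMIN (fun z => F z * (F x0)⁻¹) x0 (7 * h) S
    (hFd.mul (differentiable_const _)) (by linarith) hbd (by simp [mul_inv_cancel₀ hFne])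
  simp only [hod] at hn hlow
  constructor
  · intro Z hZ
    classical
    have h1 : (∑ l ∈ Z, (od F l : ℝ)) = ∑ l ∈ Z.filter (fun l => F l = 0), (od F l : ℝ) := by
      rw [Finset.sum_filter]
      refine Finset.sum_congr rfl fun l _ => ?_
      split_ifs with h2
      · rfl
      · rw [(hz2 l).2 h2]; simp
    have h2 : Z.filter (fun l => F l = 0) ⊆ A := by
      intro l hl
      rw [Finset.mem_filter] at hl
      rw [hA]
      refine ⟨?_, by simp [hl.2]⟩
      have h3 : ‖(X : ℂ) - x0‖ ≤ h := by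
        rw [← Complex.ofReal_sub, Complex.norm_real, Real.norm_eq_abs, abs_sub_comm]; exact hx0
      have h4 : ‖l - x0‖ ≤ ‖l - X‖ + ‖(X : ℂ) - x0‖ := by
        have := norm_add_le (l - X) ((X : ℂ) - x0)
        rwa [sub_add_sub_cancel] at this
      linarith [hZ l hl.1]
    rw [h1]
    have h3 := Finset.sum_le_sum_of_subset_of_nonneg (f := fun l => (od F l : ℝ)) h2
      (fun _ _ _ => Nat.cast_nonneg _)
    have h4 : 2 * S ≤ (672 * b + 31) * h := by rw [hS]; nlinarith
    linarith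
  · intro P hP
    have m1 := hMARK ℂ A (fun l => l.re) (fun _ => h) (fun l => (od F l : ℝ)) (8 * S + 4)
      (by linarith) (fun _ _ => hh0) (fun _ _ => Nat.cast_nonneg _)
    have m2 := hMARK ℝ P (fun p => p) (fun _ => h) (fun _ => 1) (4 * h)
      (by linarith) (fun _ _ => hh0) (fun _ _ => zero_le_one)
    have m1' : 2 * (∑ l ∈ A, (od F l : ℝ) * h) / (8 * S + 4) ≤ h / 2 := by
      rw [← Finset.sum_mul, div_le_iff₀ (by linarith)]
      nlinarith
    have m2' : 2 * (∑ _p ∈ P, (1 : ℝ) * h) / (4 * h) ≤ h / 2 := by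
      rw [Finset.sum_const, nsmul_eq_mul, div_le_iff₀ (by linarith)]
      nlinarith
    obtain ⟨x, hx, hb1, hb2, hT⟩ := core_pick X h hh0 _ _
      ((fun l : ℂ => l.re) '' (A : Set ℂ) ∪ (P : Set ℝ))
      ((A.finite_toSet.image _).union P.finite_toSet)
      (m1.trans (ENNReal.ofReal_le_ofReal m1')) (m2.trans (ENNReal.ofReal_le_ofReal m2'))
    simp only [Set.mem_ofPred_eq, not_lt, one_mul] at hb1 hb2
    refine ⟨x, hx, ?_⟩
    have hxA : ∀ l ∈ A, 0 < |x - l.re| := by
      intro l hl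
      refine abs_pos.2 (sub_ne_zero.2 ?_)
      intro h1
      exact hT (Or.inl ⟨l, hl, h1.symm⟩)
    have hxP : ∀ p ∈ P, 0 < |x - p| := by
      intro p hp
      refine abs_pos.2 (sub_ne_zero.2 ?_)
      intro h1
      exact hT (Or.inr (h1 ▸ hp))
    have hxx : ‖(x : ℂ) - x0‖ ≤ 7 * h := by
      rw [← Complex.ofReal_sub, Complex.norm_real, Real.norm_eq_abs]
      have h1 := abs_le.1 hx
      have h2 := abs_le.1 hx0
      exact abs_le.2 ⟨by linarith [h1.1, h2.2], by linarith [h1.2, h2.1]⟩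
    have l1 := hlow x hxx
    have pA : Real.exp (-(14 * S + 4)) ≤ ∏ l ∈ A, (‖(x : ℂ) - l‖ / (2 * (7 * h))) ^ od F l := by
      have h1 : ∏ l ∈ A, Real.exp (-(3 + Real.posLog (h / |x - l.re|))) ^ od F l ≤
          ∏ l ∈ A, (‖(x : ℂ) - l‖ / (2 * (7 * h))) ^ od F l := by
        refine Finset.prod_le_prod (fun l _ => by positivity) fun l hl => ?_
        refine pow_le_pow_left₀ (Real.exp_pos _).le ?_ _
        refine (core_one h _ 3 14 hh0 (hxA l hl) (by norm_num) core_e3).trans ?_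
        have h2 : |((x : ℂ) - l).re| ≤ ‖(x : ℂ) - l‖ := Complex.abs_re_le_norm _
        simp only [Complex.sub_re, Complex.ofReal_re] at h2
        have h3 : (2 : ℝ) * (7 * h) = 14 * h := by ring
        rw [h3]
        exact div_le_div_of_nonneg_right h2 (by linarith)
      refine le_trans ?_ h1
      simp only [← Real.exp_nat_mul]
      rw [← Real.exp_sum]
      refine Real.exp_le_exp.2 ?_
      have h2 : ∑ l ∈ A, (od F l : ℝ) * -(3 + Real.posLog (h / |x - l.re|)) =
          -(3 * ∑ l ∈ A, (od F l : ℝ)) -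
            ∑ l ∈ A, (od F l : ℝ) * Real.posLog (h / |x - l.re|) := by
        rw [Finset.mul_sum, ← Finset.sum_neg_distrib, ← Finset.sum_sub_distrib]
        refine Finset.sum_congr rfl fun l _ => by ring
      rw [h2]
      linarith
    have pP : Real.exp (-(8 * h)) ≤ ∏ p ∈ P, |x - p| / (40 * h) := by
      have h1 : ∏ p ∈ P, Real.exp (-(4 + Real.posLog (h / |x - p|))) ≤
          ∏ p ∈ P, |x - p| / (40 * h) := by
        refine Finset.prod_le_prod (fun l _ => by positivity) fun p hp => ?_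
        exact core_one h _ 4 40 hh0 (hxP p hp) (by norm_num) core_e4
      refine le_trans ?_ h1
      rw [← Real.exp_sum]
      refine Real.exp_le_exp.2 ?_
      rw [Finset.sum_neg_distrib, Finset.sum_add_distrib, Finset.sum_const, nsmul_eq_mul]
      linarith
    have l2 : Real.exp (-(2 * S + 2)) * Real.exp (-(14 * S + 4)) ≤ ‖F x‖ * ‖F x0‖⁻¹ := by
      refine le_trans (mul_le_mul_of_nonneg_left pA (Real.exp_pos _).le) ?_
      rw [← norm_inv, ← norm_mul]
      exact l1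
    have l3 : Real.exp (-(2 * S + 2)) * Real.exp (-(14 * S + 4)) * Real.exp (-h) ≤ ‖F x‖ := by
      calc _ ≤ ‖F x‖ * ‖F x0‖⁻¹ * ‖F x0‖ :=
            mul_le_mul l2 hF0 (Real.exp_pos _).le (by positivity)
        _ = ‖F x‖ := by field_simp
    refine le_trans ?_ (mul_le_mul l3 pP (Real.exp_pos _).le (norm_nonneg _))
    rw [← Real.exp_add, ← Real.exp_add, ← Real.exp_add]
    refine Real.exp_le_exp.2 ?_
    rw [hS]
    nlinarith

end Pool.Agent.P.MP_2fa38d_an.NA
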