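import Pool.Agent.P.MP_2fa38d_an.NA.Iface

/-! Step CVFT. -/

set_option autoImplicit false

namespace Pool.Agent.P.MP_2fa38d_an.NA

open Complex MeasureTheory Set Filter Topology Metric

lemma cvft_eq (ν w : ℝ → ℂ) :
    cv ν w = MeasureTheory.convolution ν w (ContinuousLinearMap.mul ℝ ℂ) volume := by
  funext t
  simp only [cv, MeasureTheory.convolution_def, ContinuousLinearMap.mul_apply']

lemma cvft_int (B : ℝ) (ν : ℝ → ℂ) (h : Cs B ν) (z : ℂ) :
    Integrable (fun t : ℝ => ν t * cexp (-(I * z * t))) := by
  have hc : Continuous (fun t : ℝ => cexp (-(I * z * t))) := by fun_prop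
  refine Integrable.mono' ((h.1.norm).mul_const (Real.exp (|B| * ‖z‖)))
    (h.1.aestronglyMeasurable.mul hc.aestronglyMeasurable) (Eventually.of_forall fun t => ?_)
  by_cases ht : B < |t|
  · simp [h.2 t ht]
  · push Not at ht
    rw [norm_mul]
    refine mul_le_mul_of_nonneg_left ?_ (norm_nonneg _)
    refine (Complex.norm_exp_le_exp_norm _).trans (Real.exp_le_exp.2 ?_)
    rw [norm_neg, norm_mul, norm_mul, Complex.norm_I, one_mul, Complex.norm_real,
      Real.norm_eq_abs, mul_comm]
    exact mul_le_mul_of_nonneg_right (ht.trans (le_abs_self B)) (norm_nonneg _)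

theorem p_CVFT :
    S_CVFT := by
  intro B B' ν w hν hw
  refine ⟨⟨?_, ?_⟩, ?_⟩
  · rw [cvft_eq]
    exact hν.1.integrable_convolution _ hw.1
  · intro t ht
    have : ∀ r : ℝ, ν r * w (t - r) = 0 := by
      intro r
      by_cases hr : B < |r|
      · rw [hν.2 r hr, zero_mul]
      · have h2 : B' < |t - r| := by
          push Not at hr
          have : |t| ≤ |t - r| + |r| := by
            have := abs_add_le (t - r) r
            simpa using this
          linarith
        rw [hw.2 _ h2, mul_zero]
    simp [cv, this]
  · intro z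
    have h1 := cvft_int B ν hν z
    have h2 := cvft_int B' w hw z
    have key : ∀ t : ℝ, cv ν w t * cexp (-(I * z * t)) =
        cv (fun t : ℝ => ν t * cexp (-(I * z * t))) (fun t : ℝ => w t * cexp (-(I * z * t))) t := by
      intro t
      simp only [cv]
      rw [← integral_mul_const]
      refine integral_congr_ae (Eventually.of_forall fun r => ?_)
      have : cexp (-(I * z * t)) = cexp (-(I * z * r)) * cexp (-(I * z * ((t - r : ℝ) : ℂ))) := by
        rw [← Complex.exp_add]
        congr 1
        push_cast
        ring
      simp only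
      rw [this]
      ring
    simp only [ft]
    simp_rw [key]
    rw [cvft_eq]
    have := MeasureTheory.integral_convolution (ContinuousLinearMap.mul ℝ ℂ) h1 h2
    simpa using this

end Pool.Agent.P.MP_2fa38d_an.NA
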