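import Pool.Agent.P.MP_2fa38d_an.NA.Iface

/-! Step FACT. -/

set_option autoImplicit false

namespace Pool.Agent.P.MP_2fa38d_an.NA

open Complex MeasureTheory Set Filter Topology Metric

theorem fact_ne_top (g : ℂ → ℂ) (hg : Differentiable ℂ g) (h0 : ∃ z, g z ≠ 0) (a : ℂ) :
    analyticOrderAt g a ≠ ⊤ := by
  intro h
  obtain ⟨z, hz⟩ := h0
  have han : AnalyticOnNhd ℂ g univ := fun w _ => hg.analyticAt w
  have h1 : ∀ᶠ w in 𝓝 a, g w = 0 := analyticOrderAt_eq_top.mp h
  have := han.eqOn_zero_of_preconnected_of_eventuallyEq_zero isPreconnected_univ (mem_univ a) h1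
  exact hz (this (mem_univ z))

theorem fact_one (g : ℂ → ℂ) (hg : Differentiable ℂ g) (h0 : ∃ z, g z ≠ 0) (a : ℂ) :
    ∃ g2 : ℂ → ℂ, Differentiable ℂ g2 ∧ (∀ z, g z = (z - a) ^ od g a * g2 z) ∧ g2 a ≠ 0 := by
  classical
  obtain ⟨g0, hg0, hne, hev⟩ :=
    ((hg.analyticAt a).analyticOrderNatAt_eq_iff (fact_ne_top g hg h0 a) (n := od g a)).mp rfl
  refine ⟨fun z => if z = a then g0 a else g z / (z - a) ^ od g a, ?_, ?_, ?_⟩
  · intro z
    by_cases hz : z = a
    · subst hz
      refine hg0.differentiableAt.congr_of_eventuallyEq ?_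
      filter_upwards [hev] with w hw
      by_cases hwz : w = z
      · simp [hwz]
      · have : (w - z) ^ od g z ≠ 0 := pow_ne_zero _ (sub_ne_zero.mpr hwz)
        simp only [hwz, if_false]
        rw [hw, smul_eq_mul]
        field_simp
    · have hd : DifferentiableAt ℂ (fun w => g w / (w - a) ^ od g a) z :=
        (hg z).div (by fun_prop) (pow_ne_zero _ (sub_ne_zero.mpr hz))
      refine hd.congr_of_eventuallyEq ?_
      filter_upwards [isOpen_ne.mem_nhds hz] with w hw
      simp only [hw, if_false]
  · intro z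
    by_cases hz : z = a
    · subst hz
      have := hev.self_of_nhds
      simpa using this
    · have : (z - a) ^ od g a ≠ 0 := pow_ne_zero _ (sub_ne_zero.mpr hz)
      simp only [hz, if_false]
      field_simp
  · simpa using hne

theorem fact_od (k g : ℂ → ℂ) (hk : Differentiable ℂ k) (hg : Differentiable ℂ g) (l : ℂ)
    (hl : k l ≠ 0) : od (fun z => k z * g z) l = od g l := by
  unfold od analyticOrderNatAt
  have h1 : analyticOrderAt (k * g) l = analyticOrderAt k l + analyticOrderAt g l :=
    analyticOrderAt_mul (hk.analyticAt l) (hg.analyticAt l)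
  have h2 : analyticOrderAt k l = 0 := (hk.analyticAt l).analyticOrderAt_eq_zero.mpr hl
  have h3 : (fun z => k z * g z) = k * g := rfl
  rw [h3, h1, h2, zero_add]

theorem p_FACT :
    S_FACT := by
  classical
  intro g A
  induction A using Finset.induction_on generalizing g with
  | empty => intro hg _; exact ⟨g, hg, by simp, by simp⟩
  | insert a A ha ih =>
    intro hg h0
    obtain ⟨g2, hg2, he, hne⟩ := fact_one g hg h0 a
    obtain ⟨g1, hg1, he1, hne1⟩ := ih g2 hg2 ⟨a, hne⟩
    have hod : ∀ l ∈ A, od g l = od g2 l := by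
      intro l hl
      have hla : l ≠ a := fun h => ha (h ▸ hl)
      have h1 := fact_od (fun z => (z - a) ^ od g a) g2 (by fun_prop) hg2 l
        (pow_ne_zero _ (sub_ne_zero.mpr hla))
      rw [← h1]
      exact congrArg (fun u => od u l) (funext he)
    refine ⟨g1, hg1, ?_, ?_⟩
    · intro z
      rw [Finset.prod_insert ha, he z, he1 z, mul_assoc]
      congr 2
      exact Finset.prod_congr rfl fun l hl => by rw [hod l hl]
    · intro l hl
      rcases Finset.mem_insert.mp hl with rfl | hl
      · intro h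
        apply hne
        rw [he1 l, h, mul_zero]
      · exact hne1 l hl

end Pool.Agent.P.MP_2fa38d_an.NA
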