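import Pool.Agent.P.MP_2fa38d_an.NA.Iface

/-! Step HP. -/

set_option autoImplicit false

namespace Pool.Agent.P.MP_2fa38d_an.NA

open Complex MeasureTheory Set Filter Topology Metric

theorem p_HP :
    S_HP := by
  intro g hd hb hr z hz
  obtain ⟨C, hC⟩ := hb
  have him : ∀ w : ℂ, 0 ≤ w.re → 0 ≤ (I * w).im := by
    intro w hw
    simpa using hw
  have h1 : DiffContOnCl ℂ (fun w => g (I * w)) {w : ℂ | 0 < w.re} := by
    apply DifferentiableOn.diffContOnCl
    rw [closure_setOfPred_lt_re]
    intro w hw
    exact ((hd _ (him w hw)).comp w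
      ((differentiableAt_id.const_mul I))).differentiableWithinAt
  have h2 := PhragmenLindelof.right_half_plane_of_bounded_on_real (C := 1) (z := -I * z) h1
    ⟨1, by norm_num, 0, ?_⟩ ?_ ?_ (by simpa using hz)
  · have : I * (-I * z) = z := by
      rw [← mul_assoc, mul_neg, I_mul_I]; simp
    simpa only [this] using h2
  · refine Asymptotics.IsBigO.of_bound C ?_
    rw [eventually_inf_principal]
    refine Eventually.of_forall fun w hw => ?_
    simpa using hC _ (him w (le_of_lt hw))
  · refine ⟨C, ?_⟩
    rw [eventually_map]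
    filter_upwards [eventually_ge_atTop (0 : ℝ)] with x hx
    exact hC _ (him x (by simpa using hx))
  · intro x
    have : I * ((x : ℂ) * I) = ((-x : ℝ) : ℂ) := by
      rw [mul_comm, mul_assoc, I_mul_I]; simp
    rw [this]
    exact hr _

end Pool.Agent.P.MP_2fa38d_an.NA
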