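import Pool.Agent.P.MP_2fa38d_an.NA.Iface

/-! Step LEMA. -/

set_option autoImplicit false

namespace Pool.Agent.P.MP_2fa38d_an.NA

open Complex MeasureTheory Set Filter Topology Metric

theorem p_LEMA (hLEMA0 : S_LEMA0) (hALPHA : S_ALPHA) (hBETA : S_BETA) :
    S_LEMA := by
  intro b F hb hF hev hne
  obtain ⟨B, K, hB, hK, h0⟩ := hLEMA0 b hb
  refine ⟨B, K, hB, hK, fun η hη => ?_⟩
  obtain ⟨m, hm⟩ := exists_nat_ge (12 * (1 + η / 2) / η)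
  have hpi : (3 : ℝ) < Real.pi := Real.pi_gt_three
  have hm0 : (0 : ℝ) ≤ m := Nat.cast_nonneg m
  obtain ⟨γ, hγ⟩ : ∃ γ : ℝ, γ = 9 * Real.pi * (m + 1 / 2) := ⟨_, rfl⟩
  have hγm : (m : ℝ) + 1 / 2 ≤ γ := by rw [hγ]; nlinarith
  have hγ0 : 0 < γ := by linarith
  have hγη : 12 * (1 + η / 2) ≤ γ * η := by
    have h1 := (div_le_iff₀ hη).1 hm
    nlinarith
  have he : 0 < 1 / γ := by positivity
  obtain ⟨X1, hX1⟩ := hALPHA b F hF hne (1 / γ) (1 / γ) he he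
  obtain ⟨X2, hX2⟩ := hBETA b F hF hne (1 / γ) he
  refine ⟨max (max X1 X2) γ, fun Y hY => ?_⟩
  have hY1 : X1 ≤ Y := ((le_max_left _ _).trans (le_max_left _ _)).trans hY
  have hY2 : X2 ≤ Y := ((le_max_right _ _).trans (le_max_left _ _)).trans hY
  have hY3 : γ ≤ Y := (le_max_right _ _).trans hY
  have hY0 : 0 < Y := hγ0.trans_le hY3
  have hYX : Y ≤ (1 + η / 2) * Y := by nlinarith
  have hh : 1 ≤ 1 / γ * ((1 + η / 2) * Y) := by
    rw [one_div, ← div_eq_inv_mul, le_div_iff₀ hγ0]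
    linarith
  have hX : (1 + η / 2) * Y = 9 * Real.pi * (m + 1 / 2) * (1 / γ * ((1 + η / 2) * Y)) := by
    rw [← hγ, ← mul_assoc, mul_one_div_cancel hγ0.ne', one_mul]
  obtain ⟨R, H, hR, hH, hT, hL⟩ := h0 F m (1 / γ * ((1 + η / 2) * Y)) ((1 + η / 2) * Y) hF hev hh hX
    (hX1 _ (hY1.trans hYX)) (hX2 _ (hY2.trans hYX))
  have h6 : 6 * (1 / γ * ((1 + η / 2) * Y)) ≤ η / 2 * Y := by
    rw [one_div, ← div_eq_inv_mul, ← mul_div_assoc, div_le_iff₀ hγ0]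
    nlinarith [mul_le_mul_of_nonneg_right hγη hY0.le]
  have hR' := abs_le.1 (hR.trans h6)
  exact ⟨R, by linarith [hR'.1], by linarith [hR'.2], H, hH, hT, hL⟩

end Pool.Agent.P.MP_2fa38d_an.NA
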