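import Pool.Agent.P.MP_2fa38d_an.NA.Iface

/-! Step LEMA0. -/

set_option autoImplicit false

namespace Pool.Agent.P.MP_2fa38d_an.NA

open Complex MeasureTheory Set Filter Topology Metric

theorem lema0_norm (x y : ℝ) : ‖(x : ℂ) - (y : ℂ)‖ = |x - y| := by
  rw [← Complex.ofReal_sub, Complex.norm_real, Real.norm_eq_abs]

theorem lema0_X (m : ℕ) (h X : ℝ) (hh : 1 ≤ h) (hX : X = 9 * Real.pi * (m + 1 / 2) * h) :
    14 * h ≤ X := by
  have hpi : (3.14 : ℝ) < Real.pi := Real.pi_gt_d2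
  have hm : (0 : ℝ) ≤ m := Nat.cast_nonneg m
  have h1 : (14 : ℝ) ≤ 9 * Real.pi * (m + 1 / 2) := by nlinarith
  rw [hX]
  exact mul_le_mul_of_nonneg_right h1 (by linarith)

theorem p_LEMA0 (hZFIN : S_ZFIN) (hMARK : S_MARK) (hPL : S_PL) (hCELL : S_CELL) (hCORE : S_CORE) (hPEAK : S_PEAK) (hARC : S_ARC) :
    S_LEMA0 := by
  classical
  intro b hb
  obtain ⟨C1, hC1, hcore⟩ := hCORE b hb
  obtain ⟨B, hB, hpeak⟩ := hPEAK b C1 hb hC1
  have hbB : 0 ≤ b + B := add_nonneg hb hB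
  obtain ⟨s0, hs0⟩ : ∃ s0 : ℝ, s0 = 1 / (2 * (Real.exp (b + B) + 2)) := ⟨_, rfl⟩
  have hE : 0 < Real.exp (b + B) := Real.exp_pos _
  have hs0p : 0 < s0 := by rw [hs0]; positivity
  have hs01 : s0 ≤ 1 := by
    rw [hs0, div_le_one (by positivity)]
    linarith
  obtain ⟨r0, hr0⟩ : ∃ r0 : ℝ, r0 = s0 / 2 := ⟨_, rfl⟩
  have hr0p : 0 < r0 := by rw [hr0]; positivity
  have hr01 : r0 ≤ 1 := by rw [hr0]; linarith
  obtain ⟨K1, hK1⟩ : ∃ K1 : ℝ, K1 = 16 * (C1 + 1) / r0 := ⟨_, rfl⟩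
  have hK1p : 0 < K1 := by rw [hK1]; positivity
  obtain ⟨K, hK, harc⟩ := hARC (b + B) r0 K1 hbB hr0p hK1p.le
  refine ⟨B, K, hB, by linarith, ?_⟩
  intro F m h X hF hev hh hX hx0 hfew
  have hX14 := lema0_X m h X hh hX
  have hFne : ∃ z, F z ≠ 0 := by
    obtain ⟨x0, -, hx⟩ := hx0
    refine ⟨x0, fun h0 => ?_⟩
    rw [h0, norm_zero] at hx
    exact absurd hx (not_le.mpr (Real.exp_pos _))
  obtain ⟨hfin, -⟩ := hZFIN F hF.1 hFne
  obtain ⟨hc1, hc2⟩ := hcore F X h hF hh hx0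
  have hZf : {l : ℂ | F l = 0 ∧ l.im ≠ 0 ∧
      (‖l - X‖ ≤ 12 * h ∨ (h < |l.im| ∧ ‖l‖ ≤ 6 * X))}.Finite := by
    refine (hfin 0 (6 * X)).subset ?_
    rintro l ⟨h0, -, h2⟩
    refine ⟨?_, h0⟩
    rw [sub_zero]
    rcases h2 with h2 | h2
    · have h3 : ‖l‖ ≤ ‖l - X‖ + ‖(X : ℂ)‖ := by
        simpa using norm_add_le (l - X) (X : ℂ)
      rw [Complex.norm_real, Real.norm_eq_abs, abs_of_nonneg (by linarith)] at h3
      linarith
    · exact h2.2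
  obtain ⟨Z, hZ⟩ : ∃ Z : Finset ℂ, ∀ l, l ∈ Z ↔ F l = 0 ∧ l.im ≠ 0 ∧
      (‖l - X‖ ≤ 12 * h ∨ (h < |l.im| ∧ ‖l‖ ≤ 6 * X)) :=
    ⟨hZf.toFinset, fun l => by rw [Set.Finite.mem_toFinset]; rfl⟩
  have hsum : (∑ l ∈ Z, (od F l : ℝ)) ≤ (C1 + 1) * h := by
    rw [← Finset.sum_filter_add_sum_filter_not Z (fun l : ℂ => ‖l - X‖ ≤ 12 * h)]
    have h1 := hc1 (Z.filter (fun l : ℂ => ‖l - X‖ ≤ 12 * h))
      (fun l hl => (Finset.mem_filter.mp hl).2)
    have h2 := hfew (Z.filter (fun l : ℂ => ¬ ‖l - X‖ ≤ 12 * h)) (fun l hl => by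
      obtain ⟨h3, h4⟩ := Finset.mem_filter.mp hl
      exact ((hZ l).mp h3).2.2.resolve_left h4)
    linarith
  have him : ∀ l ∈ Z, 0 < |l.im| := fun l hl => abs_pos.mpr ((hZ l).mp hl).2.1
  have hmark := hMARK ℂ Z (fun l => ‖l‖) (fun l => 4 * |l.im|)
    (fun l => (od F l : ℝ) * (2 / |l.im|)) K1 hK1p
    (fun l hl => by have := him l hl; positivity)
    (fun l hl => by have := him l hl; positivity)
  have hch : (∑ l ∈ Z, (od F l : ℝ) * (2 / |l.im|) * (4 * |l.im|)) =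
      8 * ∑ l ∈ Z, (od F l : ℝ) := by
    rw [Finset.mul_sum]
    refine Finset.sum_congr rfl fun l hl => ?_
    have := (him l hl).ne'
    field_simp
    ring
  obtain ⟨Bad, hBad⟩ : ∃ Bad : Set ℝ, Bad =
      {x : ℝ | K1 < ∑ l ∈ Z, (od F l : ℝ) * (2 / |l.im|) *
        Real.posLog (4 * |l.im| / |x - ‖l‖|)} ∪ ((fun l : ℂ => ‖l‖) '' (Z : Set ℂ)) := ⟨_, rfl⟩
  have hvol : volume Bad ≤ ENNReal.ofReal (r0 * h) := by
    rw [hBad]
    refine (measure_union_le _ _).trans ?_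
    have h0 : volume ((fun l : ℂ => ‖l‖) '' (Z : Set ℂ)) = 0 :=
      (Z.finite_toSet.image _).measure_zero _
    rw [h0, add_zero]
    refine hmark.trans (ENNReal.ofReal_le_ofReal ?_)
    rw [hch, div_le_iff₀ hK1p, hK1]
    have h1 : r0 * h * (16 * (C1 + 1) / r0) = 16 * ((C1 + 1) * h) := by
      field_simp
    rw [h1]
    linarith
  obtain ⟨P, hPc, hP6, hcell⟩ := hCELL Bad r0 X h hr0p hr01 hh hvol
  obtain ⟨H, x1, hPW, hHd, hHe, hHn, hHp, hx1, hone, hTy⟩ :=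
    hpeak F m h X P hF hev hh hX hPc hP6 (hc2 P hPc)
  have hhalf : ∀ z : ℂ, ‖z - x1‖ ≤ s0 → 1 / 2 ≤ ‖F z * H z‖ := by
    intro z hz
    exact hPL.2 (b + B) x1 (fun z => F z * H z) hbB hTy hone z (by rw [← hs0]; exact hz)
  rcases hcell x1 hx1 with ⟨p, hp, hpx⟩ | ⟨R, hRB, hRx⟩
  · exfalso
    have h1 := hhalf p (by rw [lema0_norm]; linarith)
    rw [hHp p hp, mul_zero, norm_zero] at h1
    linarith
  have hRX : |R - X| ≤ 6 * h := by
    have h1 : |R - X| ≤ |R - x1| + |x1 - X| := abs_sub_le R x1 X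
    linarith
  have hR1 : X - 6 * h ≤ R := by have := (abs_le.mp hRX).1; linarith
  have hR2 : R ≤ X + 6 * h := by have := (abs_le.mp hRX).2; linarith
  have hRp : 0 < R := by linarith
  rw [hBad, Set.mem_union, not_or] at hRB
  have hA := harc F H R Z hF.1 hHd hTy hHn hRp
    (hhalf R (by rw [lema0_norm]; linarith))
    (fun l h0 h1 h2 h3 => (hZ l).mpr ⟨h0, h1, by
      by_cases h4 : |l.im| ≤ h
      · left
        have h5 : ‖l - X‖ ≤ ‖l - R‖ + ‖(R : ℂ) - X‖ := by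
          simpa using norm_add_le (l - R) ((R : ℂ) - X)
        rw [lema0_norm] at h5
        linarith
      · right
        exact ⟨not_le.mp h4, by linarith⟩⟩)
    (fun l hl h1 => hRB.2 ⟨l, hl, h1⟩)
    (not_lt.mp hRB.1)
  have hpos : ∀ z : ℂ, ‖z‖ = R → 0 ≤ z.re →
      Real.exp (-(K * (1 + |z.im|))) ≤ ‖F z * H z‖ := by
    intro z hz hre
    by_cases h1 : r0 ≤ ‖z - R‖
    · exact hA z hz hre h1
    · have h2 : ‖z - x1‖ ≤ ‖z - R‖ + ‖(R : ℂ) - x1‖ := by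
        simpa using norm_add_le (z - R) ((R : ℂ) - x1)
      rw [lema0_norm] at h2
      have h3 := hhalf z (by linarith [not_le.mp h1])
      have h4 : Real.exp (-(K * (1 + |z.im|))) ≤ Real.exp (-1) := by
        apply Real.exp_le_exp.mpr
        have := abs_nonneg z.im
        nlinarith
      have h5 : Real.exp (-1) ≤ 1 / 2 := by
        rw [Real.exp_neg, ← one_div]
        apply one_div_le_one_div_of_le (by norm_num)
        have := Real.add_one_le_exp (1 : ℝ)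
        linarith
      linarith
  refine ⟨R, H, hRX, hPW, hTy, ?_⟩
  intro z hz
  by_cases hre : 0 ≤ z.re
  · exact hpos z hz hre
  · have h1 := hpos (-z) (by rw [norm_neg]; exact hz) (by
      rw [Complex.neg_re]; linarith [not_le.mp hre])
    rw [hev, hHe, Complex.neg_im, abs_neg] at h1
    exact h1

end Pool.Agent.P.MP_2fa38d_an.NA
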