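import Pool.Agent.P.MP_2fa38d_an.NA.Iface

/-! Step MARK. -/

set_option autoImplicit false

namespace Pool.Agent.P.MP_2fa38d_an.NA

open Complex MeasureTheory Set Filter Topology Metric

theorem mark_ae (h : ℝ) (hh : 0 < h) :
    (fun x : ℝ => Real.posLog (h / |x|)) =ᵐ[volume]
      (Ioc (-h) h).indicator (fun x : ℝ => Real.log h - Real.log x) := by
  have h0 : ∀ᵐ x : ℝ ∂volume, x ≠ 0 := by
    simp [ae_iff]
  filter_upwards [h0] with x hx
  have hx' : 0 < |x| := abs_pos.mpr hx
  have e : Real.log (h / |x|) = Real.log h - Real.log x := by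
    rw [Real.log_div hh.ne' hx'.ne', Real.log_abs]
  by_cases hm : x ∈ Ioc (-h) h
  · rw [indicator_of_mem hm, Real.posLog_def, ← e]
    have h1 : |x| ≤ h := abs_le.mpr ⟨hm.1.le, hm.2⟩
    exact max_eq_right (Real.log_nonneg ((one_le_div hx').mpr h1))
  · rw [indicator_of_notMem hm, Real.posLog_def]
    have h1 : h ≤ |x| := by
      by_contra hc
      have hc' := abs_lt.mp (not_le.mp hc)
      exact hm ⟨hc'.1, hc'.2.le⟩
    exact max_eq_left (Real.log_nonpos (by positivity) ((div_le_one hx').mpr h1))

theorem mark_ii (h : ℝ) :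
    IntervalIntegrable (fun x : ℝ => Real.log h - Real.log x) volume (-h) h :=
  intervalIntegrable_const.sub intervalIntegral.intervalIntegrable_log'

theorem mark_int0 (h : ℝ) (hh : 0 < h) :
    Integrable (fun x : ℝ => Real.posLog (h / |x|)) volume := by
  refine Integrable.congr ?_ (mark_ae h hh).symm
  exact (integrable_indicator_iff measurableSet_Ioc).mpr (mark_ii h).1

theorem mark_val0 (h : ℝ) (hh : 0 < h) :
    ∫ x : ℝ, Real.posLog (h / |x|) = 2 * h := by
  rw [integral_congr_ae (mark_ae h hh), integral_indicator measurableSet_Ioc,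
    ← intervalIntegral.integral_of_le (by linarith),
    intervalIntegral.integral_sub intervalIntegrable_const intervalIntegral.intervalIntegrable_log',
    integral_log, intervalIntegral.integral_const, Real.log_neg_eq_log]
  simp only [smul_eq_mul]
  ring

theorem mark_int (h w : ℝ) (hh : 0 < h) :
    Integrable (fun x : ℝ => Real.posLog (h / |x - w|)) volume :=
  (mark_int0 h hh).comp_sub_right w

theorem mark_val (h w : ℝ) (hh : 0 < h) :
    ∫ x : ℝ, Real.posLog (h / |x - w|) = 2 * h := by
  rw [integral_sub_right_eq_self (fun x : ℝ => Real.posLog (h / |x|)) w, mark_val0 h hh]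

theorem p_MARK :
    S_MARK := by
  intro ι s w h c K hK hh hc
  set f : ℝ → ℝ := fun x => ∑ i ∈ s, c i * Real.posLog (h i / |x - w i|) with hf
  have hi : Integrable f volume :=
    integrable_finsetSum s fun i hi => (mark_int (h i) (w i) (hh i hi)).const_mul (c i)
  have hv : ∫ x, f x = 2 * ∑ i ∈ s, c i * h i := by
    rw [hf, integral_finsetSum s fun i hi => (mark_int (h i) (w i) (hh i hi)).const_mul (c i),
      Finset.mul_sum]
    refine Finset.sum_congr rfl fun i hi => ?_
    rw [integral_const_mul, mark_val (h i) (w i) (hh i hi)]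
    ring
  have hn : ∀ x, 0 ≤ f x := fun x =>
    Finset.sum_nonneg fun i hi => mul_nonneg (hc i hi) Real.posLog_nonneg
  have h1 : volume {x : ℝ | K < f x} ≤ ENNReal.ofReal (∫ x, f x / K) := by
    refine (hi.div_const K).measure_le_integral
      (Eventually.of_forall fun x => div_nonneg (hn x) hK.le) fun x hx => ?_
    exact (one_le_div hK).mpr (le_of_lt hx)
  rw [integral_div, hv] at h1
  exact h1

end Pool.Agent.P.MP_2fa38d_an.NA
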