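import Pool.Agent.P.MP_2fa38d_an.NA.Iface

/-! Step MIN. -/

set_option autoImplicit false

namespace Pool.Agent.P.MP_2fa38d_an.NA

open Complex MeasureTheory Set Filter Topology Metric

theorem min_low {f : ℂ → ℂ} {c : ℂ} {ρ B : ℝ} (hρ : 0 < ρ) (hB : 0 < B)
    (hf : DifferentiableOn ℂ f (ball c ρ))
    (h : ∀ z ∈ ball c ρ, f z ≠ 0 ∧ ‖f z‖ ≤ Real.exp B * ‖f c‖) {z : ℂ} (hz : ‖z - c‖ ≤ ρ / 2) :
    Real.exp (-(2 * B)) * ‖f c‖ ≤ ‖f z‖ := by
  have ho := isOpen_ball (x := c) (ε := ρ)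
  have h0 := mem_ball_self (x := c) hρ
  obtain ⟨g, g0, hg⟩ := ((hf.deriv ho).div hf fun z hz => (h z hz).1).isExactOn_ball.with_val_at c 0
  have dg : DifferentiableOn ℂ g (ball c ρ) := fun z hz =>
    (hg z hz).differentiableAt.differentiableWithinAt
  have e : ∀ z ∈ ball c ρ, f z * cexp (-g z) = f c := fun z hz => by
    have := ho.is_const_of_deriv_eq_zero (convex_ball c ρ).isPreconnected
      (f := fun z => f z * cexp (-g z)) (hf.mul dg.neg.cexp) (fun z hz => by
        have h1 := (h z hz).1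
        refine (((hf.differentiableAt (ho.mem_nhds hz)).hasDerivAt.mul
          (hg z hz).neg.cexp).deriv).trans ?_
        simp only [Pi.div_apply, Pi.zero_apply]
        field_simp
        ring) hz h0
    simpa [g0] using this
  have re : ∀ z ∈ ball c ρ, (g z).re ≤ B := fun z hz => by
    have h1 := (h z hz).2
    rw [← e z hz, norm_mul, Complex.norm_exp, mul_left_comm, ← Real.exp_add,
      le_mul_iff_one_le_right (norm_pos_iff.2 (h z hz).1), Real.one_le_exp_iff,
      Complex.neg_re] at h1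
    linarith
  have m : ∀ z ∈ ball (0 : ℂ) ρ, z + c ∈ ball c ρ := fun z hz => by simpa using hz
  have b : ‖g z‖ ≤ 2 * B := by
    have := Complex.borelCaratheodory_zero (f := fun z => g (z + c)) (z := z - c) hB
      (dg.comp (by fun_prop) m) (fun z hz => re _ (m z hz)) hρ
      (mem_ball_zero_iff.2 (by linarith)) (by simpa using g0)
    rw [sub_add_cancel] at this
    refine this.trans ?_
    rw [div_le_iff₀ (by linarith)]
    gcongr
    linarith
  rw [← e z (mem_ball_iff_norm.2 (by linarith)), norm_mul, Complex.norm_exp, mul_left_comm,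
    ← Real.exp_add, Complex.neg_re]
  refine mul_le_of_le_one_right (norm_nonneg _) (Real.exp_le_one_iff.2 ?_)
  linarith [neg_le_abs (g z).re, abs_re_le_norm (g z)]

theorem p_MIN (hFACT : S_FACT) (hZFIN : S_ZFIN) :
    S_MIN := by
  intro g c r S hg hr hS hc
  have hne : ∃ z, g z ≠ 0 := ⟨c, norm_pos_iff.1 (by linarith)⟩
  have hfin : {l : ℂ | ‖l - c‖ < 2 * r ∧ g l = 0}.Finite :=
    ((hZFIN g hg hne).1 c (2 * r)).subset fun l hl => ⟨hl.1.le, hl.2⟩
  have hA : ∀ l, l ∈ hfin.toFinset ↔ ‖l - c‖ < 2 * r ∧ g l = 0 := fun l => hfin.mem_toFinset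
  generalize hfin.toFinset = A at hA
  obtain ⟨g1, d1, e1, n1⟩ := hFACT g A hg hne
  set n : ℕ := ∑ l ∈ A, od g l with hn
  set g2 : ℂ → ℂ := fun z => ((2 * r : ℝ) : ℂ) ^ n * g1 z with hg2
  have d2 : Differentiable ℂ g2 := d1.const_mul _
  have r2 : (0 : ℝ) < 2 * r := by linarith
  have e2 : ∀ z, ‖g z‖ = (∏ l ∈ A, (‖z - l‖ / (2 * r)) ^ od g l) * ‖g2 z‖ := fun z => by
    rw [e1 z, hg2]
    simp only [norm_mul, norm_pow, norm_prod, Complex.norm_real, Real.norm_eq_abs, abs_of_pos hr,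
      abs_two, div_pow, Finset.prod_div_distrib, Finset.prod_pow_eq_pow_sum, ← hn]
    field_simp
  have up : ∀ z ∈ closedBall c (6 * r), ‖g2 z‖ ≤ Real.exp S / 2 ^ n := fun z hz => by
    refine max_ball d2 (by linarith) (fun w hw => ?_) hz
    have hw' : ‖w - c‖ = 6 * r := mem_sphere_iff_norm.1 hw
    have h1 : (2 : ℝ) ^ n ≤ ∏ l ∈ A, (‖w - l‖ / (2 * r)) ^ od g l := by
      rw [hn, ← Finset.prod_pow_eq_pow_sum]
      refine Finset.prod_le_prod (fun _ _ => by positivity) fun l hl =>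
        pow_le_pow_left₀ (by norm_num) ?_ _
      rw [le_div_iff₀ r2]
      have := norm_sub_le_norm_sub_add_norm_sub w l c
      linarith [((hA l).1 hl).1]
    rw [le_div_iff₀ (by positivity), mul_comm]
    exact ((mul_le_mul_of_nonneg_right h1 (norm_nonneg _)).trans_eq (e2 w).symm).trans
      (hS w hw'.le)
  have lo : 1 ≤ ‖g2 c‖ := by
    refine hc.trans ((e2 c).trans_le (mul_le_of_le_one_left (norm_nonneg _) ?_))
    refine Finset.prod_le_one (fun _ _ => by positivity) fun l hl =>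
      pow_le_one₀ (by positivity) ?_
    rw [div_le_one r2, norm_sub_rev]
    exact ((hA l).1 hl).1.le
  have h2 : (2 : ℝ) ^ n ≤ Real.exp S := by
    have := lo.trans (up c (mem_closedBall_self (by linarith)))
    rwa [le_div_iff₀ (by positivity), one_mul] at this
  have h3 : (n : ℝ) * Real.log 2 ≤ S := by
    rw [← Real.log_pow]
    exact (Real.log_le_iff_le_exp (by positivity)).2 h2
  have h4 : (n : ℝ) ≤ 2 * S := by
    nlinarith [Real.log_two_gt_d9, (Nat.cast_nonneg n : (0 : ℝ) ≤ n)]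
  have h5 : 0 ≤ S := by linarith [(Nat.cast_nonneg n : (0 : ℝ) ≤ n)]
  refine ⟨A, hA, by rw [← Nat.cast_sum]; exact h4, fun z hz => ?_⟩
  have h6 := min_low (f := g2) (c := c) (B := S + 1) r2 (by linarith) d2.differentiableOn
    (fun w hw => ⟨?_, ?_⟩) (z := z) (by linarith)
  · rw [e2 z, mul_comm]
    refine mul_le_mul_of_nonneg_left ?_ (Finset.prod_nonneg fun _ _ => by positivity)
    rw [show 2 * S + 2 = 2 * (S + 1) by ring]
    exact (le_mul_of_one_le_right (Real.exp_pos _).le lo).trans h6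
  · refine mul_ne_zero (pow_ne_zero _ (Complex.ofReal_ne_zero.2 r2.ne')) fun h => ?_
    exact n1 w ((hA w).2 ⟨mem_ball_iff_norm.1 hw, by rw [e1 w, h, mul_zero]⟩) h
  · have h7 := up w (mem_closedBall_iff_norm.2 (by linarith [mem_ball_iff_norm.1 hw]))
    refine h7.trans ((div_le_self (Real.exp_pos _).le (one_le_pow₀ (by norm_num))).trans ?_)
    exact (Real.exp_le_exp.2 (by linarith)).trans (le_mul_of_one_le_right (Real.exp_pos _).le lo)

end Pool.Agent.P.MP_2fa38d_an.NA
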