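import Pool.Agent.P.MP_2fa38d_an.NA.Iface

/-! Step PEAK. -/

set_option autoImplicit false

namespace Pool.Agent.P.MP_2fa38d_an.NA

open Complex MeasureTheory Set Filter Topology Metric

theorem peak_num {c : ℝ} {M : ℕ} (h : 4 * c ≤ M) :
    (1 / 2 : ℝ) ^ M ≤ (2 / 3) ^ M * Real.exp (-c) := by
  have h1 : Real.exp (1 / 4) ≤ 4 / 3 := by
    have h2 := Real.add_one_le_exp (-(1 / 4) : ℝ)
    rw [Real.exp_neg, le_inv_comm₀ (by norm_num) (Real.exp_pos _)] at h2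
    exact h2.trans (by norm_num)
  have h2 : Real.exp c ≤ (4 / 3) ^ M :=
    (Real.exp_le_exp.2 (show c ≤ M * (1 / 4) by linarith)).trans
      ((Real.exp_nat_mul _ _).trans_le (pow_le_pow_left₀ (Real.exp_pos _).le h1 M))
  rw [Real.exp_neg, ← div_eq_mul_inv, le_div_iff₀ (Real.exp_pos _),
    show (2 / 3 : ℝ) = 1 / 2 * (4 / 3) by norm_num, mul_pow]
  exact mul_le_mul_of_nonneg_left h2 (by positivity)

theorem peak_ty (hFTTY : S_FTTY) {B : ℝ} {H : ℂ → ℂ} (h : PW B H) : ∃ C, Ty C B H := by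
  obtain ⟨g, h1, h2⟩ := h
  exact ⟨_, funext h2 ▸ hFTTY B g h1⟩

theorem p_PEAK (hFTTY : S_FTTY) (hPWOPS : S_PWOPS) (hPL : S_PL) (hPEAK0 : S_PEAK0) :
    S_PEAK := by
  intro b C1 hb hC
  refine ⟨4 * C1 + 3, by positivity, fun F m h X P hF he hh hX hP hP' ⟨x, hx, hx'⟩ => ?_⟩
  have h0 : 0 < h := by linarith
  have m1 := Nat.le_ceil (4 * (C1 * h))
  have m2 := (Nat.ceil_lt_add_one (show 0 ≤ 4 * (C1 * h) by positivity)).le
  obtain ⟨H, a1, a2, a3, a4, a5, a6⟩ := hPEAK0 m (⌈4 * (C1 * h)⌉₊ + 1) h X P hh (by omega) hX hP hP'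
  have a0 := peak_num (c := C1 * h) (M := ⌈4 * (C1 * h)⌉₊ + 1) (by push_cast; linarith)
  replace a1 := hPWOPS.1 _ (4 * C1 + 3) H (by
    rw [← le_sub_iff_add_le, div_le_iff₀ h0]
    push_cast
    linarith) a1
  generalize ⌈4 * (C1 * h)⌉₊ + 1 = M at a0 a5 a6
  obtain ⟨C, hH⟩ := peak_ty hFTTY a1
  obtain ⟨x0, b1, b2⟩ := (isCompact_Icc (a := X - 5 * h) (b := X + 5 * h)).exists_isMaxOn
    ⟨X, by constructor <;> linarith⟩ (f := fun t : ℝ => ‖F t * H t‖)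
    (((hF.1.continuous.mul hH.1.continuous).comp continuous_ofReal).norm.continuousOn)
  have b3 : ∀ t : ℝ, |t - X| ≤ 5 * h → ‖F t * H t‖ ≤ ‖F x0 * H x0‖ := fun t ht =>
    b2 (show t ∈ Icc _ _ from ⟨by linarith [(abs_le.1 ht).1], by linarith [(abs_le.1 ht).2]⟩)
  have b4 : (1 / 2 : ℝ) ^ M ≤ ‖F x0 * H x0‖ := by
    refine a0.trans (le_trans ?_ (b3 x (by linarith)))
    rw [norm_mul]
    refine (mul_le_mul_of_nonneg_left hx' (by positivity)).trans ?_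
    rw [mul_left_comm]
    exact mul_le_mul_of_nonneg_left (a5 x hx) (norm_nonneg _)
  have b5 : ∀ t : ℝ, 0 ≤ t → ‖F t * H t‖ ≤ ‖F x0 * H x0‖ := fun t ht => by
    rcases le_total |t - X| (5 * h) with q | q
    · exact b3 t q
    · have := hF.2 t
      rw [ofReal_im, abs_zero, mul_zero, Real.exp_zero, mul_one] at this
      rw [norm_mul (F t)]
      exact ((mul_le_of_le_one_left (norm_nonneg _) this).trans (a6 t ht q)).trans b4
  have b6 : ∀ t : ℝ, ‖F t * H t‖ ≤ ‖F x0 * H x0‖ := fun t => by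
    rcases le_total 0 t with q | q
    · exact b5 t q
    · simpa only [ofReal_neg, he, a2] using b5 (-t) (by linarith)
  have b7 : 0 < ‖F x0 * H x0‖ := lt_of_lt_of_le (by positivity) b4
  have b8 := norm_pos_iff.1 b7
  have c1 := hPWOPS.2.1 _ H (F x0 * H x0)⁻¹ a1
  obtain ⟨C', c2⟩ := peak_ty hFTTY c1
  refine ⟨_, x0, c1, c2.1, fun z => by rw [a2], fun z hz => mul_ne_zero (inv_ne_zero b8) (a3 z hz),
    fun p hp => by rw [a4 p hp, mul_zero], abs_le.2 ⟨by linarith [b1.1], by linarith [b1.2]⟩,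
    by rw [mul_left_comm, inv_mul_cancel₀ b8], hPL.1 C' _ _ ⟨hF.1.mul c2.1, fun z => ?_⟩ fun t => ?_⟩
  · rw [norm_mul]
    refine (mul_le_mul (hF.2 z) (c2.2 z) (norm_nonneg _) (by positivity)).trans_eq ?_
    rw [add_mul b, Real.exp_add]
    ring
  · rw [mul_left_comm, norm_mul, norm_inv, inv_mul_le_iff₀ b7, mul_one]
    exact b6 t

end Pool.Agent.P.MP_2fa38d_an.NA
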