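import Pool.Agent.P.MP_2fa38d_an.NA.Iface

/-! Step PEAK0. -/

set_option autoImplicit false

namespace Pool.Agent.P.MP_2fa38d_an.NA

open Complex MeasureTheory Set Filter Topology Metric

theorem peak0_low (m : ℕ) {u v : ℝ} (hu : |u| ≤ 1 / 9) (hv : |v| ≤ 2 / 3) :
    9 / 20 * |u - v| ≤
      |Real.cos (Real.pi * (m + 1 / 2) + u) - Real.cos (Real.pi * (m + 1 / 2) + v)| := by
  have e1 : (Real.pi * (m + 1 / 2) + u + (Real.pi * (m + 1 / 2) + v)) / 2 =
      (u + v) / 2 + Real.pi / 2 + m * Real.pi := by ring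
  have e2 : (Real.pi * (m + 1 / 2) + u - (Real.pi * (m + 1 / 2) + v)) / 2 = (u - v) / 2 := by ring
  have hp := Real.pi_gt_three
  have hp' := Real.pi_lt_d2
  obtain ⟨u1, u2⟩ := abs_le.1 hu
  obtain ⟨v1, v2⟩ := abs_le.1 hv
  have h1 : 9 / 10 ≤ Real.cos ((u + v) / 2) :=
    le_trans (by nlinarith) Real.one_sub_sq_div_two_le_cos
  have h2 : 2 / Real.pi * |(u - v) / 2| ≤ |Real.sin ((u - v) / 2)| :=
    Real.mul_abs_le_abs_sin (abs_le.2 ⟨by linarith, by linarith⟩)
  have h3 : (1 / 2 : ℝ) ≤ 2 / Real.pi := by rw [le_div_iff₀ Real.pi_pos]; linarith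
  have h4 : |(u - v) / 2| = |u - v| / 2 := by rw [abs_div, abs_two]
  rw [Real.cos_sub_cos, e1, e2, Real.sin_add_nat_mul_pi, Real.sin_add_pi_div_two, abs_mul,
    abs_mul, abs_mul, abs_pow, abs_neg, abs_neg, abs_one, one_pow, one_mul, abs_two,
    abs_of_nonneg (by linarith : 0 ≤ Real.cos ((u + v) / 2))]
  rw [h4] at h2
  have h5 := abs_nonneg (u - v)
  have h6 : |u - v| / 4 ≤ |Real.sin ((u - v) / 2)| := by nlinarith
  nlinarith

theorem peak0_ne {a p : ℝ} (ha : a ≠ 0) {z : ℂ} (hz : z.im ≠ 0) :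
    cos (a * z) - cos (a * p) ≠ 0 := by
  rw [Complex.cos_sub_cos]
  refine mul_ne_zero (mul_ne_zero (by norm_num) fun h => ?_) fun h => ?_
  all_goals
    obtain ⟨k, hk⟩ := Complex.sin_eq_zero_iff.1 h
    have := congrArg Complex.im hk
    simp [ha, hz] at this

theorem peak0_pw (hPWOPS : S_PWOPS) {τ a : ℝ} (ha : 0 ≤ a) {G : ℂ → ℂ} (hG : PW τ G)
    (P : Finset ℝ) : PW (τ + P.card * a)
      (fun z => G z * ∏ p ∈ P, (1 / 2 : ℂ) * (cos (a * z) - cos (a * p))) := by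
  induction P using Finset.induction_on with
  | empty => simpa using hG
  | insert q P hq ih =>
    have h1 := hPWOPS.2.1 _ _ (1 / 2) (hPWOPS.2.2.2.2.1 _ a (cos (a * q)) _ ha ih)
    have e : τ + ((insert q P).card : ℕ) * a = τ + P.card * a + a := by
      rw [Finset.card_insert_of_notMem hq]; push_cast; ring
    obtain ⟨g, g1, g2⟩ := h1
    refine ⟨g, e ▸ g1, fun z => ?_⟩
    rw [← g2 z]
    simp only [Finset.prod_insert hq]
    ring

theorem p_PEAK0 (hPWOPS : S_PWOPS) (hSIG : S_SIG) :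
    S_PEAK0 := by
  intro m M h X P h1 hM hX hP hp
  have h0 : 0 < h := by linarith
  have hm : (0 : ℝ) ≤ m := Nat.cast_nonneg m
  have hpi := Real.pi_gt_d2
  obtain ⟨σ, s1, s2, s3, s4, s5, -⟩ := hSIG (9 * Real.pi * (m + 1 / 2)) (by nlinarith)
    (Real.cos_eq_zero_iff.2 ⟨9 * m + 4, by push_cast; ring⟩)
  obtain ⟨a, ha⟩ : ∃ a : ℝ, a = (9 * h)⁻¹ := ⟨_, rfl⟩
  have a0 : 0 < a := by rw [ha]; positivity
  have hc : ∀ x : ℝ, ((h⁻¹ : ℝ) : ℂ) * (x : ℂ) = ((h⁻¹ * x : ℝ) : ℂ) := fun x => by push_cast; rfl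
  have hd : ∀ x : ℝ, |h⁻¹ * x - 9 * Real.pi * (m + 1 / 2)| = |x - X| / h := fun x => by
    rw [show h⁻¹ * x - 9 * Real.pi * (m + 1 / 2) = (x - X) / h by rw [hX]; field_simp, abs_div,
      abs_of_pos h0]
  have hn : ∀ x p : ℝ, ‖(1 / 2 : ℂ) * (cos (a * x) - cos (a * p))‖ =
      |Real.cos (a * x) - Real.cos (a * p)| / 2 := fun x p => by
    rw [show (1 / 2 : ℂ) * (cos (a * x) - cos (a * p)) =
      (((Real.cos (a * x) - Real.cos (a * p)) / 2 : ℝ) : ℂ) by push_cast; ring, Complex.norm_real,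
      Real.norm_eq_abs, abs_div, abs_two]
  have he : ∀ x : ℝ, a * x = Real.pi * (m + 1 / 2) + (x - X) / (9 * h) := fun x => by
    rw [ha, hX]; field_simp; ring
  refine ⟨fun z => σ ((h⁻¹ : ℝ) * z) ^ M * ∏ p ∈ P, (1 / 2 : ℂ) * (cos (a * z) - cos (a * p)),
    hPWOPS.1 _ _ _ ?_ (peak0_pw hPWOPS a0.le
      (hPWOPS.2.2.2.2.2.2 _ _ M hM (hPWOPS.2.2.2.1 _ h⁻¹ _ (inv_pos.2 h0) s1)) P),
    fun z => ?_, fun z hz => ?_, fun p hp' => ?_, fun x hx => ?_, fun x hx0 hx => ?_⟩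
  · have : (P.card : ℝ) * a ≤ 1 := by
      rw [ha, ← div_eq_mul_inv, div_le_one (by positivity)]; linarith
    rw [mul_one, div_eq_mul_inv]; linarith
  · simp only [mul_neg, s2, Complex.cos_neg]
  · refine mul_ne_zero (pow_ne_zero _ (s3 _ ?_)) (Finset.prod_ne_zero_iff.2 fun p _ =>
      mul_ne_zero (by norm_num) (peak0_ne a0.ne' hz))
    rw [Complex.im_ofReal_mul]
    exact mul_ne_zero (inv_ne_zero h0.ne') hz
  · exact mul_eq_zero_of_right _ (Finset.prod_eq_zero hp' (by rw [sub_self, mul_zero]))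
  · rw [norm_mul, norm_pow, norm_prod, hc]
    refine mul_le_mul (pow_le_pow_left₀ (by norm_num) (s4 _ ?_) M)
      (Finset.prod_le_prod (fun p _ => by positivity) fun p hp' => ?_)
      (Finset.prod_nonneg fun p _ => by positivity) (by positivity)
    · rw [hd, div_le_one h0]; exact hx
    · have h9 : (0 : ℝ) < 9 * h := by positivity
      have := peak0_low m (u := (x - X) / (9 * h)) (v := (p - X) / (9 * h))
        (by rw [abs_div, abs_of_pos h9, div_le_iff₀ h9]; linarith)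
        (by rw [abs_div, abs_of_pos h9, div_le_iff₀ h9]; linarith [hp p hp'])
      rw [← he, ← he, ← sub_div, sub_sub_sub_cancel_right, abs_div, abs_of_pos h9] at this
      rw [hn]
      refine le_trans (le_of_eq ?_) (div_le_div_of_nonneg_right this zero_le_two)
      field_simp
      ring
  · rw [norm_mul, norm_pow, norm_prod, hc, ← mul_one ((1 / 2 : ℝ) ^ M)]
    refine mul_le_mul (pow_le_pow_left₀ (norm_nonneg _) (s5 _ (by positivity) ?_) M)
      (Finset.prod_le_one (fun p _ => norm_nonneg _) fun p _ => ?_)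
      (Finset.prod_nonneg fun p _ => norm_nonneg _) (by positivity)
    · rw [hd, le_div_iff₀ h0]; exact hx
    · rw [hn, div_le_one two_pos, abs_le]
      constructor <;> linarith [Real.cos_le_one (a * x), Real.neg_one_le_cos (a * x),
        Real.cos_le_one (a * p), Real.neg_one_le_cos (a * p)]

end Pool.Agent.P.MP_2fa38d_an.NA
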