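import Pool.Agent.P.MP_2fa38d_an.NA.Iface

/-! Step PL. -/

set_option autoImplicit false

namespace Pool.Agent.P.MP_2fa38d_an.NA

open Complex MeasureTheory Set Filter Topology Metric

theorem pl_up (hHP : S_HP) {C B : ℝ} {g : ℂ → ℂ} (h : Ty C B g) (h1 : ∀ x : ℝ, ‖g x‖ ≤ 1)
    {z : ℂ} (hz : 0 ≤ z.im) : ‖g z‖ ≤ 1 * Real.exp (B * |z.im|) := by
  have e : ∀ w : ℂ, ‖g w * cexp (I * B * w)‖ = ‖g w‖ * Real.exp (-(B * w.im)) := fun w => by
    rw [norm_mul, Complex.norm_exp]
    simp
  have := hHP (fun w => g w * cexp (I * B * w)) (fun w _ => (h.1 w).mul (by fun_prop))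
    ⟨C, fun w hw => by
      have := h.2 w
      rw [abs_of_nonneg hw] at this
      rw [e, Real.exp_neg, ← div_eq_mul_inv, div_le_iff₀ (Real.exp_pos _)]
      exact this⟩
    (fun x => by rw [e]; simpa using h1 x) z hz
  rwa [e, Real.exp_neg, ← div_eq_mul_inv, div_le_iff₀ (Real.exp_pos _), ← abs_of_nonneg hz] at this

theorem p_PL (hHP : S_HP) :
    S_PL := by
  refine ⟨fun C B g h h1 => ⟨h.1, fun z => ?_⟩, fun B x g hB h hx z hz => ?_⟩
  · rcases le_total 0 z.im with hz | hz
    · exact pl_up hHP h h1 hz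
    · have := pl_up hHP (g := fun w => g (-w)) (C := C) (B := B)
        ⟨h.1.comp differentiable_neg, fun w => by simpa using h.2 (-w)⟩
        (fun x => by simpa using h1 (-x)) (z := -z) (by simpa using hz)
      simpa using this
  · have hE : 0 < Real.exp B + 2 := by positivity
    have hz1 : ‖z - x‖ < 1 := hz.trans_lt (by
      rw [div_lt_one (by positivity)]; linarith [Real.exp_pos B])
    have hm : MapsTo g (ball (x : ℂ) 1) (closedBall (g x) (Real.exp B + 2)) := fun w hw => by
      rw [mem_ball_iff_norm] at hw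
      rw [mem_closedBall_iff_norm, hx]
      have h2 : |w.im| ≤ 1 := by
        have := (Complex.abs_im_le_norm (w - x)).trans hw.le
        simpa using this
      have h3 := h.2 w
      have h4 : Real.exp (B * |w.im|) ≤ Real.exp B :=
        Real.exp_le_exp.2 (mul_le_of_le_one_right hB h2)
      have h5 := norm_sub_le (g w) 1
      rw [norm_one] at h5
      linarith
    have h6 := Complex.dist_le_div_mul_dist_of_mapsTo_ball h.1.differentiableOn hm
      (mem_ball_iff_norm.2 hz1)
    rw [dist_eq_norm, dist_eq_norm, hx, div_one] at h6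
    have h7 : (Real.exp B + 2) * ‖z - x‖ ≤ 1 / 2 :=
      (mul_le_mul_of_nonneg_left hz hE.le).trans (le_of_eq (by field_simp))
    have h8 := norm_sub_norm_le (1 : ℂ) (g z)
    rw [norm_one, norm_sub_rev] at h8
    linarith

end Pool.Agent.P.MP_2fa38d_an.NA
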