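import Pool.Agent.P.MP_2fa38d_an.NA.Iface

/-! Step PWOPS. -/

set_option autoImplicit false

namespace Pool.Agent.P.MP_2fa38d_an.NA

open Complex MeasureTheory Set Filter Topology Metric

lemma pwops_int {b : ℝ} {h : ℝ → ℂ} (hh : Cs b h) (z : ℂ) :
    Integrable (fun t : ℝ => h t * cexp (-(I * z * t))) := by
  refine Integrable.mono' (hh.1.norm.mul_const (Real.exp (|z.im| * b))) ?_ ?_
  · exact hh.1.aestronglyMeasurable.mul (Continuous.aestronglyMeasurable (by fun_prop))
  · refine Eventually.of_forall fun t => ?_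
    by_cases ht : b < |t|
    · simp [hh.2 t ht]
    · rw [norm_mul, Complex.norm_exp]
      refine mul_le_mul_of_nonneg_left (Real.exp_le_exp.2 ?_) (norm_nonneg _)
      have h1 : (-(I * z * (t : ℂ))).re = z.im * t := by simp
      rw [h1]
      calc z.im * t ≤ |z.im * t| := le_abs_self _
        _ = |z.im| * |t| := abs_mul _ _
        _ ≤ |z.im| * b := mul_le_mul_of_nonneg_left (not_lt.1 ht) (abs_nonneg _)

lemma pwops_shift {b : ℝ} {h : ℝ → ℂ} (hh : Cs b h) (a : ℝ) :
    Cs (b + |a|) (fun t => h (t + a)) := by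
  refine ⟨hh.1.comp_add_right a, fun t ht => hh.2 _ ?_⟩
  have h1 : |t| ≤ |t + a| + |a| := by
    have := abs_sub (t + a) a
    simpa using this
  linarith

lemma pwops_ftshift (h : ℝ → ℂ) (a : ℝ) (z : ℂ) :
    ft (fun t => h (t + a)) z = cexp (I * z * a) * ft h z := by
  unfold ft
  rw [← integral_const_mul]
  rw [← integral_add_right_eq_self (fun t : ℝ => cexp (I * z * a) * (h t * cexp (-(I * z * t)))) a]
  refine integral_congr_ae (Eventually.of_forall fun t => ?_)
  have h1 : cexp (-(I * z * (t : ℂ))) = cexp (I * z * a) * cexp (-(I * z * ((t + a : ℝ) : ℂ))) := by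
    rw [← Complex.exp_add]
    congr 1
    push_cast
    ring
  simp only [h1]
  ring

theorem p_PWOPS (hCVFT : S_CVFT) :
    S_PWOPS := by
  have h6 : ∀ (τ τ' : ℝ) (H H' : ℂ → ℂ), PW τ H → PW τ' H' →
      PW (τ + τ') (fun z => H z * H' z) := by
    rintro τ τ' H H' ⟨h, hh, hH⟩ ⟨h', hh', hH'⟩
    obtain ⟨h1, h2⟩ := hCVFT τ τ' h h' hh hh'
    exact ⟨cv h h', h1, fun z => by rw [h2 z, ← hH z, ← hH' z]⟩
  refine ⟨?_, ?_, ?_, ?_, ?_, h6, ?_⟩
  · rintro τ τ' H hτ ⟨h, hh, hH⟩
    exact ⟨h, ⟨hh.1, fun t ht => hh.2 t (lt_of_le_of_lt hτ ht)⟩, hH⟩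
  · rintro τ H c ⟨h, hh, hH⟩
    refine ⟨fun t => c * h t, ⟨hh.1.const_mul c, fun t ht => by simp [hh.2 t ht]⟩, fun z => ?_⟩
    show c * H z = _
    rw [hH z]
    unfold ft
    rw [← integral_const_mul]
    refine integral_congr_ae (Eventually.of_forall fun t => ?_)
    simp only [mul_assoc]
  · rintro τ H ⟨h, hh, hH⟩
    refine ⟨fun t => h (-t), ⟨hh.1.comp_neg, fun t ht => hh.2 _ (by simpa using ht)⟩, fun z => ?_⟩
    show H (-z) = _
    rw [hH (-z)]
    unfold ft
    rw [← integral_neg_eq_self (fun t : ℝ => h t * cexp (-(I * -z * t)))]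
    refine integral_congr_ae (Eventually.of_forall fun t => ?_)
    simp only
    congr 2
    push_cast
    ring
  · rintro τ β H hβ ⟨h, hh, hH⟩
    refine ⟨fun u => (β : ℂ)⁻¹ * h (u / β), ⟨(hh.1.comp_div hβ.ne').const_mul _, fun t ht => ?_⟩,
      fun z => ?_⟩
    · have h1 : τ < |t / β| := by
        rw [abs_div, abs_of_pos hβ, lt_div_iff₀ hβ]
        linarith [mul_comm τ β]
      simp [hh.2 _ h1]
    · show H (β * z) = _
      rw [hH]
      unfold ft
      have h1 := Measure.integral_comp_div (fun t : ℝ => h t * cexp (-(I * (β * z) * t))) β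
      have hb : (β : ℂ) ≠ 0 := by exact_mod_cast hβ.ne'
      have h2 : ∀ u : ℝ, (β : ℂ)⁻¹ * h (u / β) * cexp (-(I * z * u)) =
          (β : ℂ)⁻¹ * (h (u / β) * cexp (-(I * (β * z) * ((u / β : ℝ) : ℂ)))) := by
        intro u
        rw [mul_assoc]
        congr 3
        push_cast
        field_simp
      simp only [h2]
      rw [integral_const_mul, h1, abs_of_pos hβ, Complex.real_smul, inv_mul_cancel_left₀ hb]
  · rintro τ a c H ha ⟨h, hh, hH⟩
    have hp := pwops_shift hh a
    have hm := pwops_shift hh (-a)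
    rw [abs_of_nonneg ha] at hp
    rw [abs_neg, abs_of_nonneg ha] at hm
    refine ⟨fun t => (2 : ℂ)⁻¹ * (h (t + a) + h (t + -a)) - c * h t,
      ⟨((hp.1.add hm.1).const_mul _).sub (hh.1.const_mul c), fun t ht => ?_⟩, fun z => ?_⟩
    · have e1 : h (t + a) = 0 := hp.2 t ht
      have e2 : h (t + -a) = 0 := hm.2 t ht
      have e3 : h t = 0 := hh.2 t (by linarith)
      simp only [e1, e2, e3]
      simp
    · show H z * (cos (a * z) - c) = _
      have i1 := pwops_int hp z
      have i2 := pwops_int hm z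
      have i3 := pwops_int hh z
      have f1 := pwops_ftshift h a z
      have f2 := pwops_ftshift h (-a) z
      have key : ft (fun t => (2 : ℂ)⁻¹ * (h (t + a) + h (t + -a)) - c * h t) z =
          (2 : ℂ)⁻¹ * (ft (fun t => h (t + a)) z + ft (fun t => h (t + -a)) z) - c * ft h z := by
        unfold ft
        have i4 : Integrable (fun t : ℝ => (2 : ℂ)⁻¹ * (h (t + a) * cexp (-(I * z * t)) +
            h (t + -a) * cexp (-(I * z * t)))) := (i1.add i2).const_mul _
        rw [← integral_add i1 i2, ← integral_const_mul, ← integral_const_mul,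
          ← integral_sub i4 (i3.const_mul c)]
        refine integral_congr_ae (Eventually.of_forall fun t => ?_)
        simp only
        ring
      rw [key, f1, f2, hH z, Complex.cos]
      have e1 : cexp (I * z * a) = cexp (a * z * I) := by congr 1; ring
      have e2 : cexp (I * z * ((-a : ℝ) : ℂ)) = cexp (-(a * z) * I) := by
        congr 1
        push_cast
        ring
      rw [e1, e2]
      ring
  · intro τ H n hn hH
    induction n, hn using Nat.le_induction with
    | base => simpa using hH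
    | succ n _ ih =>
      have h1 := h6 _ _ _ _ ih hH
      have e1 : ((n + 1 : ℕ) : ℝ) * τ = n * τ + τ := by push_cast; ring
      rw [e1]
      simpa only [pow_succ] using h1

end Pool.Agent.P.MP_2fa38d_an.NA
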