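import Pool.Agent.P.MP_2fa38d_an.NA.Iface

/-! Step SIG. -/

set_option autoImplicit false

namespace Pool.Agent.P.MP_2fa38d_an.NA

open Complex MeasureTheory Set Filter Topology Metric

/-- the cut cosine -/
noncomputable def sig_h (γ : ℝ) (t : ℝ) : ℂ :=
  indicator (Icc (-1 : ℝ) 1) (fun t : ℝ => cos ((γ : ℂ) * t)) t

theorem sig_cs (γ : ℝ) : Cs 1 (sig_h γ) := by
  refine ⟨?_, ?_⟩
  · have hc : Continuous fun t : ℝ => cos ((γ : ℂ) * t) := by fun_prop
    exact (integrable_indicator_iff measurableSet_Icc).2 hc.integrableOn_Icc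
  · intro t ht
    have : t ∉ Icc (-1 : ℝ) 1 := by
      intro h
      have := abs_le.2 ⟨h.1, h.2⟩
      linarith
    simp [sig_h, indicator_of_notMem this]

theorem sig_neg (γ t : ℝ) : sig_h γ (-t) = sig_h γ t := by
  by_cases h : t ∈ Icc (-1 : ℝ) 1
  · have h' : -t ∈ Icc (-1 : ℝ) 1 := ⟨by linarith [h.2], by linarith [h.1]⟩
    simp only [sig_h, indicator_of_mem h, indicator_of_mem h']
    push_cast
    rw [mul_neg, Complex.cos_neg]
  · have h' : -t ∉ Icc (-1 : ℝ) 1 := fun h' => h ⟨by linarith [h'.2], by linarith [h'.1]⟩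
    simp only [sig_h, indicator_of_notMem h, indicator_of_notMem h']

theorem sig_even (γ : ℝ) (z : ℂ) : ft (sig_h γ) (-z) = ft (sig_h γ) z := by
  rw [ft, ft, ← integral_neg_eq_self (fun t : ℝ => sig_h γ t * cexp (-(I * z * t))) volume]
  refine integral_congr_ae (Eventually.of_forall fun t => ?_)
  simp only [sig_neg]
  push_cast
  congr 2
  ring

theorem sig_int (γ : ℝ) (z : ℂ) :
    ft (sig_h γ) z = ∫ t in (-1 : ℝ)..1, cos ((γ : ℂ) * t) * cexp (-(I * z * t)) := by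
  rw [ft, intervalIntegral.integral_of_le (by norm_num), ← integral_Icc_eq_integral_Ioc,
    ← integral_indicator measurableSet_Icc]
  refine integral_congr_ae (Eventually.of_forall fun t => ?_)
  by_cases h : t ∈ Icc (-1 : ℝ) 1
  · simp only [sig_h, indicator_of_mem h]
  · simp only [sig_h, indicator_of_notMem h, zero_mul]

theorem sig_formula (γ : ℝ) (hγ : Real.cos γ = 0) (z : ℂ) :
    ((γ : ℂ) ^ 2 - z ^ 2) * ft (sig_h γ) z = 2 * γ * sin (γ : ℂ) * cos z := by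
  have hcz : cos (γ : ℂ) = 0 := by rw [← Complex.ofReal_cos, hγ]; simp
  have hd : ∀ w : ℂ, HasDerivAt
      (fun w : ℂ => ((γ : ℂ) * sin (γ * w) - I * z * cos (γ * w)) * cexp (-(I * z * w)))
      (((γ : ℂ) ^ 2 - z ^ 2) * (cos ((γ : ℂ) * w) * cexp (-(I * z * w)))) w := by
    intro w
    have h1 : HasDerivAt (fun w : ℂ => (γ : ℂ) * w) (γ : ℂ) w := by
      simpa using (hasDerivAt_id w).const_mul (γ : ℂ)
    have h2 : HasDerivAt (fun w : ℂ => -(I * z * w)) (-(I * z)) w := by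
      have h := ((hasDerivAt_id w).const_mul (I * z)).fun_neg
      rw [mul_one] at h
      exact h
    have h3 := (((h1.csin).const_mul (γ : ℂ)).sub ((h1.ccos).const_mul (I * z))).mul h2.cexp
    refine h3.congr_deriv ?_
    simp only [Pi.sub_apply]
    linear_combination (z ^ 2 * cos ((γ : ℂ) * w) * cexp (-(I * z * w))) * I_sq
  rw [sig_int, ← intervalIntegral.integral_const_mul]
  have hcont : Continuous fun t : ℝ =>
      ((γ : ℂ) ^ 2 - z ^ 2) * (cos ((γ : ℂ) * t) * cexp (-(I * z * t))) := by fun_prop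
  rw [intervalIntegral.integral_eq_sub_of_hasDerivAt
    (f := fun t : ℝ => ((γ : ℂ) * sin (γ * t) - I * z * cos (γ * t)) * cexp (-(I * z * t)))
    (fun t _ => (hd (t : ℂ)).comp_ofReal) (hcont.intervalIntegrable _ _)]
  push_cast
  have h2 := Complex.two_cos z
  have e1 : -(I * z * 1) = -z * I := by ring
  have e2 : -(I * z * -1) = z * I := by ring
  have e3 : (γ : ℂ) * -1 = -(γ : ℂ) := by ring
  rw [e1, e2, e3, mul_one, Complex.cos_neg, Complex.sin_neg, hcz]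
  linear_combination (-((γ : ℂ) * sin (γ : ℂ))) * h2

theorem sig_cos_le (z : ℂ) : ‖cos z‖ ≤ Real.exp |z.im| := by
  have h2 := Complex.two_cos z
  have h3 : ‖cexp (z * I)‖ ≤ Real.exp |z.im| := by
    rw [Complex.norm_exp]
    apply Real.exp_le_exp.2
    simp [neg_le_abs]
  have h4 : ‖cexp (-z * I)‖ ≤ Real.exp |z.im| := by
    rw [Complex.norm_exp]
    apply Real.exp_le_exp.2
    simp [le_abs_self]
  have h5 : ‖2 * cos z‖ ≤ ‖cexp (z * I)‖ + ‖cexp (-z * I)‖ := by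
    rw [h2]; exact norm_add_le _ _
  rw [norm_mul] at h5
  have : ‖(2 : ℂ)‖ = 2 := by simp
  rw [this] at h5
  linarith

theorem sig_norm (γ : ℝ) (h0 : 0 ≤ γ) (hγ : Real.cos γ = 0) (z : ℂ) :
    ‖(γ : ℂ) ^ 2 - z ^ 2‖ * ‖ft (sig_h γ) z‖ = 2 * γ * ‖cos z‖ := by
  have hs : |Real.sin γ| = 1 := by
    have h := Real.sin_sq_add_cos_sq γ
    rw [hγ] at h
    have h' : |Real.sin γ| ^ 2 = 1 := by rw [sq_abs]; linarith
    have := abs_nonneg (Real.sin γ)
    nlinarith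
  rw [← norm_mul, sig_formula γ hγ z, norm_mul, norm_mul, norm_mul, ← Complex.ofReal_sin,
    Complex.norm_real, Complex.norm_real, Real.norm_eq_abs, Real.norm_eq_abs, hs, abs_of_nonneg h0]
  simp

theorem sig_real (γ : ℝ) (h0 : 0 ≤ γ) (hγ : Real.cos γ = 0) (t : ℝ) (ht : 0 ≤ t) :
    |t - γ| * (t + γ) * ‖ft (sig_h γ) t‖ = 2 * γ * |Real.cos t| := by
  have h := sig_norm γ h0 hγ (t : ℂ)
  have e : (γ : ℂ) ^ 2 - (t : ℂ) ^ 2 = ((-((t - γ) * (t + γ)) : ℝ) : ℂ) := by push_cast; ring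
  rw [e, ← Complex.ofReal_cos, Complex.norm_real, Complex.norm_real, Real.norm_eq_abs,
    Real.norm_eq_abs, abs_neg, abs_mul, abs_of_nonneg (by linarith : 0 ≤ t + γ)] at h
  exact h

theorem sig_sin (u : ℝ) (hu : |u| ≤ 1) : 3 / 4 * |u| ≤ |Real.sin u| := by
  have key : ∀ x : ℝ, 0 < x → x ≤ 1 → 3 / 4 * x ≤ Real.sin x := by
    intro x hx hx1
    have h := Real.sin_gt_sub_cube hx
    have hx2 : x ^ 2 ≤ 1 := by nlinarith
    have hx3 : x ^ 3 ≤ x := by nlinarith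
    linarith
  rcases lt_trichotomy u 0 with h | h | h
  · have h1 := key (-u) (by linarith) (by rw [abs_of_neg h] at hu; exact hu)
    rw [Real.sin_neg] at h1
    rw [abs_of_neg h]
    exact h1.trans (neg_le_abs _)
  · simp [h]
  · have h1 := key u h (by rw [abs_of_pos h] at hu; exact hu)
    rw [abs_of_pos h]
    exact h1.trans (le_abs_self _)

theorem sig_low (γ : ℝ) (h14 : 14 ≤ γ) (hγ : Real.cos γ = 0) (t : ℝ) (ht : |t - γ| ≤ 1)
    (hne : t ≠ γ) : 2 / 3 ≤ ‖ft (sig_h γ) t‖ := by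
  have hb := abs_le.1 ht
  have h := sig_real γ (by linarith) hγ t (by linarith [hb.1])
  have hs : |Real.sin γ| = 1 := by
    have h := Real.sin_sq_add_cos_sq γ
    rw [hγ] at h
    have h' : |Real.sin γ| ^ 2 = 1 := by rw [sq_abs]; linarith
    have := abs_nonneg (Real.sin γ)
    nlinarith
  have hc : |Real.cos t| = |Real.sin (t - γ)| := by
    have e : t = γ + (t - γ) := by ring
    rw [e, Real.cos_add, hγ, zero_mul, zero_sub, abs_neg, abs_mul, hs, one_mul]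
    congr 2
    ring
  have hsin := sig_sin (t - γ) ht
  have hpos : 0 < |t - γ| := abs_pos.2 (sub_ne_zero.2 hne)
  rw [hc] at h
  have hn := norm_nonneg (ft (sig_h γ) t)
  by_contra hlt
  push Not at hlt
  have h1 : (t + γ) * ‖ft (sig_h γ) t‖ ≤ (2 * γ + 1) * (2 / 3) :=
    mul_le_mul (by linarith [hb.2]) hlt.le hn (by linarith)
  have h2 : |t - γ| * ((t + γ) * ‖ft (sig_h γ) t‖) ≤ |t - γ| * ((2 * γ + 1) * (2 / 3)) :=
    mul_le_mul_of_nonneg_left h1 hpos.le
  have h3 : 2 * γ * (3 / 4 * |t - γ|) ≤ 2 * γ * |Real.sin (t - γ)| :=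
    mul_le_mul_of_nonneg_left hsin (by linarith)
  have h4 : |t - γ| * 14 ≤ |t - γ| * γ := mul_le_mul_of_nonneg_left h14 hpos.le
  nlinarith

theorem p_SIG (hFTTY : S_FTTY) :
    S_SIG := by
  intro γ h14 hγ
  have hT := hFTTY 1 (sig_h γ) (sig_cs γ)
  have h0 : 0 ≤ γ := by linarith
  refine ⟨ft (sig_h γ), ⟨sig_h γ, sig_cs γ, fun _ => rfl⟩, sig_even γ, ?_, ?_, ?_, ?_⟩
  · intro z hz hσ
    have h := sig_norm γ h0 hγ z
    rw [hσ, norm_zero, mul_zero] at h
    have hc : cos z = 0 := by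
      have : ‖cos z‖ = 0 := by
        rcases mul_eq_zero.1 h.symm with h1 | h1
        · linarith
        · exact h1
      exact norm_eq_zero.1 this
    obtain ⟨k, hk⟩ := Complex.cos_eq_zero_iff.1 hc
    apply hz
    have e : z = (((2 * k + 1) * Real.pi / 2 : ℝ) : ℂ) := by rw [hk]; push_cast; ring
    rw [e, Complex.ofReal_im]
  · intro t ht
    by_cases hne : t = γ
    · have hcont : Continuous fun s : ℝ => ‖ft (sig_h γ) s‖ :=
        (hT.1.continuous.comp Complex.continuous_ofReal).norm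
      have hcl : IsClosed {s : ℝ | 2 / 3 ≤ ‖ft (sig_h γ) s‖} := isClosed_le continuous_const hcont
      have hsub : Ioc γ (γ + 1) ⊆ {s : ℝ | 2 / 3 ≤ ‖ft (sig_h γ) s‖} := by
        intro s hs
        exact sig_low γ h14 hγ s (abs_le.2 ⟨by linarith [hs.1], by linarith [hs.2]⟩) hs.1.ne'
      have hmem : t ∈ closure (Ioc γ (γ + 1)) := by
        rw [closure_Ioc (by linarith : γ ≠ γ + 1), hne]
        exact ⟨le_rfl, by linarith⟩
      exact hcl.closure_subset_iff.2 hsub hmem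
    · exact sig_low γ h14 hγ t ht hne
  · intro t ht h5
    have h := sig_real γ h0 hγ t ht
    have hc := Real.abs_cos_le_one t
    have hn := norm_nonneg (ft (sig_h γ) t)
    have h1 : 5 * γ ≤ |t - γ| * (t + γ) :=
      mul_le_mul h5 (by linarith) h0 (abs_nonneg _)
    have h2 : 5 * γ * ‖ft (sig_h γ) t‖ ≤ |t - γ| * (t + γ) * ‖ft (sig_h γ) t‖ :=
      mul_le_mul_of_nonneg_right h1 hn
    have h3 : 2 * γ * |Real.cos t| ≤ 2 * γ * 1 := mul_le_mul_of_nonneg_left hc (by linarith)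
    by_contra hlt
    push Not at hlt
    have h4 : 5 * γ * (1 / 2) ≤ 5 * γ * ‖ft (sig_h γ) t‖ :=
      mul_le_mul_of_nonneg_left hlt.le (by linarith)
    linarith
  · have hA : 0 ≤ ∫ t, ‖sig_h γ t‖ := integral_nonneg fun t => norm_nonneg _
    refine ⟨(1 + 4 * γ ^ 2) * (∫ t, ‖sig_h γ t‖) + 6 * γ, fun z => ?_⟩
    have he := Real.exp_pos |z.im|
    have hn := norm_nonneg (ft (sig_h γ) z)
    have hz := norm_nonneg z
    have hAe : 0 ≤ (1 + 4 * γ ^ 2) * (∫ t, ‖sig_h γ t‖) * Real.exp |z.im| := by positivity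
    have hge : 0 ≤ γ * Real.exp |z.im| := by positivity
    by_cases hz2 : ‖z‖ ≤ 2 * γ
    · have h1 := hT.2 z
      rw [one_mul] at h1
      have h2 : 1 + ‖z‖ ^ 2 ≤ 1 + 4 * γ ^ 2 := by nlinarith
      have h3 : (1 + ‖z‖ ^ 2) * ‖ft (sig_h γ) z‖ ≤
          (1 + 4 * γ ^ 2) * ((∫ t, ‖sig_h γ t‖) * Real.exp |z.im|) :=
        mul_le_mul h2 h1 hn (by positivity)
      nlinarith
    · push Not at hz2
      have h := sig_norm γ h0 hγ z
      have h1 : ‖z‖ ^ 2 - γ ^ 2 ≤ ‖(γ : ℂ) ^ 2 - z ^ 2‖ := by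
        have := norm_sub_norm_le (z ^ 2) ((γ : ℂ) ^ 2)
        rw [norm_sub_rev, norm_pow, norm_pow, Complex.norm_real, Real.norm_eq_abs, sq_abs] at this
        exact this
      have h2 : 1 + ‖z‖ ^ 2 ≤ 3 * ‖(γ : ℂ) ^ 2 - z ^ 2‖ := by nlinarith
      have h3 : (1 + ‖z‖ ^ 2) * ‖ft (sig_h γ) z‖ ≤
          3 * ‖(γ : ℂ) ^ 2 - z ^ 2‖ * ‖ft (sig_h γ) z‖ := mul_le_mul_of_nonneg_right h2 hn
      have h4 : 2 * γ * ‖cos z‖ ≤ 2 * γ * Real.exp |z.im| :=
        mul_le_mul_of_nonneg_left (sig_cos_le z) (by linarith)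
      nlinarith

end Pool.Agent.P.MP_2fa38d_an.NA
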