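import Pool.Agent.P.MP_2fa38d_an.NA.Iface

/-! Step THETA. -/

set_option autoImplicit false

namespace Pool.Agent.P.MP_2fa38d_an.NA

open Complex MeasureTheory Set Filter Topology Metric

/-- the comparison function as a function of the quotient -/
noncomputable def theta_f (h X : ℝ) (w : ℂ) : ℂ :=
  (((h / 4 : ℝ) : ℂ) * ((X - I * h) * w) + ((3 * h ^ 2 / 4 : ℝ) : ℂ) * (w * w)) / X

theorem theta_re (h X : ℝ) (w : ℂ) : (theta_f h X w).re =
    (h / 4 * (X * w.re + h * w.im) + 3 * h ^ 2 / 4 * (w.re ^ 2 - w.im ^ 2)) / X := by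
  rw [theta_f, div_ofReal_re, add_re, re_ofReal_mul, re_ofReal_mul]
  simp [sq]

theorem theta_real {h : ℝ} (hh : 0 < h) (X x : ℝ) :
    (theta_f h X (x / (h - I * (x - X)))).re =
      x ^ 2 / X * (h ^ 2 * (h ^ 2 - (x - X) ^ 2 / 2) / (h ^ 2 + (x - X) ^ 2) ^ 2) := by
  have e : normSq ((h : ℂ) - I * (x - X)) = h ^ 2 + (x - X) ^ 2 := by
    simp [normSq_apply]; ring
  have n : h ^ 2 + (x - X) ^ 2 ≠ 0 := by positivity
  rw [theta_re, div_re, div_im, e]
  simp only [ofReal_re, ofReal_im, sub_re, sub_im, mul_re, mul_im, I_re, I_im]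
  field_simp
  ring

theorem theta_im {h X y : ℝ} (hh : 0 < h) (hy : 0 < y) (hX : h + y ≤ X) :
    h * y / (8 * X) ≤ (theta_f h X (y * I / (h - I * (y * I - X)))).re := by
  have e : normSq ((h : ℂ) - I * (y * I - X)) = (h + y) ^ 2 + X ^ 2 := by
    simp [normSq_apply]; ring
  have h0 : 0 < X := by linarith
  have h1 : (h + y) ^ 2 ≤ X ^ 2 := by gcongr
  have e1 : (y * I / (h - I * (y * I - X)) : ℂ).re = y * X / ((h + y) ^ 2 + X ^ 2) := by
    rw [div_re, e]; simp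
  have e2 : (y * I / (h - I * (y * I - X)) : ℂ).im = y * (h + y) / ((h + y) ^ 2 + X ^ 2) := by
    rw [div_im, e]; simp
  rw [theta_re, e1, e2, ← div_div]
  gcongr
  have a1 : y / 2 ≤ X * (y * X / ((h + y) ^ 2 + X ^ 2)) := by
    rw [← mul_div_assoc, div_le_div_iff₀ two_pos (by positivity)]
    nlinarith [mul_le_mul_of_nonneg_left h1 hy.le]
  have a2 : 0 ≤ h * (y * (h + y) / ((h + y) ^ 2 + X ^ 2)) := by positivity
  have a3 : (y * (h + y) / ((h + y) ^ 2 + X ^ 2)) ^ 2 ≤ (y * X / ((h + y) ^ 2 + X ^ 2)) ^ 2 := by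
    gcongr
  have a4 := mul_nonneg (show 0 ≤ 3 * h ^ 2 / 4 by positivity) (sub_nonneg.2 a3)
  nlinarith

theorem p_THETA :
    S_THETA := by
  intro ε y h0 h1 hy
  refine ⟨ε * y / 16, 2 * y, by positivity, by positivity, fun X hX => ?_⟩
  have X0 : 0 < X := by linarith
  obtain ⟨h, e⟩ : ∃ h, h = ε * X / 2 := ⟨_, rfl⟩
  have hh : 0 < h := by rw [e]; positivity
  have h4 : 4 * h ≤ X := by nlinarith
  have hD : ∀ z : ℂ, 0 ≤ z.im → h ≤ ‖(h : ℂ) - I * (z - X)‖ := fun z hz =>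
    le_trans (by simpa using hz) (re_le_norm _)
  have D0 : ∀ z : ℂ, 0 ≤ z.im → (h : ℂ) - I * (z - X) ≠ 0 := fun z hz =>
    norm_pos_iff.1 (hh.trans_le (hD z hz))
  refine ⟨fun z => theta_f h X (z / (h - I * (z - X))), fun z hz => ?_, ?_, fun x hx => ?_,
    fun x hx => ?_, ?_⟩
  · have := D0 z hz
    unfold theta_f
    fun_prop (disch := assumption)
  · obtain ⟨W, hW⟩ : ∃ W : ℝ, ∀ z : ℂ, 0 ≤ z.im → ‖z / (h - I * (z - X))‖ ≤ W := by
      refine ⟨1 + ‖(X : ℂ) - I * h‖ / h, fun z hz => ?_⟩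
      have e1 : z / (h - I * (z - X)) = I + (X - I * h) / (h - I * (z - X)) := by
        have := D0 z hz
        field_simp
        linear_combination (z - X) * I_sq
      rw [e1]
      refine (norm_add_le _ _).trans ?_
      rw [norm_I, norm_div]
      gcongr
      exact hD z hz
    refine ⟨(‖((h / 4 : ℝ) : ℂ)‖ * (‖(X : ℂ) - I * h‖ * W) +
      ‖((3 * h ^ 2 / 4 : ℝ) : ℂ)‖ * (W * W)) / ‖(X : ℂ)‖, fun z hz => ?_⟩
    have := hW z hz
    have := (norm_nonneg _).trans this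
    beta_reduce
    rw [theta_f, norm_div]
    refine div_le_div_of_nonneg_right ((norm_add_le _ _).trans ?_) (norm_nonneg _)
    simp only [norm_mul]
    gcongr
  · rw [theta_real hh]
    have a1 : h ^ 2 * (h ^ 2 - (x - X) ^ 2 / 2) / (h ^ 2 + (x - X) ^ 2) ^ 2 ≤ 1 :=
      div_le_one_of_le₀ (by
        nlinarith [sq_nonneg ((x - X) ^ 2), mul_nonneg (sq_nonneg h) (sq_nonneg (x - X))])
        (by positivity)
    refine (mul_le_of_le_one_right (by positivity) a1).trans ?_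
    obtain ⟨b1, b2⟩ := abs_le.1 hx
    rw [div_le_iff₀ X0]
    nlinarith
  · rw [theta_real hh]
    have a1 : (2 * h) ^ 2 ≤ (x - X) ^ 2 := by
      rw [← sq_abs (x - X)]; gcongr; linarith
    exact mul_nonpos_of_nonneg_of_nonpos (by positivity) (div_nonpos_of_nonpos_of_nonneg
      (mul_nonpos_of_nonneg_of_nonpos (by positivity) (by nlinarith)) (by positivity))
  · refine le_trans (le_of_eq ?_) (theta_im hh hy (by linarith))
    rw [e]; field_simp; ring

end Pool.Agent.P.MP_2fa38d_an.NA
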