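import Pool.Agent.P.MP_2fa38d_an.NA.Iface

/-! Step ZFIN. -/

set_option autoImplicit false

namespace Pool.Agent.P.MP_2fa38d_an.NA

open Complex MeasureTheory Set Filter Topology Metric

theorem zfin_fin (g : ℂ → ℂ) (hg : Differentiable ℂ g) (h0 : ∃ z, g z ≠ 0) (c : ℂ) (r : ℝ) :
    {l : ℂ | ‖l - c‖ ≤ r ∧ g l = 0}.Finite := by
  obtain ⟨x, hx⟩ := h0
  have ha : AnalyticOnNhd ℂ g univ := fun z _ => hg.analyticAt z
  have h1 := ha.preimage_zero_mem_codiscrete hx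
  have h2 : g ⁻¹' {0}ᶜ ∈ codiscreteWithin (closedBall c r) :=
    Filter.codiscreteWithin_mono (subset_univ _) h1
  refine ((isCompact_closedBall c r).finite_sdiff_of_mem_codiscreteWithin h2).subset ?_
  rintro l ⟨h3, h4⟩
  exact ⟨by simpa [mem_closedBall, dist_eq_norm] using h3, by simp [h4]⟩

theorem zfin_inf : ((fun y : ℝ => (y : ℂ) * I) '' Ioc 0 1).Infinite :=
  (Ioc_infinite zero_lt_one).image fun a _ b _ h => by
    simpa using h

theorem zfin_norm {y : ℝ} (hy : y ∈ Ioc (0:ℝ) 1) : ‖(y : ℂ) * I - 0‖ ≤ 1 := by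
  simp [abs_of_pos hy.1, hy.2]

theorem p_ZFIN :
    S_ZFIN := by
  intro g hg h0
  have ha : ∀ z, AnalyticAt ℂ g z := fun z => hg.analyticAt z
  have ht : ∀ l, analyticOrderAt g l ≠ ⊤ := by
    intro l hl
    obtain ⟨x, hx⟩ := h0
    rw [AnalyticOnNhd.analyticOrderAt_eq_top_iff_eq_zero l ha] at hl
    exact hx (by rw [hl]; rfl)
  refine ⟨zfin_fin g hg h0, fun l => ?_, fun l => ?_, fun k l hk hl => ?_, ?_, fun k hk hk0 => ?_⟩
  · rw [← (ha l).analyticOrderAt_eq_zero, ← Nat.cast_analyticOrderNatAt (ht l)]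
    simp [od]
  · have h := analyticOrderAt_comp_of_deriv_ne_zero (f := g) (g := fun z : ℂ => -z) (z₀ := -l)
      (by fun_prop) (by simp)
    simp only [neg_neg] at h
    unfold od analyticOrderNatAt
    rw [← h]
    rfl
  · have h := analyticOrderAt_mul (ha l) (hk.analyticAt l)
    rw [(hk.analyticAt l).analyticOrderAt_eq_zero.2 hl, add_zero] at h
    unfold od analyticOrderNatAt
    rw [← h]
    rfl
  · obtain ⟨_, ⟨y, hy, rfl⟩, h⟩ := zfin_inf.exists_notMem_finite (zfin_fin g hg h0 0 1)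
    exact ⟨y, hy.1, fun e => h ⟨zfin_norm hy, e⟩⟩
  · obtain ⟨_, ⟨y, hy, rfl⟩, h⟩ :=
      zfin_inf.exists_notMem_finite ((zfin_fin g hg h0 0 1).union (zfin_fin k hk hk0 0 1))
    exact ⟨y * I, mul_ne_zero (fun e => h (Or.inl ⟨zfin_norm hy, e⟩))
      (fun e => h (Or.inr ⟨zfin_norm hy, e⟩))⟩

end Pool.Agent.P.MP_2fa38d_an.NA
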