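import Pool.Agent.P.MP_2fa38d_an.NA.TFTTY
import Pool.Agent.P.MP_2fa38d_an.NA.TCVFT
import Pool.Agent.P.MP_2fa38d_an.NA.TPWOPS
import Pool.Agent.P.MP_2fa38d_an.NA.TSIG
import Pool.Agent.P.MP_2fa38d_an.NA.TFACT
import Pool.Agent.P.MP_2fa38d_an.NA.TZFIN
import Pool.Agent.P.MP_2fa38d_an.NA.TMIN
import Pool.Agent.P.MP_2fa38d_an.NA.TMARK
import Pool.Agent.P.MP_2fa38d_an.NA.THP
import Pool.Agent.P.MP_2fa38d_an.NA.TPL
import Pool.Agent.P.MP_2fa38d_an.NA.TCELL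
import Pool.Agent.P.MP_2fa38d_an.NA.TCORE
import Pool.Agent.P.MP_2fa38d_an.NA.TPEAK0
import Pool.Agent.P.MP_2fa38d_an.NA.TPEAK
import Pool.Agent.P.MP_2fa38d_an.NA.TARC
import Pool.Agent.P.MP_2fa38d_an.NA.TLEMA0
import Pool.Agent.P.MP_2fa38d_an.NA.TTHETA
import Pool.Agent.P.MP_2fa38d_an.NA.TALPHA
import Pool.Agent.P.MP_2fa38d_an.NA.TBETA0
import Pool.Agent.P.MP_2fa38d_an.NA.TBETA
import Pool.Agent.P.MP_2fa38d_an.NA.TLEMA
import Pool.Agent.P.MP_2fa38d_an.NA.TRAD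

/-! The good circle lemma, assembled. -/

set_option autoImplicit false

namespace Pool.Agent.P.MP_2fa38d_an.NA

theorem a_FTTY : S_FTTY := p_FTTY

theorem a_CVFT : S_CVFT := p_CVFT

theorem a_PWOPS : S_PWOPS := p_PWOPS a_CVFT

theorem a_SIG : S_SIG := p_SIG a_FTTY

theorem a_FACT : S_FACT := p_FACT

theorem a_ZFIN : S_ZFIN := p_ZFIN

theorem a_MIN : S_MIN := p_MIN a_FACT a_ZFIN

theorem a_MARK : S_MARK := p_MARK

theorem a_HP : S_HP := p_HP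

theorem a_PL : S_PL := p_PL a_HP

theorem a_CELL : S_CELL := p_CELL

theorem a_CORE : S_CORE := p_CORE a_ZFIN a_MIN a_MARK

theorem a_PEAK0 : S_PEAK0 := p_PEAK0 a_PWOPS a_SIG

theorem a_PEAK : S_PEAK := p_PEAK a_FTTY a_PWOPS a_PL a_PEAK0

theorem a_ARC : S_ARC := p_ARC a_ZFIN a_MIN

theorem a_LEMA0 : S_LEMA0 := p_LEMA0 a_ZFIN a_MARK a_PL a_CELL a_CORE a_PEAK a_ARC

theorem a_THETA : S_THETA := p_THETA

theorem a_ALPHA : S_ALPHA := p_ALPHA a_ZFIN a_HP a_THETA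

theorem a_BETA0 : S_BETA0 := p_BETA0 a_FACT a_ZFIN a_HP

theorem a_BETA : S_BETA := p_BETA a_ZFIN a_BETA0

theorem a_LEMA : S_LEMA := p_LEMA a_LEMA0 a_ALPHA a_BETA

theorem a_RAD : S_RAD := p_RAD

end Pool.Agent.P.MP_2fa38d_an.NA
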