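import Pool.Agent.P.MP_2fa38d_an.NA.Iface

/-! Step BLOCK. -/

set_option autoImplicit false

namespace Pool.Agent.P.MP_2fa38d_an.NA

open Complex MeasureTheory Set Filter Topology Metric

theorem block_ev {t : ℝ} {z : ℂ} (h : ‖z‖ ≠ t) :
    ∀ᶠ w in 𝓝 z, (t ≤ ‖w‖ ↔ t ≤ ‖z‖) ∧ ‖w‖ ≠ t := by
  rcases h.lt_or_gt with h | h
  · filter_upwards [(continuous_norm.tendsto z).eventually (gt_mem_nhds h)] with w hw
    exact ⟨iff_of_false hw.not_ge h.not_ge, hw.ne⟩
  · filter_upwards [(continuous_norm.tendsto z).eventually (lt_mem_nhds h)] with w hw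
    exact ⟨iff_of_true hw.le h.le, hw.ne'⟩

theorem block_loc {F g a : ℂ → ℂ} {R u : ℝ} {N : ℕ} (hF : Differentiable ℂ F)
    (h : Piece F g R u N a) {z : ℂ} (hz : ‖z‖ ≠ R) :
    AnalyticAt ℂ a z ∧ ∀ p, Van F z p → Van a z p := by
  obtain ⟨k, hk⟩ := h.1
  have e : (fun w => F w * k w) =ᶠ[𝓝 z] a := by
    filter_upwards [block_ev hz] with w hw using (hk w hw.2).2.symm
  exact ⟨((hF.analyticAt z).mul (hk z hz).1).congr e,
    fun p hp => (hp.mul_cont (hk z hz).1.continuousAt).congr e⟩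

theorem block_ite (g : ℂ → ℂ) {r R : ℝ} {z : ℂ} (h1 : ‖z‖ ≠ r) (h2 : ‖z‖ ≠ R) :
    ∀ᶠ w in 𝓝 z, (if r ≤ ‖w‖ ∧ ‖w‖ < R then g w else 0) =
      if r ≤ ‖z‖ ∧ ‖z‖ ≤ R then g w else 0 := by
  filter_upwards [block_ev h1, block_ev h2] with w e1 e2
  refine if_congr (and_congr e1.1 ?_) rfl rfl
  rw [← not_le, e2.1, not_le]
  exact ⟨le_of_lt, h2.lt_of_le⟩

theorem p_BLOCK (hFILL : S_FILL) :
    S_BLOCK := by
  intro N n
  obtain ⟨δ, N1, d0, d1, hf⟩ := hFILL (max N (n + 1))
  obtain ⟨j, hj⟩ := exists_le_om_pow (2 / δ + 1)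
  refine ⟨max (max N (n + 1)) N1 + j, fun F g a1 a2 r R u hF hr hrR hR hu hg hb h1 h2 => ?_⟩
  obtain ⟨G, hG⟩ : ∃ G : ℂ → ℂ,
      ∀ w, G w = a1 w - a2 w + if r ≤ ‖w‖ ∧ ‖w‖ < R then g w else 0 := ⟨_, fun _ => rfl⟩
  have hd : Differentiable ℂ G := fun z => AnalyticAt.differentiableAt <| by
    by_cases e2 : ‖z‖ = R
    · have e1 : ‖z‖ ≠ r := by intro e; linarith
      refine (((block_loc hF h1 e1).1.sub (h2.2.1 z e2)).add
        (hg z ⟨by linarith, e2.le⟩)).congr ?_
      filter_upwards [block_ev e1] with w hw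
      have : r ≤ ‖w‖ := hw.1.2 (by linarith)
      by_cases e : R ≤ ‖w‖
      · simp only [hG, e, e.not_gt, and_false, if_true, if_false, Pi.add_apply, Pi.sub_apply]
        ring
      · simp [hG, e, this, not_le.1 e]
    · by_cases e1 : ‖z‖ = r
      · refine ((h1.2.1 z e1).sub (block_loc hF h2 e2).1).congr ?_
        filter_upwards [block_ev e2] with w hw
        have : ‖w‖ < R := not_le.1 fun e => by linarith [hw.1.1 e]
        simp only [hG, this, and_true, Pi.sub_apply]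
        ring
      · have : AnalyticAt ℂ (fun w => if r ≤ ‖z‖ ∧ ‖z‖ ≤ R then g w else 0) z := by
          split_ifs with e
          exacts [hg z e, analyticAt_const]
        refine (((block_loc hF h1 e1).1.sub (block_loc hF h2 e2).1).add this).congr ?_
        filter_upwards [block_ite g e1 e2] with w hw
        rw [hG, hw]
        rfl
  have u0 : 0 ≤ u := by
    have := hu R (by rw [norm_real, Real.norm_of_nonneg (by linarith)]; linarith)
    exact ((mul_pos_iff_of_pos_right (by positivity)).1 (one_pos.trans_le this)).le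
  have far : ∀ z : ℂ, δ ≤ |‖z‖ - R| → ((∀ z, a1 z = 0) ∨ δ ≤ |‖z‖ - r|) →
      ‖G z‖ ≤ u * (2 / δ + 1) * om z ^ max N (n + 1) := fun z e2 e1 => by
    have m0 := om_pow_pos z (max N (n + 1))
    have pc : ∀ {t : ℝ} {a : ℂ → ℂ}, Piece F g t u N a → δ ≤ |‖z‖ - t| →
        ‖a z‖ ≤ u * om z ^ max N (n + 1) / δ := fun {t a} h e => by
      rw [le_div_iff₀ d0]
      refine (mul_le_mul_of_nonneg_left e (norm_nonneg _)).trans
        ((h.2.2 z fun e' => ?_).trans ?_)
      · rw [e', sub_self, abs_zero] at e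
        linarith
      · exact mul_le_mul_of_nonneg_left (om_pow_mono z (le_max_left _ _)) u0
    have b1 : ‖a1 z‖ ≤ u * om z ^ max N (n + 1) / δ := by
      rcases e1 with e1 | e1
      · rw [e1, norm_zero]; positivity
      · exact pc h1 e1
    have b3 : ‖if r ≤ ‖z‖ ∧ ‖z‖ < R then g z else 0‖ ≤ u * om z ^ max N (n + 1) := by
      split_ifs with e
      · have := om_pow_pos z n
        calc ‖g z‖ ≤ 1 * om z ^ n := by rw [one_mul]; exact hb z e.1 e.2.le
          _ ≤ u * (1 + ‖z‖ ^ 2) * om z ^ n := by gcongr; exact hu z e.1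
          _ ≤ u * om z * om z ^ n := by gcongr; linarith [sq_le_om z, sq_nonneg ‖z‖]
          _ = u * om z ^ (n + 1) := by ring
          _ ≤ _ := mul_le_mul_of_nonneg_left (om_pow_mono z (le_max_right _ _)) u0
      · rw [norm_zero]; positivity
    rw [hG]
    refine (norm_add_le _ _).trans
      ((add_le_add ((norm_sub_le _ _).trans (add_le_add b1 (pc h2 e2))) b3).trans_eq ?_)
    ring
  have u1 : 0 ≤ u * (2 / δ + 1) := by positivity
  refine ⟨G, ⟨hd, fun z => ?_⟩, fun z p e1 e2 hv => ?_⟩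
  · have : ‖G z‖ ≤ u * (2 / δ + 1) * om z ^ max (max N (n + 1)) N1 := by
      have m1 := mul_le_mul_of_nonneg_left (om_pow_mono z (le_max_left (max N (n + 1)) N1)) u1
      have m2 := mul_le_mul_of_nonneg_left (om_pow_mono z (le_max_right (max N (n + 1)) N1)) u1
      rcases le_total |‖z‖ - R| δ with e2 | e2
      · refine (hf R _ G hR u1 hd (fun w hw => far w hw.ge (Or.inr ?_)) z e2).trans m2
        linarith [neg_abs_le (‖w‖ - R), le_abs_self (‖w‖ - r)]
      · rcases hr with hr | hr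
        · exact (far z e2 (Or.inl hr.2)).trans m1
        · rcases le_total |‖z‖ - r| δ with e1 | e1
          · refine (hf r _ G hr u1 hd (fun w hw => far w ?_ (Or.inr hw.ge)) z e1).trans m2
            linarith [neg_le_abs (‖w‖ - R), le_abs_self (‖w‖ - r)]
          · exact (far z e2 (Or.inr e1)).trans m1
    refine this.trans ?_
    rw [pow_add, mul_assoc, mul_comm (2 / δ + 1)]
    exact mul_le_mul_of_nonneg_left (mul_le_mul_of_nonneg_left (hj z) (om_pow_pos _ _).le) u0
  · refine (((block_loc hF h1 e1).2 p hv).sub ((block_loc hF h2 e2).2 p hv)).congr ?_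
    filter_upwards [block_ite g e1 e2] with w hw
    rw [hG, hw, add_sub_cancel_right]

end Pool.Agent.P.MP_2fa38d_an.NA
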