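import Pool.Agent.P.MP_2fa38d_an.NA.Iface

/-! Step BLOCKS. -/

set_option autoImplicit false

namespace Pool.Agent.P.MP_2fa38d_an.NA

open Complex MeasureTheory Set Filter Topology Metric

lemma Rad.ge {R : ℕ → ℝ} (h : Rad R) (k : ℕ) : (k : ℝ) + 4 ≤ R k := by
  induction k with
  | zero => simpa using h.1
  | succ k ih => have := h.2.1 k; push_cast; linarith

lemma Rad.strictMono {R : ℕ → ℝ} (h : Rad R) : StrictMono R :=
  strictMono_nat_of_lt_succ fun k => by linarith [h.2.1 k]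

lemma Rad.tendsto {R : ℕ → ℝ} (h : Rad R) : Tendsto R atTop atTop :=
  tendsto_atTop_mono (fun k => by linarith [h.ge k]) tendsto_natCast_atTop_atTop

lemma Piece.mono {F g a : ℂ → ℂ} {R u u' : ℝ} {N : ℕ} (h : Piece F g R u N a) (hu : u ≤ u') :
    Piece F g R u' N a :=
  ⟨h.1, h.2.1, fun z hz => (h.2.2 z hz).trans
    (mul_le_mul_of_nonneg_right hu (om_pow_pos z N).le)⟩

lemma blocks_find {r : ℕ → ℝ} (h0 : r 0 < 0) (ht : Tendsto r atTop atTop) {t : ℝ} (h : 0 ≤ t) :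
    ∃ k, r k ≤ t ∧ t < r (k + 1) := by
  classical
  have hex : ∃ k, t < r k := (ht.eventually_gt_atTop t).exists
  have hpos : Nat.find hex ≠ 0 := fun h1 => by
    have := Nat.find_spec hex
    rw [h1] at this
    linarith
  obtain ⟨k, hk⟩ := Nat.exists_eq_succ_of_ne_zero hpos
  refine ⟨k, not_lt.1 (Nat.find_min hex (by omega)), ?_⟩
  have := Nat.find_spec hex
  rwa [hk] at this

/-- put a number in front of a sequence -/
def blocks_cons (c : ℝ) (Q : ℕ → ℝ) : ℕ → ℝ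
  | 0 => c
  | k + 1 => Q k

theorem p_BLOCKS (hCIRC : S_CIRC) (hHALF : S_HALF) (hBLOCK : S_BLOCK) :
    S_BLOCKS := by
  intro F hF hF0
  obtain ⟨B0, K, Q, hB0, hK, hQ, hG⟩ := hCIRC F hF hF0
  let R : ℕ → ℝ := blocks_cons 0 Q
  let r : ℕ → ℝ := blocks_cons (-1) Q
  let u : ℕ → ℝ := blocks_cons 1 (fun j => 1 / Q j ^ 2)
  have hQ4 : ∀ k, 4 ≤ Q k := fun k => by
    have := hQ.ge k
    have h2 : (0:ℝ) ≤ k := Nat.cast_nonneg k
    linarith
  have hRm : StrictMono R := strictMono_nat_of_lt_succ fun k => by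
    cases k with
    | zero => show (0:ℝ) < Q 0; linarith [hQ4 0]
    | succ k => show Q k < Q (k + 1); exact hQ.strictMono (Nat.lt_succ_self k)
  have hrm : StrictMono r := strictMono_nat_of_lt_succ fun k => by
    cases k with
    | zero => show (-1:ℝ) < Q 0; linarith [hQ4 0]
    | succ k => show Q k < Q (k + 1); exact hQ.strictMono (Nat.lt_succ_self k)
  have hRt : Tendsto R atTop atTop := (tendsto_add_atTop_iff_nat 1).1 hQ.tendsto
  have hrt : Tendsto r atTop atTop := (tendsto_add_atTop_iff_nat 1).1 hQ.tendsto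
  have hiff : ∀ k (z : ℂ), r k ≤ ‖z‖ ↔ R k ≤ ‖z‖ := fun k z => by
    cases k with
    | zero =>
      show (-1:ℝ) ≤ ‖z‖ ↔ (0:ℝ) ≤ ‖z‖
      exact ⟨fun _ => norm_nonneg _, fun h => by linarith⟩
    | succ k => exact Iff.rfl
  refine ⟨R, rfl, hRm, hRt, (tendsto_add_atTop_iff_nat 1).1 hQ.2.2, ?_⟩
  rintro a p hV lam ⟨A, -, B, -, hdat⟩
  choose g hga hgb hgj using hdat
  obtain ⟨n0, hn0⟩ := exp_le_om A B
  obtain ⟨N, hN⟩ := hHALF B0 K n0 hB0 hK
  obtain ⟨N', hN'⟩ := hBLOCK N n0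
  have hu : Summable u := by
    rw [← summable_nat_add_iff 1]
    show Summable (fun j => 1 / Q j ^ 2)
    have h1 : Summable (fun j : ℕ => 1 / ((j + 1 : ℕ) : ℝ) ^ 2) :=
      (summable_nat_add_iff (f := fun j : ℕ => 1 / (j : ℝ) ^ 2) 1).2
        (Real.summable_one_div_nat_pow.2 one_lt_two)
    refine Summable.of_nonneg_of_le (fun j => by positivity) (fun j => ?_) h1
    have h2 := hQ.ge j
    have h3 : (0:ℝ) ≤ j := Nat.cast_nonneg j
    push_cast
    exact one_div_le_one_div_of_le (by positivity) (by nlinarith)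
  have hblock : ∀ k, ∃ G : ℂ → ℂ, Bd (u k) N' G ∧ ∀ (z : ℂ) (q : ℕ), ‖z‖ ≠ r k → ‖z‖ ≠ Q k →
      Van F z q → Van (fun w => G w - if r k ≤ ‖z‖ ∧ ‖z‖ ≤ Q k then g k w else 0) z q := by
    intro k
    have hRk : R k ≤ Q k := (hRm (Nat.lt_succ_self k)).le
    have hout : ∃ a2, Piece F (g k) (Q k) (1 / Q k ^ 2) N a2 :=
      hN F (g k) (Q k) (hQ4 k) (hG k)
        (fun z hz => hga k z (by
          have h1 : ‖z‖ = Q k := by simpa using hz
          exact ⟨h1 ▸ hRk, h1.le⟩))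
        (fun w hw => (hgb k w (hw ▸ hRk) hw.le).trans (hn0 w))
    obtain ⟨a2, ha2⟩ := hout
    have han : AnalyticOnNhd ℂ (g k) {z : ℂ | r k ≤ ‖z‖ ∧ ‖z‖ ≤ Q k} :=
      fun z hz => hga k z ⟨(hiff k z).1 hz.1, hz.2⟩
    have hbd : ∀ z : ℂ, r k ≤ ‖z‖ → ‖z‖ ≤ Q k → ‖g k z‖ ≤ om z ^ n0 :=
      fun z h1 h2 => (hgb k z ((hiff k z).1 h1) h2).trans (hn0 z)
    cases k with
    | zero =>
      have h4 := hQ4 0
      refine hN' F (g 0) (fun _ => 0) a2 (-1) (Q 0) 1 hF.1 (Or.inl ⟨by norm_num, fun _ => rfl⟩)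
        (by linarith) h4 (fun z _ => by nlinarith [sq_nonneg ‖z‖]) han hbd
        ⟨⟨fun _ => 0, fun z _ => ⟨analyticAt_const, by simp⟩⟩,
          fun z hz => absurd hz (by linarith [norm_nonneg z]),
          fun z _ => by simpa using (om_pow_pos z N).le⟩
        (ha2.mono ?_)
      rw [div_le_one (by positivity)]
      nlinarith
    | succ k =>
      have h4 := hQ4 k
      have h5 := hQ.2.1 k
      obtain ⟨a1, ha1⟩ := hN F (g (k + 1)) (Q k) h4 (hG k)
        (fun z hz => hga (k + 1) z (by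
          have h1 : ‖z‖ = Q k := by simpa using hz
          exact ⟨h1.ge, by show ‖z‖ ≤ Q (k + 1); linarith⟩))
        (fun w hw => (hgb (k + 1) w hw.ge (by show ‖w‖ ≤ Q (k + 1); linarith)).trans (hn0 w))
      refine hN' F (g (k + 1)) a1 a2 (Q k) (Q (k + 1)) (1 / Q k ^ 2) hF.1 (Or.inr h4) h5
        (hQ4 _) (fun z hz => ?_) han hbd ha1 (ha2.mono ?_)
      · rw [one_div, inv_mul_eq_div, le_div_iff₀ (by positivity)]
        nlinarith
      · exact one_div_le_one_div_of_le (by positivity) (by nlinarith)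
  choose G hGb hGv using hblock
  have hsum := Bd.tsum hGb hu
  refine ⟨fun z => ∑' i, G i z, hsum.ee, fun n κ hκ => ?_⟩
  have hvF : Van F (a n) (p n) := (van_iff (hF.1.analyticAt _)).2 (hV n)
  have hF0n : F (a n) = 0 := hvF.apply_eq_zero (by omega)
  have hne : ∀ j, ‖a n‖ ≠ Q j := fun j hj => by
    obtain ⟨k, -, -, hl⟩ := hG j
    have := hl (a n) hj
    simp only [hF0n, zero_mul, norm_zero] at this
    exact absurd this (not_le.2 (Real.exp_pos _))
  have hner : ∀ j, ‖a n‖ ≠ r j := fun j => by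
    cases j with
    | zero => show ‖a n‖ ≠ (-1:ℝ); linarith [norm_nonneg (a n)]
    | succ j => exact hne j
  obtain ⟨k, hk1, hk2⟩ := blocks_find (r := r) (by show (-1:ℝ) < 0; norm_num) hrt
    (norm_nonneg (a n))
  have hk2' : ‖a n‖ ≤ Q k := hk2.le
  have h1 : Van (fun w => G k w - g k w) (a n) (p n) := by
    have := hGv k (a n) (p n) (hner k) (hne k) hvF
    simpa only [hk1, hk2', and_self, if_true] using this
  have h2 : ∀ m, m ≠ k → Van (G m) (a n) (p n) := fun m hm => by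
    have h3 : ¬ (r m ≤ ‖a n‖ ∧ ‖a n‖ ≤ Q m) := by
      rintro ⟨h4, h5⟩
      rcases lt_or_gt_of_ne hm with h6 | h6
      · have h7 : r (m + 1) ≤ r k := hrm.monotone h6
        exact hne m (le_antisymm h5 (le_trans h7 hk1))
      · have h7 : r (k + 1) ≤ r m := hrm.monotone h6
        linarith
    have := hGv m (a n) (p n) (hner m) (hne m) hvF
    simpa only [h3, if_false, sub_zero] using this
  have h3 := van_tsum_single hGb hu k h1 h2
  have hgk : AnalyticAt ℂ (g k) (a n) := hga k _ ⟨(hiff k _).1 hk1, hk2'⟩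
  have h4 := (jets_iff hgk (lam n) (p n)).1 (hgj k n ((hiff k _).1 hk1) hk2')
  exact (jets_iff (hsum.1.analyticAt _) (lam n) (p n)).2
    ((h3.add h4).congr' (fun z => by ring)) κ hκ

end Pool.Agent.P.MP_2fa38d_an.NA
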