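import Pool.Agent.P.MP_2fa38d_an.NA.Iface

/-! Step CIRC. -/

set_option autoImplicit false

namespace Pool.Agent.P.MP_2fa38d_an.NA

open Complex MeasureTheory Set Filter Topology Metric

theorem p_CIRC (hFTTY : S_FTTY) (hLEMA : S_LEMA) (hRAD : S_RAD) (hRED : S_RED) :
    S_CIRC := by
  intro F hE hF
  obtain ⟨b, k0, hb, hk0, hT, hev, hnz⟩ := hRED F hE hF
  obtain ⟨B, K, hB, hK, hL⟩ := hLEMA b (fun z => F z * k0 z) hb hT hev hnz
  obtain ⟨R, hR, hG⟩ := hRAD (fun R => Gc F (b + B) K R) (by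
    intro η hη
    obtain ⟨Y0, hY⟩ := hL η hη
    refine ⟨Y0, fun Y hYY => ?_⟩
    obtain ⟨R, h1, h2, H, ⟨h, hc, hH⟩, hTy, hLow⟩ := hY Y hYY
    refine ⟨R, h1, h2, fun z => k0 z * H z, ?_, ?_, ?_⟩
    · have e : H = ft h := funext hH
      exact hk0.mul (e ▸ (hFTTY B h hc).1)
    · simpa only [mul_assoc] using hTy
    · simpa only [mul_assoc] using hLow)
  exact ⟨b + B, K, R, by linarith, hK, hR, hG⟩

end Pool.Agent.P.MP_2fa38d_an.NA
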