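import Pool.Agent.P.MP_2fa38d_an.NA.Iface

/-! Step COS. -/

set_option autoImplicit false

namespace Pool.Agent.P.MP_2fa38d_an.NA

open Complex MeasureTheory Set Filter Topology Metric

lemma cos_nsq (w : ℂ) : ‖cos w‖ ^ 2 = Real.cos w.re ^ 2 + Real.sinh w.im ^ 2 := by
  have h : cos w = ((Real.cos w.re * Real.cosh w.im : ℝ) : ℂ) +
      ((-(Real.sin w.re * Real.sinh w.im) : ℝ) : ℂ) * I := by
    conv_lhs => rw [Complex.cos_eq w]
    push_cast
    ring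
  rw [h, Complex.sq_norm, Complex.normSq_add_mul_I]
  have h1 := Real.cosh_sq w.im
  have h2 := Real.sin_sq_add_cos_sq w.re
  have h3 : Real.sin w.re ^ 2 = 1 - Real.cos w.re ^ 2 := by linarith
  rw [neg_sq, mul_pow, mul_pow, h1, h3]
  ring

lemma cos_sinh_abs (b : ℝ) :
    Real.sinh b ^ 2 = ((Real.exp |b| - Real.exp (-|b|)) / 2) ^ 2 := by
  rw [← Real.sinh_eq, ← Real.abs_sinh, sq_abs]

lemma cos_up (w : ℂ) : ‖cos w‖ ≤ Real.exp |w.im| := by
  have h := cos_nsq w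
  rw [cos_sinh_abs] at h
  have h1 : Real.cos w.re ^ 2 ≤ 1 := Real.cos_sq_le_one _
  have hE : 1 ≤ Real.exp |w.im| := Real.one_le_exp (abs_nonneg _)
  have hF : 0 < Real.exp (-|w.im|) := Real.exp_pos _
  have hF1 : Real.exp (-|w.im|) ≤ 1 := Real.exp_le_one_iff.2 (by simp)
  have hm : Real.exp |w.im| * Real.exp (-|w.im|) = 1 := by rw [← Real.exp_add]; simp
  refine abs_le_of_sq_le_sq' ?_ (by positivity) |>.2
  nlinarith

lemma cos_low1 (w : ℂ) (h4 : 1 / 4 ≤ |w.im|) : 1 / 10 * Real.exp |w.im| ≤ ‖cos w‖ := by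
  have h := cos_nsq w
  rw [cos_sinh_abs] at h
  have hE : 5 / 4 ≤ Real.exp |w.im| := by
    have := Real.add_one_le_exp |w.im|
    linarith
  have hF : 0 < Real.exp (-|w.im|) := Real.exp_pos _
  have hF1 : Real.exp (-|w.im|) ≤ 1 := Real.exp_le_one_iff.2 (by simp)
  refine abs_le_of_sq_le_sq' ?_ (norm_nonneg _) |>.2
  have h5 : 1 / 10 * Real.exp |w.im| ≤ (Real.exp |w.im| - Real.exp (-|w.im|)) / 2 := by linarith
  have h6 : (1 / 10 * Real.exp |w.im|) ^ 2 ≤ ((Real.exp |w.im| - Real.exp (-|w.im|)) / 2) ^ 2 :=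
    pow_le_pow_left₀ (by positivity) h5 2
  nlinarith [sq_nonneg (Real.cos w.re)]

lemma cos_low2 (w : ℂ) (n : ℕ) (h4 : |w.im| ≤ 1 / 4) (hu : |(|w.re| - n * Real.pi)| ≤ 3 / 4) :
    1 / 10 * Real.exp |w.im| ≤ ‖cos w‖ := by
  have h := cos_nsq w
  have hE : Real.exp |w.im| ≤ 5 := by
    have h1 : Real.exp |w.im| ≤ Real.exp 1 := Real.exp_le_exp.2 (by linarith)
    have := Real.exp_one_lt_d9
    linarith
  have hc : Real.cos w.re ^ 2 = Real.cos (|w.re| - n * Real.pi) ^ 2 := by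
    rw [Real.cos_sub_nat_mul_pi, Real.cos_abs, mul_pow, ← pow_mul, mul_comm n 2, pow_mul]
    simp
  have h2 := Real.one_sub_sq_div_two_le_cos (x := |w.re| - n * Real.pi)
  have h3 : (|w.re| - n * Real.pi) ^ 2 ≤ (3 / 4) ^ 2 := by
    rw [← sq_abs]
    exact pow_le_pow_left₀ (abs_nonneg _) hu 2
  have h5 : 1 / 2 ≤ Real.cos (|w.re| - n * Real.pi) := by linarith
  have h6 : (1 / 2 : ℝ) ^ 2 ≤ Real.cos (|w.re| - n * Real.pi) ^ 2 :=
    pow_le_pow_left₀ (by norm_num) h5 2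
  have h7 : (1 / 10 * Real.exp |w.im|) ^ 2 ≤ (1 / 2 : ℝ) ^ 2 :=
    pow_le_pow_left₀ (by positivity) (by linarith) 2
  refine abs_le_of_sq_le_sq' ?_ (norm_nonneg _) |>.2
  nlinarith [sq_nonneg (Real.sinh w.im)]

theorem p_COS :
    S_COS := by
  intro T hT
  have hpi := Real.pi_pos
  have hpi4 := Real.pi_le_four
  refine ⟨1 / (2 * (T + 2)), 1 / 10, by positivity, ?_, by norm_num, fun R hR => ?_⟩
  · exact one_div_le_one_div_of_le (by norm_num) (by linarith)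
  have hR0 : 0 < R := by linarith
  obtain ⟨n, hn⟩ : ∃ n : ℕ, n = ⌈(T + 1) * R / Real.pi⌉₊ := ⟨_, rfl⟩
  have hn1 : (T + 1) * R / Real.pi ≤ n := hn ▸ Nat.le_ceil _
  have hn2 : (n : ℝ) < (T + 1) * R / Real.pi + 1 := hn ▸ Nat.ceil_lt_add_one (by positivity)
  rw [div_le_iff₀ hpi] at hn1
  rw [div_add_one hpi.ne', lt_div_iff₀ hpi] at hn2
  obtain ⟨T', hT'⟩ : ∃ T' : ℝ, T' = n * Real.pi / R := ⟨_, rfl⟩
  have hTR : T' * R = n * Real.pi := by rw [hT']; field_simp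
  have h1 : T + 1 ≤ T' := by rw [hT', le_div_iff₀ hR0]; exact hn1
  have h2 : T' ≤ T + 2 := by rw [hT', div_le_iff₀ hR0]; nlinarith
  have h0 : 0 < T' := by linarith
  have him : ∀ z : ℂ, |((T' : ℂ) * z).im| = T' * |z.im| := fun z => by
    simp [abs_mul, abs_of_pos h0]
  have hre : ∀ z : ℂ, |((T' : ℂ) * z).re| = T' * |z.re| := fun z => by
    simp [abs_mul, abs_of_pos h0]
  refine ⟨T', by linarith, h2, fun z => ?_, fun z hz => ?_⟩
  · rw [← him]; exact cos_up _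
  rw [← him]
  rcases le_total (1 / 4) |((T' : ℂ) * z).im| with h4 | h4
  · exact cos_low1 _ h4
  refine cos_low2 _ n h4 ?_
  rw [him] at h4
  rw [hre, ← hTR, ← mul_sub, abs_mul, abs_of_pos h0]
  have a1 : |z.re| ≤ ‖z‖ := Complex.abs_re_le_norm z
  have a2 : ‖z‖ ≤ |z.re| + |z.im| := Complex.norm_le_abs_re_add_abs_im z
  have a3 : |(|z.re| - R)| ≤ 1 / (2 * (T + 2)) + |z.im| := by
    have := abs_le.1 hz
    have := abs_nonneg z.im
    rw [abs_le]; constructor <;> linarith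
  have a4 : T' * (1 / (2 * (T + 2))) ≤ 1 / 2 := by
    rw [mul_one_div, div_le_iff₀ (by positivity)]; linarith
  calc T' * |(|z.re| - R)| ≤ T' * (1 / (2 * (T + 2)) + |z.im|) :=
        mul_le_mul_of_nonneg_left a3 h0.le
    _ ≤ 3 / 4 := by rw [mul_add]; linarith

end Pool.Agent.P.MP_2fa38d_an.NA
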