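import Pool.Agent.P.MP_2fa38d_an.NA.Iface

/-! Step CUT. -/

set_option autoImplicit false

namespace Pool.Agent.P.MP_2fa38d_an.NA

open Complex MeasureTheory Set Filter Topology Metric

theorem p_CUT (hLAUR : S_LAUR) :
    S_CUT := by
  intro g Φ R M hR hg hΦ hb
  have hΦa : ∀ z : ℂ, AnalyticAt ℂ Φ z := fun z => hΦ.analyticAt z
  have hu : AnalyticOnNhd ℂ (fun w => g w / Φ w) (sphere 0 R) := by
    intro z hz
    have hz' : ‖z‖ = R := by simpa using hz
    exact (hg z hz).div (hΦa z) (hb z hz').1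
  have hM : ∀ w : ℂ, ‖w‖ = R → ‖g w / Φ w‖ ≤ M := by
    intro w hw
    obtain ⟨h1, h2⟩ := hb w hw
    rw [norm_div, div_le_iff₀ (norm_pos_iff.mpr h1)]
    exact h2
  obtain ⟨q, hq1, hq2⟩ := hLAUR (fun w => g w / Φ w) R M hR hu hM
  refine ⟨q, hq1, fun z hz => ?_⟩
  have hne : ∀ᶠ w in 𝓝 z, Φ w ≠ 0 :=
    (hΦ.continuous.continuousAt).eventually_ne (hb z hz).1
  refine ((hΦa z).mul (hq2 z hz)).congr ?_
  filter_upwards [hne] with w hw
  simp only [Pi.mul_apply]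
  split_ifs with h
  · field_simp
  · simp

end Pool.Agent.P.MP_2fa38d_an.NA
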