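import Pool.Agent.P.MP_2fa38d_an.NA.Iface

/-! Step FILL. -/

set_option autoImplicit false

namespace Pool.Agent.P.MP_2fa38d_an.NA

open Complex MeasureTheory Set Filter Topology Metric

lemma fill_max {h : ℂ → ℂ} {R δ C : ℝ}
    (hd : ∀ z : ℂ, |‖z‖ - R| ≤ δ → DifferentiableAt ℂ h z)
    (hC : ∀ z : ℂ, |‖z‖ - R| = δ → ‖h z‖ ≤ C) (z : ℂ) (hz : |‖z‖ - R| ≤ δ) : ‖h z‖ ≤ C := by
  rcases hz.eq_or_lt with hz | hz
  · exact hC z hz
  have hc : Continuous fun w : ℂ => |‖w‖ - R| := by fun_prop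
  have hb : Bornology.IsBounded {w : ℂ | |‖w‖ - R| < δ} := by
    refine (isBounded_closedBall (x := (0 : ℂ)) (r := R + δ)).subset fun w hw => ?_
    have h1 : |‖w‖ - R| < δ := hw
    rw [mem_closedBall_zero_iff]
    linarith [le_abs_self (‖w‖ - R)]
  have hcl : closure {w : ℂ | |‖w‖ - R| < δ} ⊆ {w : ℂ | |‖w‖ - R| ≤ δ} :=
    closure_lt_subset_le hc continuous_const
  refine Complex.norm_le_of_forall_mem_frontier_norm_le hb ?_ (fun w hw => hC w ?_)
    (subset_closure hz)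
  · refine DifferentiableOn.diffContOnCl fun w hw => (hd w (hcl hw)).differentiableWithinAt
  · exact frontier_lt_subset_eq hc continuous_const hw

theorem p_FILL (hCOS : S_COS) :
    S_FILL := by
  intro N
  obtain ⟨δ, c, hδ, hδ4, hc, H⟩ := hCOS N (Nat.cast_nonneg N)
  obtain ⟨k, hk⟩ := exists_le_om_pow (2 ^ N / c)
  refine ⟨δ, k + (N + (N + 2)), hδ, hδ4, fun R u g hR hu hg hb z hz => ?_⟩
  obtain ⟨T, hT1, hT2, hup, hlo⟩ := H R hR
  set M : ℝ := (100 * (1 + (R + δ) ^ 2)) ^ N with hM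
  have hM0 : 0 ≤ M := by positivity
  have hne : ∀ w : ℂ, |‖w‖ - R| ≤ δ → 0 < ‖cos (T * w)‖ := fun w hw =>
    lt_of_lt_of_le (by positivity) (hlo w hw)
  have h1 : ‖g z / cos (T * z)‖ ≤ u * M / c := by
    refine fill_max (h := fun w => g w / cos (T * w)) (R := R) (δ := δ) (fun w hw => ?_)
      (fun w hw => ?_) z hz
    · exact (hg w).div (by fun_prop) (norm_pos_iff.mp (hne w hw))
    · have h2 := hb w hw
      have h3 := hlo w hw.le
      have h4 : ‖w‖ ≤ R + δ := by linarith [le_abs_self (‖w‖ - R)]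
      have h5 : om w ^ N ≤ M * Real.exp (T * |w.im|) := by
        have h6 : om w ≤ (100 * (1 + (R + δ) ^ 2)) * Real.exp |w.im| := by
          rw [om_eq]
          have h7 : ‖w‖ ^ 2 ≤ (R + δ) ^ 2 := pow_le_pow_left₀ (norm_nonneg _) h4 2
          have h8 := Real.exp_pos |w.im|
          nlinarith
        calc om w ^ N ≤ ((100 * (1 + (R + δ) ^ 2)) * Real.exp |w.im|) ^ N :=
              pow_le_pow_left₀ (om_pos w).le h6 N
          _ = M * Real.exp (N * |w.im|) := by rw [mul_pow, Real.exp_nat_mul]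
          _ ≤ M * Real.exp (T * |w.im|) := by
              gcongr
      rw [norm_div, div_le_div_iff₀ (hne w hw.le) hc]
      calc ‖g w‖ * c ≤ (u * (M * Real.exp (T * |w.im|))) * c := by
            gcongr
            exact h2.trans (by gcongr)
        _ = u * M * (c * Real.exp (T * |w.im|)) := by ring
        _ ≤ u * M * ‖cos (T * w)‖ := by gcongr
  rw [norm_div, div_le_iff₀ (hne z hz)] at h1
  have h2 : M ≤ 2 ^ N * om z ^ N := by
    rw [← mul_pow]
    refine pow_le_pow_left₀ (by positivity) ?_ N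
    have h3 := sq_le_om z
    have h4 : R - δ ≤ ‖z‖ := by linarith [neg_abs_le (‖z‖ - R)]
    have h5 : R + δ ≤ 9 / 8 * ‖z‖ + 1 / 4 := by linarith
    have h6 : (R + δ) ^ 2 ≤ (9 / 8 * ‖z‖ + 1 / 4) ^ 2 := pow_le_pow_left₀ (by linarith) h5 2
    have h7 : 0 ≤ ‖z‖ := norm_nonneg z
    nlinarith
  have h3 : ‖cos (T * z)‖ ≤ om z ^ (N + 2) := by
    refine (hup z).trans ?_
    have h4 : Real.exp |z.im| ≤ om z := by
      rw [om_eq]
      have h8 := Real.exp_pos |z.im|
      have h9 := sq_nonneg ‖z‖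
      nlinarith
    calc Real.exp (T * |z.im|) ≤ Real.exp (((N + 2 : ℕ) : ℝ) * |z.im|) := by
          gcongr
          push_cast
          exact hT2
      _ = Real.exp |z.im| ^ (N + 2) := Real.exp_nat_mul _ _
      _ ≤ om z ^ (N + 2) := pow_le_pow_left₀ (Real.exp_pos _).le h4 _
  have h4 := hk z
  have h5 := om_pow_pos z N
  have h6 := om_pow_pos z (N + 2)
  calc ‖g z‖ ≤ u * M / c * ‖cos (T * z)‖ := h1
    _ ≤ u * (2 ^ N * om z ^ N) / c * om z ^ (N + 2) := by gcongr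
    _ = u * (2 ^ N / c * (om z ^ N * om z ^ (N + 2))) := by ring
    _ ≤ u * (om z ^ k * (om z ^ N * om z ^ (N + 2))) := by gcongr
    _ = u * om z ^ (k + (N + (N + 2))) := by ring

end Pool.Agent.P.MP_2fa38d_an.NA
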