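import Pool.Agent.P.MP_2fa38d_an.NA.Iface

/-! Step HALF. -/

set_option autoImplicit false

namespace Pool.Agent.P.MP_2fa38d_an.NA

open Complex MeasureTheory Set Filter Topology Metric

lemma half_exp (z : ℂ) : Real.exp |z.im| ≤ om z := by
  rw [om_eq]
  have h1 : 0 < Real.exp |z.im| := Real.exp_pos _
  nlinarith [sq_nonneg ‖z‖, mul_nonneg h1.le (sq_nonneg ‖z‖)]

lemma half_norm (z : ℂ) : ‖z‖ ≤ om z := by
  have := sq_le_om z
  nlinarith [sq_nonneg (‖z‖ - 1), norm_nonneg z]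

lemma half_exp_pow (A : ℝ) (j : ℕ) (hj : A ≤ j) (z : ℂ) :
    Real.exp (A * |z.im|) ≤ om z ^ j := by
  calc Real.exp (A * |z.im|) ≤ Real.exp (j * |z.im|) :=
        Real.exp_le_exp.mpr (mul_le_mul_of_nonneg_right hj (abs_nonneg _))
    _ = Real.exp |z.im| ^ j := Real.exp_nat_mul _ _
    _ ≤ om z ^ j := pow_le_pow_left₀ (Real.exp_pos _).le (half_exp z) j

lemma half_om (w : ℂ) (R : ℝ) (hR : 4 ≤ R) (hw : ‖w‖ = R) (n : ℕ) :
    om w ^ n ≤ 200 ^ n * Real.exp (n * |w.im|) * R ^ (2 * n) := by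
  have h1 : om w ≤ 200 * Real.exp |w.im| * R ^ 2 := by
    rw [om_eq, hw]
    have h2 : 0 < Real.exp |w.im| := Real.exp_pos _
    have h3 : 1 ≤ R ^ 2 := by nlinarith
    nlinarith [mul_le_mul_of_nonneg_left h3 h2.le]
  calc om w ^ n ≤ (200 * Real.exp |w.im| * R ^ 2) ^ n :=
        pow_le_pow_left₀ (om_pos w).le h1 n
    _ = 200 ^ n * Real.exp (n * |w.im|) * R ^ (2 * n) := by
        rw [mul_pow, mul_pow, Real.exp_nat_mul, pow_mul]

theorem p_HALF (hCUT : S_CUT) (hCOS : S_COS) :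
    S_HALF := by
  intro B K n hB hK
  obtain ⟨δ, c, hδ, -, hc, hcos⟩ := hCOS (n + K) (by positivity)
  obtain ⟨j, hj⟩ := exists_nat_ge (B + (n + K + 2))
  obtain ⟨d, hd⟩ := exists_le_om_pow (200 ^ n * Real.exp K / c)
  refine ⟨j + (2 * n + 3) + d, fun F g R hR hG hg hgb => ?_⟩
  obtain ⟨k, hk, ⟨hFk, hup⟩, hlow⟩ := hG
  obtain ⟨T', hT1, hT2, hcu, hcl⟩ := hcos R hR
  have hR0 : 0 < R := by linarith
  set D : ℝ := 200 ^ n * Real.exp K / c with hD
  have hD0 : 0 < D := by positivity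
  have hcz : Differentiable ℂ fun z : ℂ => cos (T' * z) * z ^ (2 * n + 3) := by fun_prop
  set Φ : ℂ → ℂ := fun z => F z * k z * (cos (T' * z) * z ^ (2 * n + 3)) with hΦ
  have hΦd : Differentiable ℂ Φ := hFk.mul hcz
  have hlo : ∀ w : ℂ, ‖w‖ = R →
      Real.exp (-K) * c * Real.exp (n * |w.im|) * R ^ (2 * n + 3) ≤ ‖Φ w‖ := by
    intro w hw
    have h1 := hlow w hw
    have h2 := hcl w (by rw [hw, sub_self, abs_zero]; exact hδ.le)
    have h3 : Real.exp (-K) * Real.exp (n * |w.im|) ≤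
        Real.exp (-(K * (1 + |w.im|))) * Real.exp (T' * |w.im|) := by
      rw [← Real.exp_add, ← Real.exp_add]
      apply Real.exp_le_exp.mpr
      nlinarith [mul_le_mul_of_nonneg_right hT1 (abs_nonneg w.im)]
    have h4 : ‖Φ w‖ = ‖F w * k w‖ * (‖cos (T' * w)‖ * R ^ (2 * n + 3)) := by
      rw [hΦ]; simp only [norm_mul, norm_pow, hw]
    rw [h4]
    have h5 : 0 < R ^ (2 * n + 3) := by positivity
    calc Real.exp (-K) * c * Real.exp (n * |w.im|) * R ^ (2 * n + 3)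
        = (Real.exp (-K) * Real.exp (n * |w.im|)) * (c * R ^ (2 * n + 3)) := by ring
      _ ≤ (Real.exp (-(K * (1 + |w.im|))) * Real.exp (T' * |w.im|)) * (c * R ^ (2 * n + 3)) :=
          mul_le_mul_of_nonneg_right h3 (by positivity)
      _ = Real.exp (-(K * (1 + |w.im|))) * ((c * Real.exp (T' * |w.im|)) * R ^ (2 * n + 3)) := by
          ring
      _ ≤ ‖F w * k w‖ * (‖cos (T' * w)‖ * R ^ (2 * n + 3)) :=
          mul_le_mul h1 (mul_le_mul_of_nonneg_right h2 h5.le) (by positivity) (norm_nonneg _)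
  obtain ⟨q, hq1, hq2⟩ := hCUT g Φ R (D / R ^ 3) hR0 hg hΦd (fun w hw => by
    have h1 := hlo w hw
    have h0 : 0 < Real.exp (-K) * c * Real.exp (n * |w.im|) * R ^ (2 * n + 3) := by positivity
    refine ⟨norm_pos_iff.mp (h0.trans_le h1), ?_⟩
    calc ‖g w‖ ≤ om w ^ n := hgb w hw
      _ ≤ 200 ^ n * Real.exp (n * |w.im|) * R ^ (2 * n) := half_om w R hR hw n
      _ = D / R ^ 3 * (Real.exp (-K) * c * Real.exp (n * |w.im|) * R ^ (2 * n + 3)) := by
          rw [hD, Real.exp_neg]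
          field_simp
          ring
      _ ≤ D / R ^ 3 * ‖Φ w‖ := mul_le_mul_of_nonneg_left h1 (by positivity))
  refine ⟨fun z => Φ z * q z, ⟨fun z => k z * (cos (T' * z) * z ^ (2 * n + 3)) * q z,
    fun z hz => ⟨(((hk.mul hcz).analyticAt z)).mul (hq1 z hz).1, by rw [hΦ]; ring⟩⟩, hq2,
    fun z hz => ?_⟩
  have h1 : ‖Φ z‖ ≤ om z ^ j * om z ^ (2 * n + 3) := by
    have h4 : ‖Φ z‖ = ‖F z * k z‖ * ‖cos (T' * z)‖ * ‖z‖ ^ (2 * n + 3) := by
      rw [hΦ]; simp only [norm_mul, norm_pow]; ring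
    rw [h4]
    refine mul_le_mul ?_ (pow_le_pow_left₀ (norm_nonneg _) (half_norm z) _) (by positivity)
      (om_pow_pos z j).le
    calc ‖F z * k z‖ * ‖cos (T' * z)‖
        ≤ (1 * Real.exp (B * |z.im|)) * Real.exp (T' * |z.im|) :=
          mul_le_mul (hup z) (hcu z) (norm_nonneg _) (by positivity)
      _ = Real.exp ((B + T') * |z.im|) := by rw [one_mul, ← Real.exp_add, add_mul]
      _ ≤ om z ^ j := half_exp_pow _ j (by linarith) z
  have h2 := (hq1 z hz).2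
  have h3 : D / R ^ 3 * R = 1 / R ^ 2 * D := by field_simp
  calc ‖Φ z * q z‖ * |‖z‖ - R| = ‖Φ z‖ * (‖q z‖ * |‖z‖ - R|) := by rw [norm_mul]; ring
    _ ≤ (om z ^ j * om z ^ (2 * n + 3)) * (1 / R ^ 2 * om z ^ d) := by
        refine mul_le_mul h1 (h2.trans ?_) (by positivity) ((norm_nonneg _).trans h1)
        rw [h3]
        exact mul_le_mul_of_nonneg_left (hd z) (by positivity)
    _ = 1 / R ^ 2 * om z ^ (j + (2 * n + 3) + d) := by ring

end Pool.Agent.P.MP_2fa38d_an.NA
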