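import Pool.Agent.P.MP_2fa38d_an.NA.Iface

/-! Step LAUR. -/

set_option autoImplicit false

namespace Pool.Agent.P.MP_2fa38d_an.NA

open Complex MeasureTheory Set Filter Topology Metric

/-- Cauchy integral over the circle of radius `r` -/
noncomputable def laur_Ca (u : ℂ → ℂ) (r : ℝ) (z : ℂ) : ℂ :=
  (2 * (Real.pi : ℂ) * I)⁻¹ • ∮ w in C(0, r), (w - z)⁻¹ • u w

theorem laur_dist {r : ℝ} {w z : ℂ} (hw : ‖w‖ = r) : |‖z‖ - r| ≤ ‖w - z‖ := by
  rw [← hw, norm_sub_rev]
  exact abs_norm_sub_norm_le z w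

theorem laur_diff {u : ℂ → ℂ} {r : ℝ} (hr : 0 < r) (hu : ContinuousOn u (sphere 0 r))
    {z : ℂ} (hz : ‖z‖ ≠ r) :
    DifferentiableAt ℂ (fun z => ∮ w in C(0, r), (w - z)⁻¹ • u w) z := by
  have hd : 0 < |‖z‖ - r| := abs_pos.2 (sub_ne_zero.2 hz)
  set d : ℝ := |‖z‖ - r| with hdd
  have hcm : ∀ θ : ℝ, ‖circleMap 0 r θ‖ = r := fun θ => by
    simp [abs_of_pos hr]
  have hlow : ∀ x ∈ ball z (d / 2), ∀ θ : ℝ, d / 2 ≤ ‖circleMap 0 r θ - x‖ := by
    intro x hx θ
    have h1 : d ≤ ‖circleMap 0 r θ - z‖ := laur_dist (hcm θ)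
    have h2 : ‖x - z‖ < d / 2 := by simpa [dist_eq_norm] using hx
    have h3 : ‖circleMap 0 r θ - z‖ ≤ ‖circleMap 0 r θ - x‖ + ‖x - z‖ := by
      have := norm_add_le (circleMap 0 r θ - x) (x - z)
      simpa using this
    linarith
  have hne : ∀ x ∈ ball z (d / 2), ∀ θ : ℝ, circleMap 0 r θ - x ≠ 0 := by
    intro x hx θ h0
    have := hlow x hx θ
    rw [h0, norm_zero] at this
    linarith
  have huc : Continuous fun θ : ℝ => u (circleMap 0 r θ) :=
    hu.comp_continuous (continuous_circleMap 0 r) fun θ => by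
      simpa [mem_sphere_iff_norm] using hcm θ
  have hdc : Continuous fun θ : ℝ => deriv (circleMap 0 r) θ := by
    simp only [deriv_circleMap]
    exact (continuous_circleMap 0 r).mul continuous_const
  have hFc : ∀ x ∈ ball z (d / 2), Continuous fun θ : ℝ =>
      deriv (circleMap 0 r) θ • ((circleMap 0 r θ - x)⁻¹ • u (circleMap 0 r θ)) := by
    intro x hx
    exact hdc.smul ((((continuous_circleMap 0 r).sub continuous_const).inv₀
      (hne x hx)).smul huc)
  have hF'c : Continuous fun θ : ℝ =>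
      deriv (circleMap 0 r) θ • ((((circleMap 0 r θ - z) ^ 2)⁻¹) • u (circleMap 0 r θ)) :=
    hdc.smul (((((continuous_circleMap 0 r).sub continuous_const).pow 2).inv₀
      (fun θ => pow_ne_zero 2 (hne z (mem_ball_self (by linarith)) θ))).smul huc)
  have hball : ball z (d / 2) ∈ 𝓝 z := ball_mem_nhds z (by linarith)
  have key := intervalIntegral.hasDerivAt_integral_of_dominated_loc_of_deriv_le
    (μ := volume) (a := 0) (b := 2 * Real.pi)
    (F := fun (x : ℂ) (θ : ℝ) =>
      deriv (circleMap 0 r) θ • ((circleMap 0 r θ - x)⁻¹ • u (circleMap 0 r θ)))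
    (F' := fun (x : ℂ) (θ : ℝ) =>
      deriv (circleMap 0 r) θ • ((((circleMap 0 r θ - x) ^ 2)⁻¹) • u (circleMap 0 r θ)))
    (bound := fun θ => ‖deriv (circleMap 0 r) θ‖ * ((((d / 2) ^ 2)⁻¹) * ‖u (circleMap 0 r θ)‖))
    (x₀ := z) hball
    (Filter.eventually_of_mem hball fun x hx => (hFc x hx).aestronglyMeasurable)
    ((hFc z (mem_ball_self (by linarith))).intervalIntegrable _ _)
    hF'c.aestronglyMeasurable
    (Filter.Eventually.of_forall fun θ _ x hx => by
      rw [norm_smul, norm_smul, norm_inv, norm_pow]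
      have h1 := hlow x hx θ
      have h2 : (‖circleMap 0 r θ - x‖ ^ 2)⁻¹ ≤ ((d / 2) ^ 2)⁻¹ :=
        inv_anti₀ (by positivity) (pow_le_pow_left₀ (by linarith) h1 2)
      gcongr)
    ((hdc.norm.mul (continuous_const.mul huc.norm)).intervalIntegrable _ _)
    (Filter.Eventually.of_forall fun θ _ x hx => by
      have h1 : HasDerivAt (fun x : ℂ => circleMap 0 r θ - x) (-1) x := by
        simpa using (hasDerivAt_id x).const_sub (circleMap 0 r θ)
      have h2 := h1.inv (hne x hx θ)
      have h3 := (h2.smul_const (u (circleMap 0 r θ))).const_smul (deriv (circleMap 0 r) θ)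
      have h4 : - -1 / (circleMap 0 r θ - x) ^ 2 = ((circleMap 0 r θ - x) ^ 2)⁻¹ := by simp
      rw [h4] at h3
      exact h3)
  exact key.2.differentiableAt

theorem laur_an {u : ℂ → ℂ} {r : ℝ} (hr : 0 < r) (hu : ContinuousOn u (sphere 0 r))
    {z : ℂ} (hz : ‖z‖ ≠ r) : AnalyticAt ℂ (laur_Ca u r) z := by
  have ho : IsOpen {z : ℂ | ‖z‖ ≠ r} := isOpen_ne_fun continuous_norm continuous_const
  have hd : DifferentiableOn ℂ (laur_Ca u r) {z : ℂ | ‖z‖ ≠ r} := fun x hx =>
    ((laur_diff hr hu hx).fun_const_smul (2 * (Real.pi : ℂ) * I)⁻¹).differentiableWithinAt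
  exact hd.analyticAt (ho.mem_nhds hz)

theorem laur_out {u : ℂ → ℂ} {a b : ℝ} (ha : 0 < a) (hab : a ≤ b)
    (hu : ∀ w : ℂ, a ≤ ‖w‖ → ‖w‖ ≤ b → AnalyticAt ℂ u w) {z : ℂ} (hz : ‖z‖ < a ∨ b < ‖z‖) :
    laur_Ca u b z = laur_Ca u a z := by
  have hmem : ∀ w ∈ closedBall (0 : ℂ) b \ ball 0 a, a ≤ ‖w‖ ∧ ‖w‖ ≤ b := by
    intro w hw
    have h1 : ‖w‖ ≤ b := by simpa using hw.1
    have h2 : ¬ ‖w‖ < a := by simpa using hw.2
    exact ⟨not_lt.1 h2, h1⟩
  have hdf : ∀ w ∈ closedBall (0 : ℂ) b \ ball 0 a,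
      DifferentiableAt ℂ (fun w => (w - z)⁻¹ • u w) w := by
    intro w hw
    obtain ⟨h1, h2⟩ := hmem w hw
    have hne : w - z ≠ 0 := by
      intro h0
      rw [sub_eq_zero] at h0
      rw [h0] at h1 h2
      rcases hz with h | h <;> linarith
    exact ((differentiableAt_id.sub_const z).inv hne).smul (hu w h1 h2).differentiableAt
  unfold laur_Ca
  rw [circleIntegral_eq_of_differentiable_on_annulus_off_countable ha hab countable_empty
    (fun w hw => (hdf w hw).continuousAt.continuousWithinAt)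
    (fun w hw => hdf w ⟨ball_subset_closedBall hw.1.1,
      fun h => hw.1.2 (ball_subset_closedBall h)⟩)]

theorem laur_in {u : ℂ → ℂ} {a b : ℝ} (ha : 0 < a)
    (hu : ∀ w : ℂ, a ≤ ‖w‖ → ‖w‖ ≤ b → AnalyticAt ℂ u w) {z : ℂ} (h1 : a < ‖z‖) (h2 : ‖z‖ < b) :
    laur_Ca u a z + u z = laur_Ca u b z := by
  have hab : a ≤ b := by linarith
  have hb : 0 < b := by linarith
  have hmem : ∀ w ∈ closedBall (0 : ℂ) b \ ball 0 a, a ≤ ‖w‖ ∧ ‖w‖ ≤ b := by
    intro w hw
    have h1 : ‖w‖ ≤ b := by simpa using hw.1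
    have h2 : ¬ ‖w‖ < a := by simpa using hw.2
    exact ⟨not_lt.1 h2, h1⟩
  have hdf : ∀ w ∈ closedBall (0 : ℂ) b \ ball 0 a, DifferentiableAt ℂ (dslope u z) w := by
    intro w hw
    obtain ⟨h3, h4⟩ := hmem w hw
    by_cases hwz : w = z
    · subst hwz
      obtain ⟨p, hp⟩ := hu w h3 h4
      exact hp.has_fpower_series_dslope_fslope.analyticAt.differentiableAt
    · exact (differentiableAt_dslope_of_ne hwz).2 (hu w h3 h4).differentiableAt
  have HI := circleIntegral_eq_of_differentiable_on_annulus_off_countable ha hab countable_empty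
    (fun w hw => (hdf w hw).continuousAt.continuousWithinAt)
    (fun w hw => hdf w ⟨ball_subset_closedBall hw.1.1,
      fun h => hw.1.2 (ball_subset_closedBall h)⟩)
  have hsp : ∀ r : ℝ, 0 < r → a ≤ r → r ≤ b → ‖z‖ ≠ r →
      (∮ w in C(0, r), dslope u z w) =
        (∮ w in C(0, r), (w - z)⁻¹ • u w) - (∮ w in C(0, r), (w - z)⁻¹) • u z := by
    intro r hr hr1 hr2 hzr
    have hne : ∀ w ∈ sphere (0 : ℂ) r, w ≠ z := by
      intro w hw h0
      have : ‖w‖ = r := by simpa using hw
      rw [h0] at this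
      exact hzr this
    have hFeq : EqOn (dslope u z) (fun w => (w - z)⁻¹ • u w - (w - z)⁻¹ • u z) (sphere 0 r) :=
      fun w hw => by
        rw [dslope_of_ne _ (hne w hw), slope_def_module, smul_sub]
    have hc' : ContinuousOn (fun w => (w - z)⁻¹) (sphere (0 : ℂ) r) :=
      (continuousOn_id.sub continuousOn_const).inv₀ fun w hw => sub_ne_zero.2 <| hne w hw
    have huc : ContinuousOn u (sphere 0 r) := fun w hw => by
      have : ‖w‖ = r := by simpa using hw
      exact (hu w (this ▸ hr1) (this ▸ hr2)).continuousAt.continuousWithinAt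
    rw [circleIntegral.integral_congr hr.le hFeq, circleIntegral.integral_sub,
      circleIntegral.integral_smul_const]
    exacts [(hc'.smul huc).circleIntegrable hr.le,
      (hc'.smul continuousOn_const).circleIntegrable hr.le]
  have hA : (∮ w in C(0, a), (w - z)⁻¹) = 0 := by
    have hdz : ∀ w ∈ closedBall (0 : ℂ) a, DifferentiableAt ℂ (fun w => (w - z)⁻¹) w := by
      intro w hw
      have h3 : ‖w‖ ≤ a := by simpa using hw
      have hne : w - z ≠ 0 := by
        intro h0
        rw [sub_eq_zero] at h0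
        rw [h0] at h3
        linarith
      exact (differentiableAt_id.sub_const z).inv hne
    exact circleIntegral_eq_zero_of_differentiable_on_off_countable ha.le countable_empty
      (fun w hw => (hdz w hw).continuousAt.continuousWithinAt)
      (fun w hw => hdz w (ball_subset_closedBall hw.1))
  have hB : (∮ w in C(0, b), (w - z)⁻¹) = 2 * Real.pi * I :=
    circleIntegral.integral_sub_inv_of_mem_ball (by simpa using h2)
  rw [hsp b hb hab le_rfl h2.ne, hsp a ha le_rfl hab h1.ne', hA, hB] at HI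
  unfold laur_Ca
  have hpi : (2 * (Real.pi : ℂ) * I) ≠ 0 := two_pi_I_ne_zero
  simp only [smul_eq_mul] at HI ⊢
  have : (∮ w in C(0, b), (w - z)⁻¹ * u w) =
      (∮ w in C(0, a), (w - z)⁻¹ * u w) + 2 * Real.pi * I * u z := by
    linear_combination HI
  rw [this, mul_add, inv_mul_cancel_left₀ hpi]

theorem p_LAUR :
    S_LAUR := by
  intro u R M hR hu hM
  obtain ⟨δ, hδ, hsub⟩ := (isCompact_sphere (0 : ℂ) R).exists_cthickening_subset_open
    (isOpen_analyticAt ℂ u) (fun w hw => hu w hw)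
  set e : ℝ := min δ (R / 2) with he
  have he0 : 0 < e := lt_min hδ (by linarith)
  have he1 : e ≤ δ := min_le_left _ _
  have he2 : e ≤ R / 2 := min_le_right _ _
  have han : ∀ w : ℂ, R - e ≤ ‖w‖ → ‖w‖ ≤ R + e → AnalyticAt ℂ u w := by
    intro w h1 h2
    have hw0 : 0 < ‖w‖ := by linarith
    apply hsub
    apply mem_cthickening_of_dist_le w (((R / ‖w‖ : ℝ) : ℂ) * w) δ (sphere 0 R)
    · simp only [mem_sphere_iff_norm, sub_zero, norm_mul, norm_real, Real.norm_eq_abs]
      rw [abs_of_pos (div_pos hR hw0)]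
      field_simp
    · have h3 : w - ((R / ‖w‖ : ℝ) : ℂ) * w = (((‖w‖ - R) / ‖w‖ : ℝ) : ℂ) * w := by
        have : (‖w‖ - R) / ‖w‖ = 1 - R / ‖w‖ := by field_simp
        rw [this]
        push_cast
        ring
      rw [dist_eq_norm, h3, norm_mul, norm_real, Real.norm_eq_abs, abs_div, abs_of_pos hw0,
        div_mul_cancel₀ _ hw0.ne', abs_le]
      constructor <;> linarith
  have hcont : ∀ r : ℝ, R - e ≤ r → r ≤ R + e → ContinuousOn u (sphere 0 r) := by
    intro r h1 h2 w hw
    have : ‖w‖ = r := by simpa using hw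
    exact (han w (this ▸ h1) (this ▸ h2)).continuousAt.continuousWithinAt
  refine ⟨fun z => if ‖z‖ = R then laur_Ca u (R - e) z else laur_Ca u R z, ?_, ?_⟩
  · intro z hz
    constructor
    · have ho : IsOpen {z : ℂ | ‖z‖ ≠ R} := isOpen_ne_fun continuous_norm continuous_const
      refine (laur_an hR (hcont R (by linarith) (by linarith)) hz).congr ?_
      filter_upwards [ho.mem_nhds hz] with w hw
      exact (if_neg hw).symm
    · have hd : 0 < |‖z‖ - R| := abs_pos.2 (sub_ne_zero.2 hz)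
      simp only [if_neg hz]
      have hb : ‖laur_Ca u R z‖ ≤ R * (|‖z‖ - R|⁻¹ * M) := by
        apply circleIntegral.norm_two_pi_i_inv_smul_integral_le_of_norm_le_const hR.le
        intro w hw
        have hw' : ‖w‖ = R := by simpa using hw
        rw [norm_smul, norm_inv]
        exact mul_le_mul (inv_anti₀ hd (laur_dist hw')) (hM w hw') (norm_nonneg _)
          (inv_nonneg.2 hd.le)
      calc ‖laur_Ca u R z‖ * |‖z‖ - R| ≤ R * (|‖z‖ - R|⁻¹ * M) * |‖z‖ - R| := by gcongr
        _ = M * R := by field_simp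
  · intro z hz
    have hne : ‖z‖ ≠ R + e := by rw [hz]; linarith
    refine (laur_an (by linarith) (hcont (R + e) (by linarith) le_rfl) hne).congr ?_
    have ho : IsOpen {w : ℂ | R - e < ‖w‖ ∧ ‖w‖ < R + e} :=
      (isOpen_lt continuous_const continuous_norm).inter
        (isOpen_lt continuous_norm continuous_const)
    have hzm : z ∈ {w : ℂ | R - e < ‖w‖ ∧ ‖w‖ < R + e} := by
      constructor <;> rw [hz] <;> linarith
    filter_upwards [ho.mem_nhds hzm] with w hw
    obtain ⟨h1, h2⟩ := hw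
    have hin := laur_in (u := u) (a := R - e) (b := R + e) (by linarith) han h1 h2
    rcases lt_trichotomy ‖w‖ R with h | h | h
    · rw [if_neg h.ne, if_neg (not_le.2 h), add_zero]
      exact laur_out hR (by linarith) (fun x h3 h4 => han x (by linarith) h4) (Or.inl h)
    · rw [if_pos h, if_pos h.ge, hin]
    · rw [if_neg h.ne', if_pos h.le, ← hin]
      congr 1
      exact (laur_out (by linarith) (by linarith)
        (fun x h3 h4 => han x h3 (by linarith)) (Or.inr h)).symm

end Pool.Agent.P.MP_2fa38d_an.NA
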