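import Pool.Agent.P.MP_2fa38d_an.NA.Iface

/-! Step RED. -/

set_option autoImplicit false

namespace Pool.Agent.P.MP_2fa38d_an.NA

open Complex MeasureTheory Set Filter Topology Metric

lemma red_bound (F σ : ℂ → ℂ) (A B C : ℝ) (n : ℕ) (hA : 0 < A) (hC : 0 < C) (hn : B ≤ n)
    (hF : ∀ z : ℂ, ‖F z‖ ≤ A * Real.exp (B * rho z))
    (hσ : ∀ z : ℂ, (1 + ‖z‖ ^ 2) * ‖σ z‖ ≤ C * Real.exp |z.im|) (z : ℂ) :
    ‖F z * ((((A * C ^ n)⁻¹ : ℝ) : ℂ) * σ z ^ n)‖ ≤ Real.exp (2 * n * |z.im|) := by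
  have h1 : Real.exp (B * rho z) ≤ (Real.exp |z.im| * (1 + ‖z‖ ^ 2)) ^ n := by
    calc Real.exp (B * rho z) ≤ Real.exp (n * rho z) :=
          Real.exp_le_exp.2 (mul_le_mul_of_nonneg_right hn (rho_nonneg z))
      _ = Real.exp (rho z) ^ n := Real.exp_nat_mul _ _
      _ = _ := by
          unfold rho
          rw [Real.exp_add, Real.exp_log (by positivity)]
  have h2 : ((1 + ‖z‖ ^ 2) * ‖σ z‖) ^ n ≤ (C * Real.exp |z.im|) ^ n :=
    pow_le_pow_left₀ (by positivity) (hσ z) n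
  have hAC : 0 < A * C ^ n := by positivity
  rw [norm_mul, norm_mul, norm_pow, Complex.norm_real, Real.norm_eq_abs,
    abs_of_pos (inv_pos.2 hAC)]
  have h3 : ‖F z‖ ≤ A * (Real.exp |z.im| * (1 + ‖z‖ ^ 2)) ^ n :=
    (hF z).trans (mul_le_mul_of_nonneg_left h1 hA.le)
  have he : Real.exp (2 * n * |z.im|) = Real.exp |z.im| ^ n * Real.exp |z.im| ^ n := by
    rw [← Real.exp_nat_mul, ← Real.exp_add]; congr 1; ring
  calc ‖F z‖ * ((A * C ^ n)⁻¹ * ‖σ z‖ ^ n)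
      ≤ (A * (Real.exp |z.im| * (1 + ‖z‖ ^ 2)) ^ n) * ((A * C ^ n)⁻¹ * ‖σ z‖ ^ n) :=
        mul_le_mul_of_nonneg_right h3 (by positivity)
    _ = (A * (A * C ^ n)⁻¹ * Real.exp |z.im| ^ n) * ((1 + ‖z‖ ^ 2) * ‖σ z‖) ^ n := by
        rw [mul_pow, mul_pow]; ring
    _ ≤ (A * (A * C ^ n)⁻¹ * Real.exp |z.im| ^ n) * (C * Real.exp |z.im|) ^ n :=
        mul_le_mul_of_nonneg_left h2 (by positivity)
    _ = (A * C ^ n) * (A * C ^ n)⁻¹ * (Real.exp |z.im| ^ n * Real.exp |z.im| ^ n) := by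
        rw [mul_pow]; ring
    _ = _ := by rw [mul_inv_cancel₀ hAC.ne', one_mul, he]

theorem p_RED (hFTTY : S_FTTY) (hSIG : S_SIG) (hZFIN : S_ZFIN) :
    S_RED := by
  intro F hE hF0
  obtain ⟨hFd, A, hA, B, _, hF⟩ := hE
  obtain ⟨n, hn⟩ := exists_nat_ge B
  have hγ : (14:ℝ) ≤ 9 * Real.pi / 2 := by have := Real.pi_gt_d2; linarith
  have hc : Real.cos (9 * Real.pi / 2) = 0 := by
    have : 9 * Real.pi / 2 = Real.pi / 2 + ((2:ℕ):ℝ) * (2 * Real.pi) := by push_cast; ring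
    rw [this, Real.cos_add_nat_mul_two_pi, Real.cos_pi_div_two]
  obtain ⟨σ, ⟨h, hh, hσh⟩, hev, hne, -, -, C0, hC0⟩ := hSIG _ hγ hc
  have hσd : Differentiable ℂ σ := by
    have : σ = ft h := funext hσh
    rw [this]; exact (hFTTY 1 h hh).1
  have hC : (0:ℝ) < max C0 1 := lt_of_lt_of_le one_pos (le_max_right _ _)
  have hσ : ∀ z : ℂ, (1 + ‖z‖ ^ 2) * ‖σ z‖ ≤ max C0 1 * Real.exp |z.im| := fun z =>
    (hC0 z).trans (mul_le_mul_of_nonneg_right (le_max_left _ _) (Real.exp_pos _).le)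
  set c : ℂ := (((A * (max C0 1) ^ n)⁻¹ : ℝ) : ℂ) with hcdef
  have hc0 : c ≠ 0 := by
    rw [hcdef]
    exact Complex.ofReal_ne_zero.2 (inv_ne_zero (by positivity))
  have hb := red_bound F σ A B (max C0 1) n hA hC hn hF hσ
  have hwd : Differentiable ℂ (fun z => c * σ z ^ n) := (hσd.pow n).const_mul c
  have hw0 : ∃ z, c * σ z ^ n ≠ 0 :=
    ⟨I, mul_ne_zero hc0 (pow_ne_zero n (hne I (by simp)))⟩
  have hF1d : Differentiable ℂ (fun z => F z * (c * σ z ^ n)) := hFd.mul hwd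
  have hF10 : ∃ z, F z * (c * σ z ^ n) ≠ 0 := (hZFIN F hFd hF0).2.2.2.2.2 _ hwd hw0
  have hF2d : Differentiable ℂ (fun z => F (-z) * (c * σ (-z) ^ n)) :=
    hF1d.comp differentiable_neg
  have hF20 : ∃ z, F (-z) * (c * σ (-z) ^ n) ≠ 0 := by
    obtain ⟨z, hz⟩ := hF10
    exact ⟨-z, by simpa using hz⟩
  obtain ⟨z0, hz0⟩ := (hZFIN _ hF1d hF10).2.2.2.2.2 _ hF2d hF20
  refine ⟨4 * n, fun z => (c * σ z ^ n) * (F (-z) * (c * σ (-z) ^ n)), by positivity,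
    hwd.mul hF2d, ⟨hFd.mul (hwd.mul hF2d), fun z => ?_⟩, fun z => ?_, z0, ?_⟩
  · have e1 := hb z
    have e2 := hb (-z)
    rw [Complex.neg_im, abs_neg] at e2
    have : F z * (c * σ z ^ n * (F (-z) * (c * σ (-z) ^ n))) =
        (F z * (c * σ z ^ n)) * (F (-z) * (c * σ (-z) ^ n)) := by ring
    simp only [this]
    rw [norm_mul, one_mul]
    calc _ ≤ Real.exp (2 * n * |z.im|) * Real.exp (2 * n * |z.im|) :=
          mul_le_mul e1 e2 (norm_nonneg _) (Real.exp_pos _).le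
      _ = _ := by rw [← Real.exp_add]; congr 1; ring
  · simp only [neg_neg]; ring
  · intro h0; apply hz0; rw [← h0]; ring

end Pool.Agent.P.MP_2fa38d_an.NA
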