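import Pool.Agent.P.MP_2fa38d_an.NA.AllA
import Pool.Agent.P.MP_2fa38d_an.NA.TRED
import Pool.Agent.P.MP_2fa38d_an.NA.TCIRC
import Pool.Agent.P.MP_2fa38d_an.NA.TLAUR
import Pool.Agent.P.MP_2fa38d_an.NA.TCUT
import Pool.Agent.P.MP_2fa38d_an.NA.TCOS
import Pool.Agent.P.MP_2fa38d_an.NA.TFILL
import Pool.Agent.P.MP_2fa38d_an.NA.THALF
import Pool.Agent.P.MP_2fa38d_an.NA.TBLOCK
import Pool.Agent.P.MP_2fa38d_an.NA.TBLOCKS

/-! The block theorem, assembled. -/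

set_option autoImplicit false

namespace Pool.Agent.P.MP_2fa38d_an.NA

theorem a_RED : S_RED := p_RED a_FTTY a_SIG a_ZFIN

theorem a_CIRC : S_CIRC := p_CIRC a_FTTY a_LEMA a_RAD a_RED

theorem a_LAUR : S_LAUR := p_LAUR

theorem a_CUT : S_CUT := p_CUT a_LAUR

theorem a_COS : S_COS := p_COS

theorem a_FILL : S_FILL := p_FILL a_COS

theorem a_HALF : S_HALF := p_HALF a_CUT a_COS

theorem a_BLOCK : S_BLOCK := p_BLOCK a_FILL

theorem a_BLOCKS : S_BLOCKS := p_BLOCKS a_CIRC a_HALF a_BLOCK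

end Pool.Agent.P.MP_2fa38d_an.NA
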