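import Pool.Agent.P.MP_2fa38d_an.NA.IfaceB

/-! Step ARCI. -/

set_option autoImplicit false

namespace Pool.Agent.P.MP_2fa38d_an.NA

open Complex MeasureTheory Set Filter Topology Metric

theorem arci_int1 (c : ℝ) (hc : 0 < c) :
    ∫ θ in (0:ℝ)..Real.pi, Real.exp (-(c * θ)) ≤ 1 / c := by
  have h : ∀ x ∈ uIcc (0:ℝ) Real.pi,
      HasDerivAt (fun θ => -(Real.exp (-(c * θ))) / c) (Real.exp (-(c * x))) x := by
    intro x _
    have h1 : HasDerivAt (fun θ : ℝ => -(c * θ)) (-c) x := by
      have := ((hasDerivAt_id x).const_mul c).fun_neg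
      simpa using this
    have h2 := (h1.exp.fun_neg).div_const c
    have e : -(Real.exp (-(c * x)) * -c) / c = Real.exp (-(c * x)) := by field_simp
    rw [e] at h2
    exact h2
  rw [intervalIntegral.integral_eq_sub_of_hasDerivAt h
    (by apply Continuous.intervalIntegrable; fun_prop)]
  have := Real.exp_pos (-(c * Real.pi))
  simp only [mul_zero, neg_zero, Real.exp_zero]
  rw [← sub_div]
  apply div_le_div_of_nonneg_right _ hc.le
  linarith

theorem arci_int2 (c : ℝ) (hc : 0 < c) :
    ∫ θ in (0:ℝ)..Real.pi, Real.exp (-(c * (Real.pi - θ))) ≤ 1 / c := by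
  have := intervalIntegral.integral_comp_sub_left (a := 0) (b := Real.pi)
    (fun θ => Real.exp (-(c * θ))) Real.pi
  simp only [sub_self, sub_zero] at this
  rw [this]
  exact arci_int1 c hc

theorem arci_sin (R θ : ℝ) (hR : 0 ≤ R) (h0 : 0 ≤ θ) (h1 : θ ≤ Real.pi) :
    Real.exp (-(R * Real.sin θ)) ≤
      Real.exp (-(2 * R / Real.pi * θ)) + Real.exp (-(2 * R / Real.pi * (Real.pi - θ))) := by
  have e1 := Real.exp_pos (-(2 * R / Real.pi * θ))
  have e2 := Real.exp_pos (-(2 * R / Real.pi * (Real.pi - θ)))
  rcases le_total θ (Real.pi / 2) with h | h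
  · have := Real.mul_le_sin h0 h
    have h3 : Real.exp (-(R * Real.sin θ)) ≤ Real.exp (-(2 * R / Real.pi * θ)) := by
      apply Real.exp_le_exp.2
      have := mul_le_mul_of_nonneg_left this hR
      have e : 2 * R / Real.pi * θ = R * (2 / Real.pi * θ) := by ring
      linarith
    linarith
  · have := Real.mul_le_sin (x := Real.pi - θ) (by linarith) (by linarith)
    rw [Real.sin_pi_sub] at this
    have h3 : Real.exp (-(R * Real.sin θ)) ≤
        Real.exp (-(2 * R / Real.pi * (Real.pi - θ))) := by
      apply Real.exp_le_exp.2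
      have := mul_le_mul_of_nonneg_left this hR
      have e : 2 * R / Real.pi * (Real.pi - θ) = R * (2 / Real.pi * (Real.pi - θ)) := by ring
      linarith
    linarith

theorem arci_lim (C ε : ℝ) (hε : 0 < ε) :
    ∃ R0 : ℝ, ∀ R, R0 ≤ R → Real.pi * (R * (|C| * Real.exp (-(R / 2)))) ≤ ε := by
  have h1 : Tendsto (fun R : ℝ => R / 2) atTop atTop := tendsto_id.atTop_div_const (by norm_num)
  have h2 := ((Real.tendsto_pow_mul_exp_neg_atTop_nhds_zero 1).comp h1).const_mul
    (Real.pi * 2 * |C|)
  rw [mul_zero] at h2
  obtain ⟨R0, hR0⟩ := eventually_atTop.1 (h2.eventually (ge_mem_nhds hε))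
  refine ⟨R0, fun R hR => ?_⟩
  have := hR0 R hR
  simp only [Function.comp, pow_one] at this
  calc _ = Real.pi * 2 * |C| * (R / 2 * Real.exp (-(R / 2))) := by ring
    _ ≤ ε := this

theorem p_ARCI :
    S_ARCI := by
  intro ε hε
  have hpi := Real.pi_pos
  refine ⟨ε / (2 * Real.pi), by positivity, fun C Y => ?_⟩
  obtain ⟨R1, hR1⟩ := arci_lim C (ε / 2) (by positivity)
  refine ⟨max R1 (2 * |Y| + 1), fun R hR u hC hY => ?_⟩
  have hRa : R1 ≤ R := le_trans (le_max_left _ _) hR
  have hRb : 2 * |Y| + 1 ≤ R := le_trans (le_max_right _ _) hR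
  have hY0 := abs_nonneg Y
  have hR0 : 0 < R := by linarith
  set e := ε / (2 * Real.pi) with he
  have he0 : 0 < e := by positivity
  set c := 2 * R / Real.pi with hc
  have hc0 : 0 < c := by positivity
  have key : ‖up u R‖ ≤ ∫ θ in (0:ℝ)..Real.pi,
      (R * e * Real.exp (-(c * θ)) + R * e * Real.exp (-(c * (Real.pi - θ))) +
        R * (|C| * Real.exp (-(R / 2)))) := by
    unfold up
    apply intervalIntegral.norm_integral_le_of_norm_le hpi.le
    · refine Eventually.of_forall fun θ hθ => ?_
      have hn : ‖circleMap 0 R θ‖ = R := by simp [abs_of_pos hR0]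
      have him : (circleMap 0 R θ).im = R * Real.sin θ := by
        simp [circleMap, Complex.exp_ofReal_mul_I_im]
      have hs : 0 ≤ Real.sin θ := Real.sin_nonneg_of_nonneg_of_le_pi hθ.1.le hθ.2
      have him0 : 0 ≤ (circleMap 0 R θ).im := by rw [him]; positivity
      rw [norm_mul, norm_mul, Complex.norm_I, one_mul, hn]
      have hb : ‖u (circleMap 0 R θ)‖ ≤ e * Real.exp (-(c * θ)) +
          e * Real.exp (-(c * (Real.pi - θ))) + |C| * Real.exp (-(R / 2)) := by
        have p1 : 0 ≤ e * Real.exp (-(c * θ)) := by positivity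
        have p2 : 0 ≤ e * Real.exp (-(c * (Real.pi - θ))) := by positivity
        have p3 : 0 ≤ |C| * Real.exp (-(R / 2)) := by positivity
        rcases le_or_gt Y |(circleMap 0 R θ).re| with h | h
        · have h1 := hY _ hn him0 h
          rw [him] at h1
          have h2 := mul_le_mul_of_nonneg_left (arci_sin R θ hR0.le hθ.1.le hθ.2) he0.le
          rw [mul_add] at h2
          linarith
        · have h1 := hC _ hn him0
          have h2 := Complex.norm_le_abs_re_add_abs_im (circleMap 0 R θ)
          rw [hn, abs_of_nonneg him0] at h2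
          have h3 : R / 2 ≤ (circleMap 0 R θ).im := by
            have := le_abs_self Y
            linarith
          have h4 : C * Real.exp (-(circleMap 0 R θ).im) ≤ |C| * Real.exp (-(R / 2)) :=
            mul_le_mul (le_abs_self C) (Real.exp_le_exp.2 (by linarith)) (Real.exp_pos _).le
              (abs_nonneg C)
          linarith
      have := mul_le_mul_of_nonneg_left hb hR0.le
      calc _ ≤ _ := this
        _ = _ := by ring
    · apply Continuous.intervalIntegrable; fun_prop
  refine key.trans ?_
  rw [intervalIntegral.integral_add (by apply Continuous.intervalIntegrable; fun_prop)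
      (by apply Continuous.intervalIntegrable; fun_prop),
    intervalIntegral.integral_add (by apply Continuous.intervalIntegrable; fun_prop)
      (by apply Continuous.intervalIntegrable; fun_prop),
    intervalIntegral.integral_const_mul, intervalIntegral.integral_const_mul,
    intervalIntegral.integral_const]
  have hRe : 0 ≤ R * e := by positivity
  have i1 := mul_le_mul_of_nonneg_left (arci_int1 c hc0) hRe
  have i2 := mul_le_mul_of_nonneg_left (arci_int2 c hc0) hRe
  have i3 := hR1 R hRa
  have i4 : R * e * (1 / c) = ε / 4 := by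
    rw [he, hc]; field_simp; ring
  simp only [sub_zero, smul_eq_mul]
  linarith

end Pool.Agent.P.MP_2fa38d_an.NA
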