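import Pool.Agent.P.MP_2fa38d_an.NA.IfaceB

/-! Step CIRCI. -/

set_option autoImplicit false

namespace Pool.Agent.P.MP_2fa38d_an.NA

open Complex MeasureTheory Set Filter Topology Metric

theorem p_CIRCI (hFTTY : S_FTTY) (hPWOPS : S_PWOPS) (hZFIN : S_ZFIN) (hLEMA : S_LEMA) (hRAD : S_RAD) :
    S_CIRCI := by
  intro b φ hb hφ hne
  obtain ⟨hFd, hFb⟩ := hFTTY b φ hφ
  set J : ℝ := ∫ t, ‖φ t‖ with hJ
  have hJ0 : 0 ≤ J := integral_nonneg (fun t => norm_nonneg _)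
  have ha : 0 < J + 1 := by linarith
  set c : ℝ := ((J + 1)⁻¹) ^ 2 with hc
  have hc0 : 0 < c := by positivity
  have hcJ : c * (J * J) ≤ 1 := by
    have h1 : (J + 1)⁻¹ * J ≤ 1 := by
      rw [inv_mul_le_iff₀ ha]; linarith
    have h2 : 0 ≤ (J + 1)⁻¹ * J := by positivity
    have h3 : c * (J * J) = ((J + 1)⁻¹ * J) * ((J + 1)⁻¹ * J) := by rw [hc]; ring
    rw [h3]
    nlinarith
  have hkd : Differentiable ℂ (fun z : ℂ => (c : ℂ) * ft φ (-z)) :=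
    (hFd.comp differentiable_neg).const_mul _
  have hTy : Ty 1 (2 * b) (fun z : ℂ => ft φ z * ((c : ℂ) * ft φ (-z))) := by
    refine ⟨hFd.mul hkd, fun z => ?_⟩
    have h1 := hFb z
    have h2 := hFb (-z)
    rw [Complex.neg_im, abs_neg] at h2
    have hE : Real.exp (2 * b * |z.im|) = Real.exp (b * |z.im|) * Real.exp (b * |z.im|) := by
      rw [← Real.exp_add]; ring_nf
    have hE0 : 0 < Real.exp (b * |z.im|) := Real.exp_pos _
    rw [norm_mul, norm_mul, Complex.norm_real, Real.norm_of_nonneg hc0.le, hE]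
    have h3 : ‖ft φ z‖ * ‖ft φ (-z)‖ ≤ (J * Real.exp (b * |z.im|)) * (J * Real.exp (b * |z.im|)) :=
      mul_le_mul h1 h2 (norm_nonneg _) (by positivity)
    calc ‖ft φ z‖ * (c * ‖ft φ (-z)‖) = c * (‖ft φ z‖ * ‖ft φ (-z)‖) := by ring
      _ ≤ c * ((J * Real.exp (b * |z.im|)) * (J * Real.exp (b * |z.im|))) :=
          mul_le_mul_of_nonneg_left h3 hc0.le
      _ = (c * (J * J)) * (Real.exp (b * |z.im|) * Real.exp (b * |z.im|)) := by ring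
      _ ≤ 1 * (Real.exp (b * |z.im|) * Real.exp (b * |z.im|)) :=
          mul_le_mul_of_nonneg_right hcJ (by positivity)
  have hev : ∀ z : ℂ, ft φ (-z) * ((c : ℂ) * ft φ (-(-z))) = ft φ z * ((c : ℂ) * ft φ (-z)) := by
    intro z; rw [neg_neg]; ring
  have hnz : ∃ z : ℂ, ft φ z * ((c : ℂ) * ft φ (-z)) ≠ 0 := by
    refine (hZFIN (ft φ) hFd hne).2.2.2.2.2 (fun z : ℂ => (c : ℂ) * ft φ (-z)) hkd ?_
    obtain ⟨z0, hz0⟩ := hne
    refine ⟨-z0, ?_⟩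
    rw [neg_neg]
    exact mul_ne_zero (by exact_mod_cast hc0.ne') hz0
  obtain ⟨B, K, hB, hK, hη⟩ := hLEMA (2 * b) (fun z : ℂ => ft φ z * ((c : ℂ) * ft φ (-z)))
    (by linarith) hTy hev hnz
  obtain ⟨R, hR, hG⟩ := hRAD (fun R : ℝ => ∃ H : ℂ → ℂ, PW B H ∧
      Ty 1 (2 * b + B) (fun z => ft φ z * ((c : ℂ) * ft φ (-z)) * H z) ∧
      Low K R (fun z => ft φ z * ((c : ℂ) * ft φ (-z)) * H z)) hη
  refine ⟨b + B, K, R, by linarith, hK, hR, fun k => ?_⟩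
  obtain ⟨H, hH, hT, hL⟩ := hG k
  have hPF : PW b (ft φ) := ⟨φ, hφ, fun _ => rfl⟩
  have hP1 : PW b (fun z : ℂ => ft φ (-z)) := hPWOPS.2.2.1 b _ hPF
  have hP2 : PW b (fun z : ℂ => (c : ℂ) * ft φ (-z)) := hPWOPS.2.1 b _ (c : ℂ) hP1
  have hP3 : PW (b + B) (fun z : ℂ => ((c : ℂ) * ft φ (-z)) * H z) :=
    hPWOPS.2.2.2.2.2.1 b B _ _ hP2 hH
  refine ⟨fun z : ℂ => ((c : ℂ) * ft φ (-z)) * H z, hP3, fun x => ?_, fun z hz => ?_⟩
  · have h1 := hT.2 (x : ℂ)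
    simp only [Complex.ofReal_im, abs_zero, mul_zero, Real.exp_zero, mul_one] at h1
    rw [← mul_assoc]
    exact h1
  · have h1 := hL z hz
    simp only at h1 ⊢
    rw [← mul_assoc]
    exact h1

end Pool.Agent.P.MP_2fa38d_an.NA
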