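import Pool.Agent.P.MP_2fa38d_an.NA.IfaceB

/-! Step DER. -/

set_option autoImplicit false

namespace Pool.Agent.P.MP_2fa38d_an.NA

open Complex MeasureTheory Set Filter Topology Metric

theorem der_par (g c : ℝ → ℂ) (hg : Continuous g) (hc : Continuous c) (a b x : ℝ) :
    HasDerivAt (fun y : ℝ => ∫ θ in a..b, g θ * cexp (I * c θ * y))
      (∫ θ in a..b, g θ * (I * c θ * cexp (I * c θ * x))) x := by
  have hcont : ∀ y : ℝ, Continuous (fun θ => g θ * cexp (I * c θ * y)) := fun y => by fun_prop
  have hcont' : ∀ y : ℝ, Continuous (fun θ => g θ * (I * c θ * cexp (I * c θ * y))) :=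
    fun y => by fun_prop
  have hb : ∀ (θ y : ℝ), y ∈ ball x 1 →
      ‖g θ * (I * c θ * cexp (I * c θ * y))‖ ≤
        ‖g θ‖ * (‖c θ‖ * Real.exp (‖c θ‖ * (|x| + 1))) := by
    intro θ y hy
    have hy' : |y| ≤ |x| + 1 := by
      have h1 : |y - x| < 1 := by simpa [Real.dist_eq] using hy
      have h2 : |y| ≤ |y - x| + |x| := by
        have := abs_add_le (y - x) x
        simpa using this
      linarith
    rw [norm_mul, norm_mul, norm_mul, norm_I, one_mul]
    refine mul_le_mul_of_nonneg_left (mul_le_mul_of_nonneg_left ?_ (norm_nonneg _))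
      (norm_nonneg _)
    refine (Complex.norm_exp_le_exp_norm _).trans (Real.exp_le_exp.2 ?_)
    rw [norm_mul, norm_mul, norm_I, one_mul, Complex.norm_real, Real.norm_eq_abs]
    exact mul_le_mul_of_nonneg_left hy' (norm_nonneg _)
  refine (intervalIntegral.hasDerivAt_integral_of_dominated_loc_of_deriv_le
    (F := fun (y : ℝ) θ => g θ * cexp (I * c θ * y))
    (F' := fun (y : ℝ) θ => g θ * (I * c θ * cexp (I * c θ * y)))
    (bound := fun θ => ‖g θ‖ * (‖c θ‖ * Real.exp (‖c θ‖ * (|x| + 1))))
    (ball_mem_nhds x one_pos)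
    (Eventually.of_forall fun y => (hcont y).aestronglyMeasurable)
    ((hcont x).intervalIntegrable _ _) (hcont' x).aestronglyMeasurable
    (Eventually.of_forall fun θ _ y hy => hb θ y hy)
    (Continuous.intervalIntegrable (by fun_prop) _ _)
    (Eventually.of_forall fun θ _ y _ => ?_)).2
  have h1 : HasDerivAt (fun y : ℝ => (y : ℂ)) 1 y := Complex.ofRealCLM.hasDerivAt
  have h2 : HasDerivAt (fun y : ℝ => I * c θ * (y : ℂ)) (I * c θ * 1) y := h1.const_mul _
  have h3 := (h2.cexp).const_mul (g θ)
  refine h3.congr_deriv ?_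
  ring

theorem der_cont (F N : ℂ → ℂ) (R : ℝ) (hR : 0 < R) (hF : Continuous F) (hN : Continuous N)
    (h0 : ∀ z : ℂ, ‖z‖ = R → F z ≠ 0) :
    Continuous (fun θ : ℝ => circleMap 0 R θ * I * (N (circleMap 0 R θ) / F (circleMap 0 R θ))) := by
  have hc : Continuous (circleMap 0 R) := continuous_circleMap 0 R
  refine (hc.mul continuous_const).mul ((hN.comp hc).div (hF.comp hc) fun θ => h0 _ ?_)
  simp [abs_of_pos hR]

theorem p_DER :
    S_DER := by
  refine ⟨fun F N R x hR hF hN h0 => ?_, fun F N N' E R x hR hF hN' hE h0 hNE => ?_⟩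
  · have h := (der_par _ _ (der_cont F N R hR hF hN h0) (continuous_circleMap 0 R)
      0 (2 * Real.pi) x).const_mul (2 * (Real.pi : ℂ))⁻¹
    have e1 : SS F N R = fun y : ℝ => (2 * (Real.pi : ℂ))⁻¹ * ∫ θ in (0:ℝ)..(2 * Real.pi),
        circleMap 0 R θ * I * (N (circleMap 0 R θ) / F (circleMap 0 R θ)) *
          cexp (I * circleMap 0 R θ * y) := by
      funext y
      unfold SS circleIntegral
      congr 1
      refine intervalIntegral.integral_congr fun θ _ => ?_
      simp only [deriv_circleMap, smul_eq_mul]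
      ring
    have e2 : SS F (fun z => I * z * N z) R x =
        (2 * (Real.pi : ℂ))⁻¹ * ∫ θ in (0:ℝ)..(2 * Real.pi),
        circleMap 0 R θ * I * (N (circleMap 0 R θ) / F (circleMap 0 R θ)) *
          (I * circleMap 0 R θ * cexp (I * circleMap 0 R θ * x)) := by
      unfold SS circleIntegral
      congr 1
      refine intervalIntegral.integral_congr fun θ _ => ?_
      simp only [deriv_circleMap, smul_eq_mul]
      ring
    rw [e1, e2]
    exact h
  · unfold SS
    congr 1
    have hs : ∀ z ∈ sphere (0 : ℂ) R, ‖z‖ = R := fun z hz => by simpa using hz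
    have hE' : Differentiable ℂ (fun z : ℂ => cexp (I * z * x) * E z) := by fun_prop
    have i1 : CircleIntegrable (fun z : ℂ => cexp (I * z * x) * N' z / F z) 0 R := by
      refine ContinuousOn.circleIntegrable hR.le ?_
      refine ContinuousOn.div (Continuous.continuousOn (by fun_prop)) hF.continuousOn
        fun z hz => h0 z (hs z hz)
    have i2 : CircleIntegrable (fun z : ℂ => cexp (I * z * x) * E z) 0 R :=
      ContinuousOn.circleIntegrable hR.le hE'.continuous.continuousOn
    have z2 : (∮ z in C(0, R), cexp (I * z * x) * E z) = 0 :=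
      DiffContOnCl.circleIntegral_eq_zero hR.le hE'.diffContOnCl
    have e : (∮ z in C(0, R), cexp (I * z * x) * N z / F z) =
        ∮ z in C(0, R), (cexp (I * z * x) * N' z / F z + cexp (I * z * x) * E z) := by
      refine circleIntegral.integral_congr hR.le fun z hz => ?_
      have hz0 := h0 z (hs z hz)
      have hN : N z = N' z + F z * E z := by rw [← hNE z]; ring
      simp only [hN]
      field_simp
    rw [e, circleIntegral.integral_add i1 i2, z2, add_zero]

end Pool.Agent.P.MP_2fa38d_an.NA
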