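import Pool.Agent.P.MP_2fa38d_an.NA.IfaceB

/-! Step DINI. -/

set_option autoImplicit false

namespace Pool.Agent.P.MP_2fa38d_an.NA

open Complex MeasureTheory Set Filter Topology Metric

theorem dini_cut (g : ℝ → ℂ) (B L : ℝ) (hg : ContDiff ℝ 1 g) (hB : 0 < B) (hL : B < L) :
    ∃ w : ℝ → ℂ, ContDiff ℝ 1 w ∧ HasCompactSupport w ∧ (∀ t, |t| ≤ B → w t = g t) ∧
      ∀ t, L ≤ |t| → w t = 0 := by
  let ψ : ContDiffBump (0 : ℝ) := ⟨B, L, hB, hL⟩
  refine ⟨fun t => ((ψ t : ℝ) : ℂ) * g t, ?_, ?_, fun t ht => ?_, fun t ht => ?_⟩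
  · exact (ofRealCLM.contDiff.comp ψ.contDiff).mul hg
  · have h1 : HasCompactSupport fun t : ℝ => ((ψ t : ℝ) : ℂ) :=
      ψ.hasCompactSupport.comp_left (g := fun x : ℝ => (x : ℂ)) ofReal_zero
    exact h1.mul_right
  · have h1 : ψ t = 1 := ψ.one_of_mem_closedBall (by simpa [Real.dist_eq] using ht)
    simp [h1]
  · have h1 : ψ t = 0 := ψ.zero_of_le_dist (by simpa [Real.dist_eq] using ht)
    simp [h1]

theorem dini_ei (w : ℝ → ℂ) (L : ℝ) (h0 : ∀ t, L ≤ |t| → w t = 0) (z : ℂ) :
    EI w (-L) L z = ft w z := by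
  unfold EI ft
  refine intervalIntegral.integral_eq_integral_of_support_subset fun t ht => ?_
  have h1 : ¬ L ≤ |t| := fun h => ht (by simp [h0 t h])
  have h2 := abs_lt.1 (not_le.1 h1)
  exact ⟨h2.1, h2.2.le⟩

theorem p_DINI (hDIR : S_DIR) (hLOC : S_LOC) (hL1FT : S_L1FT) (hINV : S_INV) :
    S_DINI := by
  intro g A L hg hAL
  rcases lt_or_ge A 0 with hA | hA
  · rw [Icc_eq_empty (by linarith)]
    exact tendstoUniformlyOn_empty
  obtain ⟨B, hB⟩ : ∃ B : ℝ, B = (A + L) / 2 := ⟨_, rfl⟩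
  have hAB : A < B := by linarith
  have hBL : B < L := by linarith
  obtain ⟨w, w1, w2, w3, w4⟩ := dini_cut g B L hg (by linarith) hBL
  have wc : Continuous w := w1.continuous
  have dc : Continuous fun t => g t - w t := hg.continuous.sub wc
  have h1 := (hINV w wc (wc.integrable_of_hasCompactSupport w2)
    (hL1FT w w1 w2)).tendstoUniformlyOn (s := Icc (-A) A)
  obtain ⟨h2, h3⟩ := hLOC (fun t => g t - w t) A B L dc hAB hBL.le
  have h4 := (h1.add h2).add h3
  have key : ∀ R x : ℝ, (∫ t in (-L)..L, g t * dk R (x - t)) =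
      (2 * (Real.pi : ℂ))⁻¹ * (∫ ξ in (-R)..R, cexp (I * ξ * x) * ft w ξ) +
        (∫ t in B..L, (g t - w t) * dk R (x - t)) +
        ∫ t in (-L)..(-B), (g t - w t) * dk R (x - t) := by
    intro R x
    have a1 := (hDIR w (-L) L R x wc).2
    simp only [dini_ei w L w4] at a1
    have a2 := intervalIntegral.integral_add_adjacent_intervals
      (hDIR _ (-L) (-B) R x dc).1 (hDIR _ (-B) B R x dc).1
    have a3 := intervalIntegral.integral_add_adjacent_intervals
      (hDIR _ (-L) B R x dc).1 (hDIR _ B L R x dc).1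
    have a4 : (∫ t in (-B)..B, (g t - w t) * dk R (x - t)) = 0 := by
      rw [← intervalIntegral.integral_zero (a := -B) (b := B) (μ := volume) (E := ℂ)]
      refine intervalIntegral.integral_congr fun t ht => ?_
      rw [uIcc_of_le (by linarith)] at ht
      simp [w3 t (abs_le.2 ht)]
    have a5 := intervalIntegral.integral_add (hDIR w (-L) L R x wc).1 (hDIR _ (-L) L R x dc).1
    have a6 : (∫ t in (-L)..L, g t * dk R (x - t)) =
        ∫ t in (-L)..L, (w t * dk R (x - t) + (g t - w t) * dk R (x - t)) :=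
      intervalIntegral.integral_congr fun t _ => by ring
    rw [a6, a5, a1, ← a3, ← a2, a4]
    ring
  refine (h4.congr ?_).congr_right ?_
  · refine Eventually.of_forall fun R x _ => ?_
    simp only [Pi.add_apply]
    exact (key R x).symm
  · intro x hx
    simp only [Pi.add_apply, add_zero]
    exact w3 x (abs_le.2 ⟨by linarith [hx.1], by linarith [hx.2]⟩)

end Pool.Agent.P.MP_2fa38d_an.NA
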