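import Pool.Agent.P.MP_2fa38d_an.NA.IfaceB

/-! Step DIR. -/

set_option autoImplicit false

namespace Pool.Agent.P.MP_2fa38d_an.NA

open Complex MeasureTheory Set Filter Topology Metric

theorem dir_swap (F : ℝ → ℝ → ℂ) (hF : Continuous (Function.uncurry F)) (a b c d : ℝ) :
    (∫ x in a..b, ∫ y in c..d, F x y) = ∫ y in c..d, ∫ x in a..b, F x y := by
  have hint : Integrable (Function.uncurry F)
      ((volume.restrict (uIoc a b)).prod (volume.restrict (uIoc c d))) := by
    rw [Measure.prod_restrict, ← Measure.volume_eq_prod]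
    have hc : IsCompact ((uIcc a b) ×ˢ (uIcc c d)) := isCompact_uIcc.prod isCompact_uIcc
    exact (hF.continuousOn.integrableOn_compact hc).mono_set
      (Set.prod_mono uIoc_subset_uIcc uIoc_subset_uIcc)
  have h := intervalIntegral_integral_swap (μ := volume.restrict (uIoc c d)) hint
  simp only [intervalIntegral.intervalIntegral_eq_integral_uIoc (a := c) (b := d)]
  rw [intervalIntegral.integral_smul, h]

theorem dir_ker (R u : ℝ) (hu : u ≠ 0) :
    (2 * (Real.pi : ℂ))⁻¹ * (∫ ξ in (-R)..R, cexp (I * u * ξ)) = dk R u := by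
  have hu' : (u : ℂ) ≠ 0 := by exact_mod_cast hu
  have hp : (Real.pi : ℂ) ≠ 0 := by exact_mod_cast Real.pi_ne_zero
  have h1 : I * (u : ℂ) ≠ 0 := mul_ne_zero I_ne_zero hu'
  rw [integral_exp_mul_complex h1]
  unfold dk
  push_cast
  rw [Complex.sin]
  have e1 : I * (u : ℂ) * (R : ℂ) = (R : ℂ) * u * I := by ring
  have e2 : I * (u : ℂ) * (-(R : ℂ)) = -((R : ℂ) * u) * I := by ring
  rw [e1, e2]
  field_simp
  ring_nf
  rw [I_sq]
  ring

theorem p_DIR :
    S_DIR := by
  intro f a c R x hf
  have hae : ∀ᵐ t : ℝ, t ≠ x := by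
    rw [ae_iff]
    simp
  have hFc : Continuous (Function.uncurry fun (ξ t : ℝ) =>
      f t * cexp (I * ((x - t : ℝ) : ℂ) * ξ)) := by
    unfold Function.uncurry
    fun_prop
  have hKc : Continuous fun t : ℝ => f t *
      ((2 * (Real.pi : ℂ))⁻¹ * ∫ ξ in (-R)..R, cexp (I * ((x - t : ℝ) : ℂ) * ξ)) := by
    refine hf.mul (continuous_const.mul ?_)
    apply intervalIntegral.continuous_parametric_intervalIntegral_of_continuous'
    unfold Function.uncurry
    fun_prop
  have heq : ∀ᵐ t : ℝ, f t *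
      ((2 * (Real.pi : ℂ))⁻¹ * ∫ ξ in (-R)..R, cexp (I * ((x - t : ℝ) : ℂ) * ξ)) =
      f t * dk R (x - t) := by
    filter_upwards [hae] with t ht
    rw [dir_ker R (x - t) (sub_ne_zero.mpr (Ne.symm ht))]
  refine ⟨(hKc.intervalIntegrable a c).congr_ae (ae_restrict_of_ae heq), ?_⟩
  have h1 : (∫ ξ in (-R)..R, cexp (I * ξ * x) * EI f a c ξ) =
      ∫ ξ in (-R)..R, ∫ t in a..c, f t * cexp (I * ((x - t : ℝ) : ℂ) * (ξ : ℝ)) := by
    refine intervalIntegral.integral_congr fun ξ _ => ?_
    simp only [EI]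
    rw [← intervalIntegral.integral_const_mul]
    refine intervalIntegral.integral_congr fun t _ => ?_
    have : cexp (I * ((x - t : ℝ) : ℂ) * (ξ : ℝ)) =
        cexp (I * ξ * x) * cexp (-(I * ξ * t)) := by
      rw [← Complex.exp_add]
      congr 1
      push_cast
      ring
    simp only [this]
    ring
  rw [h1, dir_swap _ hFc, ← intervalIntegral.integral_const_mul]
  refine intervalIntegral.integral_congr_ae ?_
  filter_upwards [heq] with t ht _
  rw [← ht, intervalIntegral.integral_const_mul]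
  ring

end Pool.Agent.P.MP_2fa38d_an.NA
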