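import Pool.Agent.P.MP_2fa38d_an.NA.IfaceB

/-! Step EQC. -/

set_option autoImplicit false

namespace Pool.Agent.P.MP_2fa38d_an.NA

open Complex MeasureTheory Set Filter Topology Metric

theorem eqc_bd (x A c y C C' a : ℝ) (z q : ℂ) (hx : |x| ≤ A) (hy : |z.im| = y)
    (hq : ‖q‖ ≤ C' * Real.exp a) (hC : C' ≤ C) (ha : a ≤ -c * y) (hc : A + 1 ≤ c) :
    ‖cexp (I * z * x) * q‖ ≤ C * Real.exp (-y) := by
  have hy0 : 0 ≤ y := hy ▸ abs_nonneg _
  have hC' : 0 ≤ C' := by
    by_contra h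
    have := mul_neg_of_neg_of_pos (not_le.1 h) (Real.exp_pos a)
    linarith [norm_nonneg q]
  have h1 : ‖cexp (I * z * x)‖ ≤ Real.exp (A * y) := by
    rw [Complex.norm_exp]
    apply Real.exp_le_exp.2
    have : (I * z * x).re = -(z.im * x) := by simp
    rw [this]
    calc -(z.im * x) ≤ |z.im * x| := neg_le_abs _
      _ = |x| * y := by rw [abs_mul, hy, mul_comm]
      _ ≤ A * y := mul_le_mul_of_nonneg_right hx hy0
  rw [norm_mul]
  calc ‖cexp (I * z * x)‖ * ‖q‖ ≤ Real.exp (A * y) * (C' * Real.exp a) :=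
        mul_le_mul h1 hq (norm_nonneg _) (Real.exp_pos _).le
    _ = C' * Real.exp (A * y + a) := by rw [Real.exp_add]; ring
    _ ≤ C * Real.exp (-y) := by
        apply mul_le_mul hC _ (Real.exp_pos _).le (hC'.trans hC)
        apply Real.exp_le_exp.2
        nlinarith [mul_le_mul_of_nonneg_right hc hy0]

theorem p_EQC (hFTTY : S_FTTY) (hDER : S_DER) (hSEMI : S_SEMI) (hARCI : S_ARCI) (hNENT : S_NENT) (hNTAU : S_NTAU) (hQBD : S_QBD) :
    S_EQC := by
  intro b B K φ f R hb hB hφ hf hA hR hRt hH A T hT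
  rw [Metric.tendstoUniformlyOn_iff]
  intro ε hε
  obtain ⟨e, he, hAR⟩ := hARCI ε hε
  obtain ⟨Y1, C1, h1⟩ := hQBD b B K (-T) e φ f hb hB hφ hf hA he
  obtain ⟨Y2, C2, h2⟩ := hQBD b B K T e φ f hb hB hφ hf hA he
  obtain ⟨R0, hR0⟩ := hAR (max C1 C2) (max Y1 Y2)
  filter_upwards [hRt.eventually_ge_atTop R0] with k hk x hx
  obtain ⟨H, hPW, hH1, hLow⟩ := hH k
  have hxA : |x| ≤ A := abs_le.2 ⟨hx.1, hx.2⟩
  have hFc : Continuous (ft φ) := (hFTTY b φ hφ).1.continuous
  have hF0 : ∀ z : ℂ, ‖z‖ = R k → ft φ z ≠ 0 := by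
    intro z hz h0
    have := hLow z hz
    simp only [h0, zero_mul, norm_zero] at this
    exact absurd this (not_le.2 (Real.exp_pos _))
  obtain ⟨hEI, hNN⟩ := hNENT f hf
  obtain ⟨hT1, hT2⟩ := hNTAU b φ f hφ hf
  have hT2 := hT2 hA
  have hS : SS (ft φ) (NN φ f 0 0) (R k) x = SS (ft φ) (NN φ f T T) (R k) x :=
    hDER.2 _ _ _ (EI f 0 T) _ _ (hR k) hFc (hNN b T T φ hφ).continuous (hEI 0 T) hF0
      (fun z => by rw [hT2 T T 0 z]; exact hT1 0 T 0 z)
  have hex : Differentiable ℂ (fun z : ℂ => cexp (I * z * x)) := by fun_prop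
  have hco : ∀ s : ℝ, ContinuousOn (fun z : ℂ => cexp (I * z * x) * NN φ f s s z / ft φ z)
      (sphere 0 (R k)) := fun s =>
    ContinuousOn.div (hex.continuous.mul (hNN b s s φ hφ).continuous).continuousOn
      hFc.continuousOn (fun z hz => hF0 z (mem_sphere_zero_iff_norm.1 hz))
  have hE : Differentiable ℂ (fun z : ℂ => cexp (I * z * x) * EI f (-T) T z) :=
    hex.mul (hEI _ _)
  have e1 := hSEMI.1 _ (R k) (hR k) (hco T)
  have e2 := hSEMI.2.1 _ (R k) hE
  have e3 := hSEMI.2.2 _ _ (fun z : ℂ => cexp (I * z * x) * NN φ f T T z / ft φ z) (R k) (hR k)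
    (hco (-T)) hE.continuous.continuousOn (fun z hz => by
      have h3 := hT1 (-T) T T z
      rw [← hT2 (-T) (-T) T z] at h3
      have h4 := hF0 z hz
      field_simp
      linear_combination (-1 : ℂ) * h3)
  have b1 : ‖up (fun z : ℂ => cexp (I * z * x) * NN φ f (-T) (-T) z / ft φ z) (R k)‖ ≤ ε := by
    apply hR0 (R k) hk
    · intro z hz hy
      rw [mul_div_assoc]
      refine eqc_bd x A (T - (B + b + K + 1)) z.im _ C1 _ z _ hxA (abs_of_nonneg hy)
        (h1 (R k) H hPW hH1 hLow z hz).1 (le_max_left _ _) ?_ (by linarith)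
      rw [abs_of_nonneg hy]
      exact le_of_eq (by ring)
    · intro z hz hy hY
      rw [mul_div_assoc]
      refine eqc_bd x A (T - (B + b + K + 1)) z.im _ e _ z _ hxA (abs_of_nonneg hy)
        ((h1 (R k) H hPW hH1 hLow z hz).2 ((le_max_left _ _).trans hY)) le_rfl ?_ (by linarith)
      rw [abs_of_nonneg hy]
      exact le_of_eq (by ring)
  have b2 : ‖up (fun z : ℂ => (fun z : ℂ => cexp (I * z * x) * NN φ f T T z / ft φ z) (-z))
      (R k)‖ ≤ ε := by
    apply hR0 (R k) hk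
    · intro z hz hy
      have hy' : |(-z).im| = z.im := by rw [neg_im, abs_neg, abs_of_nonneg hy]
      simp only []
      rw [mul_div_assoc]
      refine eqc_bd x A (T - (B + b + K + 1)) z.im _ C2 _ (-z) _ hxA hy'
        (h2 (R k) H hPW hH1 hLow (-z) (by rw [norm_neg, hz])).1 (le_max_right _ _) ?_
        (by linarith)
      rw [hy', neg_im]
      exact le_of_eq (by ring)
    · intro z hz hy hY
      have hy' : |(-z).im| = z.im := by rw [neg_im, abs_neg, abs_of_nonneg hy]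
      simp only []
      rw [mul_div_assoc]
      refine eqc_bd x A (T - (B + b + K + 1)) z.im _ e _ (-z) _ hxA hy'
        ((h2 (R k) H hPW hH1 hLow (-z) (by rw [norm_neg, hz])).2
          (by rw [neg_re, abs_neg]; exact (le_max_right _ _).trans hY)) le_rfl ?_ (by linarith)
      rw [hy', neg_im]
      exact le_of_eq (by ring)
  rw [dist_comm, dist_zero_right, hS]
  have e4 : SS (ft φ) (NN φ f T T) (R k) x -
      (2 * (Real.pi : ℂ))⁻¹ * ∫ ξ in (-R k)..R k, cexp (I * ξ * x) * EI f (-T) T ξ =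
      (2 * (Real.pi : ℂ))⁻¹ *
        (up (fun z : ℂ => cexp (I * z * x) * NN φ f (-T) (-T) z / ft φ z) (R k) -
        up (fun z : ℂ => (fun z : ℂ => cexp (I * z * x) * NN φ f T T z / ft φ z) (-z)) (R k)) := by
    unfold SS
    rw [e1, e3, e2]
    ring
  rw [e4, norm_mul]
  have hn : ‖(2 * (Real.pi : ℂ))⁻¹‖ ≤ 1 / 4 := by
    rw [norm_inv, norm_mul, Complex.norm_real, Real.norm_eq_abs, abs_of_pos Real.pi_pos,
      Complex.norm_two, one_div]
    exact inv_anti₀ (by norm_num) (by linarith [Real.pi_gt_three])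
  have hs := (norm_sub_le _ _).trans (add_le_add b1 b2)
  calc _ ≤ 1 / 4 * (ε + ε) := mul_le_mul hn hs (norm_nonneg _) (by norm_num)
    _ < ε := by linarith

end Pool.Agent.P.MP_2fa38d_an.NA
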