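import Pool.Agent.P.MP_2fa38d_an.NA.IfaceB

/-! Step EQL. -/

set_option autoImplicit false

namespace Pool.Agent.P.MP_2fa38d_an.NA

open Complex MeasureTheory Set Filter Topology Metric

theorem p_EQL (hDIR : S_DIR) (hLOC : S_LOC) (hEQC : S_EQC) :
    S_EQL := by
  intro b B K φ f R hb hB hφ hf ha hR0 hR hH A L hAL
  set T := max L (A + B + b + K + 2) with hT
  have h1 := Metric.tendstoUniformlyOn_iff.1
    (hEQC b B K φ f R hb hB hφ hf ha hR0 hR hH A T (le_max_right _ _))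
  obtain ⟨h2, h3⟩ := hLOC f A L T hf hAL (le_max_left _ _)
  rw [Metric.tendstoUniformlyOn_iff] at h2 h3 ⊢
  intro ε hε
  have h4 : 0 < ε / 3 := by positivity
  filter_upwards [h1 _ h4, hR.eventually (h2 _ h4), hR.eventually (h3 _ h4)] with k a1 a2 a3 x hx
  have b1 := a1 x hx
  have b2 := a2 x hx
  have b3 := a3 x hx
  rw [(hDIR f (-T) T (R k) x hf).2,
    ← intervalIntegral.integral_add_adjacent_intervals (hDIR f (-T) (-L) (R k) x hf).1
      (hDIR f (-L) T (R k) x hf).1,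
    ← intervalIntegral.integral_add_adjacent_intervals (hDIR f (-L) L (R k) x hf).1
      (hDIR f L T (R k) x hf).1] at b1
  rw [dist_zero_left] at b1 b2 b3 ⊢
  generalize SS (ft φ) (NN φ f 0 0) (R k) x = s at b1 ⊢
  generalize (∫ t in (-L)..L, f t * dk (R k) (x - t)) = u at b1 ⊢
  generalize (∫ t in L..T, f t * dk (R k) (x - t)) = v at b1 b2
  generalize (∫ t in (-T)..(-L), f t * dk (R k) (x - t)) = w at b1 b3
  calc ‖s - u‖ = ‖s - (w + (u + v)) + v + w‖ := by congr 1; ring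
    _ ≤ ‖s - (w + (u + v))‖ + ‖v‖ + ‖w‖ := norm_add₃_le
    _ < ε := by linarith

end Pool.Agent.P.MP_2fa38d_an.NA
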