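import Pool.Agent.P.MP_2fa38d_an.NA.IfaceB

/-! Step INV. -/

set_option autoImplicit false

namespace Pool.Agent.P.MP_2fa38d_an.NA

open Complex MeasureTheory Set Filter Topology Metric

open scoped FourierTransform in
theorem inv_four (w : ℝ → ℂ) : 𝓕 w = fun ξ : ℝ => ft w ((2 * Real.pi * ξ : ℝ) : ℂ) := by
  funext ξ
  rw [Real.fourier_real_eq_integral_exp_smul, ft]
  refine integral_congr_ae (Eventually.of_forall fun t => ?_)
  simp only [smul_eq_mul]
  rw [mul_comm]
  congr 2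
  push_cast
  ring

open scoped FourierTransform in
theorem inv_full (w : ℝ → ℂ) (hc : Continuous w) (hi : Integrable w)
    (hf : Integrable (fun ξ : ℝ => ft w ξ)) (x : ℝ) :
    w x = (2 * (Real.pi : ℂ))⁻¹ * ∫ ξ : ℝ, cexp (I * ξ * x) * ft w ξ := by
  have hp : (2 * Real.pi : ℝ) ≠ 0 := by positivity
  have h1 : Integrable (𝓕 w) := by
    rw [inv_four]
    exact hf.comp_mul_left' hp
  have h2 := congrFun (hc.fourierInv_fourier_eq hi h1) x
  rw [Real.fourierInv_eq', inv_four] at h2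
  have h3 := Measure.integral_comp_mul_left (fun ξ : ℝ => cexp (I * ξ * x) * ft w ξ) (2 * Real.pi)
  rw [← h2]
  have h4 : (2 * (Real.pi : ℂ))⁻¹ = ((|(2 * Real.pi : ℝ)⁻¹| : ℝ) : ℂ) := by
    rw [abs_of_pos (by positivity)]
    push_cast
    rfl
  rw [h4, ← Complex.real_smul, ← h3]
  refine integral_congr_ae (Eventually.of_forall fun t => ?_)
  simp only [smul_eq_mul]
  congr 2
  simp only [RCLike.inner_apply, conj_trivial]
  push_cast
  ring

theorem p_INV :
    S_INV := by
  intro w hc hi hf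
  have hn : Integrable (fun ξ : ℝ => ‖ft w ξ‖) := hf.norm
  have ht := intervalIntegral_tendsto_integral (l := atTop) (a := fun R : ℝ => -R)
    (b := fun R : ℝ => R) hn tendsto_neg_atTop_atBot tendsto_id
  rw [Metric.tendstoUniformly_iff]
  intro ε hε
  filter_upwards [Metric.tendsto_nhds.1 ht ε hε, eventually_ge_atTop (0 : ℝ)] with R hR h0 x
  have he : ∀ ξ : ℝ, ‖cexp (I * ξ * x) * ft w ξ‖ = ‖ft w ξ‖ := fun ξ => by
    rw [norm_mul, show I * ξ * x = ((ξ * x : ℝ) : ℂ) * I by push_cast; ring,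
      Complex.norm_exp_ofReal_mul_I, one_mul]
  have hg : Integrable (fun ξ : ℝ => cexp (I * ξ * x) * ft w ξ) :=
    hn.mono' ((by fun_prop : Continuous fun ξ : ℝ => cexp (I * ξ * x)).aestronglyMeasurable.mul
      hf.aestronglyMeasurable) (Eventually.of_forall fun ξ => (he ξ).le)
  have hle : -R ≤ R := by linarith
  rw [intervalIntegral.integral_of_le hle] at hR
  rw [dist_eq_norm, inv_full w hc hi hf x, intervalIntegral.integral_of_le hle, ← mul_sub,
    ← integral_add_compl (measurableSet_Ioc (a := -R) (b := R)) hg, add_sub_cancel_left, norm_mul]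
  rw [← integral_add_compl (measurableSet_Ioc (a := -R) (b := R)) hn, Real.dist_eq,
    sub_add_cancel_left, abs_neg] at hR
  have h1 : ‖∫ ξ in (Ioc (-R) R)ᶜ, cexp (I * ξ * x) * ft w ξ‖ ≤
      ∫ ξ in (Ioc (-R) R)ᶜ, ‖ft w ξ‖ := by
    refine (norm_integral_le_integral_norm _).trans (le_of_eq ?_)
    simp only [he]
  have h2 : ‖(2 * (Real.pi : ℂ))⁻¹‖ ≤ 1 := by
    rw [norm_inv, norm_mul, Complex.norm_real, Real.norm_eq_abs, abs_of_pos Real.pi_pos,
      Complex.norm_ofNat]
    exact inv_le_one_of_one_le₀ (by linarith [Real.pi_gt_three])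
  calc _ ≤ 1 * ∫ ξ in (Ioc (-R) R)ᶜ, ‖ft w ξ‖ :=
        mul_le_mul h2 h1 (norm_nonneg _) zero_le_one
    _ ≤ _ := by rw [one_mul]; exact le_abs_self _
    _ < ε := hR

end Pool.Agent.P.MP_2fa38d_an.NA
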