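import Pool.Agent.P.MP_2fa38d_an.NA.IfaceB

/-! Step ITER. -/

set_option autoImplicit false

namespace Pool.Agent.P.MP_2fa38d_an.NA

open Complex MeasureTheory Set Filter Topology Metric

theorem p_ITER (hFTTY : S_FTTY) (hDER : S_DER) (hNENT : S_NENT) (hNDER : S_NDER) :
    S_ITER := by
  intro b R φ hφ hR hF m
  have hc : Continuous (ft φ) := (hFTTY b φ hφ).1.continuous
  induction m with
  | zero => exact fun f _ ha => ⟨ha, rfl⟩
  | succ m ih =>
    intro f hf ha
    have h1 : ContDiff ℝ 1 f := hf.of_le (by exact_mod_cast Nat.le_add_left 1 m)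
    have h2 : ContDiff ℝ m (deriv f) := (contDiff_succ_iff_deriv.1 (by exact_mod_cast hf)).2.2
    obtain ⟨a1, a2⟩ := hNDER b φ f hφ h1 ha
    have e : deriv (SS (ft φ) (NN φ f 0 0) R) = SS (ft φ) (NN φ (deriv f) 0 0) R := by
      funext x
      rw [(hDER.1 _ _ R x hR hc ((hNENT f hf.continuous).2 b 0 0 φ hφ).continuous hF).deriv]
      exact hDER.2 _ _ _ (fun _ => f 0) R x hR hc
        ((hNENT _ h2.continuous).2 b 0 0 φ hφ).continuous (differentiable_const _) hF a2
    rw [iteratedDeriv_succ', iteratedDeriv_succ', e]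
    exact ih _ h2 a1

end Pool.Agent.P.MP_2fa38d_an.NA
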