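import Pool.Agent.P.MP_2fa38d_an.NA.IfaceB

/-! Step L1FT. -/

set_option autoImplicit false

namespace Pool.Agent.P.MP_2fa38d_an.NA

open Complex MeasureTheory Set Filter Topology Metric

lemma l1ft_norm (ξ t : ℝ) : ‖cexp (-(I * (ξ : ℂ) * t))‖ = 1 := by
  rw [Complex.norm_exp]; simp

lemma l1ft_cont (w : ℝ → ℂ) (hw : Integrable w) : Continuous (fun ξ : ℝ => ft w ξ) := by
  unfold ft
  refine continuous_of_dominated (bound := fun t => ‖w t‖) ?_ ?_ hw.norm ?_
  · intro ξ
    exact hw.aestronglyMeasurable.mul (by fun_prop : Continuous _).aestronglyMeasurable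
  · intro ξ
    refine Eventually.of_forall fun t => ?_
    rw [norm_mul, l1ft_norm, mul_one]
  · refine Eventually.of_forall fun t => ?_
    fun_prop

lemma l1ft_int (w : ℝ → ℂ) (hw : Integrable w) (ξ : ℝ) :
    Integrable (fun t : ℝ => w t * cexp (-(I * (ξ : ℂ) * t))) := by
  refine hw.norm.mono' (hw.aestronglyMeasurable.mul
    (by fun_prop : Continuous _).aestronglyMeasurable) ?_
  refine Eventually.of_forall fun t => ?_
  rw [norm_mul, l1ft_norm, mul_one]

lemma l1ft_der (w : ℝ → ℂ) (hd : Differentiable ℝ w) (hw : Integrable w)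
    (hw' : Integrable (deriv w)) (ξ : ℝ) : ft (deriv w) ξ = I * ξ * ft w ξ := by
  have he : ∀ t : ℝ, HasDerivAt (fun t : ℝ => cexp (-(I * (ξ : ℂ) * t)))
      (cexp (-(I * (ξ : ℂ) * t)) * (-(I * ξ))) t := by
    intro t
    have h1 : HasDerivAt (fun t : ℝ => -(I * (ξ : ℂ) * t)) (-(I * ξ)) t := by
      have := ((Complex.ofRealCLM.hasDerivAt (x := t)).const_mul (I * (ξ : ℂ))).fun_neg
      simpa using this
    exact h1.cexp
  have h := integral_mul_deriv_eq_deriv_mul_of_integrable (u := w)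
    (v := fun t : ℝ => cexp (-(I * (ξ : ℂ) * t))) (u' := deriv w)
    (v' := fun t : ℝ => cexp (-(I * (ξ : ℂ) * t)) * (-(I * ξ)))
    (fun x _ => (hd x).hasDerivAt) (fun x _ => he x)
    (by
      have := (l1ft_int w hw ξ).mul_const (-(I * (ξ : ℂ)))
      refine this.congr (Eventually.of_forall fun t => ?_)
      simp [mul_assoc])
    (l1ft_int _ hw' ξ) (l1ft_int w hw ξ)
  unfold ft
  have h2 : ∫ t : ℝ, w t * (cexp (-(I * (ξ : ℂ) * t)) * (-(I * ξ))) =
      -(I * ξ * ∫ t : ℝ, w t * cexp (-(I * (ξ : ℂ) * t))) := by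
    rw [← integral_const_mul, ← integral_neg]
    congr 1; ext t; ring
  rw [h2] at h
  exact (neg_inj.mp h).symm

theorem p_L1FT (hPLAN : S_PLAN) :
    S_L1FT := by
  intro w hw hc
  have c0 : Continuous w := hw.continuous
  have c1 : Continuous (deriv w) := hw.continuous_deriv le_rfl
  have hc1 : HasCompactSupport (deriv w) := hc.deriv
  have i0 : Integrable w := c0.integrable_of_hasCompactSupport hc
  have i1 : Integrable (deriv w) := c1.integrable_of_hasCompactSupport hc1
  have p0 := (hPLAN w i0 (c0.memLp_of_hasCompactSupport hc)).1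
  have p1 := (hPLAN (deriv w) i1 (c1.memLp_of_hasCompactSupport hc1)).1
  have hd : Differentiable ℝ w := hw.differentiable one_ne_zero
  refine ((integrable_inv_one_add_sq.add p0).add p1).mono'
    (l1ft_cont w i0).aestronglyMeasurable (Eventually.of_forall fun ξ => ?_)
  simp only [Pi.add_apply]
  rw [l1ft_der w hd i0 i1, norm_mul, norm_mul, Complex.norm_I, one_mul, Complex.norm_real,
    Real.norm_eq_abs, mul_pow, sq_abs]
  set a := ‖ft w ξ‖
  have ha : 0 ≤ a := norm_nonneg _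
  have hp : 0 < 1 + ξ ^ 2 := by positivity
  have key : a ≤ (1 + ξ ^ 2)⁻¹ + (1 + ξ ^ 2) * a ^ 2 := by
    set s := 1 + ξ ^ 2
    have h1 : s * s⁻¹ = 1 := mul_inv_cancel₀ hp.ne'
    have h2 : 0 < s⁻¹ := inv_pos.mpr hp
    have h3 : 0 ≤ s * (a - s⁻¹) ^ 2 := by positivity
    have h4 : s * (a - s⁻¹) ^ 2 = s * a ^ 2 - 2 * a * (s * s⁻¹) + (s * s⁻¹) * s⁻¹ := by ring
    rw [h1] at h4
    linarith
  linarith

end Pool.Agent.P.MP_2fa38d_an.NA
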