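import Pool.Agent.P.MP_2fa38d_an.NA.IfaceB

/-! Step MULT. -/

set_option autoImplicit false

namespace Pool.Agent.P.MP_2fa38d_an.NA

open Complex MeasureTheory Set Filter Topology Metric

theorem mult_l2 (v : ℝ → ℂ) (M : ℝ) (hv : Integrable v) (hM : ∀ t, ‖v t‖ ≤ M) : MemLp v 2 := by
  rw [memLp_two_iff_integrable_sq_norm hv.aestronglyMeasurable]
  refine Integrable.mono' (hv.norm.const_mul M) (hv.aestronglyMeasurable.norm.pow 2)
    (ae_of_all _ fun t => ?_)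
  rw [Real.norm_eq_abs, abs_of_nonneg (by positivity), sq]
  exact mul_le_mul_of_nonneg_right (hM t) (norm_nonneg _)

theorem mult_e (ξ t : ℝ) : ‖cexp (-(I * ξ * t))‖ = 1 := by
  rw [Complex.norm_exp]
  simp

theorem mult_int (v : ℝ → ℂ) (hv : Integrable v) (ξ : ℝ) :
    Integrable (fun t : ℝ => v t * cexp (-(I * ξ * t))) :=
  hv.mul_bdd (c := 1) (Continuous.aestronglyMeasurable (by fun_prop))
    (ae_of_all _ fun t => (mult_e ξ t).le)

theorem mult_ft (v : ℝ → ℂ) (hv : Integrable v) (d ξ : ℝ) :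
    ft (fun t => v t - v (t - d)) ξ = (1 - cexp (-(I * ξ * d))) * ft v ξ := by
  unfold ft
  simp only [sub_mul]
  rw [integral_sub (mult_int v hv ξ) (mult_int _ (hv.comp_sub_right d) ξ), one_mul,
    ← integral_const_mul]
  congr 1
  rw [← integral_sub_right_eq_self
    (fun t : ℝ => cexp (-(I * ξ * d)) * (v t * cexp (-(I * ξ * t)))) d]
  refine integral_congr_ae (ae_of_all _ fun t => ?_)
  simp only []
  rw [mul_left_comm, ← Complex.exp_add]
  congr 2
  push_cast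
  ring

theorem mult_two (ξ d : ℝ) : ‖1 - cexp (-(I * ξ * d))‖ ^ 2 ≤ 4 := by
  have h := norm_sub_le (1 : ℂ) (cexp (-(I * ξ * d)))
  rw [mult_e, norm_one] at h
  nlinarith [norm_nonneg (1 - cexp (-(I * ξ * d)))]

theorem p_MULT (hCVFT : S_CVFT) (hPLAN : S_PLAN) :
    S_MULT := by
  intro B' M ε w hw hM hε
  obtain ⟨hwi, hwe⟩ := hPLAN w hw.1 (mult_l2 w M hw.1 hM)
  have hm : ∀ d : ℝ, AEStronglyMeasurable
      (fun ξ : ℝ => ‖1 - cexp (-(I * ξ * d))‖ ^ 2 * ‖ft w ξ‖ ^ 2) volume := fun d =>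
    (Continuous.aestronglyMeasurable (by fun_prop)).mul hwi.aestronglyMeasurable
  have hb : ∀ d ξ : ℝ, ‖‖1 - cexp (-(I * ξ * d))‖ ^ 2 * ‖ft w ξ‖ ^ 2‖ ≤ 4 * ‖ft w ξ‖ ^ 2 := by
    intro d ξ
    rw [Real.norm_eq_abs, abs_of_nonneg (by positivity)]
    exact mul_le_mul_of_nonneg_right (mult_two ξ d) (by positivity)
  have hJ : Continuous (fun d : ℝ => ∫ ξ : ℝ, ‖1 - cexp (-(I * ξ * d))‖ ^ 2 * ‖ft w ξ‖ ^ 2) :=
    continuous_of_dominated hm (fun d => ae_of_all _ (hb d)) (hwi.const_mul 4)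
      (ae_of_all _ fun ξ => by fun_prop)
  obtain ⟨δ, hδ, hJ0⟩ := Metric.continuous_iff.1 hJ 0 ε hε
  refine ⟨δ / 2, ∫ t, ‖w t‖ ^ 2, by positivity, fun B ν hν hν1 => ?_⟩
  obtain ⟨hv, hft⟩ := hCVFT B B' ν w hν hw
  have hvb : ∀ t, ‖cv ν w t‖ ≤ ∫ r, ‖ν r‖ * M := fun t =>
    norm_integral_le_of_norm_le (hν.1.norm.mul_const M) (ae_of_all _ fun r => by
      rw [norm_mul]
      exact mul_le_mul_of_nonneg_left (hM _) (norm_nonneg _))
  have hle : ∀ ξ : ℝ, ‖ft (cv ν w) ξ‖ ^ 2 ≤ ‖ft w ξ‖ ^ 2 := by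
    intro ξ
    rw [hft, norm_mul]
    exact pow_le_pow_left₀ (by positivity) (mul_le_of_le_one_left (norm_nonneg _) (hν1 ξ)) 2
  have hv2 := mult_l2 _ _ hv.1 hvb
  obtain ⟨hvi, hve⟩ := hPLAN _ hv.1 hv2
  refine ⟨hv2, ?_, fun d hd => ?_⟩
  · have h := integral_mono hvi hwi hle
    rw [hve, hwe] at h
    exact le_of_mul_le_mul_left h (by positivity)
  · have hdi : Integrable (fun t => cv ν w t - cv ν w (t - d)) :=
      hv.1.sub (hv.1.comp_sub_right d)
    obtain ⟨hi, he⟩ := hPLAN _ hdi (mult_l2 _ _ hdi (fun t =>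
      (norm_sub_le _ _).trans (add_le_add (hvb t) (hvb (t - d)))))
    have h := integral_mono hi (Integrable.mono' (hwi.const_mul 4) (hm d) (ae_of_all _ (hb d)))
      (fun ξ => by
        simp only []
        rw [mult_ft _ hv.1, norm_mul, mul_pow]
        exact mul_le_mul_of_nonneg_left (hle ξ) (by positivity))
    have h0 := hJ0 d (by rw [Real.dist_eq, sub_zero]; linarith)
    simp only [ofReal_zero, mul_zero, neg_zero, Complex.exp_zero, sub_self, norm_zero, ne_eq,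
      OfNat.ofNat_ne_zero, not_false_eq_true, zero_pow, zero_mul, integral_zero, Real.dist_eq,
      sub_zero] at h0
    rw [he] at h
    have hn : 0 ≤ ∫ t, ‖cv ν w t - cv ν w (t - d)‖ ^ 2 := integral_nonneg fun t => by positivity
    nlinarith [(abs_lt.1 h0).2, Real.pi_gt_three]

end Pool.Agent.P.MP_2fa38d_an.NA
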