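import Pool.Agent.P.MP_2fa38d_an.NA.IfaceB

/-! Step NCONV. -/

set_option autoImplicit false

namespace Pool.Agent.P.MP_2fa38d_an.NA

open Complex MeasureTheory Set Filter Topology Metric

lemma nconv_int {B b : ℝ} {h ψ k : ℝ → ℂ} (hh : Cs B h) (hψ : Cs b ψ) (hk : Continuous k) :
    Integrable (fun p : ℝ × ℝ => h p.2 * ψ (p.1 - p.2) * k p.1) (volume.prod volume) := by
  have h1 : Integrable (fun p : ℝ × ℝ => h p.2 * ψ (p.1 - p.2)) (volume.prod volume) := by
    have := hh.1.convolution_integrand (ContinuousLinearMap.mul ℂ ℂ) hψ.1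
    simpa using this
  obtain ⟨C, hC⟩ := (isCompact_Icc (a := -(B + b)) (b := B + b)).exists_bound_of_continuousOn
    hk.continuousOn
  refine (h1.norm.mul_const C).mono' ?_ (Eventually.of_forall fun p => ?_)
  · exact h1.1.mul (hk.comp continuous_fst).aestronglyMeasurable
  · by_cases h2 : B < |p.2|
    · simp [hh.2 _ h2]
    by_cases h3 : b < |p.1 - p.2|
    · simp [hψ.2 _ h3]
    push Not at h2 h3
    rw [norm_mul]
    refine mul_le_mul_of_nonneg_left (hC _ ?_) (norm_nonneg _)
    have h4 := abs_le.mp h2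
    have h5 := abs_le.mp h3
    constructor <;> linarith [h4.1, h4.2, h5.1, h5.2]

lemma nconv_key {B b : ℝ} {h ψ k : ℝ → ℂ} (hh : Cs B h) (hψ : Cs b ψ) (hk : Continuous k) :
    ∫ r, cv h ψ r * k r = ∫ v, h v * ∫ r, ψ r * k (r + v) := by
  have h1 := integral_integral_swap (f := fun r v : ℝ => h v * ψ (r - v) * k r)
    (μ := volume) (ν := volume) (nconv_int hh hψ hk)
  have h2 : ∀ r, cv h ψ r * k r = ∫ v, h v * ψ (r - v) * k r := fun r => by
    rw [integral_mul_const]; rfl
  have h3 : ∀ v, h v * ∫ r, ψ r * k (r + v) = ∫ r, h v * ψ (r - v) * k r := fun v => by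
    rw [← integral_const_mul,
      ← integral_add_right_eq_self (μ := volume) (fun r => h v * ψ (r - v) * k r) v]
    simp only [add_sub_cancel_right, mul_assoc]
  simp only [h2, h3]
  exact h1

theorem p_NCONV (hNTAU : S_NTAU) :
    S_NCONV := by
  intro B b h ψ f hh hψ hf hA
  refine ⟨fun x => ?_, fun s τ z => ?_⟩
  · have h1 := nconv_key (k := fun r => f (x - r)) hh hψ (hf.comp (by fun_prop))
    have h2 : ∀ v, ∫ r, ψ r * f (x - (r + v)) = 0 := fun v => by
      have := hA (x - v)
      rw [cv] at this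
      rw [← this]
      congr 1
      funext r
      congr 2
      ring
    rw [cv, h1]
    simp only [h2, mul_zero, integral_zero]
  · have hc : Continuous fun u : ℝ => f u * cexp (-(I * z * u)) := by fun_prop
    have hE : Continuous fun c : ℝ => EI f s c z :=
      intervalIntegral.continuous_primitive (fun a c => hc.intervalIntegrable a c) s
    have h1 := nconv_key (k := fun r => cexp (-(I * z * r)) * EI f s (τ - r) z) hh hψ
      (Continuous.mul (by fun_prop) (hE.comp (by fun_prop)))
    have h2 : ∀ v : ℝ, ∫ r, ψ r * (cexp (-(I * z * ((r + v : ℝ) : ℂ))) * EI f s (τ - (r + v)) z) =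
        cexp (-(I * z * v)) * NN ψ f s τ z := fun v => by
      rw [(hNTAU b ψ f hψ hf).2 hA s τ (τ - v) z, NN, ← integral_const_mul]
      congr 1
      funext r
      have e1 : τ - (r + v) = τ - v - r := by ring
      have e2 : cexp (-(I * z * ((r + v : ℝ) : ℂ))) =
          cexp (-(I * z * v)) * cexp (-(I * z * r)) := by
        rw [← Complex.exp_add]; congr 1; push_cast; ring
      rw [e1, e2]; ring
    rw [NN]
    simp only [mul_assoc (cv h ψ _)]
    rw [h1]
    simp only [h2]
    rw [ft, ← integral_mul_const]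
    simp only [mul_assoc]

end Pool.Agent.P.MP_2fa38d_an.NA
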