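import Pool.Agent.P.MP_2fa38d_an.NA.IfaceB

/-! Step NDER. -/

set_option autoImplicit false

namespace Pool.Agent.P.MP_2fa38d_an.NA

open Complex MeasureTheory Set Filter Topology Metric

theorem nder_int {b : ℝ} {ψ g : ℝ → ℂ} (h : Cs b ψ) (hg : Continuous g) :
    Integrable (fun r => ψ r * g r) := by
  obtain ⟨M, hM⟩ := (isCompact_Icc (a := -b) (b := b)).exists_bound_of_continuousOn hg.continuousOn
  refine (h.1.norm.mul_const M).mono' (h.1.aestronglyMeasurable.mul hg.aestronglyMeasurable)
    (Eventually.of_forall fun r => ?_)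
  by_cases hr : b < |r|
  · simp [h.2 r hr]
  · rw [norm_mul]
    exact mul_le_mul_of_nonneg_left (hM r (abs_le.1 (not_lt.1 hr))) (norm_nonneg _)

theorem nder_der {b : ℝ} {ψ f : ℝ → ℂ} (h : Cs b ψ) (hf : ContDiff ℝ 1 f) (x : ℝ) :
    HasDerivAt (cv ψ f) (cv ψ (deriv f) x) x := by
  have hc : Continuous (deriv f) := hf.continuous_deriv le_rfl
  have hd : Differentiable ℝ f := hf.differentiable one_ne_zero
  obtain ⟨M, hM⟩ := (isCompact_Icc (a := x - 1 - b) (b := x + 1 + b)).exists_bound_of_continuousOn
    hc.continuousOn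
  have hi : ∀ (g : ℝ → ℂ), Continuous g → ∀ y : ℝ, Integrable (fun r => ψ r * g (y - r)) :=
    fun g hg y => nder_int h (hg.comp (continuous_const.sub continuous_id))
  refine (hasDerivAt_integral_of_dominated_loc_of_deriv_le (μ := volume)
    (F := fun y r => ψ r * f (y - r)) (F' := fun y r => ψ r * deriv f (y - r))
    (bound := fun r => ‖ψ r‖ * M) (ball_mem_nhds x one_pos)
    (Eventually.of_forall fun y => (hi f hd.continuous y).aestronglyMeasurable)
    (hi f hd.continuous x) (hi _ hc x).aestronglyMeasurable
    (Eventually.of_forall fun r y hy => ?_) (h.1.norm.mul_const M)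
    (Eventually.of_forall fun r y _ => ?_)).2
  · by_cases hr : b < |r|
    · simp [h.2 r hr]
    · rw [norm_mul]
      have h1 := abs_le.1 (not_lt.1 hr)
      have h2 := abs_lt.1 (show |y - x| < 1 by simpa [Real.dist_eq] using hy)
      exact mul_le_mul_of_nonneg_left (hM _ ⟨by linarith, by linarith⟩) (norm_nonneg _)
  · have h3 : HasDerivAt (fun y : ℝ => f (y - r)) (deriv f (y - r)) y :=
      (hd (y - r)).hasDerivAt.comp_sub_const y r
    exact h3.const_mul (ψ r)

theorem nder_parts {f : ℝ → ℂ} (hf : ContDiff ℝ 1 f) (c : ℝ) (z : ℂ) :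
    EI (deriv f) 0 c z = f c * cexp (-(I * z * c)) - f 0 + I * z * EI f 0 c z := by
  have hc : Continuous (deriv f) := hf.continuous_deriv le_rfl
  have hd : Differentiable ℝ f := hf.differentiable one_ne_zero
  have he : Continuous fun u : ℝ => cexp (-(I * z * u)) := by fun_prop
  have h1 : ∀ u : ℝ, HasDerivAt (fun u : ℝ => f u * cexp (-(I * z * u)))
      (deriv f u * cexp (-(I * z * u)) - I * z * (f u * cexp (-(I * z * u)))) u := fun u => by
    have h2 : HasDerivAt (fun u : ℝ => -(I * z * (u : ℂ))) (-(I * z * 1)) u :=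
      ((Complex.ofRealCLM.hasDerivAt (x := u)).const_mul (I * z)).neg
    have h3 := (hd u).hasDerivAt.mul h2.cexp
    refine h3.congr_deriv ?_
    ring
  have i1 : IntervalIntegrable (fun u : ℝ => deriv f u * cexp (-(I * z * u))) volume 0 c :=
    (hc.mul he).intervalIntegrable _ _
  have i2 : IntervalIntegrable (fun u : ℝ => I * z * (f u * cexp (-(I * z * u)))) volume 0 c :=
    (continuous_const.mul (hd.continuous.mul he)).intervalIntegrable _ _
  have h4 := intervalIntegral.integral_eq_sub_of_hasDerivAt (a := 0) (b := c) (fun u _ => h1 u)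
    (i1.sub i2)
  rw [intervalIntegral.integral_sub i1 i2, intervalIntegral.integral_const_mul] at h4
  simp only [ofReal_zero, mul_zero, neg_zero, Complex.exp_zero, mul_one] at h4
  unfold EI
  linear_combination h4

theorem p_NDER :
    S_NDER := by
  intro b ψ f h hf ha
  have hd : Differentiable ℝ f := hf.differentiable one_ne_zero
  refine ⟨fun x => ?_, fun z => ?_⟩
  · have h1 := nder_der h hf x
    have h2 : cv ψ f = fun _ => 0 := funext ha
    rw [h2] at h1
    exact h1.unique (hasDerivAt_const x 0)
  · have he : Continuous fun u : ℝ => cexp (-(I * z * u)) := by fun_prop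
    have hE : Continuous fun r : ℝ => EI f 0 (0 - r) z := by
      unfold EI
      exact (intervalIntegral.continuous_primitive
        (fun a c => (hd.continuous.mul he).intervalIntegrable a c) 0).comp
        (continuous_const.sub continuous_id)
    have i1 : Integrable fun r : ℝ => ψ r * f (0 - r) :=
      nder_int h (hd.continuous.comp (continuous_const.sub continuous_id))
    have i2 : Integrable fun r : ℝ => ψ r * cexp (-(I * z * r)) * f 0 :=
      (nder_int h he).mul_const _
    have i3 : Integrable fun r : ℝ => I * z * (ψ r * cexp (-(I * z * r)) * EI f 0 (0 - r) z) := by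
      have := (nder_int h (he.mul hE)).const_mul (I * z)
      refine this.congr (Eventually.of_forall fun r => ?_)
      simp only [Pi.mul_apply]
      ring
    have h1 : NN ψ (deriv f) 0 0 z = ∫ r : ℝ, (ψ r * f (0 - r) - ψ r * cexp (-(I * z * r)) * f 0 +
        I * z * (ψ r * cexp (-(I * z * r)) * EI f 0 (0 - r) z)) := by
      unfold NN
      refine integral_congr_ae (Eventually.of_forall fun r => ?_)
      have h2 : cexp (-(I * z * r)) * cexp (-(I * z * ((0 - r : ℝ) : ℂ))) = 1 := by
        rw [← Complex.exp_add]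
        push_cast
        rw [show -(I * z * r) + -(I * z * (0 - r)) = 0 by ring, Complex.exp_zero]
      simp only
      rw [nder_parts hf]
      linear_combination ψ r * f (0 - r) * h2
    have i4 : Integrable fun r : ℝ => ψ r * f (0 - r) - ψ r * cexp (-(I * z * r)) * f 0 :=
      i1.sub i2
    rw [h1, integral_add i4 i3, integral_sub i1 i2, integral_const_mul, integral_mul_const]
    have h0 : ∫ r : ℝ, ψ r * f (0 - r) = 0 := ha 0
    rw [h0]
    unfold NN ft
    ring

end Pool.Agent.P.MP_2fa38d_an.NA
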