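import Pool.Agent.P.MP_2fa38d_an.NA.IfaceB

/-! Step NENT. -/

set_option autoImplicit false

namespace Pool.Agent.P.MP_2fa38d_an.NA

open Complex MeasureTheory Set Filter Topology Metric

theorem nent_bound (G : ℂ → ℝ → ℂ) (hG : Continuous G.uncurry) (z : ℂ) (K : Set ℝ)
    (hK : IsCompact K) : ∃ M : ℝ, ∀ w ∈ ball z 1, ∀ r ∈ K, ‖G w r‖ ≤ M := by
  obtain ⟨M, hM⟩ := ((isCompact_closedBall z 1).prod hK).exists_bound_of_continuousOn
    hG.continuousOn
  exact ⟨M, fun w hw r hr => hM (w, r) ⟨ball_subset_closedBall hw, hr⟩⟩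

theorem nent_lin (t w : ℂ) : HasDerivAt (fun x : ℂ => -(I * x * t)) (-(I * t)) w := by
  have h := (hasDerivAt_id w).const_mul (-(I * t))
  rw [mul_one] at h
  refine h.congr_of_eventuallyEq (Eventually.of_forall fun x => ?_)
  simp only [id]
  ring

theorem nent_EI_deriv (f : ℝ → ℂ) (hf : Continuous f) (a c : ℝ) (z : ℂ) :
    HasDerivAt (EI f a c) (EI (fun u : ℝ => -(I * u) * f u) a c z) z := by
  have hG : Continuous (fun p : ℂ × ℝ =>
      (-(I * p.2) * f p.2) * cexp (-(I * p.1 * p.2))) := by fun_prop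
  obtain ⟨M, hM⟩ := nent_bound (fun w (u : ℝ) => (-(I * u) * f u) * cexp (-(I * w * u))) hG z
    (uIcc a c) isCompact_uIcc
  have h := intervalIntegral.hasDerivAt_integral_of_dominated_loc_of_deriv_le
    (μ := volume) (a := a) (b := c)
    (F := fun (w : ℂ) (u : ℝ) => f u * cexp (-(I * w * u)))
    (F' := fun (w : ℂ) (u : ℝ) => (-(I * u) * f u) * cexp (-(I * w * u)))
    (x₀ := z) (s := ball z 1) (bound := fun _ => M) (ball_mem_nhds z one_pos)
    (Eventually.of_forall fun w => Continuous.aestronglyMeasurable (by fun_prop))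
    (Continuous.intervalIntegrable (by fun_prop) a c)
    (Continuous.aestronglyMeasurable (by fun_prop))
    (Eventually.of_forall fun t ht w hw => hM w hw t (uIoc_subset_uIcc ht))
    intervalIntegrable_const
    (Eventually.of_forall fun t _ w _ => by
      have h2 := ((nent_lin (t : ℂ) w).cexp).const_mul (f t)
      have e : -(I * (t : ℂ)) * f t * cexp (-(I * w * t)) =
          f t * (cexp (-(I * w * t)) * -(I * (t : ℂ))) := by ring
      rw [e]
      exact h2)
  exact h.2

theorem nent_EI_cont (f : ℝ → ℂ) (hf : Continuous f) (s τ : ℝ) :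
    Continuous (fun p : ℂ × ℝ => EI f s (τ - p.2) p.1) := by
  unfold EI
  exact intervalIntegral.continuous_parametric_intervalIntegral_of_continuous
    (f := fun (p : ℂ × ℝ) (u : ℝ) => f u * cexp (-(I * p.1 * u)))
    (by
      change Continuous (fun q : (ℂ × ℝ) × ℝ => f q.2 * cexp (-(I * q.1.1 * q.2)))
      fun_prop) (by fun_prop)

theorem nent_gen (b : ℝ) (ψ : ℝ → ℂ) (hψ : Cs b ψ) (G G' : ℂ → ℝ → ℂ)
    (hG : Continuous G.uncurry) (hG' : Continuous G'.uncurry)
    (hd : ∀ r w, HasDerivAt (fun x => G x r) (G' w r) w) :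
    Differentiable ℂ (fun z => ∫ r : ℝ, ψ r * G z r) := by
  intro z
  obtain ⟨M, hM⟩ := nent_bound G hG z (Icc (-b) b) isCompact_Icc
  obtain ⟨M', hM'⟩ := nent_bound G' hG' z (Icc (-b) b) isCompact_Icc
  have hc : ∀ w, Continuous (G w) := fun w => hG.uncurry_left w
  have hc' : ∀ w, Continuous (G' w) := fun w => hG'.uncurry_left w
  have key : ∀ (H : ℝ → ℂ) (N : ℝ), (∀ r ∈ Icc (-b) b, ‖H r‖ ≤ N) →
      ∀ r, ‖ψ r * H r‖ ≤ ‖ψ r‖ * N := by
    intro H N hH r
    by_cases hr : b < |r|
    · simp [hψ.2 r hr]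
    · rw [norm_mul]
      exact mul_le_mul_of_nonneg_left (hH r (abs_le.1 (not_lt.1 hr))) (norm_nonneg _)
  have h := hasDerivAt_integral_of_dominated_loc_of_deriv_le
    (μ := volume) (F := fun (w : ℂ) (r : ℝ) => ψ r * G w r)
    (F' := fun (w : ℂ) (r : ℝ) => ψ r * G' w r)
    (x₀ := z) (s := ball z 1) (bound := fun r => ‖ψ r‖ * M') (ball_mem_nhds z one_pos)
    (Eventually.of_forall fun w => hψ.1.aestronglyMeasurable.mul (hc w).aestronglyMeasurable)
    (Integrable.mono' (hψ.1.norm.mul_const M)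
      (hψ.1.aestronglyMeasurable.mul (hc z).aestronglyMeasurable)
      (Eventually.of_forall (key (G z) M (hM z (mem_ball_self one_pos)))))
    (hψ.1.aestronglyMeasurable.mul (hc' z).aestronglyMeasurable)
    (Eventually.of_forall fun r w hw => key (G' w) M' (hM' w hw) r)
    (hψ.1.norm.mul_const M')
    (Eventually.of_forall fun r w _ => (hd r w).const_mul (ψ r))
  exact h.2.differentiableAt

theorem p_NENT :
    S_NENT := by
  intro f hf
  refine ⟨fun a c z => (nent_EI_deriv f hf a c z).differentiableAt, ?_⟩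
  intro b s τ ψ hψ
  have hf' : Continuous (fun u : ℝ => -(I * u) * f u) := by fun_prop
  have h1 := nent_EI_cont f hf s τ
  have h2 := nent_EI_cont _ hf' s τ
  have h := nent_gen b ψ hψ (fun z r => cexp (-(I * z * r)) * EI f s (τ - r) z)
    (fun z r => cexp (-(I * z * r)) * (-(I * r)) * EI f s (τ - r) z +
      cexp (-(I * z * r)) * EI (fun u : ℝ => -(I * u) * f u) s (τ - r) z)
    (by
      change Continuous (fun p : ℂ × ℝ => cexp (-(I * p.1 * p.2)) * EI f s (τ - p.2) p.1)
      exact Continuous.mul (by fun_prop) h1)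
    (by
      change Continuous (fun p : ℂ × ℝ => cexp (-(I * p.1 * p.2)) * (-(I * p.2)) *
        EI f s (τ - p.2) p.1 +
        cexp (-(I * p.1 * p.2)) * EI (fun u : ℝ => -(I * u) * f u) s (τ - p.2) p.1)
      exact (Continuous.mul (by fun_prop) h1).add (Continuous.mul (by fun_prop) h2))
    (fun r w => (nent_lin (r : ℂ) w).cexp.mul (nent_EI_deriv f hf s (τ - r) w))
  have e : NN ψ f s τ = fun z => ∫ r : ℝ, ψ r * (cexp (-(I * z * r)) * EI f s (τ - r) z) := by
    funext z
    simp only [NN, mul_assoc]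
  rw [e]
  exact h

end Pool.Agent.P.MP_2fa38d_an.NA
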