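import Pool.Agent.P.MP_2fa38d_an.NA.IfaceB
import Pool.Agent.P.MP_2fa38d_an.NA.TBLOCKS

/-! Step NOABEL. -/

set_option autoImplicit false

namespace Pool.Agent.P.MP_2fa38d_an.NA

open Complex MeasureTheory Set Filter Topology Metric

/-- the expansion theorem, with the circle integral formula for the sums -/
def S_NOABEL2 : Prop := ∀ φ : ℝ → ℂ, Integrable φ → (∃ b : ℝ, ∀ t, b < |t| → φ t = 0) →
  ¬ φ =ᵐ[volume] 0 →
  ∃ (R : ℕ → ℝ) (Λ : ℕ → Finset ℂ), 0 < R 0 ∧ StrictMono R ∧ Tendsto R atTop atTop ∧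
    Tendsto (fun k => R (k + 1) / R k) atTop (𝓝 1) ∧
    (∀ k (z : ℂ), ‖z‖ = R k → ft φ z ≠ 0) ∧
    (∀ k l, l ∈ Λ k ↔ ‖l‖ < R k ∧ ft φ l = 0) ∧
    ∀ f : ℝ → ℂ, Continuous f → Ann φ f →
      ∃ P : ℂ → Polynomial ℂ, (∀ l, (P l).degree < (od (ft φ) l : ℕ)) ∧
        (∀ (k : ℕ) (x : ℝ), (∑ l ∈ Λ k, (P l).eval (x : ℂ) * cexp (I * l * x)) =
          SS (ft φ) (NN φ f 0 0) (R k) x) ∧
        (∀ A L : ℝ, A < L → TendstoUniformlyOn
          (fun (k : ℕ) (x : ℝ) => (∑ l ∈ Λ k, (P l).eval (x : ℂ) * cexp (I * l * x)) -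
            ∫ t in (-L)..L, f t * dk (R k) (x - t)) (fun _ => 0) atTop (Icc (-A) A)) ∧
        ∀ m : ℕ, ContDiff ℝ (m + 1 : ℕ) f → ∀ A : ℝ, TendstoUniformlyOn
          (fun k : ℕ => iteratedDeriv m
            (fun x : ℝ => ∑ l ∈ Λ k, (P l).eval (x : ℂ) * cexp (I * l * x)))
          (iteratedDeriv m f) atTop (Icc (-A) A)

theorem p_NOABEL2 (hFTTY : S_FTTY) (hZFIN : S_ZFIN) (hCIRCI : S_CIRCI) (hUNIQ : S_UNIQ)
    (hRES : S_RES) (hDINI : S_DINI) (hNENT : S_NENT) (hEQL : S_EQL) (hITER : S_ITER) :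
    S_NOABEL2 := by
  classical
  rintro φ hφ ⟨b0, hb0⟩ hne
  have hcs : Cs |b0| φ := ⟨hφ, fun t ht => hb0 t (lt_of_le_of_lt (le_abs_self b0) ht)⟩
  have hF0 : ∃ z, ft φ z ≠ 0 := by
    by_contra h
    push Not at h
    exact hne (hUNIQ φ hφ fun x => h x)
  have hFd : Differentiable ℂ (ft φ) := (hFTTY _ φ hcs).1
  obtain ⟨B, K, R, hB, -, hR, hG⟩ := hCIRCI |b0| φ (abs_nonneg _) hcs hF0
  have hR0 : ∀ k, 0 < R k := fun k => by
    have := hR.ge k
    have h2 : (0:ℝ) ≤ k := Nat.cast_nonneg k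
    linarith
  have hcirc : ∀ k (z : ℂ), ‖z‖ = R k → ft φ z ≠ 0 := fun k z hz h0 => by
    obtain ⟨H, -, -, hl⟩ := hG k
    have := hl z hz
    simp only [h0, zero_mul, norm_zero] at this
    exact absurd this (not_le.2 (Real.exp_pos _))
  have hfin : ∀ k, {l : ℂ | ‖l‖ < R k ∧ ft φ l = 0}.Finite := fun k =>
    ((hZFIN (ft φ) hFd hF0).1 0 (R k)).subset fun l hl => ⟨by simpa using hl.1.le, hl.2⟩
  refine ⟨R, fun k => (hfin k).toFinset, hR0 0, hR.strictMono, hR.tendsto, hR.2.2, hcirc,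
    fun k l => by simp, fun f hf hA => ?_⟩
  obtain ⟨P, hP, hS⟩ := hRES (NN φ f 0 0) (ft φ) ((hNENT f hf).2 _ 0 0 φ hcs) hFd hF0
  have hS' : ∀ k, (fun x : ℝ => ∑ l ∈ (hfin k).toFinset, (P l).eval (x : ℂ) * cexp (I * l * x)) =
      SS (ft φ) (NN φ f 0 0) (R k) := fun k =>
    funext fun x => (hS (R k) _ (hR0 k) (hcirc k) (fun l => by simp) x).symm
  refine ⟨P, hP, fun k x => congrFun (hS' k) x, fun A L hAL => ?_, fun m hm A => ?_⟩
  · have := hEQL _ B K φ f R (abs_nonneg _) hB hcs hf hA hR0 hR.tendsto hG A L hAL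
    refine this.congr (Eventually.of_forall fun k x _ => ?_)
    have h1 := congrFun (hS' k) x
    simp only at h1 ⊢
    rw [h1]
  · have hm0 : ContDiff ℝ m f := hm.of_le (by exact_mod_cast Nat.le_succ m)
    have hm1 : ContDiff ℝ 1 (iteratedDeriv m f) := by
      rw [iteratedDeriv_eq_iterate]
      exact ContDiff.iterate_deriv' 1 m (by rw [add_comm]; exact_mod_cast hm)
    have hA' : Ann φ (iteratedDeriv m f) :=
      (hITER _ (R 0) φ hcs (hR0 0) (hcirc 0) m f hm0 hA).1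
    have h1 := hEQL _ B K φ _ R (abs_nonneg _) hB hcs hm1.continuous hA' hR0 hR.tendsto hG A
      (A + 1) (by linarith)
    have h2 := hDINI _ A (A + 1) hm1 (by linarith)
    rw [Metric.tendstoUniformlyOn_iff] at h1 h2 ⊢
    intro ε hε
    filter_upwards [h1 (ε / 2) (by positivity), hR.tendsto.eventually (h2 (ε / 2) (by positivity))]
      with k hk1 hk2 x hx
    rw [hS' k, (hITER _ (R k) φ hcs (hR0 k) (hcirc k) m f hm0 hA).2]
    have h3 := hk1 x hx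
    have h4 := hk2 x hx
    rw [dist_comm, dist_zero_right, ← dist_eq_norm, dist_comm] at h3
    linarith [dist_triangle (iteratedDeriv m f x)
      (∫ t in (-(A + 1))..(A + 1), iteratedDeriv m f t * dk (R k) (x - t))
      (SS (ft φ) (NN φ (iteratedDeriv m f) 0 0) (R k) x)]

end Pool.Agent.P.MP_2fa38d_an.NA
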