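import Pool.Agent.P.MP_2fa38d_an.NA.IfaceB

/-! Step NREP. -/

set_option autoImplicit false

namespace Pool.Agent.P.MP_2fa38d_an.NA

open Complex MeasureTheory Set Filter Topology Metric

theorem nrep_w (f : ℝ → ℂ) (hf : Continuous f) (a c : ℝ) :
    Integrable (indicator (Icc a c) f) :=
  (integrable_indicator_iff measurableSet_Icc).2 (hf.continuousOn.integrableOn_compact isCompact_Icc)

theorem nrep_prod (ν w : ℝ → ℂ) (hν : Integrable ν) (hw : Integrable w) :
    Integrable (fun p : ℝ × ℝ => ν p.2 * w (p.1 - p.2)) (volume.prod volume) := by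
  have := hν.convolution_integrand (ContinuousLinearMap.mul ℂ ℂ) hw
  simpa using this

theorem nrep_inner (B s r : ℝ) (hr : |r| ≤ B) (f : ℝ → ℂ) (z : ℂ) :
    (∫ t : ℝ, indicator (Icc s (s + 2 * B + 2)) f (t - r) *
      indicator (Icc (s - B) (s + B)) (fun t : ℝ => cexp (-(I * z * t))) t) =
      cexp (-(I * z * r)) * EI f s (s + B - r) z := by
  have hr' := abs_le.1 hr
  have h1 := integral_add_right_eq_self (μ := (volume : Measure ℝ))
    (fun t : ℝ => indicator (Icc s (s + 2 * B + 2)) f (t - r) *
      indicator (Icc (s - B) (s + B)) (fun t : ℝ => cexp (-(I * z * t))) t) r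
  rw [← h1]
  unfold EI
  rw [intervalIntegral.integral_of_le (by linarith), ← integral_Icc_eq_integral_Ioc,
    ← integral_indicator measurableSet_Icc, ← integral_const_mul]
  refine integral_congr_ae (Eventually.of_forall fun u => ?_)
  simp only [add_sub_cancel_right]
  by_cases hu : u ∈ Icc s (s + B - r)
  · have h2 : u ∈ Icc s (s + 2 * B + 2) := ⟨hu.1, by linarith [hu.2]⟩
    have h3 : u + r ∈ Icc (s - B) (s + B) := ⟨by linarith [hu.1], by linarith [hu.2]⟩
    rw [indicator_of_mem hu, indicator_of_mem h2, indicator_of_mem h3]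
    have : cexp (-(I * z * ((u + r : ℝ) : ℂ))) = cexp (-(I * z * r)) * cexp (-(I * z * u)) := by
      rw [← Complex.exp_add]; congr 1; push_cast; ring
    rw [this]; ring
  · rw [indicator_of_notMem hu, mul_zero]
    by_cases h2 : u ∈ Icc s (s + 2 * B + 2)
    · have h3 : u + r ∉ Icc (s - B) (s + B) := fun h => hu ⟨h2.1, by linarith [h.2]⟩
      rw [indicator_of_notMem h3, mul_zero]
    · rw [indicator_of_notMem h2, zero_mul]

theorem p_NREP (hNTAU : S_NTAU) :
    S_NREP := by
  intro B s ν f hB hν hf hA
  set w : ℝ → ℂ := indicator (Icc s (s + 2 * B + 2)) f with hw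
  have hwi : Integrable w := nrep_w f hf _ _
  have hp := nrep_prod ν w hν.1 hwi
  have hcv : Integrable (cv ν w) := hp.integral_prod_left
  refine ⟨indicator (Icc (s - B) (s + B)) (cv ν w), hcv.indicator measurableSet_Icc, ?_, ?_, ?_⟩
  · intro t ht
    refine indicator_of_notMem (fun h => ?_) _
    have : |t - s| ≤ B := abs_le.2 ⟨by linarith [h.1], by linarith [h.2]⟩
    linarith
  · intro t ht
    by_cases h : t ∈ Icc (s - B) (s + B)
    · exact indicator_of_mem h _
    · rw [indicator_of_notMem h]
      symm
      by_cases h1 : t < s - B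
      · unfold cv
        have : (fun r : ℝ => ν r * w (t - r)) = fun _ => 0 := by
          funext r
          by_cases hr : B < |r|
          · rw [hν.2 r hr, zero_mul]
          · have hr' := abs_le.1 (not_lt.1 hr)
            have : t - r ∉ Icc s (s + 2 * B + 2) := fun h2 => by linarith [h2.1]
            rw [hw, indicator_of_notMem this, mul_zero]
        rw [this, integral_zero]
      · have h2 : s + B < t := by
          by_contra h2
          exact h ⟨not_lt.1 h1, not_lt.1 h2⟩
        rw [← hA t]
        unfold cv
        congr 1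
        funext r
        by_cases hr : B < |r|
        · rw [hν.2 r hr, zero_mul, zero_mul]
        · have hr' := abs_le.1 (not_lt.1 hr)
          have : t - r ∈ Icc s (s + 2 * B + 2) := ⟨by linarith, by linarith⟩
          rw [hw, indicator_of_mem this]
  · intro z
    rw [(hNTAU B ν f hν hf).2 hA s s (s + B) z]
    set e : ℝ → ℂ := indicator (Icc (s - B) (s + B)) (fun t : ℝ => cexp (-(I * z * t))) with he
    have hce : Continuous (fun t : ℝ => cexp (-(I * z * t))) := by fun_prop
    obtain ⟨C, hC⟩ := (isCompact_Icc (a := s - B) (b := s + B)).exists_bound_of_continuousOn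
      hce.continuousOn
    have heb : ∀ t, ‖e t‖ ≤ max C 0 := by
      intro t
      by_cases h : t ∈ Icc (s - B) (s + B)
      · rw [he, indicator_of_mem h]; exact (hC t h).trans (le_max_left _ _)
      · rw [he, indicator_of_notMem h, norm_zero]; exact le_max_right _ _
    have hem : Measurable e := hce.measurable.indicator measurableSet_Icc
    have hp2 : Integrable (fun p : ℝ × ℝ => ν p.2 * w (p.1 - p.2) * e p.1) (volume.prod volume) :=
      hp.mul_bdd (c := max C 0) (hem.comp measurable_fst).aestronglyMeasurable
        (Eventually.of_forall fun p => heb p.1)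
    have h1 : ft (indicator (Icc (s - B) (s + B)) (cv ν w)) z =
        ∫ t : ℝ, ∫ r : ℝ, ν r * w (t - r) * e t := by
      unfold ft
      congr 1
      funext t
      rw [integral_mul_const]
      by_cases h : t ∈ Icc (s - B) (s + B)
      · rw [he, indicator_of_mem h, indicator_of_mem h]; rfl
      · rw [he, indicator_of_notMem h, indicator_of_notMem h, zero_mul, mul_zero]
    rw [h1, integral_integral_swap (f := fun t r : ℝ => ν r * w (t - r) * e t) hp2]
    unfold NN
    congr 1
    funext r
    by_cases hr : B < |r|
    · simp [hν.2 r hr]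
    · have := nrep_inner B s r (not_lt.1 hr) f z
      rw [mul_assoc, ← this, ← integral_const_mul]
      congr 1
      funext t
      rw [mul_assoc]

end Pool.Agent.P.MP_2fa38d_an.NA
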