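import Pool.Agent.P.MP_2fa38d_an.NA.IfaceB

/-! Step NTAU. -/

set_option autoImplicit false

namespace Pool.Agent.P.MP_2fa38d_an.NA

open Complex MeasureTheory Set Filter Topology Metric

theorem ntau_int {b : ℝ} {ψ k : ℝ → ℂ} (hψ : Cs b ψ) (hk : Continuous k) :
    Integrable (fun r => ψ r * k r) := by
  obtain ⟨C, hC⟩ := (isCompact_Icc (a := -|b|) (b := |b|)).exists_bound_of_continuousOn
    hk.continuousOn
  refine Integrable.mono' (hψ.1.norm.mul_const C)
    (hψ.1.aestronglyMeasurable.mul hk.aestronglyMeasurable) (Eventually.of_forall fun r => ?_)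
  by_cases hr : |r| ≤ |b|
  · rw [norm_mul]
    exact mul_le_mul_of_nonneg_left (hC r (abs_le.mp hr)) (norm_nonneg _)
  · have h0 : ψ r = 0 := hψ.2 r (lt_of_le_of_lt (le_abs_self b) (not_le.mp hr))
    simp [h0]

theorem ntau_g {f : ℝ → ℂ} (hf : Continuous f) (z : ℂ) :
    Continuous (fun u : ℝ => f u * cexp (-(I * z * u))) := by
  fun_prop

theorem ntau_cont {f : ℝ → ℂ} (hf : Continuous f) (s τ : ℝ) (z : ℂ) :
    Continuous (fun r : ℝ => EI f s (τ - r) z) := by
  have h := intervalIntegral.continuous_primitive (μ := volume)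
    (fun a c => (ntau_g hf z).intervalIntegrable a c) s
  exact h.comp (continuous_const.sub continuous_id)

theorem ntau_int2 {b : ℝ} {ψ f : ℝ → ℂ} (hψ : Cs b ψ) (hf : Continuous f) (s τ : ℝ) (z : ℂ) :
    Integrable (fun r : ℝ => ψ r * cexp (-(I * z * r)) * EI f s (τ - r) z) := by
  have h1 : Continuous (fun r : ℝ => cexp (-(I * z * r)) * EI f s (τ - r) z) :=
    (by fun_prop : Continuous (fun r : ℝ => cexp (-(I * z * r)))).mul (ntau_cont hf s τ z)
  have h := ntau_int hψ h1
  refine h.congr (Eventually.of_forall fun r => ?_)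
  simp only [mul_assoc]

theorem ntau_prod {b : ℝ} {ψ f : ℝ → ℂ} (hψ : Cs b ψ) (hf : Continuous f) (a c : ℝ) (z : ℂ) :
    Integrable (Function.uncurry fun (t r : ℝ) => ψ r * (f (t - r) * cexp (-(I * z * t))))
      ((volume.restrict (Set.uIoc a c)).prod volume) := by
  have hk : Continuous (fun p : ℝ × ℝ => f (p.1 - p.2) * cexp (-(I * z * p.1))) := by
    fun_prop
  obtain ⟨C, hC⟩ := ((isCompact_uIcc (a := a) (b := c)).prod
    (isCompact_Icc (a := -|b|) (b := |b|))).exists_bound_of_continuousOn hk.continuousOn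
  have hfin : IsFiniteMeasure (volume.restrict (Set.uIoc a c)) := by
    refine ⟨?_⟩
    rw [Measure.restrict_apply_univ]
    exact measure_Ioc_lt_top
  have hψ2 : Integrable (fun p : ℝ × ℝ => ψ p.2) ((volume.restrict (Set.uIoc a c)).prod volume) :=
    hψ.1.comp_snd _
  refine Integrable.mono' (hψ2.norm.mul_const C)
    (hψ2.aestronglyMeasurable.mul hk.aestronglyMeasurable) ?_
  have hae : ∀ᵐ p ∂((volume.restrict (Set.uIoc a c)).prod (volume : Measure ℝ)),
      p.1 ∈ Set.uIoc a c := by
    have h1 : ∀ᵐ t ∂(volume.restrict (Set.uIoc a c)), t ∈ Set.uIoc a c :=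
      ae_restrict_mem measurableSet_uIoc
    exact (Measure.quasiMeasurePreserving_fst).ae h1
  filter_upwards [hae] with p hp
  show ‖ψ p.2 * (f (p.1 - p.2) * cexp (-(I * z * p.1)))‖ ≤ ‖ψ p.2‖ * C
  by_cases hr : |p.2| ≤ |b|
  · rw [norm_mul]
    exact mul_le_mul_of_nonneg_left (hC p ⟨uIoc_subset_uIcc hp, abs_le.mp hr⟩) (norm_nonneg _)
  · have h0 : ψ p.2 = 0 := hψ.2 _ (lt_of_le_of_lt (le_abs_self b) (not_le.mp hr))
    simp [h0]

theorem p_NTAU :
    S_NTAU := by
  intro b ψ f hψ hf
  refine ⟨fun s s' τ z => ?_, fun hA s τ τ' z => ?_⟩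
  · unfold NN ft
    rw [← integral_sub (ntau_int2 hψ hf s τ z) (ntau_int2 hψ hf s' τ z), ← integral_mul_const]
    refine integral_congr_ae (Eventually.of_forall fun r => ?_)
    have h := intervalIntegral.integral_add_adjacent_intervals (μ := volume)
      ((ntau_g hf z).intervalIntegrable s s') ((ntau_g hf z).intervalIntegrable s' (τ - r))
    have h2 : EI f s (τ - r) z = EI f s s' z + EI f s' (τ - r) z := h.symm
    show ψ r * cexp (-(I * z * r)) * EI f s (τ - r) z
      - ψ r * cexp (-(I * z * r)) * EI f s' (τ - r) z = ψ r * cexp (-(I * z * r)) * EI f s s' z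
    rw [h2]
    ring
  · rw [← sub_eq_zero]
    unfold NN
    rw [← integral_sub (ntau_int2 hψ hf s τ z) (ntau_int2 hψ hf s τ' z)]
    have key : ∀ r : ℝ, ψ r * cexp (-(I * z * r)) * EI f s (τ - r) z
        - ψ r * cexp (-(I * z * r)) * EI f s (τ' - r) z
        = ∫ t in τ'..τ, ψ r * (f (t - r) * cexp (-(I * z * t))) := by
      intro r
      have h := intervalIntegral.integral_interval_sub_left (μ := volume)
        ((ntau_g hf z).intervalIntegrable s (τ - r)) ((ntau_g hf z).intervalIntegrable s (τ' - r))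
      have h2 : EI f s (τ - r) z - EI f s (τ' - r) z
          = ∫ u in (τ' - r)..(τ - r), f u * cexp (-(I * z * u)) := h
      have h3 := intervalIntegral.integral_comp_sub_right (a := τ') (b := τ)
        (fun u : ℝ => f u * cexp (-(I * z * u))) r
      rw [← mul_sub, h2, ← h3, ← intervalIntegral.integral_const_mul]
      refine intervalIntegral.integral_congr fun t _ => ?_
      have e : cexp (-(I * z * t)) = cexp (-(I * z * r)) * cexp (-(I * z * ((t - r : ℝ) : ℂ))) := by
        rw [← Complex.exp_add]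
        congr 1
        push_cast
        ring
      show ψ r * cexp (-(I * z * r)) * (f (t - r) * cexp (-(I * z * ((t - r : ℝ) : ℂ))))
        = ψ r * (f (t - r) * cexp (-(I * z * t)))
      rw [e]
      ring
    simp only [key]
    rw [← intervalIntegral_integral_swap (ntau_prod hψ hf τ' τ z)]
    have h0 : ∀ t : ℝ, (∫ r : ℝ, ψ r * (f (t - r) * cexp (-(I * z * t)))) = 0 := by
      intro t
      have h := hA t
      unfold cv at h
      simp only [← mul_assoc]
      rw [integral_mul_const, h, zero_mul]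
    simp only [h0, intervalIntegral.integral_zero]

end Pool.Agent.P.MP_2fa38d_an.NA
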