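import Pool.Agent.P.MP_2fa38d_an.NA.IfaceB

/-! Step PLAN. -/

set_option autoImplicit false

namespace Pool.Agent.P.MP_2fa38d_an.NA

open Complex MeasureTheory Set Filter Topology Metric

open scoped FourierTransform SchwartzMap ContDiff

lemma plan_dual (h : Lp ℂ 2 (volume : Measure ℝ)) (φ : 𝓢(ℝ, ℂ)) :
    ∫ x, φ x * (𝓕 h : Lp ℂ 2 (volume : Measure ℝ)) x
      = ∫ x, (𝓕 (φ : ℝ → ℂ)) x * h x := by
  have h1 := Lp.fourier_toTemperedDistribution_eq h
  have h2 := congrArg (fun T : 𝓢'(ℝ, ℂ) => T φ) h1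
  simp only [TemperedDistribution.fourier_apply, Lp.toTemperedDistribution_apply,
    smul_eq_mul] at h2
  rw [← h2]
  rfl

lemma plan_c {F : ℝ → ℂ} (h1 : Integrable F) (h2 : MemLp F 2) :
    Integrable (fun ξ => ‖𝓕 F ξ‖ ^ 2) ∧ ∫ ξ, ‖𝓕 F ξ‖ ^ 2 = ∫ x, ‖F x‖ ^ 2 := by
  set H : Lp ℂ 2 (volume : Measure ℝ) := h2.toLp F with hH
  have hHF : (H : ℝ → ℂ) =ᵐ[volume] F := h2.coeFn_toLp
  have hc : Continuous (𝓕 F) :=
    VectorFourier.fourierIntegral_continuous Real.continuous_fourierChar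
      (by exact continuous_inner) h1
  have hae : (fun ξ => (𝓕 H : Lp ℂ 2 (volume : Measure ℝ)) ξ - 𝓕 F ξ) =ᵐ[volume] 0 := by
    apply ae_eq_zero_of_integral_contDiff_smul_eq_zero
    · exact ((Lp.memLp _).locallyIntegrable (by norm_num)).sub hc.locallyIntegrable
    · intro g hg1 hg2
      have c1 : HasCompactSupport (fun s : ℝ => (g s : ℂ)) :=
        hg2.comp_left (g := fun r : ℝ => (r : ℂ)) (by simp)
      have c2 : ContDiff ℝ ∞ (fun s : ℝ => (g s : ℂ)) := Complex.ofRealCLM.contDiff.comp hg1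
      have m3 : MemLp (fun s : ℝ => (g s : ℂ)) 2 volume :=
        c2.continuous.memLp_of_hasCompactSupport c1
      have i3 : Integrable (fun s : ℝ => (g s : ℂ)) :=
        c2.continuous.integrable_of_hasCompactSupport c1
      have i1 : Integrable (fun s => (g s : ℂ) * (𝓕 H : Lp ℂ 2 (volume : Measure ℝ)) s) :=
        m3.integrable_mul (Lp.memLp _)
      have i2 : Integrable (fun s => (g s : ℂ) * 𝓕 F s) :=
        (c2.continuous.mul hc).integrable_of_hasCompactSupport c1.mul_right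
      have e1 := plan_dual H (c1.toSchwartzMap c2)
      have e2 : ∫ ξ, 𝓕 F ξ * (g ξ : ℂ) = ∫ x, F x * 𝓕 (fun s : ℝ => (g s : ℂ)) x := by
        have := VectorFourier.integral_fourierIntegral_smul_eq_flip (μ := volume) (ν := volume)
          (L := innerₗ ℝ) Real.continuous_fourierChar (by exact continuous_inner) h1 i3
        simp only [flip_innerₗ, smul_eq_mul] at this
        exact this
      simp only [Complex.real_smul, mul_sub]
      rw [integral_sub i1 i2]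
      change (∫ x, (g x : ℂ) * (𝓕 H : Lp ℂ 2 (volume : Measure ℝ)) x)
        = ∫ x, 𝓕 (fun s : ℝ => (g s : ℂ)) x * H x at e1
      rw [e1, sub_eq_zero]
      simp_rw [mul_comm (g _ : ℂ)]
      rw [e2]
      refine integral_congr_ae ?_
      filter_upwards [hHF] with x hx
      rw [hx, mul_comm]
  have hae' : ((𝓕 H : Lp ℂ 2 (volume : Measure ℝ)) : ℝ → ℂ) =ᵐ[volume] 𝓕 F := by
    filter_upwards [hae] with x hx
    exact sub_eq_zero.1 hx
  have hm : MemLp (𝓕 F) 2 := (Lp.memLp _).ae_eq hae'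
  refine ⟨(memLp_two_iff_integrable_sq_norm hm.1).1 hm, ?_⟩
  have n1 : ∀ G : Lp ℂ 2 (volume : Measure ℝ), ‖G‖ ^ 2 = ∫ x, ‖G x‖ ^ 2 := by
    intro G
    rw [← real_inner_self_eq_norm_sq, L2.inner_def]
    simp_rw [real_inner_self_eq_norm_sq]
  calc ∫ ξ, ‖𝓕 F ξ‖ ^ 2 = ∫ ξ, ‖(𝓕 H : Lp ℂ 2 (volume : Measure ℝ)) ξ‖ ^ 2 := by
        refine integral_congr_ae ?_
        filter_upwards [hae'] with x hx
        rw [hx]
    _ = ∫ x, ‖H x‖ ^ 2 := by rw [← n1, ← n1, Lp.norm_fourier_eq]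
    _ = ∫ x, ‖F x‖ ^ 2 := by
        refine integral_congr_ae ?_
        filter_upwards [hHF] with x hx
        rw [hx]

lemma plan_ft (w : ℝ → ℂ) (ξ : ℝ) : ft w ξ = 𝓕 w ((2 * Real.pi)⁻¹ * ξ) := by
  rw [Real.fourier_real_eq_integral_exp_smul]
  unfold ft
  refine integral_congr_ae (Eventually.of_forall fun t => ?_)
  have hpi : (Real.pi : ℂ) ≠ 0 := by exact_mod_cast Real.pi_ne_zero
  simp only [smul_eq_mul]
  rw [mul_comm]
  congr 2
  push_cast
  field_simp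

theorem p_PLAN :
    S_PLAN := by
  intro w h1 h2
  obtain ⟨hi, he⟩ := plan_c h1 h2
  have hpi : 0 < 2 * Real.pi := by positivity
  have hne : (2 * Real.pi)⁻¹ ≠ 0 := (inv_pos.2 hpi).ne'
  simp_rw [plan_ft]
  refine ⟨?_, ?_⟩
  · exact (integrable_comp_mul_left_iff (fun ξ => ‖𝓕 w ξ‖ ^ 2) hne).2 hi
  · rw [Measure.integral_comp_mul_left (fun ξ => ‖𝓕 w ξ‖ ^ 2), he, inv_inv,
      abs_of_pos hpi, smul_eq_mul]

end Pool.Agent.P.MP_2fa38d_an.NA
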