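import Pool.Agent.P.MP_2fa38d_an.NA.IfaceB

/-! Step PRIN. -/

set_option autoImplicit false

namespace Pool.Agent.P.MP_2fa38d_an.NA

open Complex MeasureTheory Set Filter Topology Metric

theorem prin_dslope {v : ℂ → ℂ} {l : ℂ} (hv : AnalyticAt ℂ v l) :
    AnalyticAt ℂ (dslope v l) l := by
  obtain ⟨p, hp⟩ := hv
  exact ⟨_, hp.has_fpower_series_dslope_fslope⟩

theorem prin_gen (l : ℂ) (n : ℕ) : ∀ v : ℂ → ℂ, AnalyticAt ℂ v l →
    ∃ (c : ℕ → ℂ) (a : ℂ → ℂ), AnalyticAt ℂ a l ∧
      ∀ z, z ≠ l → v z / (z - l) ^ n =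
        (∑ j ∈ Finset.range n, c j / (z - l) ^ (j + 1)) + a z := by
  induction n with
  | zero =>
    intro v hv
    exact ⟨fun _ => 0, v, hv, fun z _ => by simp⟩
  | succ n ih =>
    intro v hv
    obtain ⟨c, a, ha, h⟩ := ih (dslope v l) (prin_dslope hv)
    refine ⟨Function.update c n (v l), a, ha, fun z hz => ?_⟩
    have hzl : z - l ≠ 0 := sub_ne_zero.mpr hz
    rw [Finset.sum_range_succ, Function.update_self]
    have e1 : ∑ j ∈ Finset.range n, Function.update c n (v l) j / (z - l) ^ (j + 1) =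
        ∑ j ∈ Finset.range n, c j / (z - l) ^ (j + 1) := by
      refine Finset.sum_congr rfl fun j hj => ?_
      rw [Function.update_of_ne (Finset.mem_range.mp hj).ne]
    rw [e1]
    have e2 := h z hz
    have e3 : dslope v l z = (v z - v l) / (z - l) := by
      rw [dslope_of_ne _ hz, slope_def_field]
    have e4 : v z / (z - l) ^ (n + 1) =
        dslope v l z / (z - l) ^ n + v l / (z - l) ^ (n + 1) := by
      rw [e3]
      field_simp
      ring
    rw [e4, e2]
    ring

theorem p_PRIN :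
    S_PRIN := by
  intro N F hN hF hne l
  have hFa : AnalyticAt ℂ F l := hF.analyticAt l
  have hNa : AnalyticAt ℂ N l := hN.analyticAt l
  have htop : analyticOrderAt F l ≠ ⊤ := by
    intro h
    rw [analyticOrderAt_eq_top] at h
    obtain ⟨z, hz⟩ := hne
    have hA : AnalyticOnNhd ℂ F univ := fun w _ => hF.analyticAt w
    have := hA.eqOn_zero_of_preconnected_of_eventuallyEq_zero isPreconnected_univ
      (mem_univ l) h (mem_univ z)
    exact hz this
  obtain ⟨k, hk, hk0, hFk⟩ := (hFa.analyticOrderNatAt_eq_iff htop (n := od F l)).mp rfl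
  obtain ⟨c, a, ha, h⟩ := prin_gen l (od F l) (fun z => N z / k z) (hNa.div hk hk0)
  refine ⟨c, a, ha, ?_⟩
  filter_upwards [self_mem_nhdsWithin, nhdsWithin_le_nhds hFk] with z hz hz2
  have hz' : z ≠ l := hz
  rw [← h z hz', hz2, smul_eq_mul, div_div, mul_comm]

end Pool.Agent.P.MP_2fa38d_an.NA
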