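import Pool.Agent.P.MP_2fa38d_an.NA.IfaceB

/-! Step QBD. -/

set_option autoImplicit false

namespace Pool.Agent.P.MP_2fa38d_an.NA

open Complex MeasureTheory Set Filter Topology Metric

theorem qbd_div (n d : ℂ) (c K s y τ : ℝ)
    (hd : Real.exp (-(K * (1 + |y|))) ≤ ‖d‖)
    (hn : ‖n‖ ≤ c * Real.exp (s * y + (τ + 1) * |y|)) :
    ‖n / d‖ ≤ c * Real.exp K * Real.exp (s * y + (τ + K + 1) * |y|) := by
  have h0 : 0 < Real.exp (-(K * (1 + |y|))) := Real.exp_pos _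
  have hd0 : 0 < ‖d‖ := lt_of_lt_of_le h0 hd
  have hc : 0 ≤ c * Real.exp (s * y + (τ + 1) * |y|) := le_trans (norm_nonneg _) hn
  rw [norm_div]
  calc ‖n‖ / ‖d‖ ≤ c * Real.exp (s * y + (τ + 1) * |y|) / Real.exp (-(K * (1 + |y|))) :=
        div_le_div₀ hc hn h0 hd
    _ = c * Real.exp K * Real.exp (s * y + (τ + K + 1) * |y|) := by
        rw [mul_div_assoc, ← Real.exp_sub, mul_assoc, ← Real.exp_add]
        congr 2
        ring

theorem p_QBD (hCVFT : S_CVFT) (hNCONV : S_NCONV) (hNBD : S_NBD) :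
    S_QBD := by
  intro b B K s ε φ f hb hB hφ hf hA hε
  obtain ⟨Y, C, hYC⟩ := hNBD f s (B + b) (ε * Real.exp (-K)) hf (add_nonneg hB hb)
    (mul_pos hε (Real.exp_pos _))
  refine ⟨Y, C * Real.exp K, ?_⟩
  intro R H hH h1 hL z hz
  obtain ⟨h, hh, hHh⟩ := hH
  obtain ⟨hcs, hft⟩ := hCVFT B b h φ hh hφ
  obtain ⟨hann, hNN⟩ := hNCONV B b h φ f hh hφ hf hA
  have hb1 : ∀ x : ℝ, ‖ft (cv h φ) x‖ ≤ 1 := by
    intro x
    rw [hft, ← hHh, mul_comm]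
    exact h1 x
  obtain ⟨e1, e2⟩ := hYC (cv h φ) hcs hb1 hann z
  have hl := hL z hz
  have hne : ft φ z * H z ≠ 0 := by
    intro h0
    have h2 : Real.exp (-(K * (1 + |z.im|))) ≤ ‖ft φ z * H z‖ := hl
    rw [h0, norm_zero] at h2
    exact absurd h2 (not_le.mpr (Real.exp_pos _))
  have hH0 : H z ≠ 0 := right_ne_zero_of_mul hne
  have hq : NN φ f s s z / ft φ z = NN (cv h φ) f s s z / (ft φ z * H z) := by
    rw [hNN, ← hHh, mul_comm (H z), mul_div_mul_right _ _ hH0]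
  rw [hq]
  refine ⟨qbd_div _ _ _ _ _ _ _ hl e1, fun hY => ?_⟩
  have h3 := qbd_div _ _ _ _ _ _ _ hl (e2 hY)
  rwa [mul_assoc ε, ← Real.exp_add, neg_add_cancel, Real.exp_zero, mul_one] at h3

end Pool.Agent.P.MP_2fa38d_an.NA
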