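import Pool.Agent.P.MP_2fa38d_an.NA.IfaceB

/-! Step RES. -/

set_option autoImplicit false

namespace Pool.Agent.P.MP_2fa38d_an.NA

open Complex MeasureTheory Set Filter Topology Metric

lemma res_pr {n : ℕ} (c : ℕ → ℂ) {l z : ℂ} (h : z ≠ l) :
    DifferentiableAt ℂ (fun w => ∑ j ∈ Finset.range n, c j / (w - l) ^ (j + 1)) z := by
  refine DifferentiableAt.fun_sum fun j _ => ?_
  exact (differentiableAt_const _).div ((differentiableAt_id.sub_const l).pow _)
    (pow_ne_zero _ (sub_ne_zero.2 h))

theorem p_RES (hZFIN : S_ZFIN) (hPRIN : S_PRIN) (hRES1 : S_RES1) :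
    S_RES := by
  classical
  intro N F hN hF hne
  choose c a ha hev using hPRIN N F hN hF hne
  refine ⟨fun l => ∑ j ∈ Finset.range (od F l),
    Polynomial.monomial j (I * (c l j * (I ^ j / (j.factorial : ℂ)))), fun l => ?_, ?_⟩
  · rw [Polynomial.degree_lt_iff_coeff_zero]
    intro m hm
    rw [Polynomial.finsetSum_coeff]
    refine Finset.sum_eq_zero fun j hj => ?_
    rw [Polynomial.coeff_monomial, if_neg]
    have := Finset.mem_range.1 hj
    omega
  intro R Λ hR hcirc hΛ x
  set pr : ℂ → ℂ → ℂ := fun l w => ∑ j ∈ Finset.range (od F l), c l j / (w - l) ^ (j + 1)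
    with hpr
  set D : ℂ → ℂ := fun w => if w ∈ Λ then a w w - ∑ l ∈ Λ.erase w, pr l w
    else N w / F w - ∑ l ∈ Λ, pr l w with hD
  have hopen : ∀ (S : Finset ℂ) (z : ℂ), z ∉ S → ∀ᶠ w in 𝓝 z, w ∉ S := fun S z hz =>
    S.finite_toSet.isClosed.isOpen_compl.mem_nhds hz
  have hdiff : ∀ z : ℂ, ‖z‖ ≤ R → DifferentiableAt ℂ D z := by
    intro z hz
    by_cases hzΛ : z ∈ Λ
    · have h1 : D =ᶠ[𝓝 z] fun w => a z w - ∑ l ∈ Λ.erase z, pr l w := by
        have h2 := eventually_nhdsWithin_iff.1 (hev z)
        filter_upwards [h2, hopen (Λ.erase z) z (Finset.notMem_erase z Λ)] with w hw hw2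
        by_cases hwz : w = z
        · subst hwz
          simp only [hD, if_pos hzΛ]
        · have hwΛ : w ∉ Λ := fun h => hw2 (Finset.mem_erase.2 ⟨hwz, h⟩)
          simp only [hD, if_neg hwΛ]
          rw [hw hwz, ← Finset.add_sum_erase Λ (fun l => pr l w) hzΛ]
          simp only [hpr]
          ring
      refine DifferentiableAt.congr_of_eventuallyEq ?_ h1
      refine (ha z).differentiableAt.sub (DifferentiableAt.fun_sum fun l hl => ?_)
      exact res_pr _ (Finset.ne_of_mem_erase hl).symm
    · have hFz : F z ≠ 0 := by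
        rcases hz.eq_or_lt with h | h
        · exact hcirc z h
        · exact fun h0 => hzΛ ((hΛ z).2 ⟨h, h0⟩)
      have h1 : D =ᶠ[𝓝 z] fun w => N w / F w - ∑ l ∈ Λ, pr l w := by
        filter_upwards [hopen Λ z hzΛ] with w hw
        simp only [hD, if_neg hw]
      refine DifferentiableAt.congr_of_eventuallyEq ?_ h1
      refine ((hN z).div (hF z) hFz).sub (DifferentiableAt.fun_sum fun l hl => ?_)
      exact res_pr _ (fun h => hzΛ (h ▸ hl))
  have hexp : Differentiable ℂ fun z : ℂ => cexp (I * z * x) := by fun_prop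
  have hcont : ContinuousOn (fun z => cexp (I * z * x) * D z) (closedBall 0 R) := fun z hz =>
    ((hexp z).mul (hdiff z (by simpa using hz))).continuousAt.continuousWithinAt
  have hzero : (∮ z in C(0, R), cexp (I * z * x) * D z) = 0 :=
    Complex.circleIntegral_eq_zero_of_differentiable_on_off_countable hR.le countable_empty hcont
      fun z hz => (hexp z).mul (hdiff z (by have := hz.1; simp at this; exact this.le))
  have hint : ∀ l ∈ Λ, ∀ j : ℕ,
      CircleIntegrable (fun z => c l j * (cexp (I * z * x) / (z - l) ^ (j + 1))) 0 R := by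
    intro l hl j
    refine ContinuousOn.circleIntegrable hR.le ?_
    refine continuousOn_const.mul (hexp.continuous.continuousOn.div (by fun_prop) fun z hz => ?_)
    refine pow_ne_zero _ (sub_ne_zero.2 fun h => ?_)
    have h1 := ((hΛ l).1 hl).1
    have h2 : ‖z‖ = R := by simpa using hz
    rw [← h, h2] at h1
    exact lt_irrefl _ h1
  have hint2 : ∀ l ∈ Λ, CircleIntegrable (fun z => ∑ j ∈ Finset.range (od F l),
      c l j * (cexp (I * z * x) / (z - l) ^ (j + 1))) 0 R := fun l hl =>
    CircleIntegrable.fun_sum _ fun j _ => hint l hl j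
  have hmain : (∮ z in C(0, R), cexp (I * z * x) * N z / F z) =
      ∮ z in C(0, R), (cexp (I * z * x) * D z + ∑ l ∈ Λ, ∑ j ∈ Finset.range (od F l),
        c l j * (cexp (I * z * x) / (z - l) ^ (j + 1))) := by
    refine circleIntegral.integral_congr hR.le fun z hz => ?_
    have h2 : ‖z‖ = R := by simpa using hz
    have hzΛ : z ∉ Λ := fun h => by
      have h1 := ((hΛ z).1 h).1
      rw [h2] at h1
      exact lt_irrefl _ h1
    simp only [hD, if_neg hzΛ, hpr]
    rw [mul_sub, Finset.mul_sum, mul_div_assoc, sub_add, eq_comm, sub_eq_self, sub_eq_zero]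
    refine Finset.sum_congr rfl fun l _ => ?_
    rw [Finset.mul_sum]
    refine Finset.sum_congr rfl fun j _ => ?_
    ring
  unfold SS
  rw [hmain, circleIntegral.integral_add
    ((hcont.mono sphere_subset_closedBall).circleIntegrable hR.le)
    (CircleIntegrable.fun_sum _ hint2), hzero, zero_add, circleIntegral.integral_fun_sum hint2,
    Finset.mul_sum]
  refine Finset.sum_congr rfl fun l hl => ?_
  rw [circleIntegral.integral_fun_sum fun j _ => hint l hl j, Polynomial.eval_finsetSum,
    Finset.mul_sum, Finset.sum_mul]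
  refine Finset.sum_congr rfl fun j _ => ?_
  rw [circleIntegral.integral_const_mul, hRES1 R x l j ((hΛ l).1 hl).1, Polynomial.eval_monomial,
    mul_pow]
  have hpi : (Real.pi : ℂ) ≠ 0 := by exact_mod_cast Real.pi_ne_zero
  field_simp

end Pool.Agent.P.MP_2fa38d_an.NA
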