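import Pool.Agent.P.MP_2fa38d_an.NA.IfaceB

/-! Step RES1. -/

set_option autoImplicit false

namespace Pool.Agent.P.MP_2fa38d_an.NA

open Complex MeasureTheory Set Filter Topology Metric

theorem res1_ne {R : ℝ} {l z : ℂ} (h : ‖l‖ < R) (hz : z ∈ sphere (0 : ℂ) R) : z - l ≠ 0 := by
  intro e
  rw [sub_eq_zero.1 e, mem_sphere_zero_iff_norm] at hz
  exact h.ne hz

theorem res1_int (R x : ℝ) (c l : ℂ) (j : ℕ) (h : ‖l‖ < R) :
    CircleIntegrable (fun z => c * (cexp (I * z * x) / (z - l) ^ j)) 0 R := by
  have hR : 0 ≤ R := (norm_nonneg _).trans h.le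
  refine ContinuousOn.circleIntegrable hR ?_
  exact continuousOn_const.mul
    (ContinuousOn.div (by fun_prop) (by fun_prop) fun z hz => pow_ne_zero _ (res1_ne h hz))

theorem p_RES1 :
    S_RES1 := by
  intro R x l j h
  have hR : 0 ≤ R := (norm_nonneg _).trans h.le
  induction j with
  | zero =>
    have := DifferentiableOn.circleIntegral_sub_inv_smul (R := R) (c := 0) (w := l)
      (f := fun z => cexp (I * z * x)) (by fun_prop) (by simpa using h)
    simp only [smul_eq_mul] at this
    simp only [zero_add, pow_one, pow_zero, Nat.factorial_zero, Nat.cast_one, one_mul,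
      div_eq_inv_mul, inv_one]
    exact this
  | succ j ih =>
    have h0 : (∮ z in C(0, R), (I * x * (cexp (I * z * x) / (z - l) ^ (j + 1)) -
        ((j : ℂ) + 1) * (cexp (I * z * x) / (z - l) ^ (j + 1 + 1)))) = 0 := by
      refine circleIntegral.integral_eq_zero_of_hasDerivWithinAt hR
        (f := fun z => cexp (I * z * x) / (z - l) ^ (j + 1)) fun z hz => ?_
      have hne := res1_ne h hz
      have d1 : HasDerivAt (fun z : ℂ => cexp (I * z * x)) (cexp (I * z * x) * (I * 1 * x)) z :=
        (((hasDerivAt_id z).const_mul I).mul_const (x : ℂ)).cexp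
      have d2 : HasDerivAt (fun z : ℂ => (z - l) ^ (j + 1))
          (((j + 1 : ℕ) : ℂ) * (z - l) ^ (j + 1 - 1) * 1) z :=
        ((hasDerivAt_id z).sub_const l).pow (j + 1)
      have d3 := d1.div d2 (pow_ne_zero _ hne)
      refine (d3.congr_deriv ?_).hasDerivWithinAt
      rw [Nat.add_sub_cancel]
      push_cast
      field_simp
      ring
    rw [circleIntegral.integral_sub (res1_int R x _ l _ h) (res1_int R x _ l _ h), circleIntegral.integral_const_mul,
      circleIntegral.integral_const_mul, ih] at h0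
    have hj : ((j : ℂ) + 1) ≠ 0 := by exact_mod_cast Nat.succ_ne_zero j
    have hf : (j.factorial : ℂ) ≠ 0 := by exact_mod_cast j.factorial_ne_zero
    apply mul_left_cancel₀ hj
    rw [← sub_eq_zero.1 h0, Nat.factorial_succ]
    push_cast
    field_simp
    ring

end Pool.Agent.P.MP_2fa38d_an.NA
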