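import Pool.Agent.P.MP_2fa38d_an.NA.IfaceB

/-! Step SEMI. -/

set_option autoImplicit false

namespace Pool.Agent.P.MP_2fa38d_an.NA

open Complex MeasureTheory Set Filter Topology Metric

theorem semi_mem (R : ℝ) (hR : 0 < R) (θ : ℝ) : circleMap 0 R θ ∈ sphere (0 : ℂ) R :=
  circleMap_mem_sphere 0 hR.le θ

theorem semi_cont (u : ℂ → ℂ) (R : ℝ) (hR : 0 < R) (hu : ContinuousOn u (sphere 0 R)) :
    Continuous fun θ : ℝ => I * circleMap 0 R θ * u (circleMap 0 R θ) := by
  have h1 : Continuous fun θ : ℝ => u (circleMap 0 R θ) :=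
    hu.comp_continuous (continuous_circleMap 0 R) (semi_mem R hR)
  exact (continuous_const.mul (continuous_circleMap 0 R)).mul h1

theorem semi_shift (R θ : ℝ) : circleMap 0 R (θ + Real.pi) = -circleMap 0 R θ := by
  simp only [circleMap, zero_add, ofReal_add, add_mul, Complex.exp_add, exp_pi_mul_I]
  ring

theorem semi_one (u : ℂ → ℂ) (R : ℝ) (hR : 0 < R) (hu : ContinuousOn u (sphere 0 R)) :
    (∮ z in C(0, R), u z) = up u R - up (fun z => u (-z)) R := by
  have hc := semi_cont u R hR hu
  have h1 : (∮ z in C(0, R), u z) =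
      ∫ θ in (0:ℝ)..2 * Real.pi, I * circleMap 0 R θ * u (circleMap 0 R θ) := by
    unfold circleIntegral
    refine intervalIntegral.integral_congr fun θ _ => ?_
    simp only [deriv_circleMap, smul_eq_mul]
    ring
  have h2 := intervalIntegral.integral_add_adjacent_intervals
    (hc.intervalIntegrable (μ := volume) 0 Real.pi)
    (hc.intervalIntegrable (μ := volume) Real.pi (2 * Real.pi))
  have h3 : (∫ θ in Real.pi..2 * Real.pi, I * circleMap 0 R θ * u (circleMap 0 R θ)) =
      -up (fun z => u (-z)) R := by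
    have h4 := intervalIntegral.integral_comp_add_right
      (fun θ : ℝ => I * circleMap 0 R θ * u (circleMap 0 R θ)) (a := 0) (b := Real.pi) Real.pi
    rw [zero_add, ← two_mul] at h4
    rw [← h4, up, ← intervalIntegral.integral_neg]
    refine intervalIntegral.integral_congr fun θ _ => ?_
    simp only [semi_shift]
    ring
  rw [h1, ← h2, h3, sub_eq_add_neg]
  rfl

theorem semi_two (E : ℂ → ℂ) (R : ℝ) (hE : Differentiable ℂ E) :
    up E R = -∫ ξ in (-R)..R, E ξ := by
  obtain ⟨G, hG⟩ := hE.isExactOn_univ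
  have hG' : ∀ z, HasDerivAt G (E z) z := fun z => hG z (mem_univ z)
  have hc : Continuous fun θ : ℝ => I * circleMap 0 R θ * E (circleMap 0 R θ) :=
    (continuous_const.mul (continuous_circleMap 0 R)).mul
      (hE.continuous.comp (continuous_circleMap 0 R))
  have h1 : up E R = G (circleMap 0 R Real.pi) - G (circleMap 0 R 0) := by
    unfold up
    refine intervalIntegral.integral_eq_sub_of_hasDerivAt
      (f := fun θ : ℝ => G (circleMap 0 R θ)) (fun θ _ => ?_) (hc.intervalIntegrable _ _)
    have h2 := (hG' (circleMap 0 R θ)).scomp θ (hasDerivAt_circleMap 0 R θ)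
    have h6 : I * circleMap 0 R θ * E (circleMap 0 R θ) =
        (circleMap 0 R θ * I) • E (circleMap 0 R θ) := by
      rw [smul_eq_mul]
      ring
    rw [h6]
    exact h2
  have h3 : (∫ ξ in (-R)..R, E ξ) = G (R : ℝ) - G ((-R : ℝ) : ℂ) := by
    refine intervalIntegral.integral_eq_sub_of_hasDerivAt
      (f := fun ξ : ℝ => G (ξ : ℂ)) (fun ξ _ => ?_)
      ((hE.continuous.comp continuous_ofReal).intervalIntegrable _ _)
    exact (hG' (ξ : ℂ)).comp_ofReal
  have h4 : circleMap 0 R Real.pi = ((-R : ℝ) : ℂ) := by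
    simp [circleMap, exp_pi_mul_I]
  have h5 : circleMap 0 R 0 = (R : ℂ) := by
    simp [circleMap]
  rw [h1, h3, h4, h5]
  ring

theorem p_SEMI :
    S_SEMI := by
  refine ⟨semi_one, semi_two, fun u v w R hR hu hv hw => ?_⟩
  unfold up
  rw [← intervalIntegral.integral_sub ((semi_cont u R hR hu).intervalIntegrable _ _)
    ((semi_cont v R hR hv).intervalIntegrable _ _)]
  refine intervalIntegral.integral_congr fun θ _ => ?_
  have h : ‖circleMap 0 R θ‖ = R := by
    simpa using semi_mem R hR θ
  simp only [hw _ h]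
  ring

end Pool.Agent.P.MP_2fa38d_an.NA
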