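import Pool.Agent.P.MP_2fa38d_an.NA.IfaceB

/-! Step UNIQ. -/

set_option autoImplicit false

namespace Pool.Agent.P.MP_2fa38d_an.NA

open Complex MeasureTheory Set Filter Topology Metric

theorem p_UNIQ :
    S_UNIQ := by
  intro φ hφ h0
  have hF : ∀ ξ : ℝ, FourierTransform.fourier φ ξ = 0 := fun ξ => by
    rw [Real.fourier_real_eq_integral_exp_smul, ← h0 (2 * Real.pi * ξ), ft]
    refine integral_congr_ae (ae_of_all _ fun t => ?_)
    simp only [smul_eq_mul]
    rw [mul_comm]
    congr 2
    push_cast
    ring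
  refine ae_eq_zero_of_integral_contDiff_smul_eq_zero hφ.locallyIntegrable fun g hg hc => ?_
  have hc' : HasCompactSupport fun x => (g x : ℂ) := hc.comp_left (g := fun r : ℝ => (r : ℂ)) (by simp)
  have hg' : ContDiff ℝ (⊤ : ℕ∞) fun x => (g x : ℂ) := ofRealCLM.contDiff.comp hg
  set G : SchwartzMap ℝ ℂ := hc'.toSchwartzMap hg' with hG
  set k : SchwartzMap ℝ ℂ := FourierTransformInv.fourierInv G with hk
  have e : ∀ x, FourierTransform.fourier (k : ℝ → ℂ) x = g x := fun x => by
    rw [← SchwartzMap.fourier_coe, hk, FourierTransform.fourier_fourierInv_eq]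
    rfl
  have key : ∫ ξ, FourierTransform.fourier (k : ℝ → ℂ) ξ • φ ξ =
      ∫ x, k x • FourierTransform.fourier φ x := by
    simpa using! VectorFourier.integral_fourierIntegral_smul_eq_flip (L := innerₗ ℝ)
      Real.continuous_fourierChar continuous_inner k.integrable hφ
  simpa only [e, hF, mul_zero, integral_zero, smul_eq_mul, Complex.real_smul] using key

end Pool.Agent.P.MP_2fa38d_an.NA
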