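import Pool.Agent.P.MP_2fa38d_an.NA.AllA
import Pool.Agent.P.MP_2fa38d_an.NA.TCIRCI
import Pool.Agent.P.MP_2fa38d_an.NA.TUNIQ
import Pool.Agent.P.MP_2fa38d_an.NA.TPRIN
import Pool.Agent.P.MP_2fa38d_an.NA.TRES1
import Pool.Agent.P.MP_2fa38d_an.NA.TRES
import Pool.Agent.P.MP_2fa38d_an.NA.TDER
import Pool.Agent.P.MP_2fa38d_an.NA.TSEMI
import Pool.Agent.P.MP_2fa38d_an.NA.TARCI
import Pool.Agent.P.MP_2fa38d_an.NA.TDIR
import Pool.Agent.P.MP_2fa38d_an.NA.TLOC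
import Pool.Agent.P.MP_2fa38d_an.NA.TPLAN
import Pool.Agent.P.MP_2fa38d_an.NA.TL1FT
import Pool.Agent.P.MP_2fa38d_an.NA.TINV
import Pool.Agent.P.MP_2fa38d_an.NA.TDINI
import Pool.Agent.P.MP_2fa38d_an.NA.TNENT
import Pool.Agent.P.MP_2fa38d_an.NA.TNTAU
import Pool.Agent.P.MP_2fa38d_an.NA.TNCONV
import Pool.Agent.P.MP_2fa38d_an.NA.TNDER
import Pool.Agent.P.MP_2fa38d_an.NA.TNREP
import Pool.Agent.P.MP_2fa38d_an.NA.TMULT
import Pool.Agent.P.MP_2fa38d_an.NA.TNBD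
import Pool.Agent.P.MP_2fa38d_an.NA.TQBD
import Pool.Agent.P.MP_2fa38d_an.NA.TEQC
import Pool.Agent.P.MP_2fa38d_an.NA.TEQL
import Pool.Agent.P.MP_2fa38d_an.NA.TITER
import Pool.Agent.P.MP_2fa38d_an.NA.TNOABEL

/-! The expansion theorem, assembled. -/

set_option autoImplicit false

namespace Pool.Agent.P.MP_2fa38d_an.NA

theorem a_CIRCI : S_CIRCI := p_CIRCI a_FTTY a_PWOPS a_ZFIN a_LEMA a_RAD

theorem a_UNIQ : S_UNIQ := p_UNIQ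

theorem a_PRIN : S_PRIN := p_PRIN

theorem a_RES1 : S_RES1 := p_RES1

theorem a_RES : S_RES := p_RES a_ZFIN a_PRIN a_RES1

theorem a_DER : S_DER := p_DER

theorem a_SEMI : S_SEMI := p_SEMI

theorem a_ARCI : S_ARCI := p_ARCI

theorem a_DIR : S_DIR := p_DIR

theorem a_LOC : S_LOC := p_LOC

theorem a_PLAN : S_PLAN := p_PLAN

theorem a_L1FT : S_L1FT := p_L1FT a_PLAN

theorem a_INV : S_INV := p_INV

theorem a_DINI : S_DINI := p_DINI a_DIR a_LOC a_L1FT a_INV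

theorem a_NENT : S_NENT := p_NENT

theorem a_NTAU : S_NTAU := p_NTAU

theorem a_NCONV : S_NCONV := p_NCONV a_NTAU

theorem a_NDER : S_NDER := p_NDER

theorem a_NREP : S_NREP := p_NREP a_NTAU

theorem a_MULT : S_MULT := p_MULT a_CVFT a_PLAN

theorem a_NBD : S_NBD := p_NBD a_NREP a_MULT

theorem a_QBD : S_QBD := p_QBD a_CVFT a_NCONV a_NBD

theorem a_EQC : S_EQC := p_EQC a_FTTY a_DER a_SEMI a_ARCI a_NENT a_NTAU a_QBD

theorem a_EQL : S_EQL := p_EQL a_DIR a_LOC a_EQC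

theorem a_ITER : S_ITER := p_ITER a_FTTY a_DER a_NENT a_NDER

theorem a_NOABEL2 : S_NOABEL2 := p_NOABEL2 a_FTTY a_ZFIN a_CIRCI a_UNIQ a_RES a_DINI a_NENT a_EQL a_ITER

end Pool.Agent.P.MP_2fa38d_an.NA
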