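import Pool.Agent.P.MP_2fa38d_an.Grow

/-! Definitions for the good circle lemma and its two applications. -/

set_option autoImplicit false

namespace Pool.Agent.P.MP_2fa38d_an.NA

open Complex MeasureTheory Set Filter Topology Metric

/-- Fourier-Laplace transform -/
noncomputable def ft (h : ℝ → ℂ) (z : ℂ) : ℂ := ∫ t : ℝ, h t * cexp (-(I * z * t))

/-- integrable and zero outside `[-b, b]` -/
def Cs (b : ℝ) (h : ℝ → ℂ) : Prop := Integrable h ∧ ∀ t, b < |t| → h t = 0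

/-- transform of an integrable function that is zero outside `[-τ, τ]` -/
def PW (τ : ℝ) (H : ℂ → ℂ) : Prop := ∃ h : ℝ → ℂ, Cs τ h ∧ ∀ z, H z = ft h z

/-- entire, bounded by `C exp (B |Im z|)` -/
def Ty (C B : ℝ) (g : ℂ → ℂ) : Prop :=
  Differentiable ℂ g ∧ ∀ z, ‖g z‖ ≤ C * Real.exp (B * |z.im|)

/-- order of the zero -/
noncomputable def od (g : ℂ → ℂ) (l : ℂ) : ℕ := analyticOrderNatAt g l

/-- convolution -/
noncomputable def cv (ν w : ℝ → ℂ) (t : ℝ) : ℂ := ∫ r : ℝ, ν r * w (t - r)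

/-- lower bound on the circle of radius `R` -/
def Low (K R : ℝ) (G : ℂ → ℂ) : Prop :=
  ∀ z : ℂ, ‖z‖ = R → Real.exp (-(K * (1 + |z.im|))) ≤ ‖G z‖

/-- a good circle for `F` -/
def Gc (F : ℂ → ℂ) (B K R : ℝ) : Prop :=
  ∃ k : ℂ → ℂ, Differentiable ℂ k ∧ Ty 1 B (fun z => F z * k z) ∧ Low K R (fun z => F z * k z)

/-- a sequence of radii with gaps at least one and ratio tending to one -/
def Rad (R : ℕ → ℝ) : Prop :=
  4 ≤ R 0 ∧ (∀ k, R k + 1 ≤ R (k + 1)) ∧ Tendsto (fun k => R (k + 1) / R k) atTop (𝓝 1)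

/-- a multiple of `F` off the circle of radius `R` whose jump across the circle cancels `g` -/
def Piece (F g : ℂ → ℂ) (R u : ℝ) (N : ℕ) (a : ℂ → ℂ) : Prop :=
  (∃ k : ℂ → ℂ, ∀ z : ℂ, ‖z‖ ≠ R → AnalyticAt ℂ k z ∧ a z = F z * k z) ∧
  (∀ z : ℂ, ‖z‖ = R → AnalyticAt ℂ (fun w => a w + if R ≤ ‖w‖ then g w else 0) z) ∧
  ∀ z : ℂ, ‖z‖ ≠ R → ‖a z‖ * |‖z‖ - R| ≤ u * om z ^ N

/-- `ψ * f = 0` -/
def Ann (ψ f : ℝ → ℂ) : Prop := ∀ x, cv ψ f x = 0

/-- transform of `f` cut to an interval -/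
noncomputable def EI (f : ℝ → ℂ) (a c : ℝ) (z : ℂ) : ℂ :=
  ∫ u in a..c, f u * cexp (-(I * z * u))

/-- numerator of the Carleman transform -/
noncomputable def NN (ψ f : ℝ → ℂ) (s τ : ℝ) (z : ℂ) : ℂ :=
  ∫ r : ℝ, ψ r * cexp (-(I * z * r)) * EI f s (τ - r) z

/-- the sum over a disc as a circle integral -/
noncomputable def SS (F N : ℂ → ℂ) (R x : ℝ) : ℂ :=
  (2 * (Real.pi : ℂ))⁻¹ * ∮ z in C(0, R), cexp (I * z * x) * N z / F z

/-- integral over the upper half circle -/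
noncomputable def up (u : ℂ → ℂ) (R : ℝ) : ℂ :=
  ∫ θ in (0:ℝ)..Real.pi, I * circleMap 0 R θ * u (circleMap 0 R θ)

/-- Dirichlet kernel of the line -/
noncomputable def dk (R u : ℝ) : ℂ := ((Real.sin (R * u) / (Real.pi * u) : ℝ) : ℂ)

end Pool.Agent.P.MP_2fa38d_an.NA
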