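import Pool.Agent.P.MP_2fa38d_an.NA.Base

/-! Statements: the good circle lemma and the block theorem. -/

set_option autoImplicit false

namespace Pool.Agent.P.MP_2fa38d_an.NA

open Complex MeasureTheory Set Filter Topology Metric

-- deps:
def S_FTTY : Prop := ∀ (τ : ℝ) (h : ℝ → ℂ), Cs τ h → Ty (∫ t, ‖h t‖) τ (ft h)

-- deps:
def S_CVFT : Prop := ∀ (B B' : ℝ) (ν w : ℝ → ℂ), Cs B ν → Cs B' w →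
  Cs (B + B') (cv ν w) ∧ ∀ z, ft (cv ν w) z = ft ν z * ft w z

-- deps: CVFT
def S_PWOPS : Prop :=
  (∀ (τ τ' : ℝ) (H : ℂ → ℂ), τ ≤ τ' → PW τ H → PW τ' H) ∧
  (∀ (τ : ℝ) (H : ℂ → ℂ) (c : ℂ), PW τ H → PW τ (fun z => c * H z)) ∧
  (∀ (τ : ℝ) (H : ℂ → ℂ), PW τ H → PW τ (fun z => H (-z))) ∧
  (∀ (τ β : ℝ) (H : ℂ → ℂ), 0 < β → PW τ H → PW (β * τ) (fun z => H (β * z))) ∧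
  (∀ (τ a : ℝ) (c : ℂ) (H : ℂ → ℂ), 0 ≤ a → PW τ H →
    PW (τ + a) (fun z => H z * (cos (a * z) - c))) ∧
  (∀ (τ τ' : ℝ) (H H' : ℂ → ℂ), PW τ H → PW τ' H' → PW (τ + τ') (fun z => H z * H' z)) ∧
  (∀ (τ : ℝ) (H : ℂ → ℂ) (n : ℕ), 1 ≤ n → PW τ H → PW (n * τ) (fun z => H z ^ n))

-- deps: FTTY
def S_SIG : Prop := ∀ γ : ℝ, 14 ≤ γ → Real.cos γ = 0 → ∃ σ : ℂ → ℂ, PW 1 σ ∧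
  (∀ z, σ (-z) = σ z) ∧ (∀ z : ℂ, z.im ≠ 0 → σ z ≠ 0) ∧
  (∀ t : ℝ, |t - γ| ≤ 1 → 2 / 3 ≤ ‖σ t‖) ∧
  (∀ t : ℝ, 0 ≤ t → 5 ≤ |t - γ| → ‖σ t‖ ≤ 1 / 2) ∧
  ∃ C : ℝ, ∀ z : ℂ, (1 + ‖z‖ ^ 2) * ‖σ z‖ ≤ C * Real.exp |z.im|

-- deps:
def S_FACT : Prop := ∀ (g : ℂ → ℂ) (A : Finset ℂ), Differentiable ℂ g → (∃ z, g z ≠ 0) →
  ∃ g1 : ℂ → ℂ, Differentiable ℂ g1 ∧ (∀ z, g z = (∏ l ∈ A, (z - l) ^ od g l) * g1 z) ∧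
    ∀ l ∈ A, g1 l ≠ 0

-- deps:
def S_ZFIN : Prop := ∀ g : ℂ → ℂ, Differentiable ℂ g → (∃ z, g z ≠ 0) →
  (∀ (c : ℂ) (r : ℝ), {l : ℂ | ‖l - c‖ ≤ r ∧ g l = 0}.Finite) ∧
  (∀ l, od g l = 0 ↔ g l ≠ 0) ∧
  (∀ l, od (fun z => g (-z)) (-l) = od g l) ∧
  (∀ (k : ℂ → ℂ) (l : ℂ), Differentiable ℂ k → k l ≠ 0 → od (fun z => g z * k z) l = od g l) ∧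
  (∃ y : ℝ, 0 < y ∧ g (y * I) ≠ 0) ∧
  ∀ k : ℂ → ℂ, Differentiable ℂ k → (∃ z, k z ≠ 0) → ∃ z, g z * k z ≠ 0

-- deps: FACT ZFIN
def S_MIN : Prop := ∀ (g : ℂ → ℂ) (c : ℂ) (r S : ℝ), Differentiable ℂ g → 0 < r →
  (∀ z, ‖z - c‖ ≤ 6 * r → ‖g z‖ ≤ Real.exp S) → 1 ≤ ‖g c‖ →
  ∃ A : Finset ℂ, (∀ l, l ∈ A ↔ ‖l - c‖ < 2 * r ∧ g l = 0) ∧
    (∑ l ∈ A, (od g l : ℝ)) ≤ 2 * S ∧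
    ∀ z, ‖z - c‖ ≤ r →
      Real.exp (-(2 * S + 2)) * ∏ l ∈ A, (‖z - l‖ / (2 * r)) ^ od g l ≤ ‖g z‖

-- deps:
def S_MARK : Prop := ∀ (ι : Type) (s : Finset ι) (w h c : ι → ℝ) (K : ℝ), 0 < K →
  (∀ i ∈ s, 0 < h i) → (∀ i ∈ s, 0 ≤ c i) →
  volume {x : ℝ | K < ∑ i ∈ s, c i * Real.posLog (h i / |x - w i|)} ≤
    ENNReal.ofReal (2 * (∑ i ∈ s, c i * h i) / K)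

-- deps:
def S_HP : Prop := ∀ g : ℂ → ℂ, (∀ z : ℂ, 0 ≤ z.im → DifferentiableAt ℂ g z) →
  (∃ C : ℝ, ∀ z : ℂ, 0 ≤ z.im → ‖g z‖ ≤ C) → (∀ x : ℝ, ‖g x‖ ≤ 1) →
  ∀ z : ℂ, 0 ≤ z.im → ‖g z‖ ≤ 1

-- deps: HP
def S_PL : Prop :=
  (∀ (C B : ℝ) (g : ℂ → ℂ), Ty C B g → (∀ x : ℝ, ‖g x‖ ≤ 1) → Ty 1 B g) ∧
  ∀ (B x : ℝ) (g : ℂ → ℂ), 0 ≤ B → Ty 1 B g → g x = 1 →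
    ∀ z : ℂ, ‖z - x‖ ≤ 1 / (2 * (Real.exp B + 2)) → 1 / 2 ≤ ‖g z‖

-- deps:
def S_CELL : Prop := ∀ (Bad : Set ℝ) (r0 X h : ℝ), 0 < r0 → r0 ≤ 1 → 1 ≤ h →
  volume Bad ≤ ENNReal.ofReal (r0 * h) →
  ∃ P : Finset ℝ, (P.card : ℝ) ≤ h ∧ (∀ p ∈ P, |p - X| ≤ 6 * h) ∧
    ∀ x : ℝ, |x - X| ≤ 5 * h → (∃ p ∈ P, |p - x| ≤ r0) ∨ ∃ R, R ∉ Bad ∧ |R - x| ≤ r0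

-- deps: ZFIN MIN MARK
def S_CORE : Prop := ∀ b : ℝ, 0 ≤ b → ∃ C1 : ℝ, 0 < C1 ∧ ∀ (F : ℂ → ℂ) (X h : ℝ),
  Ty 1 b F → 1 ≤ h → (∃ x0 : ℝ, |x0 - X| ≤ h ∧ Real.exp (-h) ≤ ‖F x0‖) →
  (∀ Z : Finset ℂ, (∀ l ∈ Z, ‖l - X‖ ≤ 12 * h) → (∑ l ∈ Z, (od F l : ℝ)) ≤ C1 * h) ∧
  ∀ P : Finset ℝ, (P.card : ℝ) ≤ h → ∃ x : ℝ, |x - X| ≤ h ∧
    Real.exp (-(C1 * h)) ≤ ‖F x‖ * ∏ p ∈ P, |x - p| / (40 * h)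

-- deps: PWOPS SIG
def S_PEAK0 : Prop := ∀ (m M : ℕ) (h X : ℝ) (P : Finset ℝ), 1 ≤ h → 1 ≤ M →
  X = 9 * Real.pi * (m + 1 / 2) * h → (P.card : ℝ) ≤ h → (∀ p ∈ P, |p - X| ≤ 6 * h) →
  ∃ H : ℂ → ℂ, PW (M / h + 1) H ∧ (∀ z, H (-z) = H z) ∧ (∀ z : ℂ, z.im ≠ 0 → H z ≠ 0) ∧
    (∀ p ∈ P, H p = 0) ∧
    (∀ x : ℝ, |x - X| ≤ h → (2 / 3 : ℝ) ^ M * ∏ p ∈ P, |x - p| / (40 * h) ≤ ‖H x‖) ∧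
    ∀ x : ℝ, 0 ≤ x → 5 * h ≤ |x - X| → ‖H x‖ ≤ (1 / 2 : ℝ) ^ M

-- deps: FTTY PWOPS PL PEAK0
def S_PEAK : Prop := ∀ b C1 : ℝ, 0 ≤ b → 0 < C1 → ∃ B : ℝ, 0 ≤ B ∧
  ∀ (F : ℂ → ℂ) (m : ℕ) (h X : ℝ) (P : Finset ℝ), Ty 1 b F → (∀ z, F (-z) = F z) → 1 ≤ h →
  X = 9 * Real.pi * (m + 1 / 2) * h → (P.card : ℝ) ≤ h → (∀ p ∈ P, |p - X| ≤ 6 * h) →
  (∃ x : ℝ, |x - X| ≤ h ∧ Real.exp (-(C1 * h)) ≤ ‖F x‖ * ∏ p ∈ P, |x - p| / (40 * h)) →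
  ∃ (H : ℂ → ℂ) (x0 : ℝ), PW B H ∧ Differentiable ℂ H ∧ (∀ z, H (-z) = H z) ∧
    (∀ z : ℂ, z.im ≠ 0 → H z ≠ 0) ∧ (∀ p ∈ P, H p = 0) ∧ |x0 - X| ≤ 5 * h ∧
    F x0 * H x0 = 1 ∧ Ty 1 (b + B) (fun z => F z * H z)

-- deps: ZFIN MIN
def S_ARC : Prop := ∀ B r0 K1 : ℝ, 0 ≤ B → 0 < r0 → 0 ≤ K1 → ∃ K : ℝ, 1 ≤ K ∧
  ∀ (F H : ℂ → ℂ) (R : ℝ) (Z : Finset ℂ), Differentiable ℂ F → Differentiable ℂ H →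
  Ty 1 B (fun z => F z * H z) → (∀ z : ℂ, z.im ≠ 0 → H z ≠ 0) → 0 < R →
  1 / 2 ≤ ‖F R * H R‖ →
  (∀ l : ℂ, F l = 0 → l.im ≠ 0 → ‖l - R‖ < 4 * |l.im| → ‖l‖ ≤ 4 * R → l ∈ Z) →
  (∀ l ∈ Z, ‖l‖ ≠ R) →
  (∑ l ∈ Z, (od F l : ℝ) * (2 / |l.im|) * Real.posLog (4 * |l.im| / |R - ‖l‖|)) ≤ K1 →
  ∀ z : ℂ, ‖z‖ = R → 0 ≤ z.re → r0 ≤ ‖z - R‖ →
    Real.exp (-(K * (1 + |z.im|))) ≤ ‖F z * H z‖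

-- deps: ZFIN MARK PL CELL CORE PEAK ARC
def S_LEMA0 : Prop := ∀ b : ℝ, 0 ≤ b → ∃ B K : ℝ, 0 ≤ B ∧ 0 ≤ K ∧
  ∀ (F : ℂ → ℂ) (m : ℕ) (h X : ℝ), Ty 1 b F → (∀ z, F (-z) = F z) → 1 ≤ h →
  X = 9 * Real.pi * (m + 1 / 2) * h →
  (∃ x0 : ℝ, |x0 - X| ≤ h ∧ Real.exp (-h) ≤ ‖F x0‖) →
  (∀ Z : Finset ℂ, (∀ l ∈ Z, h < |l.im| ∧ ‖l‖ ≤ 6 * X) → (∑ l ∈ Z, (od F l : ℝ)) ≤ h) →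
  ∃ (R : ℝ) (H : ℂ → ℂ), |R - X| ≤ 6 * h ∧ PW B H ∧ Ty 1 (b + B) (fun z => F z * H z) ∧
    Low K R (fun z => F z * H z)

-- deps:
def S_THETA : Prop := ∀ ε y : ℝ, 0 < ε → ε ≤ 1 / 2 → 0 < y → ∃ c X0 : ℝ, 0 < c ∧ 0 < X0 ∧
  ∀ X : ℝ, X0 ≤ X → ∃ Θ : ℂ → ℂ, (∀ z : ℂ, 0 ≤ z.im → DifferentiableAt ℂ Θ z) ∧
    (∃ C : ℝ, ∀ z : ℂ, 0 ≤ z.im → ‖Θ z‖ ≤ C) ∧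
    (∀ x : ℝ, |x - X| ≤ ε * X → (Θ x).re ≤ 4 * X) ∧
    (∀ x : ℝ, ε * X < |x - X| → (Θ x).re ≤ 0) ∧ c ≤ (Θ (y * I)).re

-- deps: ZFIN HP THETA
def S_ALPHA : Prop := ∀ (b : ℝ) (F : ℂ → ℂ), Ty 1 b F → (∃ z, F z ≠ 0) →
  ∀ ε δ : ℝ, 0 < ε → 0 < δ → ∃ X0 : ℝ, ∀ X : ℝ, X0 ≤ X →
    ∃ x : ℝ, |x - X| ≤ ε * X ∧ Real.exp (-(δ * X)) ≤ ‖F x‖

-- deps: FACT ZFIN HP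
def S_BETA0 : Prop := ∀ (b : ℝ) (F : ℂ → ℂ), Ty 1 b F → (∃ z, F z ≠ 0) →
  ∃ C : ℝ, ∀ Z : Finset ℂ, (∀ l ∈ Z, 0 < l.im) →
    (∑ l ∈ Z, (od F l : ℝ) * (l.im / (1 + ‖l‖ ^ 2))) ≤ C

-- deps: ZFIN BETA0
def S_BETA : Prop := ∀ (b : ℝ) (F : ℂ → ℂ), Ty 1 b F → (∃ z, F z ≠ 0) →
  ∀ ε : ℝ, 0 < ε → ∃ X0 : ℝ, ∀ X : ℝ, X0 ≤ X → ∀ Z : Finset ℂ,
    (∀ l ∈ Z, ε * X < |l.im| ∧ ‖l‖ ≤ 6 * X) → (∑ l ∈ Z, (od F l : ℝ)) ≤ ε * X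

-- deps: LEMA0 ALPHA BETA
def S_LEMA : Prop := ∀ (b : ℝ) (F : ℂ → ℂ), 0 ≤ b → Ty 1 b F → (∀ z, F (-z) = F z) →
  (∃ z, F z ≠ 0) → ∃ B K : ℝ, 0 ≤ B ∧ 0 ≤ K ∧ ∀ η : ℝ, 0 < η → ∃ Y0 : ℝ, ∀ Y : ℝ, Y0 ≤ Y →
    ∃ R : ℝ, Y ≤ R ∧ R ≤ (1 + η) * Y ∧ ∃ H : ℂ → ℂ, PW B H ∧
      Ty 1 (b + B) (fun z => F z * H z) ∧ Low K R (fun z => F z * H z)

-- deps: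
def S_RAD : Prop := ∀ Gd : ℝ → Prop,
  (∀ η : ℝ, 0 < η → ∃ Y0 : ℝ, ∀ Y : ℝ, Y0 ≤ Y → ∃ R : ℝ, Y ≤ R ∧ R ≤ (1 + η) * Y ∧ Gd R) →
  ∃ R : ℕ → ℝ, Rad R ∧ ∀ k, Gd (R k)

-- deps: FTTY SIG ZFIN
def S_RED : Prop := ∀ F : ℂ → ℂ, EE F → (∃ z, F z ≠ 0) → ∃ (b : ℝ) (k : ℂ → ℂ), 0 ≤ b ∧
  Differentiable ℂ k ∧ Ty 1 b (fun z => F z * k z) ∧ (∀ z, F (-z) * k (-z) = F z * k z) ∧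
  ∃ z, F z * k z ≠ 0

-- deps: FTTY LEMA RAD RED
def S_CIRC : Prop := ∀ F : ℂ → ℂ, EE F → (∃ z, F z ≠ 0) →
  ∃ (B K : ℝ) (R : ℕ → ℝ), 0 ≤ B ∧ 0 ≤ K ∧ Rad R ∧ ∀ k, Gc F B K (R k)

-- deps:
def S_LAUR : Prop := ∀ (u : ℂ → ℂ) (R M : ℝ), 0 < R → AnalyticOnNhd ℂ u (sphere 0 R) →
  (∀ w : ℂ, ‖w‖ = R → ‖u w‖ ≤ M) → ∃ q : ℂ → ℂ,
    (∀ z : ℂ, ‖z‖ ≠ R → AnalyticAt ℂ q z ∧ ‖q z‖ * |‖z‖ - R| ≤ M * R) ∧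
    ∀ z : ℂ, ‖z‖ = R → AnalyticAt ℂ (fun w => q w + if R ≤ ‖w‖ then u w else 0) z

-- deps: LAUR
def S_CUT : Prop := ∀ (g Φ : ℂ → ℂ) (R M : ℝ), 0 < R → AnalyticOnNhd ℂ g (sphere 0 R) →
  Differentiable ℂ Φ → (∀ w : ℂ, ‖w‖ = R → Φ w ≠ 0 ∧ ‖g w‖ ≤ M * ‖Φ w‖) → ∃ q : ℂ → ℂ,
    (∀ z : ℂ, ‖z‖ ≠ R → AnalyticAt ℂ q z ∧ ‖q z‖ * |‖z‖ - R| ≤ M * R) ∧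
    ∀ z : ℂ, ‖z‖ = R → AnalyticAt ℂ (fun w => Φ w * q w + if R ≤ ‖w‖ then g w else 0) z

-- deps:
def S_COS : Prop := ∀ T : ℝ, 0 ≤ T → ∃ δ c : ℝ, 0 < δ ∧ δ ≤ 1 / 4 ∧ 0 < c ∧ ∀ R : ℝ, 4 ≤ R →
  ∃ T' : ℝ, T ≤ T' ∧ T' ≤ T + 2 ∧ (∀ z : ℂ, ‖cos (T' * z)‖ ≤ Real.exp (T' * |z.im|)) ∧
    ∀ z : ℂ, |‖z‖ - R| ≤ δ → c * Real.exp (T' * |z.im|) ≤ ‖cos (T' * z)‖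

-- deps: COS
def S_FILL : Prop := ∀ N : ℕ, ∃ (δ : ℝ) (N' : ℕ), 0 < δ ∧ δ ≤ 1 / 4 ∧
  ∀ (R u : ℝ) (g : ℂ → ℂ), 4 ≤ R → 0 ≤ u → Differentiable ℂ g →
  (∀ z : ℂ, |‖z‖ - R| = δ → ‖g z‖ ≤ u * om z ^ N) →
  ∀ z : ℂ, |‖z‖ - R| ≤ δ → ‖g z‖ ≤ u * om z ^ N'

-- deps: CUT COS
def S_HALF : Prop := ∀ (B K : ℝ) (n : ℕ), 0 ≤ B → 0 ≤ K → ∃ N : ℕ, ∀ (F g : ℂ → ℂ) (R : ℝ),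
  4 ≤ R → Gc F B K R → AnalyticOnNhd ℂ g (sphere 0 R) →
  (∀ w : ℂ, ‖w‖ = R → ‖g w‖ ≤ om w ^ n) → ∃ a : ℂ → ℂ, Piece F g R (1 / R ^ 2) N a

-- deps: FILL
def S_BLOCK : Prop := ∀ N n : ℕ, ∃ N' : ℕ, ∀ (F g a1 a2 : ℂ → ℂ) (r R u : ℝ),
  Differentiable ℂ F → ((r < 0 ∧ ∀ z, a1 z = 0) ∨ 4 ≤ r) → r + 1 ≤ R → 4 ≤ R →
  (∀ z : ℂ, r ≤ ‖z‖ → 1 ≤ u * (1 + ‖z‖ ^ 2)) →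
  AnalyticOnNhd ℂ g {z : ℂ | r ≤ ‖z‖ ∧ ‖z‖ ≤ R} →
  (∀ z : ℂ, r ≤ ‖z‖ → ‖z‖ ≤ R → ‖g z‖ ≤ om z ^ n) →
  Piece F g r u N a1 → Piece F g R u N a2 →
  ∃ G : ℂ → ℂ, Bd u N' G ∧ ∀ (z : ℂ) (p : ℕ), ‖z‖ ≠ r → ‖z‖ ≠ R → Van F z p →
    Van (fun w => G w - if r ≤ ‖z‖ ∧ ‖z‖ ≤ R then g w else 0) z p

-- deps: CIRC HALF BLOCK
def S_BLOCKS : Prop := ∀ F : ℂ → ℂ, EE F → (∃ z, F z ≠ 0) →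
  ∃ R : ℕ → ℝ, R 0 = 0 ∧ StrictMono R ∧ Tendsto R atTop atTop ∧
    Tendsto (fun k => R (k + 1) / R k) atTop (𝓝 1) ∧
    ∀ (a : ℕ → ℂ) (p : ℕ → ℕ), (∀ n, ∀ κ < p n, iteratedDeriv κ F (a n) = 0) →
    ∀ lam : ℕ → ℕ → ℂ,
      (∃ A > (0:ℝ), ∃ B > (0:ℝ), ∀ k, ∃ g : ℂ → ℂ,
        AnalyticOnNhd ℂ g {z : ℂ | R k ≤ ‖z‖ ∧ ‖z‖ ≤ R (k + 1)} ∧
        (∀ z : ℂ, R k ≤ ‖z‖ → ‖z‖ ≤ R (k + 1) → ‖g z‖ ≤ A * Real.exp (B * rho z)) ∧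
        ∀ n, R k ≤ ‖a n‖ → ‖a n‖ ≤ R (k + 1) → ∀ κ < p n,
          iteratedDeriv κ g (a n) / (κ.factorial : ℂ) = lam n κ) →
      ∃ g : ℂ → ℂ, EE g ∧ ∀ n, ∀ κ < p n,
        iteratedDeriv κ g (a n) / (κ.factorial : ℂ) = lam n κ

end Pool.Agent.P.MP_2fa38d_an.NA
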