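import Pool.Agent.P.MP_2fa38d_an.NA.Iface

/-! Statements: expansions of mean periodic functions. -/

set_option autoImplicit false

namespace Pool.Agent.P.MP_2fa38d_an.NA

open Complex MeasureTheory Set Filter Topology Metric

-- deps: FTTY PWOPS ZFIN LEMA RAD
def S_CIRCI : Prop := ∀ (b : ℝ) (φ : ℝ → ℂ), 0 ≤ b → Cs b φ → (∃ z, ft φ z ≠ 0) →
  ∃ (B K : ℝ) (R : ℕ → ℝ), 0 ≤ B ∧ 0 ≤ K ∧ Rad R ∧ ∀ k, ∃ H : ℂ → ℂ, PW B H ∧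
    (∀ x : ℝ, ‖ft φ x * H x‖ ≤ 1) ∧ Low K (R k) (fun z => ft φ z * H z)

-- deps:
def S_UNIQ : Prop := ∀ φ : ℝ → ℂ, Integrable φ → (∀ x : ℝ, ft φ x = 0) → φ =ᵐ[volume] 0

-- deps:
def S_PRIN : Prop := ∀ N F : ℂ → ℂ, Differentiable ℂ N → Differentiable ℂ F → (∃ z, F z ≠ 0) →
  ∀ l : ℂ, ∃ (c : ℕ → ℂ) (a : ℂ → ℂ), AnalyticAt ℂ a l ∧
    ∀ᶠ z in 𝓝[≠] l, N z / F z = (∑ j ∈ Finset.range (od F l), c j / (z - l) ^ (j + 1)) + a z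

-- deps:
def S_RES1 : Prop := ∀ (R x : ℝ) (l : ℂ) (j : ℕ), ‖l‖ < R →
  (∮ z in C(0, R), cexp (I * z * x) / (z - l) ^ (j + 1)) =
    2 * Real.pi * I * ((I * x) ^ j / (j.factorial : ℂ) * cexp (I * l * x))

-- deps: ZFIN PRIN RES1
def S_RES : Prop := ∀ N F : ℂ → ℂ, Differentiable ℂ N → Differentiable ℂ F → (∃ z, F z ≠ 0) →
  ∃ P : ℂ → Polynomial ℂ, (∀ l, (P l).degree < (od F l : ℕ)) ∧
    ∀ (R : ℝ) (Λ : Finset ℂ), 0 < R → (∀ z : ℂ, ‖z‖ = R → F z ≠ 0) →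
      (∀ l, l ∈ Λ ↔ ‖l‖ < R ∧ F l = 0) →
      ∀ x : ℝ, SS F N R x = ∑ l ∈ Λ, (P l).eval (x : ℂ) * cexp (I * l * x)

-- deps:
def S_DER : Prop :=
  (∀ (F N : ℂ → ℂ) (R x : ℝ), 0 < R → Continuous F → Continuous N →
    (∀ z : ℂ, ‖z‖ = R → F z ≠ 0) →
    HasDerivAt (SS F N R) (SS F (fun z => I * z * N z) R x) x) ∧
  ∀ (F N N' E : ℂ → ℂ) (R x : ℝ), 0 < R → Continuous F → Continuous N' → Differentiable ℂ E →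
    (∀ z : ℂ, ‖z‖ = R → F z ≠ 0) → (∀ z, N z - N' z = F z * E z) → SS F N R x = SS F N' R x

-- deps:
def S_SEMI : Prop :=
  (∀ (u : ℂ → ℂ) (R : ℝ), 0 < R → ContinuousOn u (sphere 0 R) →
    (∮ z in C(0, R), u z) = up u R - up (fun z => u (-z)) R) ∧
  (∀ (E : ℂ → ℂ) (R : ℝ), Differentiable ℂ E → up E R = -∫ ξ in (-R)..R, E ξ) ∧
  ∀ (u v w : ℂ → ℂ) (R : ℝ), 0 < R → ContinuousOn u (sphere 0 R) → ContinuousOn v (sphere 0 R) →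
    (∀ z : ℂ, ‖z‖ = R → w z = u z - v z) → up w R = up u R - up v R

-- deps:
def S_ARCI : Prop := ∀ ε : ℝ, 0 < ε → ∃ e : ℝ, 0 < e ∧ ∀ C Y : ℝ, ∃ R0 : ℝ, ∀ R : ℝ, R0 ≤ R →
  ∀ u : ℂ → ℂ, (∀ z : ℂ, ‖z‖ = R → 0 ≤ z.im → ‖u z‖ ≤ C * Real.exp (-z.im)) →
    (∀ z : ℂ, ‖z‖ = R → 0 ≤ z.im → Y ≤ |z.re| → ‖u z‖ ≤ e * Real.exp (-z.im)) →
    ‖up u R‖ ≤ ε

-- deps:
def S_DIR : Prop := ∀ (f : ℝ → ℂ) (a c R x : ℝ), Continuous f →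
  IntervalIntegrable (fun t => f t * dk R (x - t)) volume a c ∧
  (2 * (Real.pi : ℂ))⁻¹ * (∫ ξ in (-R)..R, cexp (I * ξ * x) * EI f a c ξ) =
    ∫ t in a..c, f t * dk R (x - t)

-- deps:
def S_LOC : Prop := ∀ (f : ℝ → ℂ) (A L c : ℝ), Continuous f → A < L → L ≤ c →
  TendstoUniformlyOn (fun (R x : ℝ) => ∫ t in L..c, f t * dk R (x - t)) (fun _ => 0) atTop
    (Icc (-A) A) ∧
  TendstoUniformlyOn (fun (R x : ℝ) => ∫ t in (-c)..(-L), f t * dk R (x - t)) (fun _ => 0) atTop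
    (Icc (-A) A)

-- deps:
def S_PLAN : Prop := ∀ w : ℝ → ℂ, Integrable w → MemLp w 2 →
  Integrable (fun ξ : ℝ => ‖ft w ξ‖ ^ 2) ∧
    ∫ ξ : ℝ, ‖ft w ξ‖ ^ 2 = 2 * Real.pi * ∫ t, ‖w t‖ ^ 2

-- deps: PLAN
def S_L1FT : Prop := ∀ w : ℝ → ℂ, ContDiff ℝ 1 w → HasCompactSupport w →
  Integrable (fun ξ : ℝ => ft w ξ)

-- deps:
def S_INV : Prop := ∀ w : ℝ → ℂ, Continuous w → Integrable w → Integrable (fun ξ : ℝ => ft w ξ) →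
  TendstoUniformly
    (fun (R x : ℝ) => (2 * (Real.pi : ℂ))⁻¹ * ∫ ξ in (-R)..R, cexp (I * ξ * x) * ft w ξ) w atTop

-- deps: DIR LOC L1FT INV
def S_DINI : Prop := ∀ (g : ℝ → ℂ) (A L : ℝ), ContDiff ℝ 1 g → A < L →
  TendstoUniformlyOn (fun (R x : ℝ) => ∫ t in (-L)..L, g t * dk R (x - t)) g atTop (Icc (-A) A)

-- deps:
def S_NENT : Prop := ∀ f : ℝ → ℂ, Continuous f →
  (∀ a c : ℝ, Differentiable ℂ (EI f a c)) ∧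
  ∀ (b s τ : ℝ) (ψ : ℝ → ℂ), Cs b ψ → Differentiable ℂ (NN ψ f s τ)

-- deps:
def S_NTAU : Prop := ∀ (b : ℝ) (ψ f : ℝ → ℂ), Cs b ψ → Continuous f →
  (∀ (s s' τ : ℝ) (z : ℂ), NN ψ f s τ z - NN ψ f s' τ z = ft ψ z * EI f s s' z) ∧
  (Ann ψ f → ∀ (s τ τ' : ℝ) (z : ℂ), NN ψ f s τ z = NN ψ f s τ' z)

-- deps: NTAU
def S_NCONV : Prop := ∀ (B b : ℝ) (h ψ f : ℝ → ℂ), Cs B h → Cs b ψ → Continuous f → Ann ψ f →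
  Ann (cv h ψ) f ∧ ∀ (s τ : ℝ) (z : ℂ), NN (cv h ψ) f s τ z = ft h z * NN ψ f s τ z

-- deps:
def S_NDER : Prop := ∀ (b : ℝ) (ψ f : ℝ → ℂ), Cs b ψ → ContDiff ℝ 1 f → Ann ψ f →
  Ann ψ (deriv f) ∧ ∀ z : ℂ, I * z * NN ψ f 0 0 z - NN ψ (deriv f) 0 0 z = ft ψ z * f 0

-- deps: NTAU
def S_NREP : Prop := ∀ (B s : ℝ) (ν f : ℝ → ℂ), 0 ≤ B → Cs B ν → Continuous f → Ann ν f →
  ∃ g : ℝ → ℂ, Integrable g ∧ (∀ t, B < |t - s| → g t = 0) ∧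
    (∀ t, t ≤ s + B + 2 → g t = cv ν (indicator (Icc s (s + 2 * B + 2)) f) t) ∧
    ∀ z, NN ν f s s z = ft g z

-- deps: CVFT PLAN
def S_MULT : Prop := ∀ (B' M ε : ℝ) (w : ℝ → ℂ), Cs B' w → (∀ t, ‖w t‖ ≤ M) → 0 < ε →
  ∃ d0 C : ℝ, 0 < d0 ∧ ∀ (B : ℝ) (ν : ℝ → ℂ), Cs B ν → (∀ x : ℝ, ‖ft ν x‖ ≤ 1) →
    MemLp (cv ν w) 2 ∧ (∫ t, ‖cv ν w t‖ ^ 2) ≤ C ∧
    ∀ d : ℝ, |d| ≤ d0 → (∫ t, ‖cv ν w t - cv ν w (t - d)‖ ^ 2) ≤ ε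

-- deps: NREP MULT
def S_NBD : Prop := ∀ (f : ℝ → ℂ) (s B ε : ℝ), Continuous f → 0 ≤ B → 0 < ε →
  ∃ Y C : ℝ, ∀ ν : ℝ → ℂ, Cs B ν → (∀ x : ℝ, ‖ft ν x‖ ≤ 1) → Ann ν f → ∀ z : ℂ,
    ‖NN ν f s s z‖ ≤ C * Real.exp (s * z.im + (B + 1) * |z.im|) ∧
    (Y ≤ |z.re| → ‖NN ν f s s z‖ ≤ ε * Real.exp (s * z.im + (B + 1) * |z.im|))

-- deps: CVFT NCONV NBD
def S_QBD : Prop := ∀ (b B K s ε : ℝ) (φ f : ℝ → ℂ), 0 ≤ b → 0 ≤ B → Cs b φ → Continuous f →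
  Ann φ f → 0 < ε → ∃ Y C : ℝ, ∀ (R : ℝ) (H : ℂ → ℂ), PW B H → (∀ x : ℝ, ‖ft φ x * H x‖ ≤ 1) →
    Low K R (fun z => ft φ z * H z) → ∀ z : ℂ, ‖z‖ = R →
    ‖NN φ f s s z / ft φ z‖ ≤ C * Real.exp (s * z.im + (B + b + K + 1) * |z.im|) ∧
    (Y ≤ |z.re| → ‖NN φ f s s z / ft φ z‖ ≤ ε * Real.exp (s * z.im + (B + b + K + 1) * |z.im|))

-- deps: FTTY DER SEMI ARCI NENT NTAU QBD
def S_EQC : Prop := ∀ (b B K : ℝ) (φ f : ℝ → ℂ) (R : ℕ → ℝ), 0 ≤ b → 0 ≤ B → Cs b φ →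
  Continuous f → Ann φ f → (∀ k, 0 < R k) → Tendsto R atTop atTop →
  (∀ k, ∃ H : ℂ → ℂ, PW B H ∧ (∀ x : ℝ, ‖ft φ x * H x‖ ≤ 1) ∧
    Low K (R k) (fun z => ft φ z * H z)) →
  ∀ A T : ℝ, A + B + b + K + 2 ≤ T →
    TendstoUniformlyOn (fun (k : ℕ) (x : ℝ) => SS (ft φ) (NN φ f 0 0) (R k) x -
      (2 * (Real.pi : ℂ))⁻¹ * ∫ ξ in (-R k)..R k, cexp (I * ξ * x) * EI f (-T) T ξ)
      (fun _ => 0) atTop (Icc (-A) A)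

-- deps: DIR LOC EQC
def S_EQL : Prop := ∀ (b B K : ℝ) (φ f : ℝ → ℂ) (R : ℕ → ℝ), 0 ≤ b → 0 ≤ B → Cs b φ →
  Continuous f → Ann φ f → (∀ k, 0 < R k) → Tendsto R atTop atTop →
  (∀ k, ∃ H : ℂ → ℂ, PW B H ∧ (∀ x : ℝ, ‖ft φ x * H x‖ ≤ 1) ∧
    Low K (R k) (fun z => ft φ z * H z)) →
  ∀ A L : ℝ, A < L →
    TendstoUniformlyOn (fun (k : ℕ) (x : ℝ) => SS (ft φ) (NN φ f 0 0) (R k) x -
      ∫ t in (-L)..L, f t * dk (R k) (x - t)) (fun _ => 0) atTop (Icc (-A) A)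

-- deps: FTTY DER NENT NDER
def S_ITER : Prop := ∀ (b R : ℝ) (φ : ℝ → ℂ), Cs b φ → 0 < R → (∀ z : ℂ, ‖z‖ = R → ft φ z ≠ 0) →
  ∀ (m : ℕ) (f : ℝ → ℂ), ContDiff ℝ m f → Ann φ f → Ann φ (iteratedDeriv m f) ∧
    iteratedDeriv m (SS (ft φ) (NN φ f 0 0) R) = SS (ft φ) (NN φ (iteratedDeriv m f) 0 0) R

-- deps: FTTY ZFIN CIRCI UNIQ RES DINI NENT EQL ITER
def S_NOABEL : Prop := ∀ φ : ℝ → ℂ, Integrable φ → (∃ b : ℝ, ∀ t, b < |t| → φ t = 0) →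
  ¬ φ =ᵐ[volume] 0 →
  ∃ (R : ℕ → ℝ) (Λ : ℕ → Finset ℂ), StrictMono R ∧ Tendsto R atTop atTop ∧
    Tendsto (fun k => R (k + 1) / R k) atTop (𝓝 1) ∧
    (∀ k l, l ∈ Λ k ↔ ‖l‖ < R k ∧ ft φ l = 0) ∧
    ∀ f : ℝ → ℂ, Continuous f → Ann φ f →
      ∃ P : ℂ → Polynomial ℂ, (∀ l, (P l).degree < (od (ft φ) l : ℕ)) ∧
        (∀ A L : ℝ, A < L → TendstoUniformlyOn
          (fun (k : ℕ) (x : ℝ) => (∑ l ∈ Λ k, (P l).eval (x : ℂ) * cexp (I * l * x)) -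
            ∫ t in (-L)..L, f t * dk (R k) (x - t)) (fun _ => 0) atTop (Icc (-A) A)) ∧
        ∀ m : ℕ, ContDiff ℝ (m + 1 : ℕ) f → ∀ A : ℝ, TendstoUniformlyOn
          (fun k : ℕ => iteratedDeriv m
            (fun x : ℝ => ∑ l ∈ Λ k, (P l).eval (x : ℂ) * cexp (I * l * x)))
          (iteratedDeriv m f) atTop (Icc (-A) A)

end Pool.Agent.P.MP_2fa38d_an.NA
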