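import Pool.Agent.P.MP_2fa38d_an.NA.Iface

/-! Step CELL. -/

set_option autoImplicit false

namespace Pool.Agent.P.MP_2fa38d_an.NA

open Complex MeasureTheory Set Filter Topology Metric

theorem cell_card (Bad : Set ℝ) (r0 h : ℝ) (hr : 0 < r0) (hh : 0 ≤ h)
    (hB : volume Bad ≤ ENNReal.ofReal (r0 * h)) (M : Finset ℤ)
    (hM : ∀ m ∈ M, Ico ((m : ℝ) * r0) (((m : ℝ) + 1) * r0) ⊆ Bad) : (M.card : ℝ) ≤ h := by
  have hdis : Set.PairwiseDisjoint (M : Set ℤ)
      (fun m : ℤ => Ico ((m : ℝ) * r0) (((m : ℝ) + 1) * r0)) := by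
    intro a _ b _ hab
    rw [Function.onFun, Set.disjoint_left]
    intro x hx hy
    rcases lt_or_gt_of_ne hab with h1 | h1
    · have h2 : (a : ℝ) + 1 ≤ b := by exact_mod_cast h1
      have := mul_le_mul_of_nonneg_right h2 hr.le
      linarith [hx.2, hy.1]
    · have h2 : (b : ℝ) + 1 ≤ a := by exact_mod_cast h1
      have := mul_le_mul_of_nonneg_right h2 hr.le
      linarith [hx.1, hy.2]
  have hU : volume (⋃ m ∈ M, Ico ((m : ℝ) * r0) (((m : ℝ) + 1) * r0))
      = ∑ m ∈ M, volume (Ico ((m : ℝ) * r0) (((m : ℝ) + 1) * r0)) :=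
    measure_biUnion_finset hdis (fun m _ => measurableSet_Ico)
  have hsub : (⋃ m ∈ M, Ico ((m : ℝ) * r0) (((m : ℝ) + 1) * r0)) ⊆ Bad :=
    iUnion₂_subset hM
  have h1 : ∑ m ∈ M, volume (Ico ((m : ℝ) * r0) (((m : ℝ) + 1) * r0))
      = ENNReal.ofReal ((M.card : ℝ) * r0) := by
    have : ∀ m ∈ M, volume (Ico ((m : ℝ) * r0) (((m : ℝ) + 1) * r0)) = ENNReal.ofReal r0 := by
      intro m _
      rw [Real.volume_Ico]
      congr 1
      ring
    rw [Finset.sum_congr rfl this, Finset.sum_const, nsmul_eq_mul,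
      ENNReal.ofReal_mul (Nat.cast_nonneg _), ENNReal.ofReal_natCast]
  have h2 : ENNReal.ofReal ((M.card : ℝ) * r0) ≤ ENNReal.ofReal (r0 * h) := by
    rw [← h1, ← hU]
    exact (measure_mono hsub).trans hB
  rw [ENNReal.ofReal_le_ofReal_iff (mul_nonneg hr.le hh)] at h2
  have h3 : (M.card : ℝ) * r0 ≤ h * r0 := by linarith
  exact le_of_mul_le_mul_right h3 hr

theorem p_CELL :
    S_CELL := by
  classical
  intro Bad r0 X h hr hr1 hh hB
  set M : Finset ℤ := (Finset.Icc ⌊(X - 6 * h) / r0⌋ ⌊(X + 6 * h) / r0⌋).filter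
    (fun m : ℤ => |(m : ℝ) * r0 - X| ≤ 6 * h ∧ Ico ((m : ℝ) * r0) (((m : ℝ) + 1) * r0) ⊆ Bad)
    with hMdef
  refine ⟨M.image (fun m : ℤ => (m : ℝ) * r0), ?_, ?_, ?_⟩
  · have h1 : (M.card : ℝ) ≤ h :=
      cell_card Bad r0 h hr (by linarith) hB M (fun m hm => (Finset.mem_filter.1 hm).2.2)
    have h2 : ((M.image (fun m : ℤ => (m : ℝ) * r0)).card : ℝ) ≤ M.card := by
      exact_mod_cast Finset.card_image_le
    linarith
  · intro p hp
    obtain ⟨m, hm, rfl⟩ := Finset.mem_image.1 hp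
    exact (Finset.mem_filter.1 hm).2.1
  · intro x hx
    set m : ℤ := ⌊x / r0⌋ with hm
    have hx1 : (m : ℝ) * r0 ≤ x := by
      have := Int.floor_le (x / r0)
      rwa [le_div_iff₀ hr] at this
    have hx2 : x < ((m : ℝ) + 1) * r0 := by
      have := Int.lt_floor_add_one (x / r0)
      rwa [div_lt_iff₀ hr] at this
    have hxa := abs_le.1 hx
    by_cases hc : Ico ((m : ℝ) * r0) (((m : ℝ) + 1) * r0) ⊆ Bad
    · left
      refine ⟨(m : ℝ) * r0, Finset.mem_image.2 ⟨m, ?_, rfl⟩, ?_⟩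
      · refine Finset.mem_filter.2 ⟨Finset.mem_Icc.2 ⟨?_, ?_⟩, ?_, hc⟩
        · exact Int.floor_mono (div_le_div_of_nonneg_right (by linarith [hxa.1]) hr.le)
        · exact Int.floor_mono (div_le_div_of_nonneg_right (by linarith [hxa.2]) hr.le)
        · rw [abs_le]
          constructor <;> nlinarith [hxa.1, hxa.2]
      · rw [abs_le]
        constructor <;> nlinarith
    · right
      obtain ⟨R, hR, hRB⟩ := Set.not_subset.1 hc
      refine ⟨R, hRB, ?_⟩
      rw [abs_le]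
      constructor <;> nlinarith [hR.1, hR.2]

end Pool.Agent.P.MP_2fa38d_an.NA
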