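import Pool.Agent.P.MP_2fa38d_an.NA.Iface

/-! Step FTTY. -/

set_option autoImplicit false

namespace Pool.Agent.P.MP_2fa38d_an.NA

open Complex MeasureTheory Set Filter Topology Metric

lemma ftty_norm (z : ℂ) (t : ℝ) : ‖cexp (-(I * z * t))‖ = Real.exp (z.im * t) := by
  rw [Complex.norm_exp]
  congr 1
  simp

lemma ftty_le (τ : ℝ) (z : ℂ) (t : ℝ) (ht : |t| ≤ τ) :
    ‖cexp (-(I * z * t))‖ ≤ Real.exp (τ * |z.im|) := by
  rw [ftty_norm]
  apply Real.exp_le_exp.2
  calc z.im * t ≤ |z.im * t| := le_abs_self _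
    _ = |t| * |z.im| := by rw [abs_mul, mul_comm]
    _ ≤ τ * |z.im| := mul_le_mul_of_nonneg_right ht (abs_nonneg _)

lemma ftty_bd {τ : ℝ} {h : ℝ → ℂ} (hh : Cs τ h) (z : ℂ) (t : ℝ) :
    ‖h t * cexp (-(I * z * t))‖ ≤ ‖h t‖ * Real.exp (τ * |z.im|) := by
  rw [norm_mul]
  by_cases ht : τ < |t|
  · simp [hh.2 t ht]
  · exact mul_le_mul_of_nonneg_left (ftty_le τ z t (not_lt.1 ht)) (norm_nonneg _)

lemma ftty_meas {τ : ℝ} {h : ℝ → ℂ} (hh : Cs τ h) (z : ℂ) :
    AEStronglyMeasurable (fun t : ℝ => h t * cexp (-(I * z * t))) volume :=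
  hh.1.aestronglyMeasurable.mul (Continuous.aestronglyMeasurable (by fun_prop))

lemma ftty_int {τ : ℝ} {h : ℝ → ℂ} (hh : Cs τ h) (z : ℂ) :
    Integrable (fun t : ℝ => h t * cexp (-(I * z * t))) :=
  (hh.1.norm.mul_const _).mono' (ftty_meas hh z) (Eventually.of_forall (ftty_bd hh z))

theorem p_FTTY :
    S_FTTY := by
  intro τ h hh
  refine ⟨fun z0 => ?_, fun z => ?_⟩
  · have key := hasDerivAt_integral_of_dominated_loc_of_deriv_le (μ := volume)
      (F := fun (z : ℂ) (t : ℝ) => h t * cexp (-(I * z * t)))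
      (F' := fun (z : ℂ) (t : ℝ) => h t * (cexp (-(I * z * t)) * (-(I * t))))
      (x₀ := z0) (bound := fun t => ‖h t‖ * (Real.exp (|τ| * (‖z0‖ + 1)) * |τ|))
      (ball_mem_nhds z0 one_pos) (Eventually.of_forall fun z => ftty_meas hh z) (ftty_int hh z0)
      (hh.1.aestronglyMeasurable.mul (Continuous.aestronglyMeasurable (by fun_prop)))
      (Eventually.of_forall fun t z hz => by
        rw [norm_mul]
        by_cases ht : τ < |t|
        · simp [hh.2 t ht]
        · refine mul_le_mul_of_nonneg_left ?_ (norm_nonneg _)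
          have ht' : |t| ≤ |τ| := (not_lt.1 ht).trans (le_abs_self _)
          rw [norm_mul]
          refine mul_le_mul ((ftty_le |τ| z t ht').trans ?_) (by simpa using ht')
            (norm_nonneg _) (Real.exp_pos _).le
          apply Real.exp_le_exp.2
          refine mul_le_mul_of_nonneg_left ?_ (abs_nonneg _)
          have h1 : ‖z - z0‖ < 1 := by simpa [dist_eq_norm] using hz
          have h2 : ‖z‖ ≤ ‖z0‖ + ‖z - z0‖ := by
            simpa using norm_add_le z0 (z - z0)
          linarith [Complex.abs_im_le_norm z])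
      (hh.1.norm.mul_const _)
      (Eventually.of_forall fun t z _ => by
        have h1 : HasDerivAt (fun z : ℂ => -(I * z * t)) (-(I * t)) z := by
          simpa using (((hasDerivAt_id z).const_mul I).mul_const (t : ℂ)).fun_neg
        exact h1.cexp.const_mul (h t))
    exact key.2.differentiableAt
  · calc ‖ft h z‖ ≤ ∫ t : ℝ, ‖h t * cexp (-(I * z * t))‖ := norm_integral_le_integral_norm _
      _ ≤ ∫ t : ℝ, ‖h t‖ * Real.exp (τ * |z.im|) :=
        integral_mono (ftty_int hh z).norm (hh.1.norm.mul_const _) (ftty_bd hh z)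
      _ = _ := integral_mul_const _ _

end Pool.Agent.P.MP_2fa38d_an.NA
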