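import Pool.Agent.P.MP_2fa38d_an.NA.IfaceB

/-! Step LOC. -/

set_option autoImplicit false

namespace Pool.Agent.P.MP_2fa38d_an.NA

open Complex MeasureTheory Set Filter Topology Metric

theorem loc_shift {k s : ℝ → ℂ} (hk : Continuous k) (hs : Continuous s) {d : ℝ}
    (h : ∀ t, s (t + d) = -s t) (L c : ℝ) :
    2 * ∫ t in L..c, k t * s t = (∫ t in L..c, (k t - k (t + d)) * s t) +
      (∫ t in (c - d)..c, k (t + d) * s t) - ∫ t in (L - d)..L, k (t + d) * s t := by
  have g : Continuous fun t => k (t + d) * s t := by fun_prop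
  have e1 : ∫ t in (L - d)..(c - d), k (t + d) * s t = -∫ t in L..c, k t * s t := by
    have := intervalIntegral.integral_comp_add_right (a := L - d) (b := c - d)
      (fun t => k t * s t) d
    simp only [h, mul_neg, intervalIntegral.integral_neg, sub_add_cancel] at this
    rw [← this, neg_neg]
  have e2 := intervalIntegral.integral_add_adjacent_intervals
    (g.intervalIntegrable (μ := volume) (L - d) L) (g.intervalIntegrable L c)
  have e3 := intervalIntegral.integral_add_adjacent_intervals
    (g.intervalIntegrable (μ := volume) (L - d) (c - d)) (g.intervalIntegrable (c - d) c)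
  simp only [sub_mul]
  have g0 : Continuous fun t => k t * s t := hk.mul hs
  rw [intervalIntegral.integral_sub (g0.intervalIntegrable _ _) (g.intervalIntegrable _ _)]
  linear_combination e1 + e2 - e3

theorem loc_gen {K : ℝ × ℝ → ℂ} (hK : Continuous K) (A : ℝ) {L c : ℝ} (hL : L ≤ c) :
    TendstoUniformlyOn (fun (R x : ℝ) => ∫ t in L..c, K (x, t) * (Real.sin (R * (x - t)) : ℝ))
      (fun _ => 0) atTop (Icc (-A) A) := by
  refine Metric.tendstoUniformlyOn_iff.2 fun ε hε => ?_
  have hQ : IsCompact (Icc (-A) A ×ˢ Icc L (c + 1)) := isCompact_Icc.prod isCompact_Icc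
  obtain ⟨M, hM⟩ := hQ.exists_bound_of_continuousOn hK.continuousOn
  have h1 : 0 < c - L + 1 := by linarith
  obtain ⟨δ, hδ, hu⟩ := Metric.uniformContinuousOn_iff.1
    (hQ.uniformContinuousOn_of_continuous hK.continuousOn) (ε / (c - L + 1)) (by positivity)
  have hd : Tendsto (fun R : ℝ => Real.pi / R) atTop (𝓝 0) := tendsto_const_nhds.div_atTop tendsto_id
  have hm : Tendsto (fun R : ℝ => M * (Real.pi / R)) atTop (𝓝 0) := by simpa using hd.const_mul M
  filter_upwards [hd.eventually (gt_mem_nhds hδ), hd.eventually (gt_mem_nhds one_pos),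
    hm.eventually (gt_mem_nhds (half_pos hε)), eventually_gt_atTop 0] with R d1 d2 d3 hR x hx
  have d0 : 0 < Real.pi / R := div_pos Real.pi_pos hR
  have hs : ∀ t, ‖((Real.sin (R * (x - t)) : ℝ) : ℂ)‖ ≤ 1 := fun t => by
    rw [Complex.norm_real]; exact Real.abs_sin_le_one _
  have e := loc_shift (k := fun t => K (x, t)) (s := fun t => ((Real.sin (R * (x - t)) : ℝ) : ℂ))
    (by fun_prop) (by fun_prop) (d := Real.pi / R) (fun t => by
      rw [show R * (x - (t + Real.pi / R)) = R * (x - t) - Real.pi by field_simp; ring,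
        Real.sin_sub_pi, ofReal_neg]) L c
  generalize Real.pi / R = d at *
  have b : ∀ a, L ≤ a → a ≤ c → ‖∫ t in (a - d)..a, K (x, t + d) *
      ((Real.sin (R * (x - t)) : ℝ) : ℂ)‖ ≤ M * d := fun a a1 a2 => by
    refine (intervalIntegral.norm_integral_le_of_norm_le_const (C := M) fun t ht => ?_).trans_eq
      (by rw [sub_sub_cancel, abs_of_pos d0])
    rw [uIoc_of_le (by linarith)] at ht
    exact (norm_mul_le _ _).trans ((mul_le_of_le_one_right (norm_nonneg _) (hs t)).trans
      (hM _ ⟨hx, by linarith [ht.1], by linarith [ht.2]⟩))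
  have a : ‖∫ t in L..c, (K (x, t) - K (x, t + d)) * ((Real.sin (R * (x - t)) : ℝ) : ℂ)‖ ≤
      ε / (c - L + 1) * |c - L| := by
    refine intervalIntegral.norm_integral_le_of_norm_le_const fun t ht => ?_
    rw [uIoc_of_le hL] at ht
    refine (norm_mul_le _ _).trans ((mul_le_of_le_one_right (norm_nonneg _) (hs t)).trans ?_)
    rw [← dist_eq_norm]
    refine (hu (x, t) ⟨hx, ht.1.le, by linarith [ht.2]⟩ (x, t + d)
      ⟨hx, by linarith [ht.1], by linarith [ht.2]⟩ ?_).le
    simpa [Prod.dist_eq, abs_of_pos d0, hδ] using d1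
  have a' : ε / (c - L + 1) * |c - L| ≤ ε := by
    rw [abs_of_nonneg (by linarith), div_mul_eq_mul_div, div_le_iff₀ h1]; nlinarith
  have n := congrArg norm e
  rw [norm_mul, Complex.norm_two] at n
  have := (norm_sub_le _ _).trans (add_le_add ((norm_add_le _ _).trans
    (add_le_add a (b c hL le_rfl))) (b L le_rfl hL))
  rw [dist_zero_left]
  linarith

theorem p_LOC :
    S_LOC := by
  intro f A L c hf hA hc
  have hπ := Real.pi_pos
  constructor
  · refine (loc_gen (K := fun p => f p.2 * ((Real.pi * min (p.1 - p.2) (A - L))⁻¹ : ℝ)) ?_ A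
      hc).congr (Eventually.of_forall fun R x hx => intervalIntegral.integral_congr fun t ht => ?_)
    · refine (hf.comp continuous_snd).mul (continuous_ofReal.comp (Continuous.inv₀ (by fun_prop)
        fun p => mul_ne_zero hπ.ne' ((min_le_right _ _).trans_lt (by linarith)).ne))
    · rw [uIcc_of_le hc] at ht
      simp only [dk]
      rw [min_eq_left (by linarith [hx.2, ht.1]), div_eq_inv_mul, ofReal_mul (_⁻¹), mul_assoc]
  · refine (loc_gen (K := fun p => f p.2 * ((Real.pi * max (p.1 - p.2) (L - A))⁻¹ : ℝ)) ?_ A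
      (neg_le_neg hc)).congr
        (Eventually.of_forall fun R x hx => intervalIntegral.integral_congr fun t ht => ?_)
    · refine (hf.comp continuous_snd).mul (continuous_ofReal.comp (Continuous.inv₀ (by fun_prop)
        fun p => mul_ne_zero hπ.ne' (lt_of_lt_of_le (by linarith) (le_max_right _ _)).ne'))
    · rw [uIcc_of_le (neg_le_neg hc)] at ht
      simp only [dk]
      rw [max_eq_left (by linarith [hx.1, ht.2]), div_eq_inv_mul, ofReal_mul (_⁻¹), mul_assoc]

end Pool.Agent.P.MP_2fa38d_an.NA
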