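import Pool.Agent.P.MP_2fa38d_an.NA.IfaceB

/-! Step NBD. -/

set_option autoImplicit false

namespace Pool.Agent.P.MP_2fa38d_an.NA

open Complex MeasureTheory Set Filter Topology Metric

theorem nbd_norm (z : ℂ) (t : ℝ) : ‖cexp (-(I * z * t))‖ = Real.exp (z.im * t) := by
  rw [Complex.norm_exp]
  congr 1
  simp

theorem nbd_int (g : ℝ → ℂ) (s b : ℝ) (hg : Integrable g) (h0 : ∀ t, b < |t - s| → g t = 0)
    (z : ℂ) : Integrable (fun t : ℝ => g t * cexp (-(I * z * t))) := by
  have hc : Continuous (fun t : ℝ => cexp (-(I * z * t))) := by fun_prop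
  refine Integrable.mono' (hg.norm.mul_const (Real.exp (s * z.im + b * |z.im|)))
    (hg.aestronglyMeasurable.mul hc.aestronglyMeasurable) (Eventually.of_forall fun t => ?_)
  rw [norm_mul, nbd_norm]
  by_cases ht : b < |t - s|
  · simp [h0 t ht]
  · push Not at ht
    refine mul_le_mul_of_nonneg_left (Real.exp_le_exp.2 ?_) (norm_nonneg _)
    have h1 : z.im * (t - s) ≤ |z.im| * |t - s| := by
      rw [← abs_mul]; exact le_abs_self _
    have h2 : |z.im| * |t - s| ≤ |z.im| * b := mul_le_mul_of_nonneg_left ht (abs_nonneg _)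
    nlinarith

theorem nbd_bd (k v : ℝ → ℂ) (s b q η : ℝ) (hb : 0 ≤ b) (hη : 0 < η)
    (h0 : ∀ t, b < |t - s| → k t = 0) (hkv : ∀ t, ‖k t‖ ≤ ‖v t‖) (hv : MemLp v 2)
    (hq : (∫ t, ‖v t‖ ^ 2) ≤ q) (z : ℂ) :
    ‖ft k z‖ ≤ (η * (2 * b) + q / η) / 2 * Real.exp (s * z.im + b * |z.im|) := by
  set E := Real.exp (s * z.im + b * |z.im|) with hE
  have hE0 : 0 < E := Real.exp_pos _
  have hv2 : Integrable (fun t => ‖v t‖ ^ 2) := (memLp_two_iff_integrable_sq_norm hv.1).1 hv
  have hi1 : Integrable (indicator (Icc (s - b) (s + b)) (fun _ : ℝ => η)) :=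
    (integrable_indicator_iff measurableSet_Icc).2
      (continuous_const.continuousOn.integrableOn_compact isCompact_Icc)
  have hint : Integrable (fun t =>
      (indicator (Icc (s - b) (s + b)) (fun _ : ℝ => η) t + ‖v t‖ ^ 2 / η) / 2 * E) :=
    ((hi1.add (hv2.div_const η)).div_const 2).mul_const E
  have hle : ‖ft k z‖ ≤ ∫ t,
      (indicator (Icc (s - b) (s + b)) (fun _ : ℝ => η) t + ‖v t‖ ^ 2 / η) / 2 * E := by
    refine norm_integral_le_of_norm_le hint (Eventually.of_forall fun t => ?_)
    rw [norm_mul, nbd_norm]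
    by_cases ht : b < |t - s|
    · rw [h0 t ht, norm_zero, zero_mul]
      have : 0 ≤ indicator (Icc (s - b) (s + b)) (fun _ : ℝ => η) t :=
        indicator_nonneg (fun _ _ => hη.le) t
      positivity
    · push Not at ht
      have hm : t ∈ Icc (s - b) (s + b) := by
        have := abs_le.1 ht
        constructor <;> linarith [this.1, this.2]
      rw [indicator_of_mem hm]
      have h1 : z.im * (t - s) ≤ |z.im| * |t - s| := by
        rw [← abs_mul]; exact le_abs_self _
      have h2 : |z.im| * |t - s| ≤ |z.im| * b := mul_le_mul_of_nonneg_left ht (abs_nonneg _)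
      have h3 : Real.exp (z.im * t) ≤ E := Real.exp_le_exp.2 (by nlinarith)
      have h4 : ‖v t‖ ≤ (η + ‖v t‖ ^ 2 / η) / 2 := by
        have h5 : (η + ‖v t‖ ^ 2 / η) / 2 - ‖v t‖ = (η - ‖v t‖) ^ 2 / (2 * η) := by
          field_simp
          ring
        have h6 : 0 ≤ (η - ‖v t‖) ^ 2 / (2 * η) := by positivity
        linarith
      exact mul_le_mul ((hkv t).trans h4) h3 (Real.exp_pos _).le (by positivity)
  refine hle.trans ?_
  rw [integral_mul_const, integral_div, integral_add hi1 (hv2.div_const η), integral_div,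
    integral_indicator measurableSet_Icc, setIntegral_const]
  have hvol : volume.real (Icc (s - b) (s + b)) = 2 * b := by
    rw [Real.volume_real_Icc_of_le (by linarith)]; ring
  rw [hvol, smul_eq_mul]
  refine mul_le_mul_of_nonneg_right ?_ hE0.le
  have : (∫ t, ‖v t‖ ^ 2) / η ≤ q / η := div_le_div_of_nonneg_right hq hη.le
  linarith

theorem nbd_shift (g : ℝ → ℂ) (d : ℝ) (z : ℂ) :
    (∫ t : ℝ, g (t - d) * cexp (-(I * z * t))) = cexp (-(I * z * d)) * ft g z := by
  unfold ft
  rw [← integral_const_mul,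
    ← integral_add_right_eq_self (fun t : ℝ => g (t - d) * cexp (-(I * z * t))) d]
  refine integral_congr_ae (Eventually.of_forall fun t => ?_)
  simp only [add_sub_cancel_right]
  rw [mul_left_comm, ← Complex.exp_add]
  congr 2
  push_cast
  ring

theorem p_NBD (hNREP : S_NREP) (hMULT : S_MULT) :
    S_NBD := by
  intro f s B ε hf hB hε
  set w : ℝ → ℂ := indicator (Icc s (s + 2 * B + 2)) f with hw
  have hwi : Integrable w := (integrable_indicator_iff measurableSet_Icc).2
    (hf.continuousOn.integrableOn_compact isCompact_Icc)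
  have hwc : Cs (|s| + 2 * B + 2) w := by
    refine ⟨hwi, fun t ht => ?_⟩
    apply indicator_of_notMem
    intro hm
    have h1 := le_abs_self s
    have h2 := neg_abs_le s
    have : |t| ≤ |s| + 2 * B + 2 := abs_le.2 ⟨by linarith [hm.1], by linarith [hm.2]⟩
    linarith
  obtain ⟨M, hM⟩ := isCompact_Icc.exists_bound_of_continuousOn
    (hf.continuousOn (s := Icc s (s + 2 * B + 2)))
  have hwb : ∀ t, ‖w t‖ ≤ max M 0 := by
    intro t
    by_cases hm : t ∈ Icc s (s + 2 * B + 2)
    · rw [hw, indicator_of_mem hm]; exact (hM t hm).trans (le_max_left _ _)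
    · rw [hw, indicator_of_notMem hm, norm_zero]; exact le_max_right _ _
  have hl : 0 < 2 * (B + 1) := by linarith
  obtain ⟨d0, C, hd0, H⟩ := hMULT (|s| + 2 * B + 2) (max M 0) (ε ^ 2 / (2 * (B + 1))) w hwc hwb
    (by positivity)
  have hm0 : 0 < min d0 1 := lt_min hd0 one_pos
  refine ⟨Real.pi / min d0 1, (1 * (2 * (B + 1)) + C / 1) / 2, fun ν hν hν1 hA z => ?_⟩
  obtain ⟨hL, hC, hd⟩ := H B ν hν hν1
  obtain ⟨g, hgi, hg0, hgv, hN⟩ := hNREP B s ν f hB hν hf hA
  rw [hN z]
  have hg1 : ∀ t, B + 1 < |t - s| → g t = 0 := fun t ht => hg0 t (by linarith)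
  constructor
  · refine nbd_bd g (cv ν w) s (B + 1) C 1 (by linarith) one_pos hg1 (fun t => ?_) hL hC z
    by_cases ht : t ≤ s + B + 2
    · rw [hgv t ht]
    · rw [hg0 t (by push Not at ht; exact lt_of_lt_of_le (by linarith) (le_abs_self _)), norm_zero]
      exact norm_nonneg _
  · intro hY
    have hY0 : 0 < Real.pi / min d0 1 := div_pos Real.pi_pos hm0
    have hx : 0 < |z.re| := lt_of_lt_of_le hY0 hY
    have hx0 : z.re ≠ 0 := abs_pos.1 hx
    set d : ℝ := Real.pi / z.re with hdd
    have hdm : |d| ≤ min d0 1 := by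
      rw [hdd, abs_div, abs_of_pos Real.pi_pos, div_le_iff₀ hx]
      rw [div_le_iff₀ hm0] at hY
      linarith
    have hd1 : |d| ≤ 1 := hdm.trans (min_le_right _ _)
    have hd2 := abs_le.1 hd1
    have hgs0 : ∀ t, B + 1 < |t - s| → g (t - d) = 0 := by
      intro t ht
      apply hg0
      have h1 : |t - s| ≤ |t - d - s| + |d| := by
        have := abs_add_le (t - d - s) d
        rwa [show t - d - s + d = t - s by ring] at this
      linarith
    have hk0 : ∀ t, B + 1 < |t - s| → g t - g (t - d) = 0 := by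
      intro t ht
      rw [hg1 t ht, hgs0 t ht, sub_zero]
    have hLs : MemLp (fun t => cv ν w (t - d)) 2 :=
      hL.comp_measurePreserving (measurePreserving_sub_right volume d)
    have hb := nbd_bd (fun t => g t - g (t - d)) (fun t => cv ν w t - cv ν w (t - d)) s (B + 1)
      (ε ^ 2 / (2 * (B + 1))) (ε / (2 * (B + 1))) (by linarith) (by positivity) hk0
      (fun t => by
        by_cases ht : t ≤ s + B + 1
        · rw [hgv t (by linarith), hgv (t - d) (by linarith [hd2.1])]
        · rw [hk0 t (by push Not at ht; exact lt_of_lt_of_le (by linarith) (le_abs_self _)),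
            norm_zero]
          exact norm_nonneg _)
      (hL.sub hLs) (hd d (hdm.trans (min_le_left _ _))) z
    have hc : (ε / (2 * (B + 1)) * (2 * (B + 1)) +
        ε ^ 2 / (2 * (B + 1)) / (ε / (2 * (B + 1)))) / 2 = ε := by
      field_simp
      ring
    rw [hc] at hb
    refine le_trans ?_ hb
    have hft : ft (fun t => g t - g (t - d)) z = (1 - cexp (-(I * z * d))) * ft g z := by
      rw [sub_mul, one_mul, ← nbd_shift]
      unfold ft
      rw [← integral_sub (nbd_int g s (B + 1) hgi hg1 z)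
        (nbd_int (fun t => g (t - d)) s (B + 1) (hgi.comp_sub_right d) hgs0 z)]
      refine integral_congr_ae (Eventually.of_forall fun t => ?_)
      simp only
      ring
    have hexp : cexp (-(I * z * d)) = -((Real.exp (z.im * d) : ℝ) : ℂ) := by
      have h1 : -(I * z * d) = ((z.im * d : ℝ) : ℂ) + -(Real.pi * I) := by
        have h2 : z.re * d = Real.pi := by rw [hdd]; field_simp
        apply Complex.ext
        · simp
        · simp [h2]
      rw [h1, Complex.exp_add, Complex.exp_neg, Complex.exp_pi_mul_I, Complex.ofReal_exp]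
      simp
    rw [hft, hexp, norm_mul, sub_neg_eq_add]
    have h1 : (1 : ℝ) ≤ ‖(1 : ℂ) + ((Real.exp (z.im * d) : ℝ) : ℂ)‖ := by
      rw [← Complex.ofReal_one, ← Complex.ofReal_add, Complex.norm_real, Real.norm_eq_abs,
        abs_of_pos (by positivity)]
      linarith [Real.exp_pos (z.im * d)]
    nlinarith [norm_nonneg (ft g z)]

end Pool.Agent.P.MP_2fa38d_an.NA
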