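import Pool.Agent.P.MP_2fa38d_an.NA.Iface

/-! Step RAD. -/

set_option autoImplicit false

namespace Pool.Agent.P.MP_2fa38d_an.NA

open Complex MeasureTheory Set Filter Topology Metric

theorem p_RAD :
    S_RAD := by
  intro Gd h
  have hb : ∀ Y : ℝ, BddBelow {R : ℝ | Y ≤ R ∧ Gd R} := fun Y => ⟨Y, fun R hR => hR.1⟩
  have hx : ∀ Y : ℝ, ∃ R : ℝ, (Y ≤ R ∧ Gd R) ∧ R < sInf {R : ℝ | Y ≤ R ∧ Gd R} + 1 := fun Y => by
    obtain ⟨Y0, h0⟩ := h 1 one_pos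
    obtain ⟨R, h1, -, h3⟩ := h0 (max Y Y0) (le_max_right _ _)
    exact exists_lt_of_csInf_lt (s := {R : ℝ | Y ≤ R ∧ Gd R}) ⟨R, (le_max_left _ _).trans h1, h3⟩
      (lt_add_one _)
  choose nx h1 h2 using hx
  obtain ⟨R, r0, r1⟩ : ∃ R : ℕ → ℝ, R 0 = nx 4 ∧ ∀ k, R (k + 1) = nx (R k + 1) :=
    ⟨fun k => Nat.rec (nx 4) (fun _ x => nx (x + 1)) k, rfl, fun _ => rfl⟩
  have a0 : 4 ≤ R 0 := r0 ▸ (h1 4).1
  have a1 : ∀ k, R k + 1 ≤ R (k + 1) := fun k => r1 k ▸ (h1 _).1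
  have a2 : ∀ k : ℕ, (k : ℝ) + 4 ≤ R k := fun k => by
    induction k with
    | zero => simpa using a0
    | succ k ih => push_cast; linarith [a1 k]
  have a3 : Tendsto R atTop atTop :=
    tendsto_atTop_mono a2 (tendsto_atTop_add_const_right _ _ tendsto_natCast_atTop_atTop)
  have a4 : ∀ k, 0 < R k := fun k => by linarith [a2 k, Nat.cast_nonneg (α := ℝ) k]
  refine ⟨R, ⟨a0, a1, tendsto_order.2 ⟨fun a ha => Eventually.of_forall fun k => ?_,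
    fun a ha => ?_⟩⟩, fun k => ?_⟩
  · exact ha.trans_le ((one_le_div (a4 k)).2 (by linarith [a1 k]))
  · have hη : 0 < (a - 1) / 2 := by linarith
    obtain ⟨Y0, h0⟩ := h _ hη
    filter_upwards [a3.eventually_ge_atTop Y0,
      a3.eventually_ge_atTop ((2 + (a - 1) / 2) / ((a - 1) / 2))] with k k1 k2
    obtain ⟨S, s1, s2, s3⟩ := h0 (R k + 1) (by linarith)
    have s4 := csInf_le (hb (R k + 1)) (show S ∈ {S : ℝ | R k + 1 ≤ S ∧ Gd S} from ⟨s1, s3⟩)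
    have s5 := h2 (R k + 1)
    rw [div_le_iff₀ hη] at k2
    rw [div_lt_iff₀ (a4 k), r1]
    nlinarith
  · cases k with
    | zero => exact r0 ▸ (h1 4).2
    | succ k => exact r1 k ▸ (h1 _).2

end Pool.Agent.P.MP_2fa38d_an.NA
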